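import Pool.Agent.Run7.h905.BS.Gen

/-!
# The curves `t = a(x)`
-/

open Polynomial WithZero IsDedekindDomain
open scoped Classical

set_option autoImplicit false
set_option linter.all false

namespace Run7.h905.BS

section spec

variable {k : Type} [Field k] {a : k[X]}

/-- The polynomial `a(x) - t`. -/
noncomputable def fa (a : k[X]) : k[X][X] := a.map C - C X

theorem fa_monic (ha : a.Monic) (hd : 0 < a.natDegree) : (fa a).Monic := by
  unfold fa
  apply (ha.map _).sub_of_left
  rw [degree_map_eq_of_injective C_injective]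
  refine lt_of_le_of_lt degree_C_le ?_
  exact natDegree_pos_iff_degree_pos.1 hd

theorem fa_deg (hd : 0 < a.natDegree) : (fa a).natDegree = a.natDegree := by
  unfold fa
  rw [natDegree_sub_eq_left_of_natDegree_lt, natDegree_map_eq_of_injective C_injective]
  rw [natDegree_map_eq_of_injective C_injective, natDegree_C]
  exact hd

theorem fa_coeff (i : ℕ) : (fa a).coeff i = C (a.coeff i) - if i = 0 then X else 0 := by
  unfold fa
  rw [coeff_sub, coeff_map, coeff_C]

theorem fa_smooth (ha : a.Monic) (hd : 0 < a.natDegree) :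
    Ideal.span {fa a, derivative (fa a), (fa a).sum fun i a => C (derivative a) * X ^ i} = ⊤ := by
  have h1 : ((fa a).sum fun i a => C (derivative a) * X ^ i) = -1 := by
    rw [sum_over_range (fa a) (fun n => by simp), Finset.sum_eq_single 0]
    · rw [fa_coeff, if_pos rfl, derivative_sub, derivative_C, derivative_X]
      simp
    · intro i _ hi
      rw [fa_coeff, if_neg hi, sub_zero, derivative_C]
      simp
    · intro h0
      exact absurd (Finset.mem_range.2 (Nat.succ_pos _)) h0
  rw [h1, Ideal.eq_top_iff_one]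
  have h2 : (-1 : k[X][X]) ∈ Ideal.span {fa a, derivative (fa a), (-1 : k[X][X])} :=
    Ideal.subset_span (Or.inr (Or.inr rfl))
  have := neg_mem h2
  rwa [neg_neg] at this

/-- `s ↦ (a(s), s)`. -/
noncomputable def toS (a : k[X]) : AdjoinRoot (fa a) →+* k[X] :=
  AdjoinRoot.lift (compRingHom a) X (by
    unfold fa
    rw [eval₂_sub, eval₂_map, eval₂_C]
    have h1 : (compRingHom a).comp C = (C : k →+* k[X]) := by
      ext c
      simp
    rw [h1, eval₂_C_X]
    simp)

noncomputable def ofS (a : k[X]) : k[X] →+* AdjoinRoot (fa a) :=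
  eval₂RingHom ((AdjoinRoot.of (fa a)).comp C) (AdjoinRoot.root (fa a))

theorem toS_root : toS a (AdjoinRoot.root (fa a)) = X := by
  unfold toS
  rw [AdjoinRoot.lift_root]

theorem toS_of (g : k[X]) : toS a (AdjoinRoot.of (fa a) g) = g.comp a := by
  unfold toS
  rw [AdjoinRoot.lift_of]
  rfl

theorem ofS_a : ofS a a = AdjoinRoot.of (fa a) X := by
  have h1 : AdjoinRoot.mk (fa a) (fa a) = 0 := AdjoinRoot.mk_self
  rw [← AdjoinRoot.aeval_eq] at h1
  conv at h1 =>
    lhs
    arg 2
    unfold fa
  rw [map_sub, aeval_C, sub_eq_zero] at h1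
  rw [show AdjoinRoot.of (fa a) X = algebraMap k[X] (AdjoinRoot (fa a)) X from rfl, ← h1]
  unfold ofS
  rw [coe_eval₂RingHom, aeval_def, eval₂_map]
  rfl

theorem toS_ofS (g : k[X]) : toS a (ofS a g) = g := by
  have : (toS a).comp (ofS a) = RingHom.id _ := by
    apply ringHom_ext
    · intro c
      show toS a (ofS a (C c)) = C c
      unfold ofS
      rw [coe_eval₂RingHom, eval₂_C, RingHom.comp_apply, toS_of, C_comp]
    · show toS a (ofS a X) = X
      unfold ofS
      rw [coe_eval₂RingHom, eval₂_X, toS_root]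
  exact congrArg (fun φ : k[X] →+* k[X] => φ g) this

theorem ofS_toS (g : AdjoinRoot (fa a)) : ofS a (toS a g) = g := by
  have h1 : ((ofS a).comp (toS a)).comp (AdjoinRoot.mk (fa a)) = AdjoinRoot.mk (fa a) := by
    apply ringHom_ext
    · intro g
      have h2 : ((ofS a).comp (toS a)).comp (AdjoinRoot.of (fa a)) = AdjoinRoot.of (fa a) := by
        apply ringHom_ext
        · intro c
          show ofS a (toS a (AdjoinRoot.of (fa a) (C c))) = _
          rw [toS_of, C_comp]
          unfold ofS
          rw [coe_eval₂RingHom, eval₂_C]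
          rfl
        · show ofS a (toS a (AdjoinRoot.of (fa a) X)) = _
          rw [toS_of, X_comp, ofS_a]
      exact congrArg (fun φ : k[X] →+* AdjoinRoot (fa a) => φ g) h2
    · show ofS a (toS a (AdjoinRoot.root (fa a))) = _
      rw [toS_root]
      unfold ofS
      rw [coe_eval₂RingHom, eval₂_X]
      rfl
  obtain ⟨p, rfl⟩ := AdjoinRoot.mk_surjective g
  exact congrArg (fun φ : k[X][X] →+* AdjoinRoot (fa a) => φ p) h1

/-- The coordinate ring is the polynomial ring in `x`. -/
noncomputable def eS (a : k[X]) : AdjoinRoot (fa a) ≃+* k[X] :=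
  RingEquiv.ofRingHom (toS a) (ofS a) (RingHom.ext toS_ofS) (RingHom.ext ofS_toS)

theorem fa_good (ha : a.Monic) (ho : Odd a.natDegree) : GoodCurve (fa a) := by
  have hd := ho.pos
  haveI : IsDomain (AdjoinRoot (fa a)) := (eS a).toMulEquiv.isDomain _
  haveI : IsPrincipalIdealRing (AdjoinRoot (fa a)) :=
    IsPrincipalIdealRing.of_surjective (eS a).symm.toRingHom (eS a).symm.surjective
  refine ⟨fa_monic ha hd, by rw [fa_deg hd]; exact ho, fa_smooth ha hd, inferInstance,
    fun I _ => IsPrincipalIdealRing.principal I, ?_⟩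
  intro v hv
  have h1 : IsUnit (toS a v) := hv.map _
  obtain ⟨c, hc, hcv⟩ := Polynomial.isUnit_iff.1 h1
  refine ⟨c, ?_⟩
  rw [← ofS_toS v, ← hcv]
  unfold ofS
  rw [coe_eval₂RingHom, eval₂_C]
  rfl

end spec

end Run7.h905.BS
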