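import Pool.Agent.Run7.h905.BS.ExK
import Pool.Agent.Run7.h905.BS.Spec

/-!
# The factorisation for the examples
-/

open Polynomial
open scoped Classical

set_option autoImplicit false
set_option linter.all false

namespace Run7.h905.BS

section exf

variable {p r d s : ℕ} [hp : Fact p.Prime] {k : Type} [Field k] [Finite k] [CharP k p]
  {l w η ζ δ ρ : k}

variable (p) in
/-- `x ^ (p N) - l x ^ N - δ`. -/
noncomputable def aP (l δ : k) (N : ℕ) : k[X] := (asP p l δ).comp (X ^ N)

omit [Finite k] [CharP k p] in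
theorem aP_eq (l δ : k) (N : ℕ) : aP p l δ N = X ^ (p * N) - C l * X ^ N - C δ := by
  unfold aP asP
  simp only [sub_comp, pow_comp, X_comp, mul_comp, C_comp]
  rw [← pow_mul, mul_comm N p]

omit [Finite k] [CharP k p] in
theorem aP_monic (l δ : k) {N : ℕ} (hN : N ≠ 0) : (aP p l δ N).Monic := by
  unfold aP
  exact (asP_monic l δ).comp (monic_X_pow N) (by rw [natDegree_X_pow]; exact hN)

omit [Finite k] [CharP k p] in
theorem aP_deg (l δ : k) (N : ℕ) : (aP p l δ N).natDegree = p * N := by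
  unfold aP
  rw [natDegree_comp, asP_deg, natDegree_X_pow]

/-- `x ^ N - t`. -/
noncomputable def wP (k : Type) [Field k] (N : ℕ) : k[X][X] := X ^ N - C X

/-- The factors. -/
noncomputable def hP (r d N : ℕ) (ζ η : k) : Fin (r + 1) → k[X][X] :=
  Fin.cons (wP k N) fun j : Fin r => wP k N ^ d - C (C (ζ ^ (j : ℕ) * η))

omit hp [Finite k] [CharP k p] in
theorem wP_monic {N : ℕ} (hN : N ≠ 0) : (wP k N).Monic := monic_X_pow_sub_C _ hN

omit hp [Finite k] [CharP k p] in
theorem wP_deg (N : ℕ) : (wP k N).natDegree = N := natDegree_X_pow_sub_C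

omit hp [Finite k] [CharP k p] in
theorem wPd_monic {N : ℕ} (hN : N ≠ 0) (hd : 0 < d) (c : k) : (wP k N ^ d - C (C c)).Monic := by
  apply ((wP_monic hN).pow d).sub_of_left
  refine lt_of_le_of_lt degree_C_le ?_
  rw [← natDegree_pos_iff_degree_pos, natDegree_pow, wP_deg]
  exact Nat.mul_pos hd (Nat.pos_of_ne_zero hN)

theorem Dat.prod (h : Dat p r d s k l w η ζ δ ρ) (N : ℕ) :
    ∏ j, hP r d N ζ η j = wP k N ^ p - C (C l) * wP k N := by
  rw [Fin.prod_univ_succ]
  unfold hP
  simp only [Fin.cons_zero, Fin.cons_succ]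
  have h1 := congrArg (eval₂ (C.comp C : k →+* k[X][X]) (wP k N ^ d))
    (X_pow_sub_C_eq_prod h.zeta h.rpos h.eta)
  rw [eval₂_finset_prod] at h1
  simp only [eval₂_sub, eval₂_X_pow, eval₂_C, eval₂_X, RingHom.comp_apply] at h1
  rw [Fin.prod_univ_eq_prod_range (fun j => wP k N ^ d - C (C (ζ ^ j * η))) r, ← h1, ← pow_mul,
    h.dr, mul_sub, ← pow_succ']
  have h2 : p - 1 + 1 = p := by
    have := hp.out.one_le
    omega
  rw [h2]
  ring

/-- **The factorisation.** -/
theorem Dat.fac (h : Dat p r d s k l w η ζ δ ρ) (i : ℕ) :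
    FacQ (fa (aP p l δ (s ^ i))) (asP p (l + 1) δ) (hP r d (s ^ i) ζ η) 1 := by
  haveI hi : Fact (Irreducible (asP p (l + 1) δ)) := ⟨h.irr⟩
  have hN : s ^ i ≠ 0 := pow_ne_zero _ h.sp.ne_zero
  have hpN : 0 < p * s ^ i := Nat.mul_pos hp.out.pos (Nat.pos_of_ne_zero hN)
  have hw : (wP k (s ^ i)).map (AdjoinRoot.mk (asP p (l + 1) δ)) =
      X ^ (s ^ i) - C (tau p (l + 1) δ) := by
    unfold wP
    rw [Polynomial.map_sub, Polynomial.map_pow, map_X, map_C, AdjoinRoot.mk_X]
  have hj : ∀ c : k, (wP k (s ^ i) ^ d - C (C c)).map (AdjoinRoot.mk (asP p (l + 1) δ)) =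
      (X ^ (s ^ i) - C (tau p (l + 1) δ)) ^ d - C (algebraMap k (RF p (l + 1) δ) c) := by
    intro c
    rw [Polynomial.map_sub, Polynomial.map_pow, hw, map_C, AdjoinRoot.mk_C]
    rfl
  have hr : ∀ j : ℕ, (ζ ^ j * η) ^ r = l := by
    intro j
    rw [mul_pow, h.eta, ← pow_mul, mul_comm j r, pow_mul, h.zeta.pow_eq_one, one_pow, one_mul]
  have hirr0 := h.irr0 i
  refine ⟨?_, ?_, ?_, ?_, ?_⟩
  · intro j
    refine Fin.cases ?_ (fun j => ?_) j
    · show (wP k (s ^ i)).Monic
      exact wP_monic hN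
    · show (wP k (s ^ i) ^ d - C (C (ζ ^ (j : ℕ) * η))).Monic
      exact wPd_monic hN h.dpos _
  · intro j
    refine Fin.cases ?_ (fun j => ?_) j
    · show Irreducible ((wP k (s ^ i)).map (AdjoinRoot.mk (asP p (l + 1) δ)))
      rw [hw]
      exact hirr0
    · show Irreducible ((wP k (s ^ i) ^ d - C (C (ζ ^ (j : ℕ) * η))).map
        (AdjoinRoot.mk (asP p (l + 1) δ)))
      rw [hj]
      exact h.irr1 (hr j) (fun y => h.nz j y) i
  · have hne : ∀ c : k, c ≠ 0 → X ^ (s ^ i) - C (tau p (l + 1) δ) ≠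
        (X ^ (s ^ i) - C (tau p (l + 1) δ)) ^ d - C (algebraMap k (RF p (l + 1) δ) c) := by
      intro c hc he
      apply hirr0.not_isUnit
      obtain ⟨e, rfl⟩ : ∃ e, d = e + 1 := ⟨d - 1, by have := h.dpos; omega⟩
      have h1 : (X ^ (s ^ i) - C (tau p (l + 1) δ)) *
          ((X ^ (s ^ i) - C (tau p (l + 1) δ)) ^ e - 1) =
          C (algebraMap k (RF p (l + 1) δ) c) := by
        linear_combination -he
      have h2 : IsUnit (C (algebraMap k (RF p (l + 1) δ) c) : (RF p (l + 1) δ)[X]) := by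
        rw [isUnit_C]
        exact ((isUnit_iff_ne_zero.2 hc).map _)
      rw [← h1] at h2
      exact isUnit_of_mul_isUnit_left h2
    have hc0 : ∀ j : ℕ, ζ ^ j * η ≠ 0 := fun j => h.c_ne (hr j)
    intro a b hab
    simp only at hab
    revert hab
    refine Fin.cases ?_ (fun a => ?_) a
    · refine Fin.cases ?_ (fun b => ?_) b
      · exact fun _ => rfl
      · intro hab
        exfalso
        have h1 : (wP k (s ^ i)).map (AdjoinRoot.mk (asP p (l + 1) δ)) =
          (wP k (s ^ i) ^ d - C (C (ζ ^ (b : ℕ) * η))).map (AdjoinRoot.mk (asP p (l + 1) δ)) :=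
          hab
        rw [hw, hj] at h1
        exact hne _ (hc0 _) h1
    · refine Fin.cases ?_ (fun b => ?_) b
      · intro hab
        exfalso
        have h1 : (wP k (s ^ i) ^ d - C (C (ζ ^ (a : ℕ) * η))).map
          (AdjoinRoot.mk (asP p (l + 1) δ)) = (wP k (s ^ i)).map (AdjoinRoot.mk (asP p (l + 1) δ)) :=
          hab
        rw [hw, hj] at h1
        exact hne _ (hc0 _) h1.symm
      · intro hab
        have h1 : (wP k (s ^ i) ^ d - C (C (ζ ^ (a : ℕ) * η))).map
          (AdjoinRoot.mk (asP p (l + 1) δ)) =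
          (wP k (s ^ i) ^ d - C (C (ζ ^ (b : ℕ) * η))).map (AdjoinRoot.mk (asP p (l + 1) δ)) :=
          hab
        rw [hj, hj] at h1
        have h2 := C_injective (sub_right_injective h1)
        have h3 := (algebraMap k (RF p (l + 1) δ)).injective h2
        have hη0 : η ≠ 0 := by
          rintro rfl
          exact hc0 0 (by rw [mul_zero])
        have h4 := mul_right_cancel₀ hη0 h3
        have h5 := h.zeta.pow_inj a.2 b.2 h4
        rw [Fin.ext h5]
  · rw [natDegree_one, fa_deg (by rw [aP_deg]; exact hpN), aP_deg]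
    omega
  · rw [h.prod, one_pow, mul_one]
    haveI : CharP k[X][X] p := inferInstance
    unfold fa
    rw [aP_eq]
    unfold wP asP
    rw [sub_pow_char]
    simp only [Polynomial.map_sub, Polynomial.map_mul, Polynomial.map_pow, map_X, map_C, C_sub,
      C_mul, C_add, C_pow, C_1]
    rw [← pow_mul, mul_comm (s ^ i) p]
    ring

end exf

end Run7.h905.BS
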