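import Pool.Agent.Run7.h905.BS.ExF

/-!
# The definitions of the final statement
-/

open Polynomial IsDedekindDomain
open scoped Classical

set_option autoImplicit false
set_option linter.all false

namespace Run7.h905.Out

open Pool.Agent.Y713.Jac (J CoordRing)
open Pool.Agent.N352.Sha (ShaTrivial)

section defs

/-- The Jacobian of `y ^ 2 = F(x)` over `K = k(t)` has no `K`-rational point of order two, the group
`J(K) / 2 J(K)` has `2 ^ r` elements, the rank of `J(K)` is `r` (this uses that `J(K)` is finitely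
generated), and the 2-primary part of the Tate-Shafarevich group is zero. -/
structure HasRank (k : Type) {K : Type} [Field k] [Field K] [Algebra k[X] K]
    [IsFractionRing k[X] K] (F : K[X]) (r : ℕ) : Prop where
  torsion : ∀ P : J 2 F K, P ^ 2 = 1 → P = 1
  index : (powMonoidHom 2 : J 2 F K →* J 2 F K).range.index = 2 ^ r
  rank : Group.FG (J 2 F K) → Module.finrank ℤ (Additive (J 2 F K)) = r
  sha : ShaTrivial 2 F k[X]

/-- The class in `J(K)`, `J` the Jacobian of `y ^ 2 = F(x)`, of the ideal `(p(x), y - c(x))` of the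
affine coordinate ring, i.e. of the divisor `p(x) = 0`, `y = c(x)`. -/
def IsClass {K : Type} [Field K] (F p c : K[X]) (P : J 2 F K) : Prop :=
  ∃ (_ : IsDedekindDomain (CoordRing 2 F K))
    (h : Ideal.span {AdjoinRoot.of _ p, AdjoinRoot.root _ - AdjoinRoot.of _ c} ≠
      (⊥ : Ideal (CoordRing 2 F K))),
    P = ClassGroup.equivPic _ (ClassGroup.mk0
      ⟨Ideal.span {AdjoinRoot.of _ p, AdjoinRoot.root _ - AdjoinRoot.of _ c},
        mem_nonZeroDivisors_of_ne_zero h⟩)

variable {k : Type} [Field k] (K : Type) [Field K] [Algebra k[X] K]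

/-- The monic polynomial `F` with `F(Q x) = Q ^ n f(x)`, `n` the degree of `f`. For odd `n` the curve
`Q y ^ 2 = f(x)` is isomorphic to `Y ^ 2 = F(X)` by `X = Q x`, `Y = Q ^ ((n + 1) / 2) y`. -/
noncomputable def twist (f : k[X][X]) (Q : k[X]) : K[X] :=
  (f.map (algebraMap k[X] K)).scaleRoots (algebraMap k[X] K Q)

/-- `P` is the class of the divisor `h(x) = 0`, `y = u(x)` on the curve `Q y ^ 2 = f(x)`. -/
def IsPoint (f : k[X][X]) (Q : k[X]) (h u : k[X][X]) (P : J 2 (twist K f Q) K) : Prop :=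
  IsClass (twist K f Q) (twist K h Q)
    (C (algebraMap k[X] K Q ^ ((f.natDegree + 1) / 2)) *
      (u.map (algebraMap k[X] K)).comp (C (algebraMap k[X] K Q)⁻¹ * X)) P

variable {K}

/-- The affine plane curve `f(x, t) = 0` over `k`: `f` is monic in `x` of odd degree, the curve is
smooth, its coordinate ring is a Dedekind domain, has no ideal class of order two, and its units are
the constants. -/
structure OddCurve (f : k[X][X]) : Prop where
  monic : f.Monic
  odd : Odd f.natDegree
  smooth : Ideal.span {f, derivative f, f.sum fun i a => C (derivative a) * X ^ i} = ⊤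
  dedekind : IsDedekindDomain (AdjoinRoot f)
  classes : ∀ I : Ideal (AdjoinRoot f), (I ^ 2).IsPrincipal → I.IsPrincipal
  units : ∀ v : AdjoinRoot f, IsUnit v → ∃ c : k, v = AdjoinRoot.mk f (C (C c))

/-- `f = h_1 ⋯ h_m + Q u ^ 2`, where `u` is of degree less than half the degree of `f` and the
`h_j` are monic, irreducible modulo `Q` and distinct modulo `Q`. -/
structure Factors (f : k[X][X]) (Q : k[X]) {m : ℕ} (h : Fin m → k[X][X]) (u : k[X][X]) : Prop where
  monic : ∀ j, (h j).Monic
  irreducible : ∀ j, Irreducible ((h j).map (AdjoinRoot.mk Q))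
  distinct : Function.Injective fun j => (h j).map (AdjoinRoot.mk Q)
  degree : 2 * u.natDegree < f.natDegree
  identity : f = ∏ j, h j + C Q * u ^ 2

end defs

open Run7.h905.BS

theorem OddCurve.good {k : Type} [Field k] {f : k[X][X]} (h : OddCurve f) : GoodCurve f :=
  ⟨h.monic, h.odd, h.smooth, h.dedekind, h.classes, h.units⟩

theorem Factors.facQ {k : Type} [Field k] {f : k[X][X]} {Q : k[X]} {m : ℕ} {h : Fin m → k[X][X]}
    {u : k[X][X]} (H : Factors f Q h u) : FacQ f Q h u :=
  ⟨H.monic, H.irreducible, H.distinct, H.degree, H.identity⟩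

/-- The curves `t = a(x)`. -/
theorem line_odd {k : Type} [Field k] {a : k[X]} (ha : a.Monic) (ho : Odd a.natDegree) :
    OddCurve (a.map C - C X) := by
  have h := fa_good ha ho
  exact ⟨h.monic, h.odd, h.smooth, h.ded, h.cls, h.unit⟩

section rank

variable {k K : Type} [Field k] [Field K] [Algebra k[X] K] [IsFractionRing k[X] K]

theorem hasRank_of {F : K[X]} {r : ℕ} (h1 : ∀ x : Additive (J 2 F K), 2 • x = 0 → x = 0)
    (h2 : Nat.card (Additive (J 2 F K) ⧸ dbl (Additive (J 2 F K))) = 2 ^ r)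
    (h3 : ShaTrivial 2 F k[X]) : HasRank k F r := by
  refine ⟨?_, ?_, ?_, h3⟩
  · intro P hP
    have := h1 (Additive.ofMul P) (by
      rw [← ofMul_pow, hP]
      rfl)
    exact Additive.ofMul.injective this
  · rw [← h2]
    show Nat.card (J 2 F K ⧸ (powMonoidHom 2 : J 2 F K →* J 2 F K).range) = _
    apply Nat.card_congr
    refine Quotient.congr Additive.ofMul ?_
    intro a b
    show QuotientGroup.leftRel _ a b ↔ QuotientAddGroup.leftRel _ _ _
    rw [QuotientGroup.leftRel_apply, QuotientAddGroup.leftRel_apply, mem_dbl,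
      MonoidHom.mem_range]
    constructor
    · rintro ⟨R, hR⟩
      exact ⟨Additive.ofMul R, (congrArg Additive.ofMul hR).symm⟩
    · rintro ⟨R, hR⟩
      exact ⟨Additive.toMul R, (congrArg Additive.toMul hR).symm⟩
  · intro hfg
    haveI : AddGroup.FG (Additive (J 2 F K)) := by
      rwa [← GroupFG.iff_add_fg] at *
    exact rank_of h1 h2

end rank

section parts

variable {k K : Type} [Field k] [PerfectField k] [Field K] [Algebra k[X] K]
  [IsFractionRing k[X] K]

variable (K) in
theorem isPoint_of {f : k[X][X]} {Q : k[X]} {m : ℕ} {h : Fin m → k[X][X]} {u : k[X][X]} {j : Fin m}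
    {P : Pool.Agent.Y160.SE.Jac 2 (tF K f (qK K Q)) K}
    (hP : Pool.Agent.Y160.SE.IsCl K (iP K f Q h u j) P) :
    IsPoint K f Q (h j) u (Additive.toMul P) := by
  obtain ⟨h1, h2, h3⟩ := hP
  exact ⟨h1, h2, congrArg Additive.toMul h3⟩

variable (K) in
/-- **The criterion.** -/
theorem partA (h2 : (2 : k) ≠ 0) {f : k[X][X]} (hf : OddCurve f) {Q : k[X]} (hQ : Irreducible Q)
    {m : ℕ} (hm : 2 ≤ m) {h : Fin m → k[X][X]} {u : k[X][X]} (hF : Factors f Q h u) :
    ∃ P : Fin m → J 2 (twist K f Q) K, (∀ j, IsPoint K f Q (h j) u (P j)) ∧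
      (∀ x, ∃ (S : Finset (Fin m)) (R : J 2 (twist K f Q) K), x = (∏ j ∈ S, P j) * R ^ 2) ∧
      (∀ S : Finset (Fin m), (∃ R, ∏ j ∈ S, P j = R ^ 2) ↔ S = ∅ ∨ S = Finset.univ) ∧
      HasRank k (twist K f Q) (m - 1) := by
  obtain ⟨P, hP, h3, h4, h5, h6⟩ := crit K h2 hf.good hQ hm hF.facQ
  refine ⟨fun j => Additive.toMul (P j), fun j => isPoint_of K (hP j), ?_, ?_, ?_⟩
  · intro x
    obtain ⟨S, R, hR⟩ := h4 (Additive.ofMul x)
    refine ⟨S, Additive.toMul R, ?_⟩
    have := congrArg Additive.toMul hR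
    rw [toMul_add, toMul_sum, toMul_nsmul] at this
    exact this
  · intro S
    rw [← h5 S]
    constructor
    · rintro ⟨R, hR⟩
      refine ⟨Additive.ofMul R, ?_⟩
      apply Additive.toMul.injective
      rw [toMul_sum, toMul_nsmul]
      exact hR
    · rintro ⟨R, hR⟩
      refine ⟨Additive.toMul R, ?_⟩
      have := congrArg Additive.toMul hR
      rw [toMul_sum, toMul_nsmul] at this
      exact this
  · exact hasRank_of h3 (card_quot (by omega) P h4 h5) h6

variable (K) in
/-- **The criterion for one factor.** -/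
theorem partA1 (h2 : (2 : k) ≠ 0) {f : k[X][X]} (hf : OddCurve f) {Q : k[X]} (hQ : Irreducible Q)
    {m : ℕ} (hm : m = 1) {h : Fin m → k[X][X]} {u : k[X][X]} (hF : Factors f Q h u) :
    HasRank k (twist K f Q) 0 := by
  obtain ⟨h3, h4⟩ := crit_one K h2 hf.good hQ hm hF.facQ
  refine hasRank_of ?_ ?_ h4
  · intro x hx
    apply Additive.toMul.injective
    apply h3.1
    have := congrArg Additive.toMul hx
    rw [toMul_nsmul] at this
    exact this.trans (one_pow 2).symm
  · rw [pow_zero, Nat.card_eq_one_iff_unique]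
    refine ⟨⟨fun a b => ?_⟩, ⟨0⟩⟩
    obtain ⟨a, rfl⟩ := QuotientAddGroup.mk_surjective a
    obtain ⟨b, rfl⟩ := QuotientAddGroup.mk_surjective b
    rw [QuotientAddGroup.eq, mem_dbl]
    obtain ⟨c, hc⟩ := h3.2 (Additive.toMul (-a + b))
    exact ⟨Additive.ofMul c, (congrArg Additive.ofMul hc).symm⟩

variable (K) in
theorem partA2 (h2 : (2 : k) ≠ 0) {f : k[X][X]} (hf : OddCurve f) {Q : k[X]} (hQ : Irreducible Q)
    {m : ℕ} {h : Fin m → k[X][X]} {u : k[X][X]} (hF : Factors f Q h u) :
    HasRank k (twist K f Q) (m - 1) := by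
  have hm : m ≠ 0 := by
    rintro rfl
    have h1 := hF.identity
    rw [Finset.univ_eq_empty, Finset.prod_empty] at h1
    have h3 : (1 : k[X][X]) = f - C Q * u ^ 2 := by linear_combination -h1
    have h4 : (f - C Q * u ^ 2).natDegree = f.natDegree := by
      apply natDegree_sub_eq_left_of_natDegree_lt
      refine lt_of_le_of_lt (natDegree_C_mul_le _ _) ?_
      rw [natDegree_pow]
      exact hF.degree
    rw [← h3, natDegree_one] at h4
    have := hf.odd.pos
    omega
  by_cases h1 : m = 1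
  · subst h1
    exact partA1 K h2 hf hQ rfl hF
  · obtain ⟨P, _, _, _, h3⟩ := partA K h2 hf hQ (by omega) hF
    exact h3

end parts

section ex

/-- `Q(t) = t ^ p - (l + 1) t - c`. -/
noncomputable def primeQ {k : Type} [Field k] (p : ℕ) (l c : k) : k[X] :=
  X ^ p - C (l + 1) * X - C c

/-- `a(x) = x ^ (p N) - l x ^ N - c`. -/
noncomputable def polyA {k : Type} [Field k] (p N : ℕ) (l c : k) : k[X] :=
  X ^ (p * N) - C l * X ^ N - C c

/-- **All ranks.** -/
theorem partC (r : ℕ) (hr : 1 ≤ r) : ∃ (p s : ℕ) (k : Type) (_ : Field k) (_ : Finite k)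
    (_ : CharP k p) (l c : k), p.Prime ∧ p ≠ 2 ∧ s.Prime ∧ s ≠ 2 ∧ s ≠ p ∧ l ≠ 0 ∧
      Irreducible (primeQ p l c) ∧
      ∀ (i : ℕ) (K : Type) [Field K] [Algebra k[X] K] [IsFractionRing k[X] K],
        HasRank k (twist K ((polyA p (s ^ i) l c).map C - C X) (primeQ p l c)) r := by
  obtain ⟨p, d, s, hp, k, _, _, _, l, w, η, ζ, δ, ρ, h⟩ := exists_dat r hr
  refine ⟨p, s, k, inferInstance, inferInstance, inferInstance, l, δ, hp.out, h.odd, h.sp, h.s2, ?_,
    h.l0, h.irr, ?_⟩
  · rintro rfl
    have h1 : Function.Surjective (frobenius k s) :=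
      Finite.surjective_of_injective (frobenius_inj k s)
    obtain ⟨y, hy⟩ := h1 δ
    exact h.nd y hy
  · intro i K _ _ _
    have h2 : (2 : k) ≠ 0 := by
      intro h0
      have h1 : ((2 : ℕ) : k) = 0 := by exact_mod_cast h0
      rw [CharP.cast_eq_zero_iff k p] at h1
      exact h.odd ((Nat.prime_dvd_prime_iff_eq hp.out Nat.prime_two).1 h1)
    have hN : s ^ i ≠ 0 := pow_ne_zero _ h.sp.ne_zero
    have hodd : Odd (aP p l δ (s ^ i)).natDegree := by
      rw [aP_deg]
      exact (hp.out.odd_of_ne_two h.odd).mul (h.sp.odd_of_ne_two h.s2).pow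
    have hf := line_odd (aP_monic (p := p) l δ hN) hodd
    have hfac := h.fac i
    have hF : Factors ((aP p l δ (s ^ i)).map C - C X) (asP p (l + 1) δ) (hP r d (s ^ i) ζ η) 1 :=
      ⟨hfac.mon, hfac.irr, hfac.dist, hfac.deg, hfac.id⟩
    have h3 := partA2 K h2 hf h.irr hF
    rw [aP_eq] at h3
    exact h3

end ex

end Run7.h905.Out
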