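import Pool.Agent.Run7.h905.BS.Above
import Pool.Agent.N352.JB.Fin

/-!
# The 2-Selmer group of the twist
-/

open Polynomial WithZero IsDedekindDomain
open scoped Classical

set_option autoImplicit false
set_option linter.all false

namespace Run7.h905.BS

open Pool.Agent.N352.JB
open Pool.Agent.W309.TD (NoTwo even_rep sq_of_nonsq isSquare_coe)

variable {k K B M : Type} [Field k] [Field K] [Algebra k[X] K] [IsFractionRing k[X] K]
  [CommRing B] [IsDedekindDomain B] [Field M] [Algebra B M] [IsFractionRing B M]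
  [Algebra k[X] B] [Algebra.IsIntegral k[X] B] [Algebra K M] [Algebra k[X] M]
  [IsScalarTower k[X] B M] [IsScalarTower k[X] K M] {f : k[X][X]} {x : B}
  {Q : k[X]} {m : ℕ} {h : Fin m → k[X][X]} {u : k[X][X]}

section pts

variable (K)

/-- The image of `Q`. -/
noncomputable abbrev qK (Q : k[X]) : K := algebraMap k[X] K Q

/-- The polynomial `p j` of the divisor `P j`. -/
noncomputable def pP (Q : k[X]) (h : Fin m → k[X][X]) (j : Fin m) : K[X] := tF K (h j) (qK K Q)

/-- The polynomial `c` of the divisors `P j`. -/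
noncomputable def cP (f : k[X][X]) (Q : k[X]) (u : k[X][X]) : K[X] :=
  C (qK K Q ^ ((f.natDegree + 1) / 2)) * (u.map (algebraMap k[X] K)).comp (C (qK K Q)⁻¹ * X)

/-- The divisor of a set of indices. -/
noncomputable def lS (f : k[X][X]) (Q : k[X]) (h : Fin m → k[X][X]) (u : k[X][X])
    (S : Finset (Fin m)) : List (K[X] × K[X]) :=
  S.toList.map fun j => (pP K Q h j, cP K f Q u)

variable {K}

theorem qK_ne (hQ : Irreducible Q) : qK K Q ≠ 0 := by simpa using hQ.ne_zero

theorem comp_lin {q : K} (hq : q ≠ 0) (g : K[X]) : (g.comp (C q⁻¹ * X)).comp (C q * X) = g := by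
  rw [comp_assoc]
  have : (C q⁻¹ * X : K[X]).comp (C q * X) = X := by
    rw [mul_comp, C_comp, X_comp, ← mul_assoc, ← C_mul, inv_mul_cancel₀ hq, C_1, one_mul]
  rw [this, comp_X]

theorem comp_lin' {q : K} (hq : q ≠ 0) (g : K[X]) : (g.comp (C q * X)).comp (C q⁻¹ * X) = g := by
  rw [comp_assoc]
  have : (C q * X : K[X]).comp (C q⁻¹ * X) = X := by
    rw [mul_comp, C_comp, X_comp, ← mul_assoc, ← C_mul, mul_inv_cancel₀ hq, C_1, one_mul]
  rw [this, comp_X]

theorem Fac.dvdP (hF : Fac f Q h u) (hf : f.Monic) (hodd : Odd f.natDegree) (hQ : Irreducible Q)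
    (j : Fin m) : pP K Q h j ∣ cP K f Q u ^ 2 - tF K f (qK K Q) := by
  have hq := qK_ne (K := K) hQ
  have key : (pP K Q h j).comp (C (qK K Q) * X) ∣
      (cP K f Q u ^ 2 - tF K f (qK K Q)).comp (C (qK K Q) * X) := by
    rw [sub_comp, pow_comp]
    unfold pP cP
    rw [tF_comp _ (hF.mon j), tF_comp _ hf, mul_comp, C_comp, comp_lin hq]
    obtain ⟨r, hr⟩ := hodd
    have e1 : (f.natDegree + 1) / 2 = r + 1 := by omega
    rw [e1]
    have e2 : (f.map (algebraMap k[X] K)) = (∏ j, h j).map (algebraMap k[X] K) +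
        C (qK K Q) * (u.map (algebraMap k[X] K)) ^ 2 := by
      conv_lhs => rw [hF.id]
      rw [Polynomial.map_add, Polynomial.map_mul, Polynomial.map_pow, map_C]
    have e3 : (C (qK K Q ^ (r + 1)) * u.map (algebraMap k[X] K)) ^ 2 -
        C (qK K Q ^ f.natDegree) * f.map (algebraMap k[X] K) =
        -(C (qK K Q ^ f.natDegree) * (∏ j, h j).map (algebraMap k[X] K)) := by
      rw [e2]
      have e4 : (C (qK K Q ^ (r + 1)) : K[X]) ^ 2 = C (qK K Q ^ f.natDegree) * C (qK K Q) := by
        rw [← C_pow, ← C_mul, hr]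
        congr 1
        ring
      linear_combination (u.map (algebraMap k[X] K)) ^ 2 * e4
    rw [e3]
    have hn : C (qK K Q ^ (h j).natDegree) * C ((qK K Q ^ (h j).natDegree)⁻¹) = (1 : K[X]) := by
      rw [← C_mul, mul_inv_cancel₀ (pow_ne_zero _ hq), C_1]
    have e5 : (h j).map (algebraMap k[X] K) ∣ (∏ j, h j).map (algebraMap k[X] K) :=
      Polynomial.map_dvd _ (Finset.dvd_prod_of_mem _ (Finset.mem_univ j))
    obtain ⟨s, hs⟩ := e5
    refine ⟨-(C ((qK K Q ^ (h j).natDegree)⁻¹) * C (qK K Q ^ f.natDegree) * s), ?_⟩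
    rw [hs]
    linear_combination ((h j).map (algebraMap k[X] K) * C (qK K Q ^ f.natDegree) * s) * hn
  obtain ⟨r, hr⟩ := key
  have h3 := congrArg (fun g => g.comp (C (qK K Q)⁻¹ * X)) hr
  simp only [mul_comp (p := (pP K Q h j).comp (C (qK K Q) * X))] at h3
  rw [comp_lin' hq, comp_lin' hq] at h3
  exact ⟨_, h3⟩

theorem aeval_pP (hmon : (h : Fin m → k[X][X]) = h) {j : Fin m} (hj : (h j).Monic) :
    aeval (tθ M x (qK K Q)) (pP K Q h j) =
      algebraMap K M (qK K Q) ^ (h j).natDegree * algebraMap B M (Hv x (h j)) := by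
  unfold pP
  rw [← aeval_comp_tθ, tF_comp _ hj, map_mul, aeval_C, map_pow, aeval_B]
  rfl

theorem pP_monic {j : Fin m} (hj : (h j).Monic) : (pP K Q h j).Monic :=
  (monic_scaleRoots_iff _).2 (hj.map _)

theorem pP_deg {j : Fin m} (hj : (h j).Monic) : (pP K Q h j).natDegree = (h j).natDegree := by
  unfold pP tF
  rw [natDegree_scaleRoots, hj.natDegree_map]

variable (M) in
include M in
theorem Fac.adm (hF : Fac f Q h u) (hc : Cv f x) (hQ : Irreducible Q) (hm : 2 ≤ m)
    (S : Finset (Fin m)) : Adm (tF K f (qK K Q)) (lS K f Q h u S) := by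
  have hq := qK_ne (K := K) hQ
  intro p hp
  unfold lS at hp
  rw [List.mem_map] at hp
  obtain ⟨j, -, rfl⟩ := hp
  refine ⟨pP_monic (hF.mon j), ?_, hF.dvdP hc.monic hc.odd hQ j⟩
  have hirr : Irreducible (tF K f (qK K Q)) := hc.tF_irr M hq
  refine ((hirr.coprime_iff_not_dvd).2 ?_).symm
  rintro ⟨r, hr⟩
  have h1 := congrArg (aeval (tθ M x (qK K Q))) hr
  simp only at h1
  rw [map_mul, hc.tF_root, zero_mul, aeval_pP rfl (hF.mon j)] at h1
  rcases mul_eq_zero.1 h1 with h2 | h2
  · exact pow_ne_zero _ ((_root_.map_ne_zero _).2 hq) h2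
  · exact hF.ne hc hm j ((IsFractionRing.injective B M) (h2.trans (map_zero _).symm))

theorem Fac.kl_lS (hF : Fac f Q h u) (S : Finset (Fin m)) : kl (lS K f Q h u S) =
    ∏ j ∈ S, (-1) ^ (h j).natDegree * pP K Q h j := by
  unfold kl lS
  rw [List.map_map, Finset.prod_map_toList]
  apply Finset.prod_congr rfl
  intro j _
  show (-1) ^ (pP K Q h j).natDegree * pP K Q h j = _
  rw [pP_deg (hF.mon j)]

variable (M) in
/-- The value of the class of `S`. -/
noncomputable def zS (K : Type) [Field K] [Algebra k[X] K] [Algebra K M] (x : B) (f : k[X][X])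
    (Q : k[X]) (h : Fin m → k[X][X]) (u : k[X][X]) (S : Finset (Fin m)) : M :=
  aeval (tθ M x (qK K Q)) (kl (lS K f Q h u S))

theorem Fac.zS_eq (hF : Fac f Q h u) (S : Finset (Fin m)) : zS M K x f Q h u S =
    ∏ j ∈ S, (-1) ^ (h j).natDegree *
      (algebraMap K M (qK K Q) ^ (h j).natDegree * algebraMap B M (Hv x (h j))) := by
  unfold zS
  rw [hF.kl_lS, map_prod]
  apply Finset.prod_congr rfl
  intro j _
  rw [map_mul, aeval_pP rfl (hF.mon j), map_pow, map_neg, map_one]

theorem Fac.fac_ne (hF : Fac f Q h u) (hc : Cv f x) (hQ : Irreducible Q) (hm : 2 ≤ m) (j : Fin m) :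
    ((-1) ^ (h j).natDegree *
      (algebraMap K M (qK K Q) ^ (h j).natDegree * algebraMap B M (Hv x (h j)))) ≠ 0 := by
  refine mul_ne_zero (pow_ne_zero _ (neg_ne_zero.2 one_ne_zero)) (mul_ne_zero
    (pow_ne_zero _ ((_root_.map_ne_zero _).2 (qK_ne hQ))) ?_)
  intro h2
  exact hF.ne hc hm j ((IsFractionRing.injective B M) (h2.trans (map_zero _).symm))

theorem Fac.zS_ne (hF : Fac f Q h u) (hc : Cv f x) (hQ : Irreducible Q) (hm : 2 ≤ m)
    (S : Finset (Fin m)) : zS M K x f Q h u S ≠ 0 := by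
  rw [hF.zS_eq]
  exact Finset.prod_ne_zero_iff.2 fun j _ => hF.fac_ne hc hQ hm j

theorem Fac.pr_zS (hF : Fac f Q h u) (hc : Cv f x) (hQ : Irreducible Q) (hm : 2 ≤ m)
    (S : Finset (Fin m)) (w : HeightOneSpectrum B) (hw : Ov Q w) {i : Fin m}
    (hi : Hv x (h i) ∈ w.asIdeal) :
    pr w (zS M K x f Q h u S) = (∑ j ∈ S, ((h j).natDegree : ZMod 2)) + if i ∈ S then 1 else 0 := by
  rw [hF.zS_eq, pr_prod w _ _ fun j _ => hF.fac_ne hc hQ hm j]
  have h1 : ∀ j ∈ S, pr w ((-1 : M) ^ (h j).natDegree *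
      (algebraMap K M (qK K Q) ^ (h j).natDegree * algebraMap B M (Hv x (h j)))) =
      ((h j).natDegree : ZMod 2) + if j = i then 1 else 0 := by
    intro j _
    have hH : algebraMap B M (Hv x (h j)) ≠ 0 := fun h2 =>
      hF.ne hc hm j ((IsFractionRing.injective B M) (h2.trans (map_zero _).symm))
    have hq : algebraMap K M (qK K Q) ≠ 0 := (_root_.map_ne_zero _).2 (qK_ne hQ)
    rw [pr_mul w (pow_ne_zero _ (neg_ne_zero.2 one_ne_zero)) (mul_ne_zero (pow_ne_zero _ hq) hH),
      pr_mul w (pow_ne_zero _ hq) hH, pr_pow w (neg_ne_zero.2 one_ne_zero), pr_neg, pr_one,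
      mul_zero, zero_add, pr_pow w hq, hF.pr_q hc w hw, mul_one, hF.pr_H hc hm w hw hi]
  rw [Finset.sum_congr rfl h1, Finset.sum_add_distrib]
  congr 1
  rw [Finset.sum_ite_eq' S i]

end pts

section sel

variable [PerfectField k]

/-- A square in `M` is a square modulo the equation. -/
theorem Cv.sq_dvd (hc : Cv f x) {q : K} (hq : q ≠ 0) {g : K[X]}
    (hs : IsSquare (aeval (tθ M x q) g)) : ∃ s : K[X], tF K f q ∣ g - s ^ 2 := by
  obtain ⟨y, hy⟩ := hs
  obtain ⟨s, rfl⟩ := hc.tF_surj hq y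
  refine ⟨s, hc.tF_ker hq (M := M) ?_⟩
  rw [map_sub, map_pow, hy]
  ring

theorem Cv.dvd_sq (hc : Cv f x) {q : K} {g s : K[X]} (hs : tF K f q ∣ g - s ^ 2) :
    IsSquare (aeval (tθ M x q) g) := by
  obtain ⟨r, hr⟩ := hs
  have h1 := congrArg (aeval (tθ M x q)) hr
  rw [map_mul, hc.tF_root, zero_mul, map_sub, map_pow, sub_eq_zero] at h1
  exact ⟨aeval (tθ M x q) s, by rw [h1, pow_two]⟩

theorem Cv.ne_of_cop (hc : Cv f x) {q : K} {g : K[X]} (hg : IsCoprime g (tF K f q)) :
    aeval (tθ M x q) g ≠ 0 := by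
  intro h0
  obtain ⟨a, b, hab⟩ := hg
  have h1 := congrArg (aeval (tθ M x q)) hab
  rw [map_add, map_mul, map_mul, h0, hc.tF_root, mul_zero, mul_zero, add_zero, map_one] at h1
  exact zero_ne_one h1

/-- The local conditions at all finite places. -/
def LocAll (F g : K[X]) : Prop := ∀ v : HeightOneSpectrum k[X],
  LocIm (v.adicCompletion K) (F.map (algebraMap K (v.adicCompletion K)))
    (g.map (algebraMap K (v.adicCompletion K)))

variable (hF : Fac f Q h u) (hc : Cv f x) (hQ : Irreducible Q) (hcl : NoTwo B)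
  (hun : ∀ u : Bˣ, IsSquare (Algebra.norm K (algebraMap B M (u : B))) →
    IsSquare (algebraMap B M (u : B)))

include hF hc hQ hcl hun

/-- **The Selmer group is generated by the explicit classes.** -/
theorem Fac.sel (hm : 2 ≤ m) (hg2 : Pool.Agent.Y160.SE.Good 2 (-1 : K) (tF K f (qK K Q))) {g : K[X]}
    (hcop : IsCoprime g (tF K f (qK K Q)))
    (hN : IsSquare (Algebra.norm K (AdjoinRoot.mk (tF K f (qK K Q)) g)))
    (hloc : LocAll (k := k) (tF K f (qK K Q)) g) :
    ∃ (S : Finset (Fin m)) (s : K[X]), tF K f (qK K Q) ∣ g * kl (lS K f Q h u S) - s ^ 2 := by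
  have hq := qK_ne (K := K) hQ
  set θ := tθ M x (qK K Q) with hθ
  have hz : aeval θ g ≠ 0 := hc.ne_of_cop (M := M) hcop
  set S : Finset (Fin m) := Finset.univ.filter fun j => pr (hF.pl hc hQ j) (aeval θ g) = 1 with hS
  refine ⟨S, hc.sq_dvd (M := M) hq ?_⟩
  have hzS := hF.zS_ne (M := M) (K := K) hc hQ hm S
  have hodd : Odd (tF K f (qK K Q)).natDegree := by
    rw [hc.tF_deg]; exact hc.odd
  have hadm := hF.adm M (K := K) hc hQ hm S
  have hprod : aeval θ (g * kl (lS K f Q h u S)) = aeval θ g * zS M K x f Q h u S := by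
    rw [map_mul]; rfl
  rw [← hθ, hprod]
  refine hc.glob hcl hun hQ (mul_ne_zero hz hzS) ?_ ?_ ?_ ?_
  · rw [map_mul]
    refine IsSquare.mul ?_ ?_
    · rw [hc.tF_norm (M := M) hq] at hN
      exact hN
    · obtain ⟨y, hy⟩ := norm_kl hg2 (SeparableClosure K) hodd hadm
      rw [hc.tF_norm (M := M) hq] at hy
      exact ⟨y, by rw [← pow_two, ← hy]; rfl⟩
  · intro w hw
    rw [map_mul]
    refine IsSquare.mul (hc.even_off hQ.ne_zero w hw (hloc _)) ?_
    refine hc.even_off hQ.ne_zero w hw ?_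
    have hl : LocIm K (tF K f (qK K Q)) (kl (lS K f Q h u S)) :=
      ⟨lS K f Q h u S, kl (lS K f Q h u S), hadm, by
        have : kl (lS K f Q h u S) * (List.map (fun p => (-1) ^ p.1.natDegree * p.1)
            (lS K f Q h u S)).prod - kl (lS K f Q h u S) ^ 2 = 0 := by
          unfold kl
          ring
        rw [this]
        exact dvd_zero _⟩
    exact Pool.Agent.N424.JB.LocIm.up hl
  · intro w hw
    rw [sq_pr w ((_root_.map_ne_zero _).2 hq), hF.pr_q hc w hw]
    exact one_ne_zero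
  · have key : ∀ w : HeightOneSpectrum B, Ov Q w → pr w (aeval θ g * zS M K x f Q h u S) =
        ∑ j ∈ S, ((h j).natDegree : ZMod 2) := by
      intro w hw
      obtain ⟨i, hi⟩ := hF.exists_mem hc w hw
      rw [pr_mul w hz hzS, hF.pr_zS hc hQ hm S w hw hi]
      have hwi := hF.eq_pl hc hQ w hw hi
      by_cases hiS : i ∈ S
      · rw [if_pos hiS]
        have h1 : pr w (aeval θ g) = 1 := by
          rw [hwi]
          exact (Finset.mem_filter.1 hiS).2
        rw [h1]
        have h2 : (1 : ZMod 2) + 1 = 0 := rfl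
        linear_combination h2
      · rw [if_neg hiS]
        have h1 : pr w (aeval θ g) = 0 := by
          rcases pr_cases (pr w (aeval θ g)) with h2 | h2
          · exact h2
          · exfalso
            apply hiS
            rw [hS, Finset.mem_filter]
            refine ⟨Finset.mem_univ _, ?_⟩
            rw [← hwi]
            exact h2
        rw [h1, zero_add, add_zero]
    rcases pr_cases (∑ j ∈ S, ((h j).natDegree : ZMod 2)) with h1 | h1
    · left
      intro w hw
      rw [sq_pr w (mul_ne_zero hz hzS), key w hw, h1]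
    · right
      intro w hw
      rw [sq_pr w (mul_ne_zero hz hzS), key w hw, h1]
      exact one_ne_zero

/-- The squares among the explicit classes. -/
theorem Fac.sq_iff (hm : 2 ≤ m) (hg2 : Pool.Agent.Y160.SE.Good 2 (-1 : K) (tF K f (qK K Q)))
    (S : Finset (Fin m)) :
    IsSquare (zS M K x f Q h u S) ↔ S = ∅ ∨ S = Finset.univ := by
  have hq := qK_ne (K := K) hQ
  have hzS := hF.zS_ne (M := M) (K := K) hc hQ hm S
  have hodd : Odd (tF K f (qK K Q)).natDegree := by
    rw [hc.tF_deg]; exact hc.odd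
  constructor
  · rintro ⟨y, hy⟩
    have hy0 : y ≠ 0 := by
      rintro rfl
      rw [mul_zero] at hy
      exact hzS hy
    have key : ∀ i : Fin m, (∑ j ∈ S, ((h j).natDegree : ZMod 2)) + (if i ∈ S then 1 else 0) = 0 := by
      intro i
      rw [← hF.pr_zS (M := M) (K := K) hc hQ hm S (hF.pl hc hQ i) (hF.pl_ov hc hQ i)
        (hF.pl_mem hc hQ i), hy, pr_mul _ hy0 hy0]
      exact CharTwo.add_self_eq_zero _
    rcases pr_cases (∑ j ∈ S, ((h j).natDegree : ZMod 2)) with h1 | h1
    · left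
      rw [Finset.eq_empty_iff_forall_notMem]
      intro i hi
      have := key i
      rw [h1, if_pos hi, zero_add] at this
      exact one_ne_zero this
    · right
      rw [Finset.eq_univ_iff_forall]
      intro i
      by_contra hi
      have := key i
      rw [h1, if_neg hi, add_zero] at this
      exact one_ne_zero this
  · rintro (rfl | rfl)
    · rw [hF.zS_eq, Finset.prod_empty]
      exact IsSquare.one
    · have hadm := hF.adm M (K := K) hc hQ hm Finset.univ
      refine hc.glob hcl hun hQ hzS ?_ ?_ ?_ ?_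
      · obtain ⟨y, hy⟩ := norm_kl hg2 (SeparableClosure K) hodd hadm
        rw [hc.tF_norm (M := M) hq] at hy
        exact ⟨y, by rw [← pow_two, ← hy]; rfl⟩
      · intro w hw
        refine hc.even_off hQ.ne_zero w hw ?_
        have hl : LocIm K (tF K f (qK K Q)) (kl (lS K f Q h u Finset.univ)) :=
          ⟨lS K f Q h u Finset.univ, kl (lS K f Q h u Finset.univ), hadm, by
            have : kl (lS K f Q h u Finset.univ) *
                (List.map (fun p => (-1) ^ p.1.natDegree * p.1)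
                (lS K f Q h u Finset.univ)).prod - kl (lS K f Q h u Finset.univ) ^ 2 = 0 := by
              unfold kl
              ring
            rw [this]
            exact dvd_zero _⟩
        exact Pool.Agent.N424.JB.LocIm.up hl
      · intro w hw
        rw [sq_pr w ((_root_.map_ne_zero _).2 hq), hF.pr_q hc w hw]
        exact one_ne_zero
      · left
        intro w hw
        obtain ⟨i, hi⟩ := hF.exists_mem hc w hw
        rw [sq_pr w hzS, hF.pr_zS hc hQ hm _ w hw hi, if_pos (Finset.mem_univ i)]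
        have h1 : ∑ j : Fin m, ((h j).natDegree : ZMod 2) = (f.natDegree : ZMod 2) := by
          rw [← hF.sum_deg hc.monic]
          push_cast
          rfl
        rw [h1]
        obtain ⟨r, hr⟩ := hc.odd
        rw [hr]
        push_cast
        have h2 : (2 : ZMod 2) = 0 := rfl
        rw [h2]
        have h3 : (1 : ZMod 2) + 1 = 0 := rfl
        linear_combination h3

/-- **The Selmer group is trivial if there is only one place above `Q`.** -/
theorem Fac.sel_one (hm : m = 1) {g : K[X]}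
    (hcop : IsCoprime g (tF K f (qK K Q)))
    (hN : IsSquare (Algebra.norm K (AdjoinRoot.mk (tF K f (qK K Q)) g)))
    (hloc : LocAll (k := k) (tF K f (qK K Q)) g) :
    ∃ s : K[X], tF K f (qK K Q) ∣ g - s ^ 2 := by
  subst hm
  have hq := qK_ne (K := K) hQ
  set θ := tθ M x (qK K Q) with hθ
  have hz : aeval θ g ≠ 0 := hc.ne_of_cop (M := M) hcop
  refine hc.sq_dvd (M := M) hq ?_
  rw [← hθ]
  refine hc.glob hcl hun hQ hz ?_ ?_ ?_ ?_
  · rw [hc.tF_norm (M := M) hq] at hN
    exact hN
  · intro w hw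
    exact hc.even_off hQ.ne_zero w hw (hloc _)
  · intro w hw
    rw [sq_pr w ((_root_.map_ne_zero _).2 hq), hF.pr_q hc w hw]
    exact one_ne_zero
  · have key : ∀ w : HeightOneSpectrum B, Ov Q w → w = hF.pl hc hQ 0 := by
      intro w hw
      obtain ⟨i, hi⟩ := hF.exists_mem hc w hw
      have : i = 0 := Subsingleton.elim _ _
      rw [this] at hi
      exact hF.eq_pl hc hQ w hw hi
    by_cases h1 : IsSquare ((hF.pl hc hQ 0).valuation M (aeval θ g))
    · left
      intro w hw
      rw [key w hw]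
      exact h1
    · right
      intro w hw
      rw [key w hw]
      exact h1

end sel

end Run7.h905.BS
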