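import Pool.Agent.Run7.h905.BS.Fld

/-!
# The places above the twisting prime, and the global step
-/

open Polynomial WithZero IsDedekindDomain
open scoped Classical

set_option autoImplicit false
set_option linter.all false

namespace Run7.h905.BS

open Pool.Agent.N352.JB
open Pool.Agent.W309.TD (NoTwo even_rep sq_of_nonsq isSquare_coe)

variable {k K B M : Type} [Field k] [Field K] [Algebra k[X] K] [IsFractionRing k[X] K]
  [CommRing B] [IsDedekindDomain B] [Field M] [Algebra B M] [IsFractionRing B M]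
  [Algebra k[X] B] [Algebra.IsIntegral k[X] B] [Algebra K M] [Algebra k[X] M]
  [IsScalarTower k[X] B M] [IsScalarTower k[X] K M] {f : k[X][X]} {x : B}

theorem not_sq_exp : ¬ IsSquare (exp (-1 : ℤ)) := by
  intro h
  have h1 : IsSquare (((Multiplicative.ofAdd (-1 : ℤ) : Multiplicative ℤ)) :
    WithZero (Multiplicative ℤ)) := h
  rw [isSquare_coe] at h1
  simp at h1

theorem sq_cancel {a b : WithZero (Multiplicative ℤ)} (ha : IsSquare a) (ha0 : a ≠ 0) :
    IsSquare (a * b) ↔ IsSquare b :=
  ⟨fun h => Pool.Agent.W309.TD.IsSquare.of_mul_left' ha ha0 h, fun h => ha.mul h⟩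

theorem sq_iff {a b : WithZero (Multiplicative ℤ)} (ha : a ≠ 0) (hb : b ≠ 0) :
    IsSquare (a * b) ↔ (IsSquare a ↔ IsSquare b) := by
  by_cases h1 : IsSquare a
  · rw [sq_cancel h1 ha]
    exact ⟨fun h => ⟨fun _ => h, fun _ => h1⟩, fun h => h.1 h1⟩
  · by_cases h2 : IsSquare b
    · rw [mul_comm, sq_cancel h2 hb]
      exact ⟨fun h => absurd h h1, fun h => h.2 h2⟩
    · exact ⟨fun _ => ⟨fun h => absurd h h1, fun h => absurd h h2⟩, fun _ => sq_of_nonsq h1 h2⟩

/-- The place `w` lies above `Q`. -/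
def Ov (Q : k[X]) (w : HeightOneSpectrum B) : Prop := algebraMap k[X] B Q ∈ w.asIdeal

theorem val_off (w : HeightOneSpectrum B) {Q : k[X]} (hw : ¬ Ov Q w) :
    w.valuation M (algebraMap K M (algebraMap k[X] K Q)) = 1 := by
  rw [← IsScalarTower.algebraMap_apply k[X] K M, IsScalarTower.algebraMap_apply k[X] B M,
    HeightOneSpectrum.valuation_eq_one_iff_notMem]
  exact hw

/-- The valuations away from `Q`. -/
theorem Cv.even_off [PerfectField k] (h : Cv f x) {Q : k[X]} (hQ : Q ≠ 0)
    (w : HeightOneSpectrum B) (hw : ¬ Ov Q w) {g : K[X]}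
    (hloc : LocIm ((w.under k[X]).adicCompletion K)
      ((tF K f (algebraMap k[X] K Q)).map (algebraMap K ((w.under k[X]).adicCompletion K)))
      (g.map (algebraMap K ((w.under k[X]).adicCompletion K)))) :
    IsSquare (w.valuation M (aeval (tθ M x (algebraMap k[X] K Q)) g)) := by
  haveI := h.tf
  set v : HeightOneSpectrum k[X] := w.under k[X] with hv
  haveI hlo : w.asIdeal.LiesOver v.asIdeal := ⟨rfl⟩
  have hval : ∀ z : K, v.valuation K z ^ v.asIdeal.ramificationIdx' w.asIdeal =
      w.valuation M (algebraMap K M z) := fun z =>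
    HeightOneSpectrum.valuation_liesOver (A := k[X]) M v w z
  have he : v.asIdeal.ramificationIdx' w.asIdeal ≠ 0 :=
    Ideal.IsDedekindDomain.ramificationIdx'_ne_zero_of_liesOver w.asIdeal v.ne_bot
  have hq : v.valuation K (algebraMap k[X] K Q) = 1 := by
    rw [HeightOneSpectrum.valuation_eq_one_iff_notMem]
    exact hw
  obtain ⟨γ, hγ⟩ := even_locIm v w (algebraMap K M)
    (fun z hz => by rw [← hval]; exact pow_le_one₀ zero_le hz)
    (fun z hz => by rw [← hval]; exact pow_lt_one₀ zero_le hz he)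
    f h.monic h.odd h.sm (algebraMap B M x) (by
      rw [← Polynomial.map_map, eval_map_algebraMap, aeval_B, h.root, map_zero])
    (algebraMap k[X] K Q) hq (tF K f (algebraMap k[X] K Q)) (tF_comp _ h.monic) g hloc
  refine ⟨γ, ?_⟩
  rw [← pow_two, ← hγ]
  congr 1
  rw [eval_map_algebraMap]
  rfl

/-- The norm of a unit is a unit. -/
theorem Cv.norm_unit (h : Cv f x) (u : Bˣ) (v : HeightOneSpectrum k[X]) :
    v.valuation K (Algebra.norm K (algebraMap B M (u : B))) = 1 := by
  haveI : FiniteDimensional K M := by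
    apply FiniteDimensional.of_finrank_pos
    rw [h.finrank M]
    exact h.pos
  have key : ∀ b : B, v.valuation K (Algebra.norm K (algebraMap B M b)) ≤ 1 := by
    intro b
    have h1 : IsIntegral k[X] (algebraMap B M b) :=
      (Algebra.IsIntegral.isIntegral (R := k[X]) b).map (IsScalarTower.toAlgHom k[X] B M)
    have h2 := Algebra.isIntegral_norm K h1
    obtain ⟨r, hr⟩ := IsIntegrallyClosed.isIntegral_iff.1 h2
    rw [← hr]
    exact v.valuation_le_one r
  apply le_antisymm (key _)
  have h1 := key (u⁻¹ : Bˣ)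
  have h2 : Algebra.norm K (algebraMap B M (u : B)) *
      Algebra.norm K (algebraMap B M ((u⁻¹ : Bˣ) : B)) = 1 := by
    rw [← map_mul, ← map_mul, Units.mul_inv, map_one, map_one]
  have h3 := congrArg (v.valuation K) h2
  rw [map_mul, map_one] at h3
  by_contra hlt
  rw [not_le] at hlt
  have h4 : v.valuation K (Algebra.norm K (algebraMap B M (u : B))) *
      v.valuation K (Algebra.norm K (algebraMap B M ((u⁻¹ : Bˣ) : B))) < 1 :=
    lt_of_le_of_lt (mul_le_of_le_one_right' h1) hlt
  rw [h3] at h4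
  exact lt_irrefl _ h4

/-- The prime `Q` as a place. -/
noncomputable def plQ {Q : k[X]} (hQ : Irreducible Q) : HeightOneSpectrum k[X] where
  asIdeal := Ideal.span {Q}
  isPrime := (Ideal.span_singleton_prime hQ.ne_zero).2 hQ.prime
  ne_bot := by rw [Ne, Ideal.span_singleton_eq_bot]; exact hQ.ne_zero

theorem plQ_val {Q : k[X]} (hQ : Irreducible Q) :
    (plQ hQ).valuation K (algebraMap k[X] K Q) = exp (-1 : ℤ) := by
  rw [HeightOneSpectrum.valuation_of_algebraMap]
  exact (plQ hQ).intValuation_singleton hQ.ne_zero rfl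

/-- **The global step.** -/
theorem Cv.glob (h : Cv f x) (hcl : NoTwo B)
    (hun : ∀ u : Bˣ, IsSquare (Algebra.norm K (algebraMap B M (u : B))) →
      IsSquare (algebraMap B M (u : B)))
    {Q : k[X]} (hQ : Irreducible Q) {z : M} (hz : z ≠ 0) (hN : IsSquare (Algebra.norm K z))
    (hoff : ∀ w : HeightOneSpectrum B, ¬ Ov Q w → IsSquare (w.valuation M z))
    (hram : ∀ w : HeightOneSpectrum B, Ov Q w →
      ¬ IsSquare (w.valuation M (algebraMap K M (algebraMap k[X] K Q))))
    (hsame : (∀ w : HeightOneSpectrum B, Ov Q w → IsSquare (w.valuation M z)) ∨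
      (∀ w : HeightOneSpectrum B, Ov Q w → ¬ IsSquare (w.valuation M z))) : IsSquare z := by
  haveI : FiniteDimensional K M := by
    apply FiniteDimensional.of_finrank_pos
    rw [h.finrank M]
    exact h.pos
  have hnorm0 : ∀ s : M, s ≠ 0 → Algebra.norm K s ≠ 0 := fun s hs => by
    rw [Ne, Algebra.norm_eq_zero_iff]
    exact hs
  rcases hsame with hs | hs
  · obtain ⟨u, s, hs0, hus⟩ := even_rep hcl hz fun w => by
      by_cases hw : Ov Q w
      · exact hs w hw
      · exact hoff w hw
    have h1 : IsSquare (Algebra.norm K (algebraMap B M (u : B))) := by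
      obtain ⟨r, hr⟩ := hN
      rw [hus, map_mul, map_pow] at hr
      refine ⟨r / Algebra.norm K s, ?_⟩
      have := hnorm0 s hs0
      field_simp
      rw [← pow_two] at hr
      exact hr
    obtain ⟨r, hr⟩ := hun u h1
    refine ⟨r * s, ?_⟩
    rw [hus, hr]
    ring
  · exfalso
    set q : M := algebraMap K M (algebraMap k[X] K Q) with hq
    have hQK : algebraMap k[X] K Q ≠ 0 := by
      simpa using hQ.ne_zero
    have hq0 : q ≠ 0 := (_root_.map_ne_zero _).2 hQK
    obtain ⟨u, s, hs0, hus⟩ := even_rep hcl (mul_ne_zero hz hq0) fun w => by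
      rw [map_mul]
      by_cases hw : Ov Q w
      · exact sq_of_nonsq (hs w hw) (hram w hw)
      · rw [hq, val_off w hw, mul_one]
        exact hoff w hw
    have h1 := congrArg (fun y => (plQ hQ).valuation K (Algebra.norm K y)) hus
    simp only [map_mul, map_pow] at h1
    rw [hq, Algebra.norm_algebraMap, map_pow, plQ_val, h.norm_unit u, one_mul, h.finrank M] at h1
    obtain ⟨r, hr⟩ := hN
    obtain ⟨j, hj⟩ := h.odd
    rw [hr, map_mul, hj, pow_succ, pow_mul] at h1
    apply not_sq_exp
    have hr0 : (plQ hQ).valuation K r ≠ 0 := by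
      rw [Valuation.ne_zero_iff]
      rintro rfl
      rw [mul_zero] at hr
      exact hnorm0 z hz hr
    have h2 : IsSquare (((plQ hQ).valuation K r * (plQ hQ).valuation K r) *
        (exp (-1 : ℤ) ^ 2) ^ j * exp (-1 : ℤ)) := by
      rw [mul_assoc, h1]
      exact ⟨_, pow_two _⟩
    refine (sq_cancel ?_ ?_).1 h2
    · refine IsSquare.mul ⟨_, rfl⟩ ?_
      rw [← pow_mul, mul_comm, pow_mul]
      exact ⟨_, pow_two _⟩
    · exact mul_ne_zero (mul_ne_zero hr0 hr0) (pow_ne_zero _ (pow_ne_zero _ exp_ne_zero))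

end Run7.h905.BS
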