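import Mathlib

/-!
# Artin-Schreier and Kummer polynomials over finite fields
-/

open Polynomial
open scoped Classical

set_option autoImplicit false
set_option linter.all false

namespace Run7.h905.BS

section line

variable {p : ℕ} [hp : Fact p.Prime] {E : Type} [Field E] [CharP E p]

omit hp in
theorem natCast_frob [Fact p.Prime] (i : ℕ) : ((i : E)) ^ p = i := by
  have := map_natCast (frobenius E p) i
  rwa [frobenius_def] at this

theorem prod_line (D x : E) :
    ∏ i ∈ Finset.range p, (x + (i : E) * D) = x ^ p - D ^ (p - 1) * x := by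
  have hp2 := hp.out.two_le
  by_cases hD : D = 0
  · subst hD
    rw [zero_pow (by omega), zero_mul, sub_zero]
    simp
  have key : (∏ i ∈ Finset.range p, (X + C ((i : E) * D)) : E[X]) =
      X ^ p - C (D ^ (p - 1)) * X := by
    have m1 : (∏ i ∈ Finset.range p, (X + C ((i : E) * D)) : E[X]).Monic :=
      monic_prod_of_monic _ _ fun i _ => monic_X_add_C _
    have d1 : (∏ i ∈ Finset.range p, (X + C ((i : E) * D)) : E[X]).natDegree = p := by
      rw [natDegree_prod_of_monic _ _ fun i _ => monic_X_add_C _,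
        Finset.sum_congr rfl fun i _ => natDegree_X_add_C _]
      simp
    have hlt : (C (D ^ (p - 1)) * X : E[X]).degree < (X ^ p : E[X]).degree := by
      rw [degree_X_pow]
      refine lt_of_le_of_lt (degree_C_mul_X_le _) ?_
      exact_mod_cast hp.out.one_lt
    have m2 : (X ^ p - C (D ^ (p - 1)) * X : E[X]).Monic := (monic_X_pow p).sub_of_left hlt
    have d2 : (X ^ p - C (D ^ (p - 1)) * X : E[X]).natDegree = p := by
      rw [natDegree_eq_of_degree_eq (degree_sub_eq_left_of_degree_lt hlt), natDegree_X_pow]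
    have hdeg : ((∏ i ∈ Finset.range p, (X + C ((i : E) * D)) : E[X]) -
        (X ^ p - C (D ^ (p - 1)) * X)).degree < ((p : ℕ) : WithBot ℕ) := by
      have := degree_sub_lt (p := ∏ i ∈ Finset.range p, (X + C ((i : E) * D)))
        (q := (X ^ p - C (D ^ (p - 1)) * X : E[X]))
        (by rw [degree_eq_natDegree m1.ne_zero, degree_eq_natDegree m2.ne_zero, d1, d2])
        m1.ne_zero (by rw [m1, m2])
      rwa [degree_eq_natDegree m1.ne_zero, d1] at this
    rw [← sub_eq_zero]
    have hinj : Set.InjOn (fun i : ℕ => -((i : E) * D)) (Finset.range p : Set ℕ) := by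
      intro i hi j hj hij
      simp only [neg_inj] at hij
      have h1 := mul_right_cancel₀ hD hij
      exact CharP.natCast_injOn_Iio E p (by simpa using hi) (by simpa using hj) h1
    apply eq_zero_of_natDegree_lt_card_of_eval_eq_zero' _
      ((Finset.range p).image fun i : ℕ => -((i : E) * D))
    · intro y hy
      rw [Finset.mem_image] at hy
      obtain ⟨i, hi, rfl⟩ := hy
      rw [eval_sub, eval_prod, Finset.prod_eq_zero hi (by simp), zero_sub, neg_eq_zero]
      simp only [eval_sub, eval_pow, eval_X, eval_mul, eval_C]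
      have h1 : (-((i : E) * D)) ^ p = -((i : E) * D ^ p) := by
        have h2 := map_neg (frobenius E p) ((i : E) * D)
        rw [frobenius_def, frobenius_def] at h2
        rw [h2, mul_pow, natCast_frob]
      have h3 : D ^ p = D ^ (p - 1) * D := by
        rw [← pow_succ]
        congr 1
        omega
      rw [h1, h3]
      ring
    · rw [Finset.card_image_of_injOn hinj, Finset.card_range]
      by_cases h0 : ((∏ i ∈ Finset.range p, (X + C ((i : E) * D)) : E[X]) -
        (X ^ p - C (D ^ (p - 1)) * X)) = 0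
      · rw [h0, natDegree_zero]
        omega
      · exact (natDegree_lt_iff_degree_lt h0).2 hdeg
  have h2 := congrArg (eval x) key
  rw [eval_prod] at h2
  simp only [eval_add, eval_X, eval_C, eval_sub, eval_pow, eval_mul] at h2
  exact h2

end line

section fr

variable {p : ℕ} [hp : Fact p.Prime] {k : Type} [Field k] [Finite k] [CharP k p] {E : Type}
  [Field E] [Algebra k E]

variable (p k) in
omit hp in
theorem card_pp [Fact p.Prime] : ∃ n : ℕ, 0 < n ∧ Nat.card k = p ^ n := by
  haveI := Fintype.ofFinite k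
  obtain ⟨n, _, hn⟩ := FiniteField.card k p
  exact ⟨n, n.2, by rw [Nat.card_eq_fintype_card, hn]⟩

variable (p) in
include p in
omit hp in
theorem add_q [Fact p.Prime] (x y : E) : (x + y) ^ Nat.card k = x ^ Nat.card k + y ^ Nat.card k := by
  haveI : CharP E p := charP_of_injective_algebraMap (algebraMap k E).injective p
  obtain ⟨n, _, hn⟩ := card_pp p k
  rw [hn, add_pow_char_pow]

theorem map_q (c : k) : (algebraMap k E c) ^ Nat.card k = algebraMap k E c := by
  haveI := Fintype.ofFinite k
  rw [← map_pow, Nat.card_eq_fintype_card, FiniteField.pow_card]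

theorem map_qj (c : k) (j : ℕ) : (algebraMap k E c) ^ Nat.card k ^ j = algebraMap k E c := by
  induction j with
  | zero => rw [pow_zero, pow_one]
  | succ j ih => rw [pow_succ, pow_mul, ih, map_q]

variable (p) in
include p in
omit hp in
theorem add_qj [Fact p.Prime] (x y : E) (j : ℕ) :
    (x + y) ^ Nat.card k ^ j = x ^ Nat.card k ^ j + y ^ Nat.card k ^ j := by
  induction j with
  | zero => rw [pow_zero, pow_one, pow_one, pow_one]
  | succ j ih => rw [pow_succ, pow_mul, ih, add_q p, ← pow_mul, ← pow_mul]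

variable {w μ δ : k} {τ : E}

omit [Finite k] [CharP k p] in
/-- The Frobenius on a root of the Artin-Schreier polynomial. -/
theorem as_p [Finite k] [CharP k p] (hτ : τ ^ p = algebraMap k E μ * τ + algebraMap k E δ) :
    (τ ^ Nat.card k - τ) ^ p = algebraMap k E μ * (τ ^ Nat.card k - τ) := by
  haveI : CharP E p := charP_of_injective_algebraMap (algebraMap k E).injective p
  rw [sub_pow_char, ← pow_mul, mul_comm, pow_mul, hτ, add_q p, mul_pow, map_q, map_q]
  ring

theorem as_q (hw : w ≠ 0) (hμ : w ^ (p - 1) = μ)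
    (hτ : τ ^ p = algebraMap k E μ * τ + algebraMap k E δ) :
    (τ ^ Nat.card k - τ) ^ Nat.card k = τ ^ Nat.card k - τ := by
  set D := τ ^ Nat.card k - τ with hD
  have hDp : D ^ p = algebraMap k E μ * D := as_p hτ
  have hw' : algebraMap k E w ≠ 0 := by simpa using hw
  have hwp : algebraMap k E w ^ p = algebraMap k E μ * algebraMap k E w := by
    rw [← hμ, map_pow, ← pow_succ]
    congr 1
    have := hp.out.one_le
    omega
  have hμ' : algebraMap k E μ ≠ 0 := by
    rw [← hμ, map_pow]
    exact pow_ne_zero _ hw'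
  have h1 : (D / algebraMap k E w) ^ p = D / algebraMap k E w := by
    rw [div_pow, hDp, hwp]
    field_simp
  have h2 : ∀ n : ℕ, (D / algebraMap k E w) ^ p ^ n = D / algebraMap k E w := by
    intro n
    induction n with
    | zero => rw [pow_zero, pow_one]
    | succ n ih => rw [pow_succ, pow_mul, ih, h1]
  obtain ⟨n, _, hn⟩ := card_pp p k
  have h3 := h2 n
  rw [← hn, div_pow, map_q] at h3
  field_simp at h3
  exact h3

theorem as_j (hw : w ≠ 0) (hμ : w ^ (p - 1) = μ)
    (hτ : τ ^ p = algebraMap k E μ * τ + algebraMap k E δ) (j : ℕ) :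
    τ ^ Nat.card k ^ j = τ + (j : E) * (τ ^ Nat.card k - τ) := by
  set D := τ ^ Nat.card k - τ with hD
  have hq : τ ^ Nat.card k = τ + D := by rw [hD]; ring
  have hDq : D ^ Nat.card k = D := as_q hw hμ hτ
  induction j with
  | zero => rw [pow_zero, pow_one, Nat.cast_zero, zero_mul, add_zero]
  | succ j ih =>
    rw [pow_succ, pow_mul, ih, add_q p, hq, mul_pow, hDq]
    have : ((j : E)) ^ Nat.card k = j := by
      have h1 := map_q (E := E) (j : k)
      rwa [map_natCast] at h1
    rw [this]
    push_cast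
    ring

variable (p) in
/-- The Artin-Schreier polynomial. -/
noncomputable def asP (μ δ : k) : k[X] := X ^ p - C μ * X - C δ

omit [Finite k] [CharP k p] in
theorem asP_lt (μ δ : k) : (C μ * X + C δ : k[X]).degree < (X ^ p : k[X]).degree := by
  rw [degree_X_pow]
  refine lt_of_le_of_lt (degree_linear_le) ?_
  exact_mod_cast hp.out.one_lt

omit [Finite k] [CharP k p] in
theorem asP_eq (μ δ : k) : asP p μ δ = X ^ p - (C μ * X + C δ) := by
  unfold asP
  ring

omit [Finite k] [CharP k p] in
theorem asP_monic (μ δ : k) : (asP p μ δ).Monic := by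
  rw [asP_eq]
  exact (monic_X_pow p).sub_of_left (asP_lt μ δ)

omit [Finite k] [CharP k p] in
theorem asP_deg (μ δ : k) : (asP p μ δ).natDegree = p := by
  rw [asP_eq, natDegree_eq_of_degree_eq (degree_sub_eq_left_of_degree_lt (asP_lt μ δ)),
    natDegree_X_pow]

omit [Finite k] [CharP k p] hp in
theorem asP_root {g : k[X]} (hg : g ∣ asP p μ δ) (h0 : aeval τ g = 0) :
    τ ^ p = algebraMap k E μ * τ + algebraMap k E δ := by
  obtain ⟨r, hr⟩ := hg
  have h1 := congrArg (aeval τ) hr
  rw [map_mul, h0, zero_mul] at h1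
  unfold asP at h1
  rw [map_sub, map_sub, map_pow, map_mul, aeval_X, aeval_C, aeval_C] at h1
  linear_combination h1

/-- **Irreducibility of Artin-Schreier polynomials.** -/
theorem as_irr (hw : w ≠ 0) (hμ : w ^ (p - 1) = μ) (hδ : ∀ y : k, y ^ p - μ * y ≠ δ) :
    Irreducible (asP p μ δ) := by
  have hmon := asP_monic (p := p) μ δ
  have hdeg := asP_deg (p := p) μ δ
  have hnu : ¬ IsUnit (asP p μ δ) := by
    intro hu
    have := natDegree_eq_zero_of_isUnit hu
    have := hp.out.pos
    omega
  obtain ⟨g, hg1, hg2⟩ := WfDvdMonoid.exists_irreducible_factor hnu hmon.ne_zero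
  haveI : Fact (Irreducible g) := ⟨hg1⟩
  have h0 : aeval (AdjoinRoot.root g) g = 0 := by
    rw [AdjoinRoot.aeval_eq, AdjoinRoot.mk_self]
  have hroot := asP_root hg2 h0
  haveI : CharP (AdjoinRoot g) p :=
    charP_of_injective_algebraMap (algebraMap k (AdjoinRoot g)).injective p
  have h1 := as_j hw hμ hroot p
  rw [CharP.cast_eq_zero, zero_mul, add_zero] at h1
  have h2 : g ∣ X ^ Nat.card k ^ p - X := by
    rw [← AdjoinRoot.mk_eq_zero, map_sub, map_pow, AdjoinRoot.mk_X, h1, sub_self]
  have h3 := hg1.natDegree_dvd_of_dvd_X_pow_card_pow_sub_X h2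
  rcases (Nat.dvd_prime hp.out).1 h3 with h4 | h4
  · exfalso
    obtain ⟨y, hy⟩ := exists_root_of_degree_eq_one
      (by rw [degree_eq_natDegree hg1.ne_zero, h4]; rfl)
    have h5 : (asP p μ δ).eval y = 0 := (hy.dvd hg2)
    unfold asP at h5
    simp only [eval_sub, eval_pow, eval_X, eval_mul, eval_C] at h5
    exact hδ y (by linear_combination h5)
  · have h5 : Associated g (asP p μ δ) := by
      refine associated_of_dvd_of_natDegree_le hg2 hmon.ne_zero ?_
      rw [hdeg, h4]
    exact h5.irreducible hg1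

end fr

section km

variable {F : Type} [Field F] [Finite F]

/-- **Irreducibility of Kummer polynomials.** -/
theorem km_irr {d : ℕ} (hd : 0 < d) {c ρ : F} (hc : c ≠ 0)
    (hρ : orderOf ρ = d)
    (h : ∀ (E : Type) [Field E] [Algebra F E] (v : E), v ^ d = algebraMap F E c →
      v ^ Nat.card F = algebraMap F E ρ * v) : Irreducible (X ^ d - C c : F[X]) := by
  have hmon : (X ^ d - C c : F[X]).Monic := monic_X_pow_sub_C c hd.ne'
  have hdeg : (X ^ d - C c : F[X]).natDegree = d := natDegree_X_pow_sub_C
  have hnu : ¬ IsUnit (X ^ d - C c : F[X]) := by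
    intro hu
    have := natDegree_eq_zero_of_isUnit hu
    omega
  obtain ⟨g, hg1, hg2⟩ := WfDvdMonoid.exists_irreducible_factor hnu hmon.ne_zero
  haveI : Fact (Irreducible g) := ⟨hg1⟩
  have hv : AdjoinRoot.root g ^ d = algebraMap F (AdjoinRoot g) c := by
    obtain ⟨r, hr⟩ := hg2
    have h1 := congrArg (AdjoinRoot.mk g) hr
    rw [map_mul, AdjoinRoot.mk_self, zero_mul, map_sub, map_pow, AdjoinRoot.mk_X,
      sub_eq_zero] at h1
    exact h1
  have hv0 : AdjoinRoot.root g ≠ 0 := by
    intro h0
    rw [h0, zero_pow hd.ne'] at hv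
    exact hc (by simpa using hv.symm)
  have h1 := h _ _ hv
  have h2 : ∀ j : ℕ, AdjoinRoot.root g ^ Nat.card F ^ j =
      algebraMap F (AdjoinRoot g) (ρ ^ j) * AdjoinRoot.root g := by
    intro j
    induction j with
    | zero => rw [pow_zero, pow_one, pow_zero, map_one, one_mul]
    | succ j ih =>
      rw [pow_succ, pow_mul, ih, mul_pow, h1, map_q, pow_succ, map_mul]
      ring
  have h3 : g ∣ X ^ Nat.card F ^ g.natDegree - X :=
    hg1.natDegree_dvd_iff_dvd_X_pow_card_pow_sub_X.1 dvd_rfl
  rw [← AdjoinRoot.mk_eq_zero, map_sub, map_pow, AdjoinRoot.mk_X, h2, sub_eq_zero] at h3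
  have h4 : algebraMap F (AdjoinRoot g) (ρ ^ g.natDegree) = 1 := by
    have : algebraMap F (AdjoinRoot g) (ρ ^ g.natDegree) * AdjoinRoot.root g =
      1 * AdjoinRoot.root g := by rw [h3, one_mul]
    exact mul_right_cancel₀ hv0 this
  have h5 : ρ ^ g.natDegree = 1 := (algebraMap F (AdjoinRoot g)).injective (by rw [h4, map_one])
  have h6 : d ∣ g.natDegree := by
    rw [← hρ]
    exact orderOf_dvd_of_pow_eq_one h5
  have h7 : Associated g (X ^ d - C c) := by
    refine associated_of_dvd_of_natDegree_le hg2 hmon.ne_zero ?_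
    rw [hdeg]
    exact Nat.le_of_dvd hg1.natDegree_pos h6
  exact h7.irreducible hg1

end km

end Run7.h905.BS
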