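import Pool.Agent.Run7.h905.BS.Glob

/-!
# The places above the twisting prime
-/

open Polynomial WithZero IsDedekindDomain
open scoped Classical

set_option autoImplicit false
set_option linter.all false

namespace Run7.h905.BS

open Pool.Agent.N352.JB
open Pool.Agent.W309.TD (NoTwo even_rep sq_of_nonsq isSquare_coe)

variable {k K B M : Type} [Field k] [Field K] [Algebra k[X] K] [IsFractionRing k[X] K]
  [CommRing B] [IsDedekindDomain B] [Field M] [Algebra B M] [IsFractionRing B M]
  [Algebra k[X] B] [Algebra.IsIntegral k[X] B] [Algebra K M] [Algebra k[X] M]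
  [IsScalarTower k[X] B M] [IsScalarTower k[X] K M] {f : k[X][X]} {x : B}

/-- The factorisation `f = ∏ h j + Q u ^ 2`. -/
structure Fac (f : k[X][X]) (Q : k[X]) {m : ℕ} (h : Fin m → k[X][X]) (u : k[X][X]) : Prop where
  mon : ∀ j, (h j).Monic
  max : ∀ j, (Ideal.span {h j, C Q}).IsMaximal
  cop : ∀ i j, i ≠ j → Ideal.span {h i, h j, C Q} = ⊤
  deg : 2 * u.natDegree < f.natDegree
  id : f = ∏ j, h j + C Q * u ^ 2

variable {Q : k[X]} {m : ℕ} {h : Fin m → k[X][X]} {u : k[X][X]}

section fac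

theorem Fac.pos (hF : Fac f Q h u) (j : Fin m) : 0 < (h j).natDegree := by
  rw [Nat.pos_iff_ne_zero]
  intro h0
  have h1 := (hF.mon j).natDegree_eq_zero.1 h0
  apply (hF.max j).ne_top
  rw [Ideal.eq_top_iff_one, ← h1]
  exact Ideal.subset_span (Or.inl rfl)

theorem Fac.sum_deg (hF : Fac f Q h u) (hf : f.Monic) : ∑ j, (h j).natDegree = f.natDegree := by
  have h1 : (∏ j, h j).natDegree = ∑ j, (h j).natDegree :=
    natDegree_prod_of_monic _ _ fun j _ => hF.mon j
  rw [← h1]
  have h2 : ∏ j, h j = f - C Q * u ^ 2 := by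
    conv_rhs => rw [hF.id]
    ring
  rw [h2]
  apply natDegree_sub_eq_left_of_natDegree_lt
  refine lt_of_le_of_lt (natDegree_C_mul_le _ _) ?_
  rw [natDegree_pow]
  exact hF.deg

theorem Fac.lt (hF : Fac f Q h u) (hf : f.Monic) (hm : 2 ≤ m) (j : Fin m) :
    (h j).natDegree < f.natDegree := by
  obtain ⟨i, hi⟩ : ∃ i : Fin m, i ≠ j := by
    by_cases hj : j = ⟨0, by omega⟩
    · exact ⟨⟨1, by omega⟩, by rw [hj]; intro h0; simp at h0⟩
    · exact ⟨⟨0, by omega⟩, fun h0 => hj h0.symm⟩
  rw [← hF.sum_deg hf]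
  have h1 : (h j).natDegree + (h i).natDegree ≤ ∑ j, (h j).natDegree := by
    have h2 : ∑ l ∈ ({j, i} : Finset (Fin m)), (h l).natDegree ≤ ∑ l, (h l).natDegree :=
      Finset.sum_le_sum_of_subset (Finset.subset_univ _)
    rw [Finset.sum_pair (Ne.symm hi)] at h2
    exact h2
  have := hF.pos i
  omega

variable (x) in
/-- The value of `h j`. -/
noncomputable def Hv (g : k[X][X]) : B := aeval x g

theorem Fac.prod (hF : Fac f Q h u) (hc : Cv f x) :
    ∏ j, Hv x (h j) = -(algebraMap k[X] B Q * Hv x u ^ 2) := by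
  have h1 := congrArg (aeval x) hF.id
  rw [hc.root, map_add, map_prod, map_mul, map_pow, aeval_C] at h1
  unfold Hv
  linear_combination -h1

theorem Fac.ne (hF : Fac f Q h u) (hc : Cv f x) (hm : 2 ≤ m) (j : Fin m) : Hv x (h j) ≠ 0 := by
  intro h0
  have h1 := natDegree_le_of_dvd (hc.ker _ h0) (hF.mon j).ne_zero
  have := hF.lt hc.monic hm j
  omega

theorem Fac.exists_mem (hF : Fac f Q h u) (hc : Cv f x) (w : HeightOneSpectrum B) (hw : Ov Q w) :
    ∃ j, Hv x (h j) ∈ w.asIdeal := by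
  have h1 : ∏ j, Hv x (h j) ∈ w.asIdeal := by
    rw [hF.prod hc]
    exact neg_mem (Ideal.mul_mem_right _ _ hw)
  haveI := w.isPrime
  obtain ⟨j, -, hj⟩ := Ideal.IsPrime.prod_mem_iff.1 h1
  exact ⟨j, hj⟩

theorem Fac.mem_unique (hF : Fac f Q h u) (w : HeightOneSpectrum B) (hw : Ov Q w)
    {i j : Fin m} (hi : Hv x (h i) ∈ w.asIdeal) (hj : Hv x (h j) ∈ w.asIdeal) : i = j := by
  by_contra hij
  have h1 : Ideal.span {h i, h j, C Q} ≤ w.asIdeal.comap (aeval x : k[X][X] →ₐ[k[X]] B) := by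
    rw [Ideal.span_le]
    rintro z (rfl | rfl | hz)
    · exact hi
    · exact hj
    · rw [Set.mem_singleton_iff] at hz
      rw [hz, SetLike.mem_coe, Ideal.mem_comap, aeval_C]
      exact hw
  rw [hF.cop i j hij, top_le_iff, Ideal.eq_top_iff_one, Ideal.mem_comap, map_one] at h1
  exact w.isPrime.ne_top ((Ideal.eq_top_iff_one _).2 h1)

variable (x Q) in
/-- The ideal above `Q` which contains the value of `g`. -/
noncomputable def IdQ (g : k[X][X]) : Ideal B := Ideal.span {Hv x g, algebraMap k[X] B Q}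

theorem Fac.mem_span (hF : Fac f Q h u) (j : Fin m) : f ∈ Ideal.span {h j, C Q} := by
  rw [hF.id]
  refine Ideal.add_mem _ ?_ (Ideal.mul_mem_right _ _ (Ideal.subset_span (Or.inr rfl)))
  rw [← Finset.prod_erase_mul _ _ (Finset.mem_univ j)]
  exact Ideal.mul_mem_left _ _ (Ideal.subset_span (Or.inl rfl))

theorem Fac.idq_max (hF : Fac f Q h u) (hc : Cv f x) (j : Fin m) : (IdQ x Q (h j)).IsMaximal := by
  have hmap : (Ideal.span {h j, C Q}).map (aeval x : k[X][X] →ₐ[k[X]] B) = IdQ x Q (h j) := by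
    rw [Ideal.map_span, Set.image_pair]
    unfold IdQ Hv
    congr 2
    rw [aeval_C]
  have hker : RingHom.ker (aeval x : k[X][X] →ₐ[k[X]] B) ≤ Ideal.span {h j, C Q} := by
    intro g hg
    obtain ⟨r, hr⟩ := hc.ker g hg
    rw [hr]
    exact Ideal.mul_mem_right _ _ (hF.mem_span j)
  rw [← hmap]
  haveI := hF.max j
  rcases Ideal.map_eq_top_or_isMaximal_of_surjective (aeval x : k[X][X] →ₐ[k[X]] B) hc.surj
    (hF.max j) with h1 | h1
  · exfalso
    have h2 : Ideal.comap (aeval x : k[X][X] →ₐ[k[X]] B)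
        ((Ideal.span {h j, C Q}).map (aeval x : k[X][X] →ₐ[k[X]] B)) = Ideal.span {h j, C Q} := by
      rw [Ideal.comap_map_of_surjective _ hc.surj]
      exact sup_eq_left.2 hker
    rw [h1, Ideal.comap_top] at h2
    exact (hF.max j).ne_top h2.symm
  · exact h1

theorem Fac.idq_le (hF : Fac f Q h u) (hc : Cv f x) (w : HeightOneSpectrum B) (hw : Ov Q w)
    {j : Fin m} (hj : Hv x (h j) ∈ w.asIdeal) : w.asIdeal = IdQ x Q (h j) := by
  have h1 : IdQ x Q (h j) ≤ w.asIdeal := by
    unfold IdQ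
    rw [Ideal.span_le]
    rintro z (rfl | hz)
    · exact hj
    · rw [Set.mem_singleton_iff] at hz
      rw [hz]
      exact hw
  exact ((hF.idq_max hc j).eq_of_le w.isPrime.ne_top h1).symm

/-- The place above `Q` with the index `j`. -/
noncomputable def Fac.pl (hF : Fac f Q h u) (hc : Cv f x) (hQ : Irreducible Q) (j : Fin m) :
    HeightOneSpectrum B where
  asIdeal := IdQ x Q (h j)
  isPrime := (hF.idq_max hc j).isPrime
  ne_bot := by
    intro h0
    have h1 : algebraMap k[X] B Q ∈ IdQ x Q (h j) := Ideal.subset_span (Or.inr rfl)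
    rw [h0, Ideal.mem_bot] at h1
    exact hQ.ne_zero (hc.inj (h1.trans (map_zero _).symm))

theorem Fac.pl_ov (hF : Fac f Q h u) (hc : Cv f x) (hQ : Irreducible Q) (j : Fin m) :
    Ov Q (hF.pl hc hQ j) := Ideal.subset_span (Or.inr rfl)

theorem Fac.pl_mem (hF : Fac f Q h u) (hc : Cv f x) (hQ : Irreducible Q) (j : Fin m) :
    Hv x (h j) ∈ (hF.pl hc hQ j).asIdeal := Ideal.subset_span (Or.inl rfl)

theorem Fac.eq_pl (hF : Fac f Q h u) (hc : Cv f x) (hQ : Irreducible Q)
    (w : HeightOneSpectrum B) (hw : Ov Q w) {j : Fin m} (hj : Hv x (h j) ∈ w.asIdeal) :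
    w = hF.pl hc hQ j := HeightOneSpectrum.ext (hF.idq_le hc w hw hj)

/-- The values of the other factors are units. -/
theorem Fac.int_prod (hF : Fac f Q h u) (hc : Cv f x) (w : HeightOneSpectrum B) (hw : Ov Q w)
    {j : Fin m} (hj : Hv x (h j) ∈ w.asIdeal) :
    w.intValuation (Hv x (h j)) =
      w.intValuation (algebraMap k[X] B Q) * w.intValuation (Hv x u) ^ 2 := by
  have h1 := congrArg w.intValuation (hF.prod hc)
  rw [Valuation.map_neg, map_mul, map_pow, map_prod,
    ← Finset.mul_prod_erase _ _ (Finset.mem_univ j)] at h1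
  have h2 : ∏ i ∈ Finset.univ.erase j, w.intValuation (Hv x (h i)) = 1 := by
    apply Finset.prod_eq_one
    intro i hi
    rw [HeightOneSpectrum.intValuation_eq_one_iff]
    intro h3
    exact (Finset.mem_erase.1 hi).1 (hF.mem_unique w hw h3 hj)
  rwa [h2, mul_one] at h1

/-- `Q` is unramified. -/
theorem Fac.int_q (hF : Fac f Q h u) (hc : Cv f x) (w : HeightOneSpectrum B) (hw : Ov Q w) :
    w.intValuation (algebraMap k[X] B Q) = exp (-1 : ℤ) := by
  obtain ⟨j, hj⟩ := hF.exists_mem hc w hw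
  have hle : w.intValuation (algebraMap k[X] B Q) ≤ exp (-1 : ℤ) := by
    have := (w.intValuation_le_pow_iff_mem (algebraMap k[X] B Q) 1).2 (by rw [pow_one]; exact hw)
    simpa using this
  apply le_antisymm hle
  by_contra hlt
  rw [not_le] at hlt
  have h2 : w.intValuation (algebraMap k[X] B Q) ≤ exp (-((2 : ℕ) : ℤ)) := by
    by_cases h0 : w.intValuation (algebraMap k[X] B Q) = 0
    · rw [h0]; exact zero_le
    · rw [← exp_log h0, exp_lt_exp] at hlt
      rw [← exp_log h0, exp_le_exp]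
      push_cast
      omega
  have h3 : w.intValuation (Hv x (h j)) ≤ exp (-((2 : ℕ) : ℤ)) := by
    rw [hF.int_prod hc w hw hj]
    exact (mul_le_of_le_one_right' (pow_le_one' (w.intValuation_le_one _) 2)).trans h2
  rw [w.intValuation_le_pow_iff_mem] at h2 h3
  have h4 : w.asIdeal ≤ w.asIdeal ^ 2 := by
    conv_lhs => rw [hF.idq_le hc w hw hj]
    unfold IdQ
    rw [Ideal.span_le]
    rintro z (rfl | hz)
    · exact h3
    · rw [Set.mem_singleton_iff] at hz
      rw [hz]
      exact h2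
  have h5 : w.asIdeal ^ 2 < w.asIdeal := by
    have := Ideal.pow_right_strictAnti w.asIdeal w.ne_bot w.isPrime.ne_top (show 1 < 2 by norm_num)
    simpa using this
  exact absurd (lt_of_lt_of_le h5 h4) (lt_irrefl _)

end fac

section parity

/-- The parity of the valuation. -/
noncomputable def pr (w : HeightOneSpectrum B) (y : M) : ZMod 2 := ((log (w.valuation M y) : ℤ) : ZMod 2)

theorem pr_mul (w : HeightOneSpectrum B) {y z : M} (hy : y ≠ 0) (hz : z ≠ 0) :
    pr w (y * z) = pr w y + pr w z := by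
  unfold pr
  rw [map_mul, log_mul ((Valuation.ne_zero_iff _).2 hy) ((Valuation.ne_zero_iff _).2 hz)]
  push_cast
  rfl

theorem pr_one (w : HeightOneSpectrum B) : pr w (1 : M) = 0 := by
  unfold pr
  rw [map_one, log_one, Int.cast_zero]

theorem pr_neg (w : HeightOneSpectrum B) (y : M) : pr w (-y) = pr w y := by
  unfold pr
  rw [Valuation.map_neg]

theorem pr_pow (w : HeightOneSpectrum B) {y : M} (hy : y ≠ 0) (n : ℕ) :
    pr w (y ^ n) = (n : ZMod 2) * pr w y := by
  induction n with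
  | zero => rw [pow_zero, pr_one, Nat.cast_zero, zero_mul]
  | succ n ih =>
    rw [pow_succ, pr_mul w (pow_ne_zero _ hy) hy, ih]
    push_cast
    ring

theorem pr_prod (w : HeightOneSpectrum B) {ι : Type} (s : Finset ι) (y : ι → M)
    (hy : ∀ i ∈ s, y i ≠ 0) : pr w (∏ i ∈ s, y i) = ∑ i ∈ s, pr w (y i) := by
  induction s using Finset.induction_on with
  | empty => rw [Finset.prod_empty, Finset.sum_empty, pr_one]
  | insert a s ha ih =>
    rw [Finset.prod_insert ha, Finset.sum_insert ha,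
      pr_mul w (hy a (Finset.mem_insert_self _ _))
        (Finset.prod_ne_zero_iff.2 fun i hi => hy i (Finset.mem_insert_of_mem hi)),
      ih fun i hi => hy i (Finset.mem_insert_of_mem hi)]

theorem sq_pr (w : HeightOneSpectrum B) {y : M} (hy : y ≠ 0) :
    IsSquare (w.valuation M y) ↔ pr w y = 0 := by
  have h0 : w.valuation M y ≠ 0 := (Valuation.ne_zero_iff _).2 hy
  unfold pr
  conv_lhs => rw [← exp_log h0]
  rw [ZMod.intCast_zmod_eq_zero_iff_dvd]
  have h1 : IsSquare (exp (log (w.valuation M y))) ↔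
      IsSquare (((Multiplicative.ofAdd (log (w.valuation M y)) : Multiplicative ℤ)) :
        WithZero (Multiplicative ℤ)) := Iff.rfl
  rw [h1, isSquare_coe, toAdd_ofAdd, even_iff_two_dvd]
  rfl

theorem pr_cases (a : ZMod 2) : a = 0 ∨ a = 1 := by
  fin_cases a
  · exact Or.inl rfl
  · exact Or.inr rfl

/-- The parity at the places above `Q`. -/
theorem Fac.pr_q (hF : Fac f Q h u) (hc : Cv f x) (w : HeightOneSpectrum B) (hw : Ov Q w) :
    pr w (algebraMap K M (algebraMap k[X] K Q)) = 1 := by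
  unfold pr
  rw [← IsScalarTower.algebraMap_apply k[X] K M, IsScalarTower.algebraMap_apply k[X] B M,
    HeightOneSpectrum.valuation_of_algebraMap, hF.int_q hc w hw, log_exp]
  rfl

theorem Fac.pr_H (hF : Fac f Q h u) (hc : Cv f x) (hm : 2 ≤ m) (w : HeightOneSpectrum B)
    (hw : Ov Q w) {i : Fin m} (hi : Hv x (h i) ∈ w.asIdeal) (j : Fin m) :
    pr w (algebraMap B M (Hv x (h j))) = if j = i then 1 else 0 := by
  unfold pr
  rw [HeightOneSpectrum.valuation_of_algebraMap]
  by_cases hji : j = i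
  · rw [if_pos hji, hji, hF.int_prod hc w hw hi, hF.int_q hc w hw]
    have hU : w.intValuation (Hv x u) ≠ 0 := by
      intro h0
      have h1 := hF.int_prod hc w hw hi
      rw [h0, zero_pow two_ne_zero, mul_zero] at h1
      exact w.intValuation_ne_zero _ (hF.ne hc hm i) h1
    rw [log_mul exp_ne_zero (pow_ne_zero _ hU), log_exp, log_pow]
    push_cast
    have : ((2 : ℕ) : ZMod 2) = 0 := rfl
    have h2 : (2 : ZMod 2) = 0 := rfl
    simp [h2]
  · rw [if_neg hji]
    have h1 : w.intValuation (Hv x (h j)) = 1 := by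
      rw [HeightOneSpectrum.intValuation_eq_one_iff]
      intro h3
      exact hji (hF.mem_unique w hw h3 hi)
    rw [h1, log_one, Int.cast_zero]

end parity

end Run7.h905.BS
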