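import Pool.Agent.Run7.h905.BS.Above

/-!
# The places above the twisting prime, the general case
-/

open Polynomial WithZero IsDedekindDomain
open scoped Classical

set_option autoImplicit false
set_option linter.all false

namespace Run7.h905.BS

open Pool.Agent.N352.JB
open Pool.Agent.W309.TD (NoTwo even_rep sq_of_nonsq isSquare_coe)

variable {k K B M : Type} [Field k] [Field K] [Algebra k[X] K] [IsFractionRing k[X] K]
  [CommRing B] [IsDedekindDomain B] [Field M] [Algebra B M] [IsFractionRing B M]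
  [Algebra k[X] B] [Algebra.IsIntegral k[X] B] [Algebra K M] [Algebra k[X] M]
  [IsScalarTower k[X] B M] [IsScalarTower k[X] K M] {f : k[X][X]} {x : B}

/-- The factorisation `f = ∏ h j` modulo `Q`. -/
structure Fac0 (f : k[X][X]) (Q : k[X]) {m : ℕ} (h : Fin m → k[X][X]) (v : k[X][X]) : Prop where
  max : ∀ j, (Ideal.span {h j, C Q}).IsMaximal
  cop : ∀ i j, i ≠ j → Ideal.span {h i, h j, C Q} = ⊤
  id : f = ∏ j, h j + C Q * v

variable {Q : k[X]} {m : ℕ} {h : Fin m → k[X][X]} {v : k[X][X]}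

section fac

theorem Fac0.prod (hF : Fac0 f Q h v) (hc : Cv f x) :
    ∏ j, Hv x (h j) = -(algebraMap k[X] B Q * Hv x v) := by
  have h1 := congrArg (aeval x) hF.id
  rw [hc.root, map_add, map_prod, map_mul, aeval_C] at h1
  unfold Hv
  linear_combination -h1

theorem Fac0.exists_mem (hF : Fac0 f Q h v) (hc : Cv f x) (w : HeightOneSpectrum B) (hw : Ov Q w) :
    ∃ j, Hv x (h j) ∈ w.asIdeal := by
  have h1 : ∏ j, Hv x (h j) ∈ w.asIdeal := by
    rw [hF.prod hc]
    exact neg_mem (Ideal.mul_mem_right _ _ hw)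
  haveI := w.isPrime
  obtain ⟨j, -, hj⟩ := Ideal.IsPrime.prod_mem_iff.1 h1
  exact ⟨j, hj⟩

theorem Fac0.mem_unique (hF : Fac0 f Q h v) (w : HeightOneSpectrum B) (hw : Ov Q w)
    {i j : Fin m} (hi : Hv x (h i) ∈ w.asIdeal) (hj : Hv x (h j) ∈ w.asIdeal) : i = j := by
  by_contra hij
  have h1 : Ideal.span {h i, h j, C Q} ≤ w.asIdeal.comap (aeval x : k[X][X] →ₐ[k[X]] B) := by
    rw [Ideal.span_le]
    rintro z (rfl | rfl | hz)
    · exact hi
    · exact hj
    · rw [Set.mem_singleton_iff] at hz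
      rw [hz, SetLike.mem_coe, Ideal.mem_comap, aeval_C]
      exact hw
  rw [hF.cop i j hij, top_le_iff, Ideal.eq_top_iff_one, Ideal.mem_comap, map_one] at h1
  exact w.isPrime.ne_top ((Ideal.eq_top_iff_one _).2 h1)

theorem Fac0.mem_span (hF : Fac0 f Q h v) (j : Fin m) : f ∈ Ideal.span {h j, C Q} := by
  rw [hF.id]
  refine Ideal.add_mem _ ?_ (Ideal.mul_mem_right _ _ (Ideal.subset_span (Or.inr rfl)))
  rw [← Finset.prod_erase_mul _ _ (Finset.mem_univ j)]
  exact Ideal.mul_mem_left _ _ (Ideal.subset_span (Or.inl rfl))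

theorem Fac0.idq_max (hF : Fac0 f Q h v) (hc : Cv f x) (j : Fin m) : (IdQ x Q (h j)).IsMaximal := by
  have hmap : (Ideal.span {h j, C Q}).map (aeval x : k[X][X] →ₐ[k[X]] B) = IdQ x Q (h j) := by
    rw [Ideal.map_span, Set.image_pair]
    unfold IdQ Hv
    congr 2
    rw [aeval_C]
  have hker : RingHom.ker (aeval x : k[X][X] →ₐ[k[X]] B) ≤ Ideal.span {h j, C Q} := by
    intro g hg
    obtain ⟨r, hr⟩ := hc.ker g hg
    rw [hr]
    exact Ideal.mul_mem_right _ _ (hF.mem_span j)
  rw [← hmap]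
  haveI := hF.max j
  rcases Ideal.map_eq_top_or_isMaximal_of_surjective (aeval x : k[X][X] →ₐ[k[X]] B) hc.surj
    (hF.max j) with h1 | h1
  · exfalso
    have h2 : Ideal.comap (aeval x : k[X][X] →ₐ[k[X]] B)
        ((Ideal.span {h j, C Q}).map (aeval x : k[X][X] →ₐ[k[X]] B)) = Ideal.span {h j, C Q} := by
      rw [Ideal.comap_map_of_surjective _ hc.surj]
      exact sup_eq_left.2 hker
    rw [h1, Ideal.comap_top] at h2
    exact (hF.max j).ne_top h2.symm
  · exact h1

theorem Fac0.idq_le (hF : Fac0 f Q h v) (hc : Cv f x) (w : HeightOneSpectrum B) (hw : Ov Q w)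
    {j : Fin m} (hj : Hv x (h j) ∈ w.asIdeal) : w.asIdeal = IdQ x Q (h j) := by
  have h1 : IdQ x Q (h j) ≤ w.asIdeal := by
    unfold IdQ
    rw [Ideal.span_le]
    rintro z (rfl | hz)
    · exact hj
    · rw [Set.mem_singleton_iff] at hz
      rw [hz]
      exact hw
  exact ((hF.idq_max hc j).eq_of_le w.isPrime.ne_top h1).symm

/-- The place above `Q` with the index `j`. -/
noncomputable def Fac0.pl (hF : Fac0 f Q h v) (hc : Cv f x) (hQ : Irreducible Q) (j : Fin m) :
    HeightOneSpectrum B where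
  asIdeal := IdQ x Q (h j)
  isPrime := (hF.idq_max hc j).isPrime
  ne_bot := by
    intro h0
    have h1 : algebraMap k[X] B Q ∈ IdQ x Q (h j) := Ideal.subset_span (Or.inr rfl)
    rw [h0, Ideal.mem_bot] at h1
    exact hQ.ne_zero (hc.inj (h1.trans (map_zero _).symm))

theorem Fac0.pl_ov (hF : Fac0 f Q h v) (hc : Cv f x) (hQ : Irreducible Q) (j : Fin m) :
    Ov Q (hF.pl hc hQ j) := Ideal.subset_span (Or.inr rfl)

theorem Fac0.pl_mem (hF : Fac0 f Q h v) (hc : Cv f x) (hQ : Irreducible Q) (j : Fin m) :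
    Hv x (h j) ∈ (hF.pl hc hQ j).asIdeal := Ideal.subset_span (Or.inl rfl)

theorem Fac0.eq_pl (hF : Fac0 f Q h v) (hc : Cv f x) (hQ : Irreducible Q)
    (w : HeightOneSpectrum B) (hw : Ov Q w) {j : Fin m} (hj : Hv x (h j) ∈ w.asIdeal) :
    w = hF.pl hc hQ j := HeightOneSpectrum.ext (hF.idq_le hc w hw hj)

/-- The values of the other factors are units. -/
theorem Fac0.int_prod (hF : Fac0 f Q h v) (hc : Cv f x) (w : HeightOneSpectrum B) (hw : Ov Q w)
    {j : Fin m} (hj : Hv x (h j) ∈ w.asIdeal) :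
    w.intValuation (Hv x (h j)) =
      w.intValuation (algebraMap k[X] B Q) * w.intValuation (Hv x v) := by
  have h1 := congrArg w.intValuation (hF.prod hc)
  rw [Valuation.map_neg, map_mul, map_prod,
    ← Finset.mul_prod_erase _ _ (Finset.mem_univ j)] at h1
  have h2 : ∏ i ∈ Finset.univ.erase j, w.intValuation (Hv x (h i)) = 1 := by
    apply Finset.prod_eq_one
    intro i hi
    rw [HeightOneSpectrum.intValuation_eq_one_iff]
    intro h3
    exact (Finset.mem_erase.1 hi).1 (hF.mem_unique w hw h3 hj)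
  rwa [h2, mul_one] at h1

/-- `Q` is unramified. -/
theorem Fac0.int_q (hF : Fac0 f Q h v) (hc : Cv f x) (w : HeightOneSpectrum B) (hw : Ov Q w) :
    w.intValuation (algebraMap k[X] B Q) = exp (-1 : ℤ) := by
  obtain ⟨j, hj⟩ := hF.exists_mem hc w hw
  have hle : w.intValuation (algebraMap k[X] B Q) ≤ exp (-1 : ℤ) := by
    have := (w.intValuation_le_pow_iff_mem (algebraMap k[X] B Q) 1).2 (by rw [pow_one]; exact hw)
    simpa using this
  apply le_antisymm hle
  by_contra hlt
  rw [not_le] at hlt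
  have h2 : w.intValuation (algebraMap k[X] B Q) ≤ exp (-((2 : ℕ) : ℤ)) := by
    by_cases h0 : w.intValuation (algebraMap k[X] B Q) = 0
    · rw [h0]; exact zero_le
    · rw [← exp_log h0, exp_lt_exp] at hlt
      rw [← exp_log h0, exp_le_exp]
      push_cast
      omega
  have h3 : w.intValuation (Hv x (h j)) ≤ exp (-((2 : ℕ) : ℤ)) := by
    rw [hF.int_prod hc w hw hj]
    exact (mul_le_of_le_one_right' (w.intValuation_le_one _)).trans h2
  rw [w.intValuation_le_pow_iff_mem] at h2 h3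
  have h4 : w.asIdeal ≤ w.asIdeal ^ 2 := by
    conv_lhs => rw [hF.idq_le hc w hw hj]
    unfold IdQ
    rw [Ideal.span_le]
    rintro z (rfl | hz)
    · exact h3
    · rw [Set.mem_singleton_iff] at hz
      rw [hz]
      exact h2
  have h5 : w.asIdeal ^ 2 < w.asIdeal := by
    have := Ideal.pow_right_strictAnti w.asIdeal w.ne_bot w.isPrime.ne_top (show 1 < 2 by norm_num)
    simpa using this
  exact absurd (lt_of_lt_of_le h5 h4) (lt_irrefl _)

end fac


/-- The parity at the places above `Q`. -/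
theorem Fac0.pr_q (hF : Fac0 f Q h v) (hc : Cv f x) (w : HeightOneSpectrum B) (hw : Ov Q w) :
    pr w (algebraMap K M (algebraMap k[X] K Q)) = 1 := by
  unfold pr
  rw [← IsScalarTower.algebraMap_apply k[X] K M, IsScalarTower.algebraMap_apply k[X] B M,
    HeightOneSpectrum.valuation_of_algebraMap, hF.int_q hc w hw, log_exp]
  rfl

end Run7.h905.BS
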