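import Pool.Agent.Run7.h905.BS.Gen
import Pool.Agent.Run7.h905.BS.Above0

/-!
# The bound for the 2-Selmer group, and what happens if it is attained
-/

open Polynomial WithZero IsDedekindDomain
open scoped Classical

set_option autoImplicit false
set_option linter.all false

namespace Run7.h905.BS

open Pool.Agent.Y160.SE Pool.Agent.N352.JB
open Pool.Agent.TH115.GD (incl rs ak exists_restrict)
open Pool.Agent.N424.JB (good_two)
open Pool.Agent.W309.TD (NoTwo even_rep sq_of_nonsq isSquare_coe)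
open Pool.Agent.N352.Sha (ShaTrivial ShaTrivialAt)

section zm

theorem mem_zm {m : ℕ} (y : Fin m → ZMod 2) :
    y ∈ AddSubgroup.zmultiples (1 : Fin m → ZMod 2) ↔ ∃ a, ∀ j, y j = a := by
  rw [AddSubgroup.mem_zmultiples_iff]
  constructor
  · rintro ⟨n, rfl⟩
    exact ⟨(n : ZMod 2), fun j => by simp⟩
  · rintro ⟨a, ha⟩
    rcases pr_cases a with h | h
    · refine ⟨0, ?_⟩
      funext j
      rw [ha j, h]
      simp
    · refine ⟨1, ?_⟩
      funext j
      rw [ha j, h]
      simp

theorem card_zm {m : ℕ} (hm : 1 ≤ m) :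
    Nat.card ((Fin m → ZMod 2) ⧸ AddSubgroup.zmultiples (1 : Fin m → ZMod 2)) = 2 ^ (m - 1) := by
  have h1 : Nat.card (Fin m → ZMod 2) = 2 ^ m := by
    rw [Nat.card_eq_fintype_card, Fintype.card_fun, ZMod.card, Fintype.card_fin]
  have h2 : Nat.card (AddSubgroup.zmultiples (1 : Fin m → ZMod 2)) = 2 := by
    rw [Nat.card_zmultiples]
    apply addOrderOf_eq_prime
    · funext j
      show 2 • (1 : ZMod 2) = 0
      rfl
    · intro h
      have := congrFun h ⟨0, by omega⟩
      exact one_ne_zero (α := ZMod 2) this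
  have h3 := AddSubgroup.card_eq_card_quotient_mul_card_addSubgroup
    (AddSubgroup.zmultiples (1 : Fin m → ZMod 2))
  rw [h1, h2] at h3
  have h4 : 2 ^ m = 2 ^ (m - 1) * 2 := by
    rw [← pow_succ]
    congr 1
    omega
  omega

end zm

variable {k K B M : Type} [Field k] [Field K] [Algebra k[X] K] [IsFractionRing k[X] K]
  [CommRing B] [IsDedekindDomain B] [Field M] [Algebra B M] [IsFractionRing B M]
  [Algebra k[X] B] [Algebra.IsIntegral k[X] B] [Algebra K M] [Algebra k[X] M]
  [IsScalarTower k[X] B M] [IsScalarTower k[X] K M] {f : k[X][X]} {x : B}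
  {Q : k[X]} {m : ℕ} {h : Fin m → k[X][X]} {v : k[X][X]}

section desc

variable [PerfectField k] (hF : Fac0 f Q h v) (hc : Cv f x) (hQ : Irreducible Q) (hcl : NoTwo B)
  (hun : ∀ u : Bˣ, IsSquare (Algebra.norm K (algebraMap B M (u : B))) →
    IsSquare (algebraMap B M (u : B)))

include hF hc hQ hcl hun

/-- A Selmer element with constant parity above `Q` is a square. -/
theorem Fac0.const_sq {g : K[X]} (hcop : IsCoprime g (tF K f (qK K Q)))
    (hN : IsSquare (Algebra.norm K (AdjoinRoot.mk (tF K f (qK K Q)) g)))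
    (hloc : LocAll (k := k) (tF K f (qK K Q)) g)
    (hconst : ∃ a, ∀ j, pr (hF.pl hc hQ j) (aeval (tθ M x (qK K Q)) g) = a) :
    ∃ s : K[X], tF K f (qK K Q) ∣ g - s ^ 2 := by
  have hq := qK_ne (K := K) hQ
  set θ := tθ M x (qK K Q) with hθ
  have hz : aeval θ g ≠ 0 := hc.ne_of_cop (M := M) hcop
  obtain ⟨a, ha⟩ := hconst
  refine hc.sq_dvd (M := M) hq ?_
  rw [← hθ]
  have key : ∀ w : HeightOneSpectrum B, Ov Q w → pr w (aeval θ g) = a := by
    intro w hw
    obtain ⟨i, hi⟩ := hF.exists_mem hc w hw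
    rw [hF.eq_pl hc hQ w hw hi]
    exact ha i
  refine hc.glob hcl hun hQ hz ?_ ?_ ?_ ?_
  · rw [hc.tF_norm (M := M) hq] at hN
    exact hN
  · intro w hw
    exact hc.even_off hQ.ne_zero w hw (hloc _)
  · intro w hw
    rw [sq_pr w ((_root_.map_ne_zero _).2 hq), hF.pr_q hc w hw]
    exact one_ne_zero
  · rcases pr_cases a with h1 | h1
    · left
      intro w hw
      rw [sq_pr w hz, key w hw, h1]
    · right
      intro w hw
      rw [sq_pr w hz, key w hw, h1]
      exact one_ne_zero

/-- **The descent.** -/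
theorem Fac0.desc (h2 : (2 : K) ≠ 0) (hm : 1 ≤ m) (hsep : (tF K f (qK K Q)).Separable) :
    (∀ x : Jac 2 (tF K f (qK K Q)) K, 2 • x = 0 → x = 0) ∧
      (∃ r ≤ m - 1, Nat.card (Jac 2 (tF K f (qK K Q)) K ⧸ dbl (Jac 2 (tF K f (qK K Q)) K)) =
        2 ^ r) ∧
      (Nat.card (Jac 2 (tF K f (qK K Q)) K ⧸ dbl (Jac 2 (tF K f (qK K Q)) K)) = 2 ^ (m - 1) →
        ShaTrivial 2 (tF K f (qK K Q)) k[X]) := by
  have hq := qK_ne (K := K) hQ
  have hmon : (tF K f (qK K Q)).Monic := hc.tF_monic _
  have hirr : Irreducible (tF K f (qK K Q)) := hc.tF_irr M hq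
  have hodd : Odd (tF K f (qK K Q)).natDegree := by
    rw [hc.tF_deg]; exact hc.odd
  have hg : Good 2 (-1 : K) (tF K f (qK K Q)) := good_two h2 hmon hsep hodd
  obtain ⟨θ, hθ⟩ : ∃ θ, θ = tθ M x (qK K Q) := ⟨_, rfl⟩
  have hex := kc_exists hg (SeparableClosure K) hodd
  choose hh hk hcop hloc hN using hex
  have hz : ∀ P, aeval θ (hh P) ≠ 0 := by
    intro P
    rw [hθ]
    exact hc.ne_of_cop (M := M) (hcop P)
  have hsq : ∀ g s : K[X], aeval θ g ≠ 0 → tF K f (qK K Q) ∣ g - s ^ 2 →
      ∀ w : HeightOneSpectrum B, pr w (aeval θ g) = 0 := by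
    intro g s hg0 hs w
    have h3 : IsSquare (aeval θ g) := by
      rw [hθ]
      exact hc.dvd_sq hs
    rw [← sq_pr w hg0]
    obtain ⟨y, hy⟩ := h3
    exact ⟨w.valuation M y, by rw [hy, map_mul]⟩
  have hadd : ∀ P P' : Jac 2 (tF K f (qK K Q)) K, ∀ w : HeightOneSpectrum B,
      pr w (aeval θ (hh (P + P'))) = pr w (aeval θ (hh P)) + pr w (aeval θ (hh P')) := by
    intro P P' w
    have h3 := ((hk P).add (hk P')).add (hk (P + P'))
    rw [← two_nsmul] at h3
    obtain ⟨s, hs⟩ := h3.of_two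
    have h0 : aeval θ (hh P * hh P' * hh (P + P')) ≠ 0 := by
      rw [map_mul, map_mul]
      exact mul_ne_zero (mul_ne_zero (hz _) (hz _)) (hz _)
    have h4 := hsq _ s h0 hs w
    rw [map_mul, map_mul, pr_mul w (mul_ne_zero (hz _) (hz _)) (hz _),
      pr_mul w (hz _) (hz _)] at h4
    have h5 := CharTwo.add_self_eq_zero (pr w (aeval θ (hh (P + P'))))
    linear_combination h5 - h4
  let Pi0 : Jac 2 (tF K f (qK K Q)) K →+ (Fin m → ZMod 2) :=
    AddMonoidHom.mk' (fun P j => pr (hF.pl hc hQ j) (aeval θ (hh P))) (by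
      intro P P'
      funext j
      exact hadd P P' _)
  let Z := AddSubgroup.zmultiples (1 : Fin m → ZMod 2)
  let Pi1 := (QuotientAddGroup.mk' Z).comp Pi0
  have hker : Pi1.ker = dbl (Jac 2 (tF K f (qK K Q)) K) := by
    ext P
    rw [AddMonoidHom.mem_ker, mem_dbl]
    constructor
    · intro h3
      have h4 : Pi0 P ∈ Z := (QuotientAddGroup.eq_zero_iff _).1 h3
      have h4' := (mem_zm (Pi0 P)).1 h4
      have hc1 : ∃ a, ∀ j, pr (hF.pl hc hQ j) (aeval (tθ M x (qK K Q)) (hh P)) = a := by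
        rw [← hθ]
        exact h4'
      obtain ⟨s, hs⟩ := hF.const_sq (M := M) hc hQ hcl hun (hcop P) (hN P)
        (fun v => Pool.Agent.N424.JB.LocIm.up (hloc P)) hc1
      obtain ⟨R, hR⟩ := KC.sq hg hirr (hk P) hs
      exact ⟨R, hR.symm⟩
    · rintro ⟨R, rfl⟩
      obtain ⟨s, hs⟩ := (hk (2 • R)).of_two
      have h3 : Pi0 (2 • R) = 0 := by
        funext j
        exact hsq _ s (hz _) hs _
      show QuotientAddGroup.mk' Z (Pi0 (2 • R)) = 0
      rw [h3, map_zero]
  have hcardR : Nat.card (Jac 2 (tF K f (qK K Q)) K ⧸ dbl (Jac 2 (tF K f (qK K Q)) K)) =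
      Nat.card Pi1.range := by
    rw [← hker]
    exact Nat.card_congr (QuotientAddGroup.quotientKerEquivRange Pi1).toEquiv
  refine ⟨no_two hg hirr, ?_, ?_⟩
  · have h3 : Nat.card Pi1.range ∣ 2 ^ (m - 1) := by
      rw [← card_zm hm]
      exact AddSubgroup.card_addSubgroup_dvd_card Pi1.range
    obtain ⟨r, hr, hr2⟩ := (Nat.dvd_prime_pow Nat.prime_two).1 h3
    exact ⟨r, hr, hcardR.trans hr2⟩
  · intro hcard
    rw [hcardR, ← card_zm hm] at hcard
    have htop : Pi1.range = ⊤ := AddSubgroup.eq_top_of_card_eq _ hcard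
    have hS : SelPts (PlR k[X] K) (tF K f (qK K Q)) := by
      intro g h3 h4 h5
      have h5' : LocAll (k := k) (tF K f (qK K Q)) g := fun v => h5 _ (PlR.mk v)
      have hgz : aeval θ g ≠ 0 := by
        rw [hθ]
        exact hc.ne_of_cop (M := M) h3
      obtain ⟨P, hP⟩ : ∃ P, Pi1 P = QuotientAddGroup.mk' Z
          (fun j => pr (hF.pl hc hQ j) (aeval θ g)) := by
        have : QuotientAddGroup.mk' Z (fun j => pr (hF.pl hc hQ j) (aeval θ g)) ∈ Pi1.range := by
          rw [htop]
          exact AddSubgroup.mem_top _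
        exact this
      have h6 : -(Pi0 P) + (fun j => pr (hF.pl hc hQ j) (aeval θ g)) ∈ Z :=
        QuotientAddGroup.eq.1 hP
      obtain ⟨a, ha⟩ := (mem_zm _).1 h6
      have hcop2 : IsCoprime (g * hh P) (tF K f (qK K Q)) := h3.mul_left (hcop P)
      have hN2 : IsSquare (Algebra.norm K (AdjoinRoot.mk (tF K f (qK K Q)) (g * hh P))) := by
        rw [map_mul, map_mul]
        exact h4.mul (hN P)
      have hconst : ∃ a, ∀ j, pr (hF.pl hc hQ j) (aeval (tθ M x (qK K Q)) (g * hh P)) = a := by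
        refine ⟨a, fun j => ?_⟩
        rw [← hθ, map_mul, pr_mul _ hgz (hz P), ← ha j]
        show _ = -(pr (hF.pl hc hQ j) (aeval θ (hh P))) + pr (hF.pl hc hQ j) (aeval θ g)
        have h7 := CharTwo.add_self_eq_zero (pr (hF.pl hc hQ j) (aeval θ (hh P)))
        linear_combination h7
      have hloc2 : ∀ w : HeightOneSpectrum B, ¬ Ov Q w →
          IsSquare (w.valuation M (aeval θ (g * hh P))) := by
        intro w hw
        rw [map_mul, map_mul]
        refine IsSquare.mul ?_ ?_
        · rw [hθ]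
          exact hc.even_off hQ.ne_zero w hw (h5' _)
        · rw [hθ]
          exact hc.even_off hQ.ne_zero w hw (Pool.Agent.N424.JB.LocIm.up (hloc P))
      obtain ⟨s, hs⟩ : ∃ s : K[X], tF K f (qK K Q) ∣ g * hh P - s ^ 2 := by
        have hz2 : aeval θ (g * hh P) ≠ 0 := by
          rw [map_mul]
          exact mul_ne_zero hgz (hz P)
        obtain ⟨b, hb⟩ := hconst
        refine hc.sq_dvd (M := M) hq ?_
        rw [← hθ]
        have key : ∀ w : HeightOneSpectrum B, Ov Q w → pr w (aeval θ (g * hh P)) = b := by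
          intro w hw
          obtain ⟨i, hi⟩ := hF.exists_mem hc w hw
          rw [hF.eq_pl hc hQ w hw hi, hθ]
          exact hb i
        refine hc.glob hcl hun hQ hz2 ?_ hloc2 ?_ ?_
        · rw [hc.tF_norm (M := M) hq] at hN2
          rw [hθ]
          exact hN2
        · intro w hw
          rw [sq_pr w ((_root_.map_ne_zero _).2 hq), hF.pr_q hc w hw]
          exact one_ne_zero
        · rcases pr_cases b with h1 | h1
          · left
            intro w hw
            rw [sq_pr w hz2, key w hw, h1]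
          · right
            intro w hw
            rw [sq_pr w hz2, key w hw, h1]
            exact one_ne_zero
      -- `g` is in the explicit image
      obtain ⟨l, s', hl, hs'⟩ := hloc P
      obtain ⟨c, d, hcd⟩ := hcop P
      refine ⟨l, c * s * s', hl, ?_⟩
      have e1 : g * (l.map fun p => (-1) ^ p.1.natDegree * p.1).prod - (c * s * s') ^ 2 =
          g * (l.map fun p => (-1) ^ p.1.natDegree * p.1).prod * (1 - (c * hh P) ^ 2) +
          c ^ 2 * ((g * hh P - s ^ 2) * (hh P *
            (l.map fun p => (-1) ^ p.1.natDegree * p.1).prod) +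
            s ^ 2 * (hh P * (l.map fun p => (-1) ^ p.1.natDegree * p.1).prod - s' ^ 2)) := by
        ring
      rw [e1]
      refine dvd_add ?_ ?_
      · have e2 : 1 - (c * hh P) ^ 2 = (tF K f (qK K Q)) * (d * (1 + c * hh P)) := by
          linear_combination (-(1 + c * hh P)) * hcd
        rw [e2]
        exact Dvd.dvd.mul_left (dvd_mul_right _ _) _
      · exact Dvd.dvd.mul_left (dvd_add (hs.mul_right _) (hs'.mul_left _)) _
    have h3 := sha' h2 hmon hirr hsep hodd hS
    exact fun c m hc hl hb => h3 c m hc (fun E _ _ hE => by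
      cases hE with
      | mk v => exact hl v) hb

end desc

end Run7.h905.BS
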