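import Pool.Agent.Run7.h905.BS.Desc

/-!
# The descent in terms of the polynomials
-/

open Polynomial WithZero IsDedekindDomain
open scoped Classical

set_option autoImplicit false
set_option linter.all false

namespace Run7.h905.BS

open Pool.Agent.Y160.SE Pool.Agent.N352.JB
open Pool.Agent.W309.TD (NoTwo)
open Pool.Agent.N352.Sha (ShaTrivial)

section split

variable {k : Type} [Field k] {f : k[X][X]} {Q : k[X]} {m : ℕ}

/-- `f` is the product of `m` pairwise coprime irreducible polynomials modulo `Q`. -/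
structure SplitQ (f : k[X][X]) (Q : k[X]) {m : ℕ} (g : Fin m → (AdjoinRoot Q)[X]) : Prop where
  irr : ∀ j, Irreducible (g j)
  cop : ∀ i j, i ≠ j → IsCoprime (g i) (g j)
  prod : f.map (AdjoinRoot.mk Q) = ∏ j, g j

theorem SplitQ.lift {g : Fin m → (AdjoinRoot Q)[X]} (hQ : Irreducible Q) (hF : SplitQ f Q g) :
    ∃ (h : Fin m → k[X][X]) (v : k[X][X]), Fac0 f Q h v := by
  haveI : Fact (Irreducible Q) := ⟨hQ⟩
  choose h hh using fun j => red_surj Q (g j)
  obtain ⟨v, hv⟩ : C Q ∣ f - ∏ j, h j := by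
    apply red_ker
    rw [map_sub, map_prod]
    simp only [hh]
    rw [← hF.prod]
    exact sub_self _
  refine ⟨h, v, ?_, ?_, by rw [← hv]; ring⟩
  · intro j
    rw [← comap_red, hh j]
    haveI : (Ideal.span {g j}).IsMaximal :=
      PrincipalIdealRing.isMaximal_of_irreducible (hF.irr j)
    exact Ideal.comap_isMaximal_of_surjective _ (red_surj Q)
  · intro i j hij
    obtain ⟨a, b, hab⟩ := hF.cop i j hij
    obtain ⟨a, rfl⟩ := red_surj Q a
    obtain ⟨b, rfl⟩ := red_surj Q b
    rw [← hh i, ← hh j, ← map_mul, ← map_mul, ← map_add, ← map_one (red Q), ← sub_eq_zero,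
      ← map_sub] at hab
    obtain ⟨w, hw⟩ := red_ker hab
    rw [Ideal.eq_top_iff_one]
    have : (1 : k[X][X]) = a * h i + b * h j - C Q * w := by rw [← hw]; ring
    rw [this]
    exact Ideal.sub_mem _ (Ideal.add_mem _
      (Ideal.mul_mem_left _ _ (Ideal.subset_span (Or.inl rfl)))
      (Ideal.mul_mem_left _ _ (Ideal.subset_span (Or.inr (Or.inl rfl)))))
      (Ideal.mul_mem_right _ _ (Ideal.subset_span (Or.inr (Or.inr rfl))))

theorem SplitQ.der [PerfectField k] {g : Fin m → (AdjoinRoot Q)[X]} (hQ : Irreducible Q)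
    (hF : SplitQ f Q g) (hpos : 0 < f.natDegree) (hf : f.Monic) : derivative f ≠ 0 := by
  haveI : Fact (Irreducible Q) := ⟨hQ⟩
  haveI : Algebra.IsAlgebraic k (AdjoinRoot Q) := by
    haveI := (AdjoinRoot.powerBasis hQ.ne_zero).finite
    infer_instance
  haveI : PerfectField (AdjoinRoot Q) := Algebra.IsAlgebraic.perfectField (K := k)
  intro h0
  have h2 : (f.map (AdjoinRoot.mk Q)).Separable := by
    rw [hF.prod]
    apply separable_prod
    · intro i j hij
      exact hF.cop i j hij
    · exact fun j => PerfectField.separable_of_irreducible (hF.irr j)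
  obtain ⟨a, b, hab⟩ := h2
  rw [derivative_map, h0, Polynomial.map_zero, mul_zero, add_zero] at hab
  have h3 : IsUnit (f.map (AdjoinRoot.mk Q)) := isUnit_iff_exists_inv'.2 ⟨a, hab⟩
  have h4 := natDegree_eq_zero_of_isUnit h3
  rw [hf.natDegree_map] at h4
  omega

theorem SplitQ.pos {g : Fin m → (AdjoinRoot Q)[X]} (hQ : Irreducible Q)
    (hF : SplitQ f Q g) (hpos : 0 < f.natDegree) (hf : f.Monic) : 1 ≤ m := by
  haveI : Fact (Irreducible Q) := ⟨hQ⟩
  rcases Nat.eq_zero_or_pos m with rfl | h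
  · exfalso
    have h1 := hF.prod
    rw [Finset.univ_eq_empty, Finset.prod_empty] at h1
    have h2 := hf.natDegree_map (AdjoinRoot.mk Q)
    rw [h1, natDegree_one] at h2
    omega
  · exact h

end split

section critS

variable {k : Type} (K : Type) [Field k] [PerfectField k] [Field K] [Algebra k[X] K]
  [IsFractionRing k[X] K] {f : k[X][X]} {Q : k[X]} {m : ℕ} {g : Fin m → (AdjoinRoot Q)[X]}

/-- **The upper bound, and what happens if it is attained.** -/
theorem critS (h2 : (2 : k) ≠ 0) (hf : GoodCurve f) (hQ : Irreducible Q) (hF : SplitQ f Q g) :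
    (∀ x : Jac 2 (tF K f (qK K Q)) K, 2 • x = 0 → x = 0) ∧
      (∃ r ≤ m - 1, Nat.card (Jac 2 (tF K f (qK K Q)) K ⧸ dbl (Jac 2 (tF K f (qK K Q)) K)) =
        2 ^ r) ∧
      (Nat.card (Jac 2 (tF K f (qK K Q)) K ⧸ dbl (Jac 2 (tF K f (qK K Q)) K)) = 2 ^ (m - 1) →
        ShaTrivial 2 (tF K f (qK K Q)) k[X]) := by
  haveI := hf.ded
  have hc := hf.cv
  haveI hfin : Module.Finite k[X] (AdjoinRoot f) := hf.monic.finite_adjoinRoot
  haveI : Algebra.IsIntegral k[X] (AdjoinRoot f) := inferInstance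
  let M := FractionRing (AdjoinRoot f)
  have hinj : Function.Injective (algebraMap k[X] M) := by
    rw [IsScalarTower.algebraMap_eq k[X] (AdjoinRoot f) M]
    exact (IsFractionRing.injective (AdjoinRoot f) M).comp hc.inj
  letI : Algebra K M := RingHom.toAlgebra (IsFractionRing.lift hinj)
  haveI : IsScalarTower k[X] K M := IsScalarTower.of_algebraMap_eq fun z =>
    (IsFractionRing.lift_algebraMap hinj z).symm
  have h2K : (2 : K) ≠ 0 := by
    intro h0
    apply h2
    have h1 : Function.Injective ((algebraMap k[X] K).comp (C : k →+* k[X])) :=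
      RingHom.injective _
    apply h1
    rw [map_zero, map_ofNat, h0]
  have hq := qK_ne (K := K) hQ
  have hirr : Irreducible (tF K f (qK K Q)) := hc.tF_irr M hq
  have hsep := sep_tF hq hf.monic hirr (hF.der hQ hf.odd.pos hf.monic)
  obtain ⟨h, v, hH⟩ := hF.lift hQ
  refine hH.desc (M := M) hc hQ hf.cls ?_ h2K (hF.pos hQ hf.odd.pos hf.monic) hsep
  intro v hv
  obtain ⟨c, hc'⟩ := hf.unit v v.isUnit
  have h3 : algebraMap (AdjoinRoot f) M (v : AdjoinRoot f) =
      algebraMap K M (algebraMap k[X] K (C c)) := by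
    rw [hc', ← IsScalarTower.algebraMap_apply k[X] K M,
      IsScalarTower.algebraMap_apply k[X] (AdjoinRoot f) M]
    rfl
  rw [h3] at hv ⊢
  rw [Algebra.norm_algebraMap, hc.finrank M] at hv
  exact (sq_of_odd_pow hf.odd hv).map _

end critS

end Run7.h905.BS
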