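import Pool.Agent.Run7.h905.BS.Loc
import Pool.Agent.Y154.SE.Loc
import Pool.Agent.Y317.SE.Res
import Pool.Agent.Y228.SE.Sm
import Pool.Agent.TH115.TC.Compl
import Pool.Agent.N352.JB.Def

/-!
# Local classes have even valuations
-/

open Polynomial IsLocalRing WithZero IsDedekindDomain
open scoped NNReal Classical

set_option autoImplicit false
set_option linter.all false

namespace Run7.h905.BS

open Pool.Agent.Y154.SE

theorem loc_valued' {L : Type*} [Field L] [Valued L (WithZero (Multiplicative ℤ))] [CompleteSpace L]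
    [hdisc : (Valued.v : Valuation L (WithZero (Multiplicative ℤ))).IsRankOneDiscrete]
    (hs : Function.Surjective (Valued.v : Valuation L (WithZero (Multiplicative ℤ))))
    {O : ValuationSubring L} (hO : ∀ y : L, y ∈ O ↔ Valued.v y ≤ 1)
    {E : Type*} [Field E] (wE : Valuation E (WithZero (Multiplicative ℤ))) (j : L →+* E)
    (hle : ∀ y, Valued.v y ≤ 1 → wE (j y) ≤ 1)
    (ℓ : ℕ) (hℓ : ℓ.Prime) (f : O[X]) (hf : f.Monic)
    (hperf : ∀ a : (ResidueField O)[X], Irreducible a → a.Separable)
    (hreg : ∀ a : O[X], a.Monic → Irreducible (a.map (residue O)) →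
      f ∉ (Ideal.span {a} ⊔ (maximalIdeal O).map C) ^ 2)
    (hdeg : ℓ.Coprime f.natDegree) (p c : L[X]) (u : L) (hu : Valued.v u = 1) (hp : p.Monic)
    (hpi : Irreducible p)
    (hpf : p ∣ f.map (algebraMap O L) - C u * c ^ ℓ) (x : E)
    (hx : ((f.map (algebraMap O L)).map j).eval x = 0) :
    ∃ γ : WithZero (Multiplicative ℤ), wE ((p.map j).eval x) = γ ^ ℓ := by
  let hr : (Valued.v : Valuation L (WithZero (Multiplicative ℤ))).RankOne :=
    Valuation.IsRankOneDiscrete.rankOne _ (e := 2) one_lt_two
  let _ : NontriviallyNormedField L := Valued.toNontriviallyNormedField (L := L)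
    (Γ₀ := WithZero (Multiplicative ℤ))
  have hO' : ∀ y : L, y ∈ O ↔ ‖y‖ ≤ 1 := by
    intro y
    rw [hO]
    exact Valued.toNormedField.norm_le_one_iff.symm
  obtain ⟨t0, ht0⟩ := hs (exp (-1))
  have ht0' : t0 ∈ O := by
    rw [hO, ht0, ← exp_zero, exp_le_exp]
    norm_num
  have ht00 : t0 ≠ 0 := by
    rintro rfl
    rw [map_zero] at ht0
    exact exp_ne_zero ht0.symm
  set t : O := ⟨t0, ht0'⟩ with htt
  have ht : maximalIdeal O = Ideal.span {t} := by
    ext y
    have h1 : y ∈ maximalIdeal O ↔ Valued.v (y : L) < 1 := by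
      rw [mem_max_iff hO']
      exact Valued.toNormedField.norm_lt_one_iff
    rw [h1, lt_one_iff, Ideal.mem_span_singleton, ← ht0]
    constructor
    · intro h
      have h2 : (y : L) / t0 ∈ O := by
        rw [hO, map_div₀]
        exact div_le_one_of_le₀ h zero_le
      refine ⟨⟨_, h2⟩, ?_⟩
      ext
      exact (mul_div_cancel₀ (y : L) ht00).symm
    · rintro ⟨z, hz⟩
      rw [hz]
      change Valued.v (t0 * (z : L)) ≤ _
      rw [map_mul]
      exact mul_le_of_le_one_right' ((hO _).1 z.2)
  have hd : ∀ y : L, y ≠ 0 → ∃ k : ℤ, ‖y‖₊ = ‖(t : L)‖₊ ^ k := by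
    intro y hy
    obtain ⟨k, hk⟩ := exists_exp ((Valuation.ne_zero_iff (Valued.v : Valuation L _)).2 hy)
    refine ⟨-k, ?_⟩
    have h1 : Valued.v y = Valued.v (t0 ^ (-k)) := by
      rw [map_zpow₀, ht0, hk, ← exp_zsmul]
      congr 1
      simp
    rw [← nnnorm_zpow]
    apply NNReal.coe_injective
    exact le_antisymm (Valued.toNormedField.norm_le_iff.2 h1.le)
      (Valued.toNormedField.norm_le_iff.2 h1.ge)
  have hu' : ‖u‖₊ = 1 := by
    apply NNReal.coe_injective
    apply le_antisymm
    · exact Valued.toNormedField.norm_le_one_iff.2 hu.le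
    · by_contra hlt
      rw [not_le] at hlt
      have := Valued.toNormedField.norm_lt_one_iff.1 hlt
      rw [hu] at this
      exact lt_irrefl _ this
  let _ : Algebra L E := j.toAlgebra
  have hint : IsIntegral L x := by
    refine ⟨f.map (algebraMap O L), hf.map _, ?_⟩
    rw [eval_map] at hx
    exact hx
  have : Algebra.IsAlgebraic L (IntermediateField.adjoin L {x}) :=
    IntermediateField.isAlgebraic_adjoin_simple hint
  set M := IntermediateField.adjoin L {x} with hM
  set x' : M := IntermediateField.AdjoinSimple.gen L x with hx'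
  have hxx : algebraMap M E x' = x := IntermediateField.AdjoinSimple.algebraMap_gen L x
  have hev : ∀ q : L[X], algebraMap M E (aeval x' q) = (q.map j).eval x := by
    intro q
    rw [← aeval_algebraMap_apply, hxx, eval_map]
    rfl
  have key := loc_perf hO' t ht hd (wE.comap (algebraMap M E)) (fun y hy => by
      have : algebraMap M E (algebraMap L M y) = j y := rfl
      rw [Valuation.comap_apply, this]
      exact hle y (Valued.toNormedField.norm_le_one_iff.1 hy)) ℓ hℓ f hf hperf hreg hdeg p c u hu' hp hpi
    hpf x' (by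
      apply (algebraMap M E).injective
      rw [hev, map_zero]
      exact hx)
  rw [Valuation.comap_apply, hev] at key
  exact key

/-- The residue fields of `k(t)` are perfect. -/
theorem res_perf {k F : Type} [Field k] [PerfectField k] [Field F] [Algebra k[X] F]
    [IsFractionRing k[X] F] (v : HeightOneSpectrum k[X])
    (a : (ResidueField (v.adicCompletionIntegers F))[X]) (ha : Irreducible a) : a.Separable := by
  obtain ⟨φ, hφ⟩ : ∃ φ : k[X] →+* IsLocalRing.ResidueField (v.adicCompletionIntegers F),
    φ = (IsLocalRing.residue (v.adicCompletionIntegers F)).comp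
      (algebraMap k[X] (v.adicCompletionIntegers F)) := ⟨_, rfl⟩
  have hs : Function.Surjective φ := by rw [hφ]; exact Pool.Agent.Y317.SE.residue_surj v
  obtain ⟨p, hp0, hp⟩ : ∃ p : k[X], p ≠ 0 ∧ φ p = 0 := by
    rw [hφ]; exact Pool.Agent.Y317.SE.residue_ker v
  letI : Algebra k (IsLocalRing.ResidueField (v.adicCompletionIntegers F)) :=
    (φ.comp C).toAlgebra
  have hae : ∀ q : k[X], φ q = aeval (φ X) q := by
    intro q
    have : φ = (aeval (φ X) : k[X] →ₐ[k] _).toRingHom := by
      apply Polynomial.ringHom_ext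
      · intro c
        show φ (C c) = aeval (φ X) (C c)
        rw [aeval_C]
        rfl
      · show φ X = aeval (φ X) X
        rw [aeval_X]
    exact congrArg (fun g : k[X] →+* _ => g q) this
  have halgX : IsAlgebraic k (φ X) := ⟨p, hp0, by rw [← hae]; exact hp⟩
  haveI : Algebra.IsAlgebraic k (IsLocalRing.ResidueField (v.adicCompletionIntegers F)) := by
    refine ⟨fun x => ?_⟩
    obtain ⟨q, rfl⟩ := hs x
    rw [hae]
    have h1 : aeval (φ X) q ∈ integralClosure k _ :=
      adjoin_le_integralClosure halgX.isIntegral (aeval_mem_adjoin_singleton _ _)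
    exact IsIntegral.isAlgebraic h1
  haveI : PerfectField (IsLocalRing.ResidueField (v.adicCompletionIntegers F)) :=
    Algebra.IsAlgebraic.perfectField (K := k)
  exact PerfectField.separable_of_irreducible ha

section main

variable {k K : Type} [Field k] [PerfectField k] [Field K] [Algebra k[X] K] [IsFractionRing k[X] K]
  (v : HeightOneSpectrum k[X]) {E : Type} [Field E]
  (wE : Valuation E (WithZero (Multiplicative ℤ))) (j : v.adicCompletion K →+* E)
  (hle : ∀ y, Valued.v y ≤ 1 → wE (j y) ≤ 1)
  (f : k[X][X]) (hf : f.Monic) (hodd : Odd f.natDegree)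
  (hsm : Ideal.span {f, derivative f, f.sum fun i a => C (derivative a) * X ^ i} = ⊤)
  (x : E) (hx : (f.map ((j.comp (algebraMap K (v.adicCompletion K))).comp
    (algebraMap k[X] K))).eval x = 0)

include hle hf hodd hsm hx

theorem even_irr (u : v.adicCompletion K) (hu : Valued.v u = 1)
    (p c : (v.adicCompletion K)[X]) (hp : p.Monic) (hpi : Irreducible p)
    (hpf : p ∣ (f.map (algebraMap k[X] K)).map (algebraMap K (v.adicCompletion K)) - C u * c ^ 2) :
    ∃ γ : WithZero (Multiplicative ℤ), wE ((p.map j).eval x) = γ ^ 2 := by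
  let fO : (v.adicCompletionIntegers K)[X] := f.map (algebraMap k[X] (v.adicCompletionIntegers K))
  have hfO : fO.map (algebraMap (v.adicCompletionIntegers K) (v.adicCompletion K)) =
      (f.map (algebraMap k[X] K)).map (algebraMap K (v.adicCompletion K)) := by
    show (f.map (algebraMap k[X] (v.adicCompletionIntegers K))).map
      (algebraMap (v.adicCompletionIntegers K) (v.adicCompletion K)) = _
    rw [Polynomial.map_map, Polynomial.map_map]
    congr 1
  have hdeg : fO.natDegree = f.natDegree := hf.natDegree_map _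
  refine loc_valued' (HeightOneSpectrum.valuedAdicCompletion_surjective K v) (fun y => Iff.rfl)
    wE j hle 2 Nat.prime_two fO (hf.map _) (res_perf v) (Pool.Agent.Y228.SE.stSm k K v f hsm) ?_ p c
    u hu hp hpi ?_ x ?_
  · rw [hdeg]
    exact Nat.coprime_two_left.2 hodd
  · rw [hfO]
    exact hpf
  · rw [hfO, Polynomial.map_map, Polynomial.map_map]
    rw [RingHom.comp_assoc] at hx
    exact hx

theorem even_mon (u : v.adicCompletion K) (hu : Valued.v u = 1)
    (p c : (v.adicCompletion K)[X]) (hp : p.Monic)
    (hpf : p ∣ (f.map (algebraMap k[X] K)).map (algebraMap K (v.adicCompletion K)) - C u * c ^ 2) :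
    ∃ γ : WithZero (Multiplicative ℤ), wE ((p.map j).eval x) = γ ^ 2 := by
  induction hn : p.natDegree using Nat.strong_induction_on generalizing p with
  | _ n ih =>
    by_cases hu1 : IsUnit p
    · rw [hp.eq_one_of_isUnit hu1, Polynomial.map_one, eval_one, map_one]
      exact ⟨1, (one_pow 2).symm⟩
    · obtain ⟨q, hqm, hqi, r, hr⟩ := exists_monic_irreducible_factor p hu1
      have hrm : r.Monic := by
        rw [hr] at hp
        exact hqm.of_mul_monic_left hp
      obtain ⟨γ, hγ⟩ := even_irr v wE j hle f hf hodd hsm x hx u hu q c hqm hqi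
        ((Dvd.intro _ hr.symm).trans hpf)
      have hlt : r.natDegree < n := by
        rw [← hn, hr, hqm.natDegree_mul hrm]
        have := hqi.natDegree_pos
        omega
      obtain ⟨γ', hγ'⟩ := ih r.natDegree hlt r hrm
        ((Dvd.intro_left _ hr.symm).trans hpf) rfl
      refine ⟨γ * γ', ?_⟩
      rw [hr, Polynomial.map_mul, eval_mul, map_mul, hγ, hγ', mul_pow]

end main

end Run7.h905.BS
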