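import Pool.Agent.Run7.h905.BS.Ev

/-!
# Local classes have even valuations, for twists by units
-/

open Polynomial WithZero IsDedekindDomain
open scoped Classical

set_option autoImplicit false
set_option linter.all false

namespace Run7.h905.BS

open Pool.Agent.N352.JB
open Pool.Agent.TH115.GD (exists_compl_map)

section scale

variable {E : Type} [Field E]

theorem monic_scale {q : E} (hq : q ≠ 0) {p : E[X]} (hp : p.Monic) :
    (C ((q ^ p.natDegree)⁻¹) * p.comp (C q * X)).Monic := by
  unfold Monic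
  rw [leadingCoeff_mul, leadingCoeff_C, leadingCoeff_comp, leadingCoeff_C_mul_X, hp.leadingCoeff,
    one_mul, inv_mul_cancel₀ (pow_ne_zero _ hq)]
  rw [natDegree_C_mul_X q hq]
  exact one_ne_zero

theorem dvd_scale {q : E} (hq : q ≠ 0) {p c F f : E[X]} {n : ℕ}
    (hF : F.comp (C q * X) = C (q ^ n) * f) (h : p ∣ c ^ 2 - F) :
    (C ((q ^ p.natDegree)⁻¹) * p.comp (C q * X)) ∣ f - C ((q ^ n)⁻¹) * (c.comp (C q * X)) ^ 2 := by
  obtain ⟨r, hr⟩ := h
  have h1 := congrArg (fun z => z.comp (C q * X)) hr
  simp only [sub_comp, pow_comp, mul_comp] at h1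
  rw [hF] at h1
  have e1 : C ((q ^ n)⁻¹) * C (q ^ n) = (1 : E[X]) := by
    rw [← C_mul, inv_mul_cancel₀ (pow_ne_zero _ hq), C_1]
  have e2 : C ((q ^ p.natDegree)⁻¹) * C (q ^ p.natDegree) = (1 : E[X]) := by
    rw [← C_mul, inv_mul_cancel₀ (pow_ne_zero _ hq), C_1]
  refine ⟨-(C (q ^ p.natDegree) * C ((q ^ n)⁻¹) * r.comp (C q * X)), ?_⟩
  linear_combination (-C ((q ^ n)⁻¹)) * h1 - f * e1 +
    (C ((q ^ n)⁻¹) * p.comp (C q * X) * r.comp (C q * X)) * e2

end scale

section main

variable {k K : Type} [Field k] [PerfectField k] [Field K] [Algebra k[X] K] [IsFractionRing k[X] K]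
  (v : HeightOneSpectrum k[X]) {B M : Type} [CommRing B] [IsDedekindDomain B] [Field M]
  [Algebra B M] [IsFractionRing B M] (w : HeightOneSpectrum B) (φ : K →+* M)

/-- **The valuations of local classes are even.** -/
theorem even_locIm (h1 : ∀ x, v.valuation K x ≤ 1 → w.valuation M (φ x) ≤ 1)
    (h2 : ∀ x, v.valuation K x < 1 → w.valuation M (φ x) < 1)
    (f : k[X][X]) (hf : f.Monic) (hodd : Odd f.natDegree)
    (hsm : Ideal.span {f, derivative f, f.sum fun i a => C (derivative a) * X ^ i} = ⊤)
    (x : M) (hx : (f.map (φ.comp (algebraMap k[X] K))).eval x = 0)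
    (q : K) (hq : v.valuation K q = 1) (F : K[X])
    (hF : F.comp (C q * X) = C (q ^ f.natDegree) * f.map (algebraMap k[X] K)) (h : K[X])
    (hloc : LocIm (v.adicCompletion K) (F.map (algebraMap K (v.adicCompletion K)))
      (h.map (algebraMap K (v.adicCompletion K)))) :
    ∃ γ, w.valuation M ((h.map φ).eval (φ q * x)) = γ ^ 2 := by
  obtain ⟨j, hj1, hj2, hj3⟩ := exists_compl_map v w φ h1 h2
  set wE : Valuation (w.adicCompletion M) (WithZero (Multiplicative ℤ)) := Valued.v with hwE
  have wz : ∀ z : M, wE (algebraMap M (w.adicCompletion M) z) = w.valuation M z := fun z =>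
    HeightOneSpectrum.valuedAdicCompletion_eq_valuation' w z
  have vz : ∀ z : K, Valued.v (algebraMap K (v.adicCompletion K) z) = v.valuation K z := fun z =>
    HeightOneSpectrum.valuedAdicCompletion_eq_valuation' v z
  set qE : v.adicCompletion K := algebraMap K (v.adicCompletion K) q with hqE
  have hq0 : q ≠ 0 := by
    rintro rfl
    rw [map_zero] at hq
    exact zero_ne_one hq
  have hqE0 : qE ≠ 0 := (_root_.map_ne_zero _).2 hq0
  have hqE1 : Valued.v qE = 1 := by rw [hqE, vz, hq]
  set x' : w.adicCompletion M := algebraMap M (w.adicCompletion M) x with hx'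
  have hjq : j qE = algebraMap M (w.adicCompletion M) (φ q) := hj1 q
  have hwq : wE (j qE) = 1 := by
    apply le_antisymm (hj2 _ hqE1.le)
    have h3 : wE (j qE⁻¹) ≤ 1 := hj2 _ (by rw [map_inv₀, hqE1, inv_one])
    rw [map_inv₀, map_inv₀] at h3
    have h4 : wE (j qE) ≠ 0 := (Valuation.ne_zero_iff _).2 ((_root_.map_ne_zero j).2 hqE0)
    exact (inv_le_one₀ (zero_lt_iff.2 h4)).1 h3
  -- evaluation at the root
  have hcomp : j.comp (algebraMap K (v.adicCompletion K)) =
      (algebraMap M (w.adicCompletion M)).comp φ := RingHom.ext hj1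
  have hxE : (f.map ((j.comp (algebraMap K (v.adicCompletion K))).comp
      (algebraMap k[X] K))).eval x' = 0 := by
    rw [hcomp, RingHom.comp_assoc, ← Polynomial.map_map, hx', eval_map_apply, hx, map_zero]
  have hevK : ∀ g : K[X], ((g.map (algebraMap K (v.adicCompletion K))).map j).eval (j qE * x') =
      algebraMap M (w.adicCompletion M) ((g.map φ).eval (φ q * x)) := by
    intro g
    rw [Polynomial.map_map, hcomp, ← Polynomial.map_map, hjq, hx', ← map_mul, eval_map_apply]
  have hFx : (F.map φ).eval (φ q * x) = 0 := by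
    have h3 := congrArg (fun g => (g.map φ).eval x) hF
    simp only [Polynomial.map_comp, eval_comp, Polynomial.map_mul, Polynomial.map_C,
      Polynomial.map_X, eval_mul, eval_C, eval_X] at h3
    rw [h3, Polynomial.map_map, hx, mul_zero]
  have hFE : ((F.map (algebraMap K (v.adicCompletion K))).map j).eval (j qE * x') = 0 := by
    rw [hevK, hFx, map_zero]
  have hFcomp : (F.map (algebraMap K (v.adicCompletion K))).comp (C qE * X) =
      C (qE ^ f.natDegree) * (f.map (algebraMap k[X] K)).map (algebraMap K (v.adicCompletion K)) := by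
    have h3 := congrArg (fun g => g.map (algebraMap K (v.adicCompletion K))) hF
    simp only [Polynomial.map_comp, Polynomial.map_mul, Polynomial.map_C, Polynomial.map_X] at h3
    rw [h3, hqE, map_pow]
  obtain ⟨l, s, hl, hs⟩ := hloc
  -- the values of the factors
  have hval : ∀ p ∈ l, ∃ γ : WithZero (Multiplicative ℤ),
      wE ((p.1.map j).eval (j qE * x')) = γ ^ 2 ∧ (p.1.map j).eval (j qE * x') ≠ 0 := by
    intro p hp
    obtain ⟨hp1, hp2, hp3⟩ := hl p hp
    obtain ⟨γ, hγ⟩ := even_mon v wE j hj2 f hf hodd hsm x' hxE ((qE ^ f.natDegree)⁻¹)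
      (by rw [map_inv₀, map_pow, hqE1, one_pow, inv_one]) _ _ (monic_scale hqE0 hp1)
      (dvd_scale hqE0 hFcomp hp3)
    refine ⟨γ, ?_, ?_⟩
    · rw [← hγ]
      simp only [Polynomial.map_mul, Polynomial.map_C, Polynomial.map_comp, Polynomial.map_X,
        eval_mul, eval_C, eval_comp, eval_X]
      rw [map_mul wE, map_inv₀, map_inv₀, map_pow, map_pow, hwq, one_pow, inv_one, one_mul]
    · intro h0
      obtain ⟨a, b, hab⟩ := hp2
      have h3 := congrArg (fun g => (g.map j).eval (j qE * x')) hab
      simp only [Polynomial.map_add, Polynomial.map_mul, eval_add, eval_mul, Polynomial.map_one,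
        eval_one] at h3
      rw [h0, hFE, mul_zero, mul_zero, add_zero] at h3
      exact zero_ne_one h3
  have hprod : ∀ l : List ((v.adicCompletion K)[X] × (v.adicCompletion K)[X]),
      (∀ p ∈ l, ∃ γ : WithZero (Multiplicative ℤ),
        wE ((p.1.map j).eval (j qE * x')) = γ ^ 2 ∧ (p.1.map j).eval (j qE * x') ≠ 0) →
      ∃ γ : WithZero (Multiplicative ℤ),
        wE ((((l.map fun p : (v.adicCompletion K)[X] × (v.adicCompletion K)[X] =>
          (-1) ^ p.1.natDegree * p.1).prod).map j).eval (j qE * x')) = γ ^ 2 ∧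
        (((l.map fun p : (v.adicCompletion K)[X] × (v.adicCompletion K)[X] =>
          (-1) ^ p.1.natDegree * p.1).prod).map j).eval (j qE * x') ≠ 0 := by
    intro l
    induction l with
    | nil =>
      intro _
      refine ⟨1, ?_, ?_⟩
      · simp
      · simp
    | cons p l ih =>
      intro h
      obtain ⟨γ, hγ1, hγ2⟩ := h p List.mem_cons_self
      obtain ⟨γ', hγ1', hγ2'⟩ := ih fun r hr => h r (List.mem_cons_of_mem _ hr)
      have e : (((List.map (fun p : (v.adicCompletion K)[X] × (v.adicCompletion K)[X] =>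
          (-1) ^ p.1.natDegree * p.1) (p :: l)).prod).map j).eval
          (j qE * x') = (-1) ^ p.1.natDegree * (p.1.map j).eval (j qE * x') *
          (((l.map fun p : (v.adicCompletion K)[X] × (v.adicCompletion K)[X] =>
          (-1) ^ p.1.natDegree * p.1).prod).map j).eval (j qE * x') := by
        rw [List.map_cons, List.prod_cons, Polynomial.map_mul, Polynomial.map_mul, eval_mul,
          eval_mul]
        congr 1
        congr 1
        simp
      refine ⟨γ * γ', ?_, ?_⟩
      · rw [e, map_mul, map_mul, map_pow, Valuation.map_neg, map_one, one_pow, one_mul, hγ1, hγ1',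
          mul_pow]
      · rw [e]
        exact mul_ne_zero (mul_ne_zero (pow_ne_zero _ (neg_ne_zero.2 one_ne_zero)) hγ2) hγ2'
  obtain ⟨γ, hγ, hγ0⟩ := hprod l hval
  -- the relation
  obtain ⟨r, hr⟩ := hs
  have h3 := congrArg (fun g => (g.map j).eval (j qE * x')) hr
  simp only [Polynomial.map_sub, Polynomial.map_mul, Polynomial.map_pow, eval_sub, eval_mul,
    eval_pow] at h3
  rw [hFE, zero_mul, sub_eq_zero, hevK] at h3
  have h4 := congrArg wE h3
  rw [map_mul, map_pow, wz, hγ] at h4
  have hγne : γ ≠ 0 := by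
    rintro rfl
    rw [zero_pow two_ne_zero] at hγ
    exact hγ0 ((Valuation.zero_iff _).1 hγ)
  refine ⟨wE ((s.map j).eval (j qE * x')) / γ, ?_⟩
  rw [div_pow, ← h4, mul_div_cancel_right₀ _ (pow_ne_zero 2 hγne)]

end main

end Run7.h905.BS
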