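import Pool.Agent.Run7.h905.BS.AS

/-!
# Irreducible polynomials over `k[t] / (t ^ p - μ t - δ)`
-/

open Polynomial
open scoped Classical

set_option autoImplicit false
set_option linter.all false

namespace Run7.h905.BS

/-- The data. -/
structure Dat (p r d s : ℕ) (k : Type) [Field k] (l w η ζ δ ρ : k) : Prop where
  odd : p ≠ 2
  dr : d * r = p - 1
  w0 : w ≠ 0
  l0 : l ≠ 0
  hw : w ^ (p - 1) = l + 1
  root : ∀ y : k, y ^ p - (l + 1) * y ≠ δ
  eta : η ^ r = l
  zeta : IsPrimitiveRoot ζ r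
  rho : l ^ ((Nat.card k - 1) / (p - 1)) = ρ
  ord : orderOf ρ = d
  sp : s.Prime
  s2 : s ≠ 2
  nd : ∀ y : k, y ^ s ≠ δ
  nz : ∀ (j : ℕ) (y : k), y ^ s ≠ δ ^ d - ζ ^ j * η

section ex

variable {p r d s : ℕ} [hp : Fact p.Prime] {k : Type} [Field k] [Finite k] [CharP k p]
  {l w η ζ δ ρ : k}

variable (p) in
/-- `p - 1` divides `q - 1`. -/
theorem dvd_q : p - 1 ∣ Nat.card k - 1 := by
  obtain ⟨n, _, hn⟩ := card_pp p k
  rw [hn]
  simpa using Nat.sub_dvd_pow_sub_pow p 1 n

theorem Dat.irr (h : Dat p r d s k l w η ζ δ ρ) : Irreducible (asP p (l + 1) δ) :=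
  as_irr h.w0 h.hw h.root

theorem Dat.dpos (h : Dat p r d s k l w η ζ δ ρ) : 0 < d := by
  rw [Nat.pos_iff_ne_zero]
  rintro rfl
  have := h.dr
  have := hp.out.two_le
  omega

theorem Dat.rpos (h : Dat p r d s k l w η ζ δ ρ) : 0 < r := by
  rw [Nat.pos_iff_ne_zero]
  rintro rfl
  have := h.dr
  have := hp.out.two_le
  omega

theorem Dat.rho_p (h : Dat p r d s k l w η ζ δ ρ) : ρ ^ p = ρ := by
  have h1 : ρ ^ (p - 1) = 1 := by
    rw [← h.dr, pow_mul, ← h.ord, pow_orderOf_eq_one, one_pow]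
  have h2 : p = (p - 1) + 1 := by
    have := hp.out.one_le
    omega
  rw [h2, pow_succ, h1, one_mul]

/-- The residue field. -/
abbrev RF (p : ℕ) {k : Type} [Field k] (μ δ : k) : Type := AdjoinRoot (asP p μ δ)

section F

variable [hi : Fact (Irreducible (asP p (l + 1) δ))]

theorem RF.fin : Module.finrank k (RF p (l + 1) δ) = p := by
  have := (AdjoinRoot.powerBasis (asP_monic (p := p) (l + 1) δ).ne_zero).finrank
  rw [this, AdjoinRoot.powerBasis_dim, asP_deg]

theorem RF.finite : Finite (RF p (l + 1) δ) := by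
  haveI := (AdjoinRoot.powerBasis (asP_monic (p := p) (l + 1) δ).ne_zero).finite
  exact Module.finite_of_finite k

theorem RF.card : Nat.card (RF p (l + 1) δ) = Nat.card k ^ p := by
  haveI := (AdjoinRoot.powerBasis (asP_monic (p := p) (l + 1) δ).ne_zero).finite
  rw [Module.natCard_eq_pow_finrank (K := k), RF.fin]

/-- The generator. -/
noncomputable abbrev tau (p : ℕ) {k : Type} [Field k] (μ δ : k) : RF p μ δ := AdjoinRoot.root _

theorem tau_p : tau p (l + 1) δ ^ p =
    algebraMap k (RF p (l + 1) δ) (l + 1) * tau p (l + 1) δ +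
      algebraMap k (RF p (l + 1) δ) δ := by
  have h1 : AdjoinRoot.mk (asP p (l + 1) δ) (asP p (l + 1) δ) = 0 := AdjoinRoot.mk_self
  conv at h1 =>
    lhs
    arg 2
    unfold asP
  rw [map_sub, map_sub, map_pow, map_mul, AdjoinRoot.mk_X, AdjoinRoot.mk_C, AdjoinRoot.mk_C] at h1
  have h2 : ∀ c : k, algebraMap k (RF p (l + 1) δ) c = AdjoinRoot.of (asP p (l + 1) δ) c :=
    fun c => rfl
  rw [h2, h2]
  linear_combination h1

/-- `τ ^ q - τ`. -/
noncomputable def Dd (p : ℕ) {k : Type} [Field k] (μ δ : k) : RF p μ δ :=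
  tau p μ δ ^ Nat.card k - tau p μ δ

theorem Dd_ne : Dd p (l + 1) δ ≠ 0 := by
  intro h0
  have h2 : asP p (l + 1) δ ∣ X ^ Nat.card k ^ 1 - X := by
    rw [← AdjoinRoot.mk_eq_zero, map_sub, map_pow, AdjoinRoot.mk_X, pow_one]
    exact h0
  have h3 := hi.out.natDegree_dvd_of_dvd_X_pow_card_pow_sub_X h2
  rw [asP_deg] at h3
  have := Nat.le_of_dvd one_pos h3
  have := hp.out.two_le
  omega

theorem Dat.Dp (h : Dat p r d s k l w η ζ δ ρ) :
    Dd p (l + 1) δ ^ (p - 1) = algebraMap k (RF p (l + 1) δ) (l + 1) := by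
  have h1 : Dd p (l + 1) δ ^ p = algebraMap k (RF p (l + 1) δ) (l + 1) * Dd p (l + 1) δ :=
    as_p tau_p
  have h2 : Dd p (l + 1) δ ^ p = Dd p (l + 1) δ ^ (p - 1) * Dd p (l + 1) δ := by
    rw [← pow_succ]
    congr 1
    have := hp.out.one_le
    omega
  rw [h2] at h1
  exact mul_right_cancel₀ Dd_ne h1

theorem Dat.tau_j (h : Dat p r d s k l w η ζ δ ρ) (j : ℕ) :
    tau p (l + 1) δ ^ Nat.card k ^ j =
      tau p (l + 1) δ + (j : RF p (l + 1) δ) * Dd p (l + 1) δ := as_j h.w0 h.hw tau_p j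

theorem Dat.norm_tau (h : Dat p r d s k l w η ζ δ ρ) :
    Algebra.norm k (tau p (l + 1) δ) = δ := by
  haveI := RF.finite (p := p) (l := l) (δ := δ)
  haveI : CharP (RF p (l + 1) δ) p :=
    charP_of_injective_algebraMap (algebraMap k (RF p (l + 1) δ)).injective p
  apply (algebraMap k (RF p (l + 1) δ)).injective
  rw [FiniteField.algebraMap_norm_eq_prod_pow, RF.fin, Finset.prod_congr rfl fun j _ => h.tau_j j,
    prod_line, h.Dp, tau_p]
  ring

/-- The first factor is irreducible. -/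
theorem Dat.irr0 (h : Dat p r d s k l w η ζ δ ρ) (i : ℕ) :
    Irreducible (X ^ (s ^ i) - C (tau p (l + 1) δ)) := by
  apply X_pow_sub_C_irreducible_of_prime_pow h.sp h.s2
  intro b hb
  apply h.nd (Algebra.norm k b)
  rw [← map_pow, hb, h.norm_tau]

variable {c : k}

/-- The Frobenius on a root of `X ^ d - c`. -/
theorem Dat.v_q (h : Dat p r d s k l w η ζ δ ρ) (hc : c ^ r = l) {E : Type} [Field E]
    [Algebra (RF p (l + 1) δ) E] {v : E}
    (hv : v ^ d = algebraMap (RF p (l + 1) δ) E (algebraMap k (RF p (l + 1) δ) c)) :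
    v ^ Nat.card (RF p (l + 1) δ) =
      algebraMap (RF p (l + 1) δ) E (algebraMap k (RF p (l + 1) δ) ρ) * v := by
  set φ : k →+* E := (algebraMap (RF p (l + 1) δ) E).comp (algebraMap k (RF p (l + 1) δ)) with hφ
  letI : Algebra k E := φ.toAlgebra
  have hcl : φ c ^ r = φ l := by rw [← map_pow, hc]
  have h1 : v ^ (p - 1) = φ l := by
    rw [← h.dr, pow_mul, hv]
    exact hcl
  have hq1 : 1 < Nat.card k := Finite.one_lt_card
  have h2 : v ^ Nat.card k = φ ρ * v := by
    obtain ⟨e, he⟩ := dvd_q (k := k) p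
    have h3 : Nat.card k = (p - 1) * e + 1 := by omega
    have h4 : (Nat.card k - 1) / (p - 1) = e := by
      rw [he]
      apply Nat.mul_div_cancel_left
      have := hp.out.two_le
      omega
    rw [← h.rho, h4, map_pow, ← h1, ← pow_mul, ← pow_succ, ← h3]
  have h3 : ∀ j : ℕ, v ^ Nat.card k ^ j = φ (ρ ^ j) * v := by
    intro j
    induction j with
    | zero => rw [pow_zero, pow_one, pow_zero, map_one, one_mul]
    | succ j ih =>
      have h4 : (φ (ρ ^ j)) ^ Nat.card k = φ (ρ ^ j) := map_q (E := E) (ρ ^ j)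
      rw [pow_succ, pow_mul, ih, mul_pow, h2, h4, pow_succ, map_mul]
      ring
  rw [RF.card, h3, h.rho_p]
  rfl

theorem Dat.c_ne (h : Dat p r d s k l w η ζ δ ρ) (hc : c ^ r = l) : c ≠ 0 := by
  rintro rfl
  rw [zero_pow h.rpos.ne'] at hc
  exact h.l0 hc.symm

theorem Dat.km (h : Dat p r d s k l w η ζ δ ρ) (hc : c ^ r = l) :
    Irreducible (X ^ d - C (algebraMap k (RF p (l + 1) δ) c)) := by
  haveI := RF.finite (p := p) (l := l) (δ := δ)
  apply km_irr h.dpos (ρ := algebraMap k (RF p (l + 1) δ) ρ)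
  · simpa using h.c_ne hc
  · rw [← h.ord]
    exact orderOf_injective (algebraMap k (RF p (l + 1) δ) : k →* RF p (l + 1) δ)
      (algebraMap k (RF p (l + 1) δ)).injective ρ
  · intro E _ _ v hv
    exact h.v_q hc hv

theorem Dat.rho_prim (h : Dat p r d s k l w η ζ δ ρ) : IsPrimitiveRoot ρ d := by
  rw [← h.ord]
  exact IsPrimitiveRoot.orderOf ρ

/-- The norm of `τ + v`. -/
theorem Dat.norm_val (h : Dat p r d s k l w η ζ δ ρ) (hc : c ^ r = l) {E : Type} [Field E]
    [Algebra (RF p (l + 1) δ) E] [Finite E] (hfin : Module.finrank (RF p (l + 1) δ) E = d) {v : E}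
    (hv : v ^ d = algebraMap (RF p (l + 1) δ) E (algebraMap k (RF p (l + 1) δ) c)) :
    Algebra.norm k (Algebra.norm (RF p (l + 1) δ)
      (algebraMap (RF p (l + 1) δ) E (tau p (l + 1) δ) + v)) = δ ^ d - c := by
  haveI := RF.finite (p := p) (l := l) (δ := δ)
  haveI : CharP (RF p (l + 1) δ) p :=
    charP_of_injective_algebraMap (algebraMap k (RF p (l + 1) δ)).injective p
  haveI : CharP E p :=
    charP_of_injective_algebraMap (algebraMap (RF p (l + 1) δ) E).injective p
  set φ := algebraMap (RF p (l + 1) δ) E with hφ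
  set ψ := algebraMap k (RF p (l + 1) δ) with hψ
  set T := tau p (l + 1) δ with hT
  have hvj : ∀ j : ℕ, v ^ Nat.card (RF p (l + 1) δ) ^ j = φ (ψ (ρ ^ j)) * v := by
    intro j
    induction j with
    | zero => rw [pow_zero, pow_one, pow_zero, map_one, map_one, one_mul]
    | succ j ih =>
      have h4 : (φ (ψ (ρ ^ j))) ^ Nat.card (RF p (l + 1) δ) = φ (ψ (ρ ^ j)) :=
        map_q (E := E) (ψ (ρ ^ j))
      rw [pow_succ, pow_mul, ih, mul_pow, h.v_q hc hv, h4, pow_succ, map_mul, map_mul]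
      ring
  have hprim : IsPrimitiveRoot (φ (ψ ρ)) d :=
    (h.rho_prim.map_of_injective ψ.injective).map_of_injective φ.injective
  have hfact : ∀ y z : E, ∏ j ∈ Finset.range d, (y + φ (ψ (ρ ^ j)) * z) = y ^ d - (-z) ^ d := by
    intro y z
    have h1 := congrArg (eval y) (X_pow_sub_C_eq_prod hprim h.dpos (rfl : (-z) ^ d = (-z) ^ d))
    rw [eval_prod] at h1
    simp only [eval_sub, eval_pow, eval_X, eval_C] at h1
    rw [h1]
    apply Finset.prod_congr rfl
    intro j _
    rw [map_pow, map_pow]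
    ring
  have hn1 : Algebra.norm (RF p (l + 1) δ) (φ T + v) = T ^ d - ψ ((-1) ^ d * c) := by
    apply φ.injective
    rw [hφ, FiniteField.algebraMap_norm_eq_prod_pow, hfin, ← hφ]
    have h1 : ∀ j ∈ Finset.range d, (φ T + v) ^ Nat.card (RF p (l + 1) δ) ^ j =
        φ T + φ (ψ (ρ ^ j)) * v := by
      intro j _
      have h2 : (φ T) ^ Nat.card (RF p (l + 1) δ) ^ j = φ T := map_qj (E := E) T j
      rw [add_qj (k := RF p (l + 1) δ) p, h2, hvj]
    rw [Finset.prod_congr rfl h1, hfact, map_sub, map_pow, map_mul, map_mul, neg_pow, hv]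
    simp
  rw [hn1]
  apply ψ.injective
  apply φ.injective
  rw [hψ, FiniteField.algebraMap_norm_eq_prod_pow, RF.fin, ← hψ, map_prod]
  have h1 : ∀ i ∈ Finset.range p, φ ((T ^ d - ψ ((-1) ^ d * c)) ^ Nat.card k ^ i) =
      ∏ j ∈ Finset.range d, ((φ T + φ (ψ (ρ ^ j)) * v) + (i : E) * φ (Dd p (l + 1) δ)) := by
    intro i _
    have h2 : (T ^ d - ψ ((-1) ^ d * c)) ^ Nat.card k ^ i =
        (T + (i : RF p (l + 1) δ) * Dd p (l + 1) δ) ^ d - ψ ((-1) ^ d * c) := by
      have h3 : (ψ (-((-1) ^ d * c))) ^ Nat.card k ^ i = ψ (-((-1) ^ d * c)) :=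
        map_qj (E := RF p (l + 1) δ) _ i
      rw [sub_eq_add_neg, ← map_neg ψ, add_qj (k := k) p, h3, ← pow_mul, mul_comm d, pow_mul,
        h.tau_j i, map_neg]
      ring
    rw [h2, map_sub, map_pow, map_add, map_mul, map_natCast]
    have h4 := hfact (φ T + (i : E) * φ (Dd p (l + 1) δ)) v
    have h5 : φ (ψ ((-1) ^ d * c)) = (-v) ^ d := by
      rw [neg_pow v, hv, map_mul, map_mul]
      simp
    rw [h5, ← h4]
    apply Finset.prod_congr rfl
    intro j _
    ring
  rw [Finset.prod_congr rfl h1, Finset.prod_comm]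
  have h6 : ∀ j ∈ Finset.range d, ∏ i ∈ Finset.range p,
      ((φ T + φ (ψ (ρ ^ j)) * v) + (i : E) * φ (Dd p (l + 1) δ)) =
      φ (ψ δ) + φ (ψ (ρ ^ j)) * (-v) := by
    intro j _
    rw [prod_line, ← map_pow, h.Dp, add_pow_char, mul_pow]
    have h7 : v ^ p = φ (ψ l) * v := by
      have h8 : p = d * r + 1 := by
        rw [h.dr]
        have := hp.out.one_le
        omega
      have hcl : φ (ψ c) ^ r = φ (ψ l) := by rw [← map_pow, ← map_pow, hc]
      have h11 : v ^ p = v ^ (d * r + 1) := congrArg (fun n => v ^ n) h8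
      rw [h11, pow_succ, pow_mul, hv, hcl]
    have h9 : φ (ψ (ρ ^ j)) ^ p = φ (ψ (ρ ^ j)) := by
      rw [← map_pow, ← map_pow, ← pow_mul, mul_comm, pow_mul, h.rho_p]
    have h10 : (φ T) ^ p = φ (ψ (l + 1)) * φ T + φ (ψ δ) := by
      rw [← map_pow, tau_p, map_add, map_mul]
    rw [h7, h9, h10, map_add, map_add, map_one, map_one]
    ring
  rw [Finset.prod_congr rfl h6, hfact, neg_neg, hv, map_sub, map_sub, map_pow, map_pow]

/-- The other factors are irreducible. -/
theorem Dat.irr1 (h : Dat p r d s k l w η ζ δ ρ) (hc : c ^ r = l)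
    (hs : ∀ y : k, y ^ s ≠ δ ^ d - c) (i : ℕ) :
    Irreducible ((X ^ (s ^ i) - C (tau p (l + 1) δ)) ^ d -
      C (algebraMap k (RF p (l + 1) δ) c)) := by
  haveI := RF.finite (p := p) (l := l) (δ := δ)
  have hN : s ^ i ≠ 0 := pow_ne_zero _ h.sp.ne_zero
  have e : (X ^ (s ^ i) - C (tau p (l + 1) δ)) ^ d - C (algebraMap k (RF p (l + 1) δ) c) =
      (X ^ d - C (algebraMap k (RF p (l + 1) δ) c)).comp
        (X ^ (s ^ i) - C (tau p (l + 1) δ)) := by
    rw [sub_comp, pow_comp, X_comp, C_comp]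
  rw [e]
  apply Polynomial.irreducible_comp (monic_X_pow_sub_C _ h.dpos.ne') (monic_X_pow_sub_C _ hN)
    (h.km hc)
  intro E _ _ x hx
  have hint : IsIntegral (RF p (l + 1) δ) x := by
    by_contra h0
    rw [minpoly.eq_zero h0] at hx
    exact (monic_X_pow_sub_C (algebraMap k (RF p (l + 1) δ) c) h.dpos.ne').ne_zero hx.symm
  haveI := IntermediateField.adjoin.finiteDimensional hint
  haveI : Finite (IntermediateField.adjoin (RF p (l + 1) δ) {x}) :=
    Module.finite_of_finite (RF p (l + 1) δ)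
  have hfin : Module.finrank (RF p (l + 1) δ) (IntermediateField.adjoin (RF p (l + 1) δ) {x}) =
      d := by
    rw [IntermediateField.adjoin.finrank hint, hx, natDegree_X_pow_sub_C]
  have hv : (IntermediateField.AdjoinSimple.gen (RF p (l + 1) δ) x) ^ d =
      algebraMap (RF p (l + 1) δ) (IntermediateField.adjoin (RF p (l + 1) δ) {x})
        (algebraMap k (RF p (l + 1) δ) c) := by
    have h1 := minpoly.aeval (RF p (l + 1) δ) x
    rw [hx, map_sub, map_pow, aeval_X, aeval_C, sub_eq_zero] at h1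
    apply Subtype.ext
    exact h1
  rw [Polynomial.map_sub, Polynomial.map_pow, map_X, map_C, sub_sub, ← C_add]
  apply X_pow_sub_C_irreducible_of_prime_pow h.sp h.s2
  intro b hb
  apply hs (Algebra.norm k (Algebra.norm (RF p (l + 1) δ) b))
  rw [← map_pow, ← map_pow, hb, h.norm_val hc hfin hv]

end F

end ex

end Run7.h905.BS
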