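import Pool.Agent.Run7.h905.BS.Ex
import Pool.Agent.N615.JB.Alg

/-!
# Existence of the data
-/

open Polynomial
open scoped Classical

set_option autoImplicit false
set_option linter.all false

namespace Run7.h905.BS

section cubic

variable {p : ℕ} [hp : Fact p.Prime]

/-- The cubic. -/
noncomputable def cub (A c : ZMod p) : (ZMod p)[X] := X ^ 3 + C A * X ^ 2 + C (A - c) * X + C (-c)

theorem cub_eval (A c x : ZMod p) : (cub A c).eval x = x ^ 3 + A * x ^ 2 + (A - c) * x - c := by
  unfold cub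
  simp only [eval_add, eval_pow, eval_X, eval_mul, eval_C]
  ring

theorem cub_monic (A c : ZMod p) : (cub A c).Monic := by
  unfold cub
  monicity!

theorem cub_deg (A c : ZMod p) : (cub A c).natDegree = 3 := by
  unfold cub
  compute_degree!

theorem exists_cub (c : ZMod p) (hc : c ≠ 0) : ∃ A : ZMod p, ∀ x, (cub A c).eval x ≠ 0 := by
  by_contra hcon
  push_neg at hcon
  choose x hx using hcon
  have h0 : ∀ A, x A ≠ 0 := by
    intro A h
    have := hx A
    rw [cub_eval, h] at this
    apply hc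
    linear_combination -this
  have h1 : ∀ A, x A + 1 ≠ 0 := by
    intro A h
    have := hx A
    rw [cub_eval] at this
    have h2 : x A = -1 := by linear_combination h
    rw [h2] at this
    have h3 : (1 : ZMod p) = 0 := by linear_combination -this
    exact one_ne_zero h3
  have hinj : Function.Injective x := by
    intro A B hAB
    have hA := hx A
    have hB := hx B
    rw [cub_eval] at hA hB
    rw [← hAB] at hB
    have h2 : (A - B) * (x A * (x A + 1)) = 0 := by linear_combination hA - hB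
    rcases mul_eq_zero.1 h2 with h3 | h3
    · exact sub_eq_zero.1 h3
    · exact absurd h3 (mul_ne_zero (h0 A) (h1 A))
  obtain ⟨A, hA⟩ := Finite.surjective_of_injective hinj 0
  exact h0 A hA

theorem cub_irr {A c : ZMod p} (h : ∀ x, (cub A c).eval x ≠ 0) : Irreducible (cub A c) := by
  apply irreducible_of_degree_le_three_of_not_isRoot
  · rw [cub_deg]
    exact Finset.mem_Icc.2 ⟨by norm_num, by norm_num⟩
  · intro x hx
    exact h x hx

end cubic

section norm

/-- The norm of `x - root`. -/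
theorem norm_sub {K : Type} [Field K] {f : K[X]} (hf : f.Monic) (x : K) :
    Algebra.norm K (algebraMap K (AdjoinRoot f) x - AdjoinRoot.root f) = f.eval x := by
  have hs : (f.map (algebraMap K (AlgebraicClosure K))).Splits := IsAlgClosed.splits _
  have h1 := Pool.Agent.N615.JB.nrm K (AlgebraicClosure K) f (C x - X) hf hs
  apply (algebraMap K (AlgebraicClosure K)).injective
  rw [map_sub, AdjoinRoot.mk_X, AdjoinRoot.mk_C] at h1
  have h2 : algebraMap K (AdjoinRoot f) x = AdjoinRoot.of f x := rfl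
  rw [h2, h1]
  have h3 := hs.eq_prod_roots_of_monic (hf.map _)
  have h4 := congrArg (eval (algebraMap K (AlgebraicClosure K) x)) h3
  rw [eval_map, eval₂_at_apply] at h4
  rw [h4, eval_multiset_prod, Multiset.map_map]
  congr 1
  apply Multiset.map_congr rfl
  intro e _
  simp

theorem neg_one_odd_fin {K : Type} [Field K] {f : K[X]} (hf : f.Monic) (ho : Odd f.natDegree) (y : AdjoinRoot f) :
    Algebra.norm K (-y) = -Algebra.norm K y := by
  have h1 : -y = algebraMap K (AdjoinRoot f) (-1) * y := by rw [map_neg, map_one, neg_one_mul]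
  have h2 : Module.finrank K (AdjoinRoot f) = f.natDegree := by
    rw [(AdjoinRoot.powerBasis hf.ne_zero).finrank, AdjoinRoot.powerBasis_dim]
  rw [h1, map_mul, Algebra.norm_algebraMap, h2, ho.neg_one_pow, neg_one_mul]

end norm

section cyc

variable {k : Type} [Field k] [Finite k]

/-- Powers in a finite field. -/
theorem exists_pow {m : ℕ} (hm : m ∣ Nat.card k - 1) {x : k} (hx0 : x ≠ 0)
    (hx : x ^ ((Nat.card k - 1) / m) = 1) : ∃ y : k, y ≠ 0 ∧ y ^ m = x := by
  obtain ⟨g, hg⟩ := IsCyclic.exists_generator (α := kˣ)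
  obtain ⟨j, hj⟩ : ∃ j : ℕ, g ^ j = Units.mk0 x hx0 := by
    have := hg (Units.mk0 x hx0)
    rw [← mem_powers_iff_mem_zpowers] at this
    obtain ⟨j, hj⟩ := this
    exact ⟨j, hj⟩
  have hord : orderOf g = Nat.card k - 1 := by
    rw [orderOf_eq_card_of_forall_mem_zpowers hg, Nat.card_units]
  have hq : 1 < Nat.card k := Finite.one_lt_card
  obtain ⟨e, he⟩ := hm
  have hm0 : 0 < m := by
    rw [Nat.pos_iff_ne_zero]
    rintro rfl
    omega
  have h1 : (Nat.card k - 1) / m = e := by rw [he, Nat.mul_div_cancel_left _ hm0]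
  have he0 : 0 < e := by
    rw [Nat.pos_iff_ne_zero]
    rintro rfl
    omega
  rw [h1] at hx
  have h2 : g ^ (j * e) = 1 := by
    rw [pow_mul, hj]
    apply Units.ext
    rw [Units.val_pow_eq_pow_val, Units.val_mk0, hx, Units.val_one]
  have h3 : m * e ∣ j * e := by
    rw [← he, ← hord]
    exact orderOf_dvd_of_pow_eq_one h2
  have h4 : m ∣ j := Nat.dvd_of_mul_dvd_mul_right he0 h3
  obtain ⟨i, hi⟩ := h4
  refine ⟨(g ^ i : kˣ), Units.ne_zero _, ?_⟩
  rw [← Units.val_pow_eq_pow_val, ← pow_mul, mul_comm, ← hi, hj, Units.val_mk0]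

theorem exists_prim {r : ℕ} (hr : r ∣ Nat.card k - 1) : ∃ ζ : k, IsPrimitiveRoot ζ r := by
  obtain ⟨g, hg⟩ := IsCyclic.exists_ofOrder_eq_natCard (α := kˣ)
  rw [Nat.card_units] at hg
  have hq : 1 < Nat.card k := Finite.one_lt_card
  obtain ⟨e, he⟩ := hr
  have he0 : e ≠ 0 := by
    rintro rfl
    omega
  have h1 : orderOf (g ^ e) = r := by
    rw [orderOf_pow_of_dvd he0 (by rw [hg, he]; exact dvd_mul_left _ _), hg, he,
      Nat.mul_div_cancel _ (Nat.pos_of_ne_zero he0)]
  refine ⟨(g ^ e : kˣ), ?_⟩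
  rw [IsPrimitiveRoot.coe_units_iff, ← h1]
  exact IsPrimitiveRoot.orderOf _

end cyc

section del

variable {k : Type} [Field k] [Finite k]

/-- The choice of `δ`. -/
theorem exists_delta {p r d s : ℕ} [hp : Fact p.Prime] [CharP k p] {l w η ζ : k} (hdr : d * r = p - 1)
    (hw0 : w ≠ 0) (hw : w ^ (p - 1) = l + 1) (hs : s.Prime) (hsq : s ∣ Nat.card k - 1)
    (hbig : 2 * p ^ 2 ≤ s) (hζ : IsPrimitiveRoot ζ r) (hr : 0 < r) :
    ∃ δ : k, (∀ y : k, y ^ p - (l + 1) * y ≠ δ) ∧ (∀ y : k, y ^ s ≠ δ) ∧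
      (∀ (j : ℕ) (y : k), y ^ s ≠ δ ^ d - ζ ^ j * η) := by
  have hp2 := hp.out.two_le
  have hq : 1 < Nat.card k := Finite.one_lt_card
  obtain ⟨n, hn⟩ := hsq
  have hn0 : 0 < n := by
    rw [Nat.pos_iff_ne_zero]
    rintro rfl
    omega
  have hd : 0 < d := by
    rw [Nat.pos_iff_ne_zero]
    rintro rfl
    omega
  -- `δ₀`
  obtain ⟨δ₀, hδ₀⟩ : ∃ δ₀ : k, ∀ y : k, y ^ p - (l + 1) * y ≠ δ₀ := by
    by_contra hcon
    push_neg at hcon
    have hsurj : Function.Surjective fun y : k => y ^ p - (l + 1) * y := hcon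
    have hinj := Finite.injective_iff_surjective.2 hsurj
    apply hw0
    apply hinj
    simp only
    have h1 : w ^ p = w ^ (p - 1) * w := by
      rw [← pow_succ]
      congr 1
      omega
    rw [h1, hw, zero_pow (by omega)]
    ring
  -- the polynomial
  have hpw : ∀ (b : k) (y : k), y ^ s = b → b ≠ 0 → b ^ n = 1 := by
    intro b y hy hb
    have hy0 : y ≠ 0 := by
      rintro rfl
      rw [zero_pow hs.ne_zero] at hy
      exact hb hy.symm
    rw [← hy, ← pow_mul, ← hn]
    haveI := Fintype.ofFinite k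
    rw [Nat.card_eq_fintype_card]
    exact FiniteField.pow_card_sub_one_eq_one y hy0
  let T : ℕ → k[X] := fun j => X ^ d - C (ζ ^ j * η)
  have hT0 : ∀ j, T j ≠ 0 := fun j => (monic_X_pow_sub_C _ hd.ne').ne_zero
  have hTd : ∀ j, (T j).natDegree = d := fun j => natDegree_X_pow_sub_C
  have hT1 : ∀ j, T j ^ n - 1 ≠ 0 := by
    intro j h0
    have h1 := congrArg natDegree (sub_eq_zero.1 h0)
    rw [natDegree_pow, hTd, natDegree_one] at h1
    rcases Nat.mul_eq_zero.1 h1 with h2 | h2 <;> omega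
  have hX1 : (X ^ n - 1 : k[X]) ≠ 0 := by
    have := (monic_X_pow_sub_C (1 : k) hn0.ne').ne_zero
    rwa [C_1] at this
  let S : k[X] := X * (X ^ n - 1) * ∏ j ∈ Finset.range r, (T j * (T j ^ n - 1))
  have hS0 : S ≠ 0 := mul_ne_zero (mul_ne_zero X_ne_zero hX1)
    (Finset.prod_ne_zero_iff.2 fun j _ => mul_ne_zero (hT0 j) (hT1 j))
  have hSd : S.natDegree ≤ (1 + n) * p := by
    have h1 : (X * (X ^ n - 1) : k[X]).natDegree ≤ 1 + n := by
      refine natDegree_mul_le.trans (add_le_add natDegree_X_le ?_)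
      refine (natDegree_sub_le _ _).trans ?_
      rw [natDegree_X_pow, natDegree_one]
      omega
    have h2 : ∀ j ∈ Finset.range r, (T j * (T j ^ n - 1)).natDegree ≤ d * (1 + n) := by
      intro j _
      refine natDegree_mul_le.trans ?_
      have h3 : (T j ^ n - 1).natDegree ≤ n * d := by
        refine (natDegree_sub_le _ _).trans ?_
        rw [natDegree_pow, hTd, natDegree_one]
        omega
      rw [hTd]
      nlinarith
    have h3 : (∏ j ∈ Finset.range r, (T j * (T j ^ n - 1))).natDegree ≤ r * (d * (1 + n)) := by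
      refine (natDegree_prod_le _ _).trans ?_
      refine (Finset.sum_le_sum h2).trans ?_
      rw [Finset.sum_const, Finset.card_range, smul_eq_mul]
    refine natDegree_mul_le.trans ?_
    have h4 : (1 + n) * p = (1 + n) + r * (d * (1 + n)) := by
      have : p = 1 + d * r := by omega
      conv_lhs => rw [this]
      ring
    omega
  let I : k[X] := asP p (l + 1) (-δ₀)
  have hId : I.natDegree = p := asP_deg _ _
  have hIe : ∀ y : k, I.eval y = δ₀ + (y ^ p - (l + 1) * y) := by
    intro y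
    show (asP p (l + 1) (-δ₀)).eval y = _
    unfold asP
    simp only [eval_sub, eval_pow, eval_X, eval_mul, eval_C]
    ring
  have hR0 : S.comp I ≠ 0 := by
    intro h0
    rcases comp_eq_zero_iff.1 h0 with h1 | h1
    · exact hS0 h1
    · have h2 := congrArg natDegree h1.2
      rw [hId, natDegree_C] at h2
      omega
  have hRd : (S.comp I).natDegree < Nat.card k := by
    have h1 : (S.comp I).natDegree ≤ (1 + n) * p * p := by
      refine natDegree_comp_le.trans ?_
      rw [hId]
      exact Nat.mul_le_mul_right _ hSd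
    have h2 : Nat.card k = s * n + 1 := by omega
    have h3 : 2 * p ^ 2 * n ≤ s * n := Nat.mul_le_mul_right _ hbig
    have h4 : 2 * p ^ 2 * 1 ≤ 2 * p ^ 2 * n := Nat.mul_le_mul_left _ hn0
    have h5 : (1 + n) * p * p = p ^ 2 + p ^ 2 * n := by ring
    have h6 : 2 * p ^ 2 * n = p ^ 2 * n + p ^ 2 * n := by ring
    omega
  obtain ⟨y, hy⟩ := exists_eval_ne_zero_of_natDegree_lt_card (S.comp I) hR0 (by
    rw [← Nat.cast_card]
    exact_mod_cast hRd)
  rw [eval_comp, hIe] at hy
  set δ : k := δ₀ + (y ^ p - (l + 1) * y) with hδ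
  have hy' : (X * (X ^ n - 1) * ∏ j ∈ Finset.range r, (T j * (T j ^ n - 1)) : k[X]).eval δ ≠ 0 :=
    hy
  rw [eval_mul, eval_mul, eval_prod] at hy'
  obtain ⟨hy1, hy2⟩ := mul_ne_zero_iff.1 hy'
  obtain ⟨hy3, hy4⟩ := mul_ne_zero_iff.1 hy1
  rw [eval_X] at hy3
  rw [eval_sub, eval_pow, eval_X, eval_one] at hy4
  refine ⟨δ, ?_, ?_, ?_⟩
  · intro z hz
    apply hδ₀ (z - y)
    rw [sub_pow_char]
    linear_combination hz + hδ
  · intro z hz
    exact hy4 (sub_eq_zero.2 (hpw _ z hz hy3))
  · intro j z hz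
    have h1 : ζ ^ j = ζ ^ (j % r) := by
      conv_lhs => rw [← Nat.div_add_mod j r]
      rw [pow_add, pow_mul, hζ.pow_eq_one, one_pow, one_mul]
    rw [h1] at hz
    have h2 := Finset.prod_ne_zero_iff.1 hy2 (j % r) (Finset.mem_range.2 (Nat.mod_lt _ hr))
    rw [eval_mul] at h2
    obtain ⟨h3, h4⟩ := mul_ne_zero_iff.1 h2
    have h5 : (T (j % r)).eval δ = δ ^ d - ζ ^ (j % r) * η := by
      show (X ^ d - C (ζ ^ (j % r) * η)).eval δ = _
      rw [eval_sub, eval_pow, eval_X, eval_C]
    rw [h5] at h3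
    rw [eval_sub, eval_pow, h5, eval_one] at h4
    exact h4 (sub_eq_zero.2 (hpw _ z hz h3))

end del

end Run7.h905.BS
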