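import Pool.Agent.Run7.h905.BS.ExD

/-!
# Existence of the field
-/

open Polynomial
open scoped Classical

set_option autoImplicit false
set_option linter.all false

namespace Run7.h905.BS

section num

/-- The prime `s`. -/
theorem exists_s {p e : ℕ} (hp : p.Prime) (he : e.Prime) :
    ∃ s : ℕ, s.Prime ∧ e ≤ s ∧ s ∣ p ^ e - 1 := by
  have hp2 := hp.two_le
  have he2 := he.two_le
  have hgeom : (p - 1) * ∑ i ∈ Finset.range e, p ^ i = p ^ e - 1 := by
    have := Nat.geomSum_eq hp2 e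
    rw [this]
    have hd : p - 1 ∣ p ^ e - 1 := by simpa using Nat.sub_dvd_pow_sub_pow p 1 e
    exact Nat.mul_div_cancel' hd
  have hT : ∑ i ∈ Finset.range e, p ^ i ≠ 1 := by
    intro h
    have h1 : ∑ i ∈ Finset.range 2, p ^ i ≤ ∑ i ∈ Finset.range e, p ^ i :=
      Finset.sum_le_sum_of_subset (Finset.range_mono he2)
    rw [h, Finset.sum_range_succ, Finset.sum_range_one] at h1
    simp at h1
    omega
  obtain ⟨s, hs, hsT⟩ := Nat.exists_prime_and_dvd hT
  have hsd : s ∣ p ^ e - 1 := by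
    rw [← hgeom]
    exact hsT.mul_left _
  refine ⟨s, hs, ?_, hsd⟩
  haveI : Fact s.Prime := ⟨hs⟩
  have h1 : (p : ZMod s) ^ e = 1 := by
    have h2 : ((p ^ e - 1 : ℕ) : ZMod s) = 0 := (ZMod.natCast_eq_zero_iff _ _).2 hsd
    rw [Nat.cast_sub (Nat.one_le_pow _ _ hp.pos)] at h2
    push_cast at h2
    exact sub_eq_zero.1 h2
  have h3 := orderOf_dvd_of_pow_eq_one h1
  rcases (Nat.dvd_prime he).1 h3 with h4 | h4
  · rw [orderOf_eq_one_iff] at h4
    have h5 : ((∑ i ∈ Finset.range e, p ^ i : ℕ) : ZMod s) = 0 :=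
      (ZMod.natCast_eq_zero_iff _ _).2 hsT
    push_cast at h5
    rw [h4] at h5
    simp only [one_pow, Finset.sum_const, Finset.card_range, nsmul_eq_mul, mul_one] at h5
    have h6 := (ZMod.natCast_eq_zero_iff _ _).1 h5
    rw [(Nat.prime_dvd_prime_iff_eq hs he).1 h6]
  · have hp0 : (p : ZMod s) ≠ 0 := by
      intro h0
      rw [h0, zero_pow he.ne_zero] at h1
      exact zero_ne_one h1
    have h5 := ZMod.orderOf_dvd_card_sub_one hp0
    rw [h4] at h5
    have := Nat.le_of_dvd (by have := hs.two_le; omega) h5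
    omega

end num

/-- **Existence of the data for every `r`.** -/
theorem exists_dat (r : ℕ) (hr : 0 < r) : ∃ (p d s : ℕ) (_ : Fact p.Prime) (k : Type) (_ : Field k)
    (_ : Finite k) (_ : CharP k p) (l w η ζ δ ρ : k), Dat p r d s k l w η ζ δ ρ := by
  obtain ⟨p, hpp, hp2, hpr⟩ := Nat.exists_prime_gt_modEq_one (k := r) 2 hr.ne'
  haveI hp : Fact p.Prime := ⟨hpp⟩
  obtain ⟨d, hd⟩ : r ∣ p - 1 := (Nat.modEq_iff_dvd' hpp.one_le).1 hpr.symm
  have hdr : d * r = p - 1 := by rw [hd, mul_comm]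
  have hd0 : 0 < d := by
    rw [Nat.pos_iff_ne_zero]
    rintro rfl
    omega
  -- `c` of order `d`
  obtain ⟨g, hg⟩ := IsCyclic.exists_ofOrder_eq_natCard (α := (ZMod p)ˣ)
  rw [Nat.card_eq_fintype_card, ZMod.card_units_eq_totient, Nat.totient_prime hpp] at hg
  have hcord : orderOf (g ^ r) = d := by
    rw [orderOf_pow_of_dvd hr.ne' (by rw [hg, ← hdr]; exact dvd_mul_left _ _), hg, ← hdr,
      Nat.mul_div_cancel _ hr]
  set c : ZMod p := ((g ^ r : (ZMod p)ˣ) : ZMod p) with hc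
  have hc0 : c ≠ 0 := Units.ne_zero _
  have hcord' : orderOf c = d := by rw [hc, orderOf_units, hcord]
  -- the cubic field
  obtain ⟨A, hA⟩ := exists_cub c hc0
  have hirr := cub_irr hA
  haveI : Fact (Irreducible (cub A c)) := ⟨hirr⟩
  have hmon := cub_monic A c
  have hodd3 : Odd (cub A c).natDegree := by rw [cub_deg]; decide
  haveI : Module.Finite (ZMod p) (AdjoinRoot (cub A c)) := hmon.finite_adjoinRoot
  haveI : Finite (AdjoinRoot (cub A c)) := Module.finite_of_finite (ZMod p)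
  have hfin3 : Module.finrank (ZMod p) (AdjoinRoot (cub A c)) = 3 := by
    rw [(AdjoinRoot.powerBasis hmon.ne_zero).finrank, AdjoinRoot.powerBasis_dim, cub_deg]
  have hcard3 : Nat.card (AdjoinRoot (cub A c)) = p ^ 3 := by
    rw [Module.natCard_eq_pow_finrank (K := ZMod p), hfin3, Nat.card_zmod]
  set l0 : AdjoinRoot (cub A c) := AdjoinRoot.root (cub A c) with hl0
  have hN1 : Algebra.norm (ZMod p) l0 = c := by
    have h1 := norm_sub hmon (0 : ZMod p)
    rw [map_zero, zero_sub, neg_one_odd_fin hmon hodd3, cub_eval] at h1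
    linear_combination -h1
  have hN2 : Algebra.norm (ZMod p) (l0 + 1) = 1 := by
    have h1 := norm_sub hmon (-1 : ZMod p)
    have h2 : algebraMap (ZMod p) (AdjoinRoot (cub A c)) (-1) - AdjoinRoot.root (cub A c) =
        -(l0 + 1) := by
      rw [map_neg, map_one]
      ring
    rw [h2, neg_one_odd_fin hmon hodd3, cub_eval] at h1
    linear_combination -h1
  have hcz : Nat.card (ZMod p) = p := Nat.card_zmod p
  have hP1 : l0 ^ ((p ^ 3 - 1) / (p - 1)) = algebraMap (ZMod p) (AdjoinRoot (cub A c)) c := by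
    have h1 := FiniteField.algebraMap_norm_eq_pow (K := ZMod p) (K' := AdjoinRoot (cub A c))
      (x := l0)
    rw [hN1, hcard3, hcz] at h1
    exact h1.symm
  have hP2 : (l0 + 1) ^ ((p ^ 3 - 1) / (p - 1)) = 1 := by
    have h1 := FiniteField.algebraMap_norm_eq_pow (K := ZMod p) (K' := AdjoinRoot (cub A c))
      (x := l0 + 1)
    rw [hN2, hcard3, hcz, map_one] at h1
    exact h1.symm
  haveI : CharP (AdjoinRoot (cub A c)) p :=
    charP_of_injective_algebraMap (algebraMap (ZMod p) (AdjoinRoot (cub A c))).injective p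
  -- the large field
  obtain ⟨e, hge, he⟩ := Nat.exists_infinite_primes (2 * p ^ 2)
  haveI : NeZero e := ⟨he.ne_zero⟩
  obtain ⟨s, hs, hes, hsd⟩ := exists_s hpp he
  have hbig : 2 * p ^ 2 ≤ s := hge.trans hes
  let k := FiniteField.Extension (AdjoinRoot (cub A c)) p e
  have hcard : Nat.card k = (p ^ 3) ^ e := by
    rw [FiniteField.natCard_extension, hcard3]
  set ι : AdjoinRoot (cub A c) →+* k := algebraMap _ _ with hι
  haveI : CharP k p := charP_of_injective_algebraMap ι.injective p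
  -- numbers
  have hp1 : 0 < p - 1 := by omega
  have hp3 : 1 < p ^ 3 := Nat.one_lt_pow (by norm_num) (by omega)
  obtain ⟨M, hM⟩ : ∃ M, M = ∑ i ∈ Finset.range e, (p ^ 3) ^ i := ⟨_, rfl⟩
  have hgM : (p ^ 3 - 1) * M = (p ^ 3) ^ e - 1 := by
    have h1 := Nat.geomSum_eq (m := p ^ 3) hp3 e
    rw [hM, h1]
    have hd : p ^ 3 - 1 ∣ (p ^ 3) ^ e - 1 := by simpa using Nat.sub_dvd_pow_sub_pow (p ^ 3) 1 e
    exact Nat.mul_div_cancel' hd
  obtain ⟨L, hL⟩ : p - 1 ∣ p ^ 3 - 1 := by simpa using Nat.sub_dvd_pow_sub_pow p 1 3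
  have hL' : (p ^ 3 - 1) / (p - 1) = L := by rw [hL, Nat.mul_div_cancel_left _ hp1]
  rw [hL'] at hP1 hP2
  have hq1 : Nat.card k - 1 = (p - 1) * (L * M) := by
    rw [hcard, ← hgM, hL, mul_assoc]
  have hq2 : (Nat.card k - 1) / (p - 1) = L * M := by
    rw [hq1, Nat.mul_div_cancel_left _ hp1]
  have hl1 : (ι l0) ^ (L * M) = ι (algebraMap (ZMod p) _ (c ^ M)) := by
    rw [pow_mul, ← map_pow, hP1, map_pow, map_pow]
  have hl2 : (ι l0 + 1) ^ (L * M) = 1 := by
    rw [← map_one ι, ← map_add, pow_mul, ← map_pow, hP2, map_one, one_pow]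
  -- the order
  have hcop : Nat.Coprime M d := by
    have h1 : M ≡ e [MOD d] := by
      rw [hM]
      have h2 : ∀ i ∈ Finset.range e, (p ^ 3) ^ i ≡ 1 [MOD d] := by
        intro i _
        have h3 : p ≡ 1 [MOD d] := by
          apply Nat.ModEq.symm
          rw [Nat.modEq_iff_dvd' hpp.one_le, ← hdr]
          exact dvd_mul_right _ _
        have h4 := (h3.pow 3).pow i
        simpa using h4
      have h5 : (∑ i ∈ Finset.range e, (p ^ 3) ^ i) ≡ ∑ i ∈ Finset.range e, 1 [MOD d] :=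
        Nat.ModEq.sum fun i hi => h2 i hi
      simpa using h5
    have h6 : Nat.Coprime e d := by
      rw [Nat.Prime.coprime_iff_not_dvd he]
      intro h7
      have h8 := Nat.le_of_dvd hd0 h7
      have h9 : d ≤ p - 1 := by
        rw [← hdr]
        exact Nat.le_mul_of_pos_right _ hr
      have h10 : p ≤ p ^ 2 := Nat.le_self_pow two_ne_zero p
      omega
    have h7 : Nat.gcd M d = Nat.gcd e d := h1.gcd_eq
    rw [Nat.coprime_iff_gcd_eq_one, h7]
    exact h6
  have hordM : orderOf (c ^ M) = d := by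
    rw [Nat.Coprime.orderOf_pow (by rw [hcord']; exact hcop.symm), hcord']
  set ρ : k := ι (algebraMap (ZMod p) _ (c ^ M)) with hρ
  have hordρ : orderOf ρ = d := by
    rw [← hordM, hρ]
    exact orderOf_injective ((ι.comp (algebraMap (ZMod p) (AdjoinRoot (cub A c)))) : ZMod p →* k)
      (ι.comp (algebraMap (ZMod p) (AdjoinRoot (cub A c)))).injective (c ^ M)
  have hl0ne : ι l0 ≠ 0 := by
    intro h0
    have h1 : l0 = 0 := ι.injective (by rw [h0, map_zero])
    rw [h1, Algebra.norm_zero] at hN1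
    exact hc0 hN1.symm
  have hl1ne : ι l0 + 1 ≠ 0 := by
    intro h0
    have h1 : l0 + 1 = 0 := ι.injective (by rw [map_add, map_one, h0, map_zero])
    rw [h1, Algebra.norm_zero] at hN2
    exact zero_ne_one hN2
  obtain ⟨w, hw0, hw⟩ := exists_pow (k := k) (m := p - 1) ⟨L * M, hq1⟩ hl1ne (by rw [hq2, hl2])
  have hrq : Nat.card k - 1 = r * (d * (L * M)) := by
    rw [hq1, ← hdr]
    ring
  obtain ⟨η, hη0, hη⟩ := exists_pow (k := k) (m := r) ⟨_, hrq⟩ hl0ne (by
    have h1 : (Nat.card k - 1) / r = (L * M) * d := by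
      rw [hrq, Nat.mul_div_cancel_left _ hr, mul_comm]
    rw [h1, pow_mul, hl1, ← hordρ, pow_orderOf_eq_one])
  obtain ⟨ζ, hζ⟩ := exists_prim (k := k) (r := r) ⟨_, hrq⟩
  have hsq : s ∣ Nat.card k - 1 := by
    rw [hcard]
    refine hsd.trans ?_
    have : (p ^ 3) ^ e = (p ^ e) ^ 3 := by rw [← pow_mul, ← pow_mul, mul_comm]
    rw [this]
    simpa using Nat.sub_dvd_pow_sub_pow (p ^ e) 1 3
  obtain ⟨δ, hδ1, hδ2, hδ3⟩ := exists_delta (p := p) (l := ι l0) (η := η) hdr hw0 hw hs hsq hbig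
    hζ hr
  refine ⟨p, d, s, hp, k, inferInstance, inferInstance, inferInstance, ι l0, w, η, ζ, δ, ρ, ?_⟩
  refine ⟨by omega, hdr, hw0, hl0ne, hw, hδ1, hη, hζ, ?_, hordρ, hs, ?_, hδ2, hδ3⟩
  · rw [hq2, hl1]
  · rintro rfl
    nlinarith

end Run7.h905.BS
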