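import Pool.Agent.Run7.h905.BS.Sel

/-!
# The Mordell-Weil group modulo 2 and the group of locally trivial classes of the twist
-/

open Polynomial WithZero IsDedekindDomain
open scoped Classical

set_option autoImplicit false
set_option linter.all false

namespace Run7.h905.BS

open Pool.Agent.Y160.SE Pool.Agent.N352.JB
open Pool.Agent.TH115.GD (incl rs ak exists_restrict)
open Pool.Agent.N424.JB (good_two)
open Pool.Agent.W309.TD (NoTwo even_rep sq_of_nonsq isSquare_coe)
open Pool.Agent.N352.Sha (ShaTrivial ShaTrivialAt)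

/-- No points of order two. -/
theorem no_two {K : Type} [Field K] {f : K[X]} (hg : Good 2 (-1 : K) f) (hirr : Irreducible f)
    (x : Jac 2 f K) (hx : 2 • x = 0) : x = 0 := by
  obtain ⟨hd1, hd2, hd3⟩ := Pool.Agent.N615.JB.dbl K (SeparableClosure K) f hg
  apply Pool.Agent.N655.JB.inj K (SeparableClosure K) f hg
  rw [map_zero]
  apply Pool.Agent.N615.JB.tor K (SeparableClosure K) f hg hirr
  · rw [hd1, ← map_nsmul, hx, map_zero]
  · exact fun σ => jm_ak_incl x σ

theorem adm_ideal_ne {K : Type} [Field K] {f : K[X]} (hg : Good 2 (-1 : K) f)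
    {l : List (K[X] × K[X])} (hl : Adm f l) : idL (f.map (algebraMap K K)) l ≠ ⊥ := by
  have hl' := adm_id hl
  intro h0
  have h1 := idL_norm (hg.up K) hl'
  rw [h0, Finset.prod_range_succ, Finset.prod_range_one] at h1
  have h2 : ((⊥ : Ideal (CR 2 (f.map (algebraMap K K)))).map ((hg.up K).tw ^ 0)) = ⊥ :=
    Ideal.map_bot
  rw [h2, Ideal.bot_mul] at h1
  have h3 := Ideal.span_singleton_eq_bot.1 h1.symm
  exact plL_ne hl' (xp_inj two_ne_zero (h3.trans xp_zero.symm))

variable {k K B M : Type} [Field k] [Field K] [Algebra k[X] K] [IsFractionRing k[X] K]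
  [CommRing B] [IsDedekindDomain B] [Field M] [Algebra B M] [IsFractionRing B M]
  [Algebra k[X] B] [Algebra.IsIntegral k[X] B] [Algebra K M] [Algebra k[X] M]
  [IsScalarTower k[X] B M] [IsScalarTower k[X] K M] {f : k[X][X]} {x : B}
  {Q : k[X]} {m : ℕ} {h : Fin m → k[X][X]} {u : k[X][X]}

/-- The ideal of the point `P j`. -/
noncomputable def iP (K : Type) [Field K] [Algebra k[X] K] (f : k[X][X]) (Q : k[X])
    (h : Fin m → k[X][X]) (u : k[X][X]) (j : Fin m) :
    Ideal (CR 2 ((tF K f (qK K Q)).map (algebraMap K K))) :=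
  idP ((tF K f (qK K Q)).map (algebraMap K K)) (pP K Q h j) (cP K f Q u)

theorem idL_lS (S : Finset (Fin m)) :
    idL ((tF K f (qK K Q)).map (algebraMap K K)) (lS K f Q h u S) = ∏ j ∈ S, iP K f Q h u j := by
  unfold idL lS
  rw [List.map_map, Finset.prod_map_toList]
  rfl

theorem cl_sum (hg : Good 2 (-1 : K) (tF K f (qK K Q))) {P : Fin m → Jac 2 (tF K f (qK K Q)) K}
    (hP : ∀ j, IsCl K (iP K f Q h u j) (P j)) (S : Finset (Fin m)) :
    IsCl K (idL ((tF K f (qK K Q)).map (algebraMap K K)) (lS K f Q h u S)) (∑ j ∈ S, P j) := by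
  rw [idL_lS]
  induction S using Finset.induction_on with
  | empty =>
    rw [Finset.prod_empty, Finset.sum_empty, Ideal.one_eq_top]
    exact cl_top hyps hg
  | insert a s ha ih =>
    rw [Finset.prod_insert ha, Finset.sum_insert ha]
    exact cl_mul hyps hg (hP a) ih

theorem lS_single (j : Fin m) : lS K f Q h u {j} = [(pP K Q h j, cP K f Q u)] := by
  unfold lS
  rw [Finset.toList_singleton, List.map_cons, List.map_nil]

section main

variable [PerfectField k] (hF : Fac f Q h u) (hc : Cv f x) (hQ : Irreducible Q) (hcl : NoTwo B)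
  (hun : ∀ u : Bˣ, IsSquare (Algebra.norm K (algebraMap B M (u : B))) →
    IsSquare (algebraMap B M (u : B)))

include hF hc hQ hcl hun

/-- **The 2-descent.** -/
theorem Fac.all (h2 : (2 : K) ≠ 0) (hm : 2 ≤ m) (hsep : (tF K f (qK K Q)).Separable) :
    ∃ P : Fin m → Jac 2 (tF K f (qK K Q)) K, (∀ j, IsCl K (iP K f Q h u j) (P j)) ∧
      (∀ x : Jac 2 (tF K f (qK K Q)) K, 2 • x = 0 → x = 0) ∧
      (∀ x : Jac 2 (tF K f (qK K Q)) K, ∃ (S : Finset (Fin m)) (R : Jac 2 (tF K f (qK K Q)) K),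
        x = ∑ j ∈ S, P j + 2 • R) ∧
      (∀ S : Finset (Fin m), (∃ R : Jac 2 (tF K f (qK K Q)) K, ∑ j ∈ S, P j = 2 • R) ↔
        S = ∅ ∨ S = Finset.univ) ∧
      ShaTrivial 2 (tF K f (qK K Q)) k[X] := by
  have hq := qK_ne (K := K) hQ
  have hmon : (tF K f (qK K Q)).Monic := hc.tF_monic _
  have hirr : Irreducible (tF K f (qK K Q)) := hc.tF_irr M hq
  have hodd : Odd (tF K f (qK K Q)).natDegree := by
    rw [hc.tF_deg]; exact hc.odd
  have hg : Good 2 (-1 : K) (tF K f (qK K Q)) := good_two h2 hmon hsep hodd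
  have hadm : ∀ S : Finset (Fin m), Adm (tF K f (qK K Q)) (lS K f Q h u S) :=
    fun S => hF.adm M (K := K) hc hQ hm S
  have hex : ∀ j, ∃ P : Jac 2 (tF K f (qK K Q)) K, IsCl K (iP K f Q h u j) P := by
    intro j
    apply cl_exists hyps hg
    have := adm_ideal_ne hg (hadm {j})
    rwa [idL_lS, Finset.prod_singleton] at this
  choose P hP using hex
  have hcls := cl_sum hg hP
  have hkc : ∀ S : Finset (Fin m), KC hg (SeparableClosure K) (∑ j ∈ S, P j)
      (kl (lS K f Q h u S)) := fun S => kc_list hg hodd (hadm S) (hcls S)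
  have hgen : ∀ g : K[X], IsCoprime g (tF K f (qK K Q)) →
      IsSquare (Algebra.norm K (AdjoinRoot.mk (tF K f (qK K Q)) g)) →
      LocAll (k := k) (tF K f (qK K Q)) g → ∃ (S : Finset (Fin m)) (s : K[X]),
        tF K f (qK K Q) ∣ g * kl (lS K f Q h u S) - s ^ 2 := fun g h3 h4 h5 =>
    hF.sel (M := M) hc hQ hcl hun hm hg h3 h4 h5
  refine ⟨P, hP, no_two hg hirr, ?_, ?_, ?_⟩
  · intro y
    obtain ⟨g, hk, hcop, hloc, hN⟩ := kc_exists hg (SeparableClosure K) hodd y
    obtain ⟨S, s, hs⟩ := hgen g hcop hN fun v => Pool.Agent.N424.JB.LocIm.up hloc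
    obtain ⟨R, hR⟩ := KC.sq hg hirr (hk.add (hkc S)) hs
    refine ⟨S, R - ∑ j ∈ S, P j, ?_⟩
    rw [smul_sub, hR, two_nsmul]
    abel
  · intro S
    rw [← hF.sq_iff (M := M) hc hQ hcl hun hm hg S]
    constructor
    · rintro ⟨R, hR⟩
      have h3 := hkc S
      rw [hR] at h3
      obtain ⟨s, hs⟩ := h3.of_two
      exact hc.dvd_sq hs
    · intro h3
      obtain ⟨s, hs⟩ := hc.sq_dvd (M := M) hq h3
      obtain ⟨R, hR⟩ := KC.sq hg hirr (hkc S) hs
      exact ⟨R, hR.symm⟩
  · have hS : SelPts (PlR k[X] K) (tF K f (qK K Q)) := by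
      intro g h3 h4 h5
      obtain ⟨S, s, hs⟩ := hgen g h3 h4 fun v => h5 _ (PlR.mk v)
      exact ⟨lS K f Q h u S, s, hadm S, hs⟩
    have h3 := sha' h2 hmon hirr hsep hodd hS
    exact fun c m hc hl hb => h3 c m hc (fun E _ _ hE => by
      cases hE with
      | mk v => exact hl v) hb

/-- The case of one factor: rank zero. -/
theorem Fac.one (h2 : (2 : K) ≠ 0) (hm : m = 1) (hsep : (tF K f (qK K Q)).Separable) :
    Pool.Agent.N352.Sha.UniquelyDivisible 2 (Pool.Agent.Y713.Jac.J 2 (tF K f (qK K Q)) K) ∧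
      ShaTrivial 2 (tF K f (qK K Q)) k[X] := by
  have hq := qK_ne (K := K) hQ
  have hmon : (tF K f (qK K Q)).Monic := hc.tF_monic _
  have hirr : Irreducible (tF K f (qK K Q)) := hc.tF_irr M hq
  have hodd : Odd (tF K f (qK K Q)).natDegree := by
    rw [hc.tF_deg]; exact hc.odd
  have hS : SelTriv (PlR k[X] K) (tF K f (qK K Q)) := by
    intro g h3 h4 h5
    exact hF.sel_one (M := M) hc hQ hcl hun hm h3 h4 fun v => h5 _ (PlR.mk v)
  obtain ⟨h3, h4⟩ := Pool.Agent.N352.JB.gen h2 hmon hirr hsep hodd hS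
  exact ⟨h3, fun c m hc hl hb => h4 c m hc (fun E _ _ hE => by
    cases hE with
    | mk v => exact hl v) hb⟩

end main

end Run7.h905.BS
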