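import Pool.Agent.Run7.h905.BS.Idl

/-!
# The Kummer classes of rational points, and the locally trivial classes
-/

set_option autoImplicit false
set_option linter.all false

open Polynomial IsDedekindDomain
open scoped Classical

namespace Run7.h905.BS

open Pool.Agent.Y160.SE Pool.Agent.N352.JB
open Pool.Agent.TH115.GD (incl rs ak exists_restrict)
open Pool.Agent.N424.JB (dvd_of_roots rt_mem prod_roots_ne rt_up good_two)

section kum

variable {K Ω : Type} [Field K] [Field Ω] [Algebra K Ω] {f : K[X]}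

theorem rs_ak' (σ : Ω ≃ₐ[K] Ω) : (rs K σ : Ω →ₐ[K] Ω) = ak σ := AlgHom.ext fun _ => rfl

theorem jm_ak_incl (x : Jac 2 f K) (σ : Ω ≃ₐ[K] Ω) :
    jm 2 f (ak σ) (jm 2 f (incl K K Ω) x) = jm 2 f (incl K K Ω) x := by
  rw [jm_jm]
  congr 1
  congr 1
  exact AlgHom.ext fun y => σ.commutes y

/-- `c σ = σ Q - Q`. -/
noncomputable def cob (Q : Jac 2 f Ω) (σ : Ω ≃ₐ[K] Ω) : Jac 2 f Ω := jm 2 f (ak σ) Q - Q

theorem cob_mul (Q : Jac 2 f Ω) (σ τ : Ω ≃ₐ[K] Ω) :
    cob Q (σ * τ) = cob Q σ + jm 2 f (ak σ) (cob Q τ) := by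
  unfold cob
  have e : (ak (σ * τ) : Ω →ₐ[K] Ω) = (ak σ).comp (ak τ) := AlgHom.ext fun x => rfl
  rw [map_sub, jm_jm, e]
  abel

variable (hg : Good 2 (-1 : K) f)

theorem cob_tor {Q : Jac 2 f Ω} {P : Jac 2 f K} (hQ : 2 • Q = jm 2 f (incl K K Ω) P)
    (σ : Ω ≃ₐ[K] Ω) : Tor hg (cob Q σ) := by
  rw [(Pool.Agent.N615.JB.dbl K Ω f hg).1]
  unfold cob
  rw [smul_sub, ← map_nsmul, hQ, jm_ak_incl, sub_self]

/-- `h` represents the Kummer class of the point `P`. -/
def KC (Ω : Type) [Field Ω] [Algebra K Ω] (P : Jac 2 f K) (h : K[X]) : Prop :=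
  ∃ (Q : Jac 2 f Ω) (t : Ω → Ω), 2 • Q = jm 2 f (incl K K Ω) P ∧ KumD hg (cob Q) h t

variable {hg}

theorem kd_ne {c : (Ω ≃ₐ[K] Ω) → Jac 2 f Ω} {h : K[X]} {b : Ω → Ω} (hk : KumD hg c h b) {e : Ω}
    (he : Rt f e) : aeval e h ≠ 0 := by
  obtain ⟨h1, h2⟩ := hk.val e he
  rw [← h2]
  exact pow_ne_zero _ h1

variable [IsGalois K Ω] [IsSepClosed Ω]

theorem chi_inv {x : Jac 2 f Ω} (hx : Tor hg x) {β : Ω} (hβ : Rt f β) :
    (chi hg β x)⁻¹ = chi hg β x := by
  have h1 := chi_pow hyps hg hx hβ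
  have h2 := chi_ne hyps hg hx hβ
  field_simp
  rw [h1]

theorem kd_mul {c c' : (Ω ≃ₐ[K] Ω) → Jac 2 f Ω} {h h' : K[X]} {b b' : Ω → Ω}
    (hc : ∀ σ, Tor hg (c σ)) (hc' : ∀ σ, Tor hg (c' σ)) (hk : KumD hg c h b)
    (hk' : KumD hg c' h' b') :
    KumD hg (fun σ => c σ + c' σ) (h * h') (fun e => b e * b' e) := by
  refine ⟨fun e he => ⟨mul_ne_zero (hk.val e he).1 (hk'.val e he).1, ?_⟩, fun σ e he => ?_⟩
  · rw [mul_pow, (hk.val e he).2, (hk'.val e he).2, map_mul]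
  · have hσ : Rt f (σ e) := he.map (ak σ)
    rw [map_mul, hk.gal σ e he, hk'.gal σ e he, chi_add hyps hg (hc σ) (hc' σ) hσ]
    ring

theorem kd_inv {c : (Ω ≃ₐ[K] Ω) → Jac 2 f Ω} {h h' w : K[X]} {b : Ω → Ω}
    (hc : ∀ σ, Tor hg (c σ)) (hk : KumD hg c h b) (hh : IsCoprime h' f)
    (hw : f ∣ h * h' - w ^ 2) : KumD hg c h' (fun e => aeval e w / b e) := by
  have hv : ∀ e : Ω, Rt f e → aeval e h * aeval e h' = aeval e w ^ 2 := by
    intro e he
    obtain ⟨q, hq⟩ := hw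
    have := congrArg (aeval e) hq
    rw [map_mul, show aeval e f = 0 from he, zero_mul, map_sub, map_mul, map_pow, sub_eq_zero] at this
    exact this
  have hn : ∀ e : Ω, Rt f e → aeval e h' ≠ 0 := by
    intro e he h0
    obtain ⟨u, v, huv⟩ := hh
    have := congrArg (aeval e) huv
    rw [map_add, map_mul, map_mul, h0, show aeval e f = 0 from he, mul_zero, mul_zero, add_zero,
      map_one] at this
    exact zero_ne_one this
  refine ⟨fun e he => ?_, fun σ e he => ?_⟩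
  · obtain ⟨h1, h2⟩ := hk.val e he
    have h3 : aeval e w ≠ 0 := by
      intro h0
      have := hv e he
      rw [h0, zero_pow two_ne_zero, ← h2] at this
      exact mul_ne_zero (pow_ne_zero _ h1) (hn e he) this
    refine ⟨div_ne_zero h3 h1, ?_⟩
    rw [div_pow, ← hv e he, h2, mul_div_cancel_left₀ _ (kd_ne hk he)]
  · have hσ : Rt f (σ e) := he.map (ak σ)
    have h1 : σ (aeval e w) = aeval (σ e) w := by
      exact (aeval_algHom_apply (ak σ) e w).symm
    rw [map_div₀, h1, hk.gal σ e he, div_mul_eq_div_div, div_eq_mul_inv _ (chi hg (σ e) (c σ)),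
      chi_inv (hc σ) hσ]
    ring

variable (hg) in
/-- A square Kummer class. -/
theorem KC.sq (hirr : Irreducible f) {P : Jac 2 f K} {h s : K[X]} (hk : KC hg Ω P h)
    (hs : f ∣ h - s ^ 2) : ∃ R : Jac 2 f K, 2 • R = P := by
  obtain ⟨Q, t, hQ, hk⟩ := hk
  obtain ⟨hd1, hd2, hd3⟩ := Pool.Agent.N615.JB.dbl K Ω f hg
  obtain ⟨R, hR1, hR2⟩ := Pool.Agent.N615.JB.cob K Ω f hg hirr (cob Q) (cob_mul Q)
    (cob_tor hg hQ) h t hk s hs
  have hfx : ∀ τ : Ω ≃ₐ[K] Ω, jm 2 f (rs K τ) (Q - R) = Q - R := by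
    intro τ
    have e2 := hR2 τ
    unfold cob at e2
    rw [rs_ak', map_sub]
    have e3 : jm 2 f (ak τ) Q = jm 2 f (ak τ) R - R + Q := by rw [← e2]; abel
    rw [e3]
    abel
  obtain ⟨Q0, hQ0⟩ := fixed_class (E := K) hyps hg (Q - R) hfx
  refine ⟨Q0, Pool.Agent.N655.JB.inj K Ω f hg ?_⟩
  rw [map_nsmul, hQ0, smul_sub, hQ, (hd1 R).1 hR1, sub_zero]

/-- The Kummer class of a double is a square. -/
theorem KC.of_two {R : Jac 2 f K} {h : K[X]} (hk : KC hg Ω (2 • R) h) : ∃ s, f ∣ h - s ^ 2 := by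
  obtain ⟨Q, t, hQ, hk⟩ := hk
  obtain ⟨hd1, hd2, hd3⟩ := Pool.Agent.N615.JB.dbl K Ω f hg
  set T : Jac 2 f Ω := Q - jm 2 f (incl K K Ω) R with hT
  have hTt : Tor hg T := by
    rw [hd1, hT, smul_sub, hQ, map_nsmul, sub_self]
  have hcob : ∀ σ : Ω ≃ₐ[K] Ω, cob Q σ = jm 2 f (ak σ) T - T := by
    intro σ
    unfold cob
    rw [hT, map_sub, jm_ak_incl]
    abel
  have hγ : ∀ (τ : Ω ≃ₐ[K] Ω) (e : Ω), Rt f e →
      τ ((fun e => t e * chi hg e T) e) = (fun e => t e * chi hg e T) (τ e) := by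
    intro τ e he
    have hσ : Rt f (τ e) := he.map (ak τ)
    have h1 := hk.gal τ e he
    have h2 := chi_map hyps hg hTt he (ak τ)
    have h3 : (ak τ) (chi hg e T) = chi hg e T := chi_fix' hyps hg hTt he (ak τ)
    have h4 : τ (chi hg e T) = chi hg e T := h3
    have h5 : chi hg (τ e) (jm 2 f (ak τ) T) = chi hg e T := by
      rw [← h3, ← h2]
      rfl
    simp only
    rw [map_mul, h1, h4, hcob, chi_sub hyps hg (hTt.map _) hTt hσ, h5, div_eq_mul_inv,
      chi_inv hTt hσ]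
    have h6 := chi_pow hyps hg hTt he
    linear_combination (t (τ e) * chi hg (τ e) T) * h6
  obtain ⟨s, hs⟩ := Pool.Agent.N615.JB.lag K Ω f hg.sep (fun e => t e * chi hg e T) hγ
  refine ⟨s, ?_⟩
  apply dvd_of_roots (Ω := Ω) hg.sep (splits_up hg)
  intro e he
  rw [map_sub, map_pow, hs e he, mul_pow, (hk.val e he).2, chi_pow hyps hg hTt he, mul_one, sub_self]

theorem KC.add {P P' : Jac 2 f K} {h h' : K[X]} (hk : KC hg Ω P h) (hk' : KC hg Ω P' h') :
    KC hg Ω (P + P') (h * h') := by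
  obtain ⟨Q, t, hQ, hk⟩ := hk
  obtain ⟨Q', t', hQ', hk'⟩ := hk'
  refine ⟨Q + Q', fun e => t e * t' e, by rw [smul_add, hQ, hQ', map_add], ?_⟩
  have h1 := kd_mul (cob_tor hg hQ) (cob_tor hg hQ') hk hk'
  have h2 : cob (Q + Q') = fun σ : Ω ≃ₐ[K] Ω => cob Q σ + cob Q' σ := by
    funext σ
    unfold cob
    rw [map_add]
    abel
  rw [h2]
  exact h1

theorem KC.inv {P : Jac 2 f K} {h h' w : K[X]} (hk : KC hg Ω P h) (hh : IsCoprime h' f)
    (hw : f ∣ h * h' - w ^ 2) : KC hg Ω P h' := by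
  obtain ⟨Q, t, hQ, hk⟩ := hk
  exact ⟨Q, _, hQ, kd_inv (cob_tor hg hQ) hk hh hw⟩

variable (hg) in
/-- The Kummer class from an ideal whose norm is explicit. -/
theorem kc_of {P : Jac 2 f K} {I : Ideal (CR 2 (f.map (algebraMap K K)))} {G : K[X]}
    (hIP : IsCl K I P) (hIc : I ⊔ Ideal.span {yy 2 (f.map (algebraMap K K))} = ⊤)
    (hG : IsCoprime G (f.map (algebraMap K K)))
    (hN : ∏ i ∈ Finset.range 2, I.map ((hg.up K).tw ^ i) = Ideal.span {xp 2 _ G}) :
    Algebra.norm K (AdjoinRoot.mk f G) ≠ 0 ∧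
    KC hg Ω P (C (Algebra.norm K (AdjoinRoot.mk f G))⁻¹ * G ^ f.natDegree) := by
  obtain ⟨hd1, hd2, hd3⟩ := Pool.Agent.N615.JB.dbl K Ω f hg
  obtain ⟨Q, hQ⟩ := hd3 (jm 2 f (incl K K Ω) P)
  have hPe : pe hg Ω (1 - X) Q = jm 2 f (incl K K Ω) P := by rw [hd2, hQ]
  obtain ⟨t, ht1, ht2⟩ := kcJ hyps hg hIP hIc hG hN hPe
  have hs : (f.map (algebraMap K Ω)).Splits := splits_up hg
  obtain ⟨N, hNd⟩ : ∃ N : K, N = Algebra.norm K (AdjoinRoot.mk f G) := ⟨_, rfl⟩
  have hN1 : algebraMap K Ω N = ((f.map (algebraMap K Ω)).roots.map fun e => aeval e G).prod := by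
    rw [hNd]
    exact Pool.Agent.N615.JB.nrm K Ω f G hg.monic hs
  have hN0' : ((f.map (algebraMap K Ω)).roots.map fun e => aeval e G).prod ≠ 0 :=
    prod_roots_ne hg.monic.ne_zero fun e he => (ht1 e he).2.1
  have hN0 : N ≠ 0 := by
    intro h0
    rw [h0, map_zero] at hN1
    exact hN0' hN1.symm
  rw [← hNd]
  refine ⟨hN0, Q, t, hQ, ?_⟩
  have hval : ∀ e : Ω, aeval e (C N⁻¹ * G ^ f.natDegree) =
      (algebraMap K Ω N)⁻¹ * aeval e G ^ f.natDegree := by
    intro e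
    rw [map_mul, aeval_C, map_inv₀, map_pow]
  refine ⟨fun e he => ⟨(ht1 e he).1, ?_⟩, fun σ e he => ?_⟩
  · rw [hval, ← (ht1 e he).2.2, ← hN1]
    have : algebraMap K Ω N ≠ 0 := by rw [hN1]; exact hN0'
    field_simp
  · have e2 := ht2 σ e he (by
      rw [rs_ak']
      exact cob_tor hg hQ σ)
    rw [rs_ak'] at e2
    exact e2

theorem adm_id {l : List (K[X] × K[X])} (h : Adm f l) : Adm (f.map (algebraMap K K)) l := by
  have : f.map (algebraMap K K) = f := Polynomial.map_id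
  rw [this]
  exact h

theorem norm_kl (hg : Good 2 (-1 : K) f) (Ω : Type) [Field Ω] [Algebra K Ω] [IsGalois K Ω]
    [IsSepClosed Ω]
    {l : List (K[X] × K[X])} (hodd : Odd f.natDegree) (h : Adm f l) :
    ∃ y : K, Algebra.norm K (AdjoinRoot.mk f (kl l)) = y ^ 2 := by
  have hs : (f.map (algebraMap K Ω)).Splits := splits_up hg
  obtain ⟨y, hy⟩ := Pool.Agent.N27.JB.Lpn.lpn K Ω f hg.monic hodd hs
    ((l.map fun p => p.1 : List K[X]) : Multiset K[X]) (by
      intro p hp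
      rw [Multiset.mem_coe, List.mem_map] at hp
      obtain ⟨q, hq, rfl⟩ := hp
      obtain ⟨h1, h2, h3⟩ := h q hq
      refine ⟨h1, q.2, ?_⟩
      rwa [← dvd_neg, neg_sub])
  refine ⟨y, ?_⟩
  apply (algebraMap K Ω).injective
  rw [Pool.Agent.N615.JB.nrm K Ω f _ hg.monic hs, ← hy]
  congr 1
  apply Multiset.map_congr rfl
  intro e _
  congr 1
  unfold kl
  rw [Multiset.map_coe, Multiset.prod_coe, List.map_map]
  rfl

variable (hg) in
/-- **The Kummer class of an explicit divisor.** -/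
theorem kc_list {l : List (K[X] × K[X])} (hodd : Odd f.natDegree) (h : Adm f l) {P : Jac 2 f K}
    (hP : IsCl K (idL (f.map (algebraMap K K)) l) P) : KC hg Ω P (kl l) := by
  have h' := adm_id h
  obtain ⟨hN0, hk⟩ := kc_of (Ω := Ω) hg hP (idL_cop h') (plL_cop h') (idL_norm (hg.up K) h')
  obtain ⟨d, hd⟩ := kl_sign l
  obtain ⟨y, hy⟩ := norm_kl hg Ω hodd h
  obtain ⟨k, hk2⟩ := hodd
  have hmk : AdjoinRoot.mk f ((l.map fun p => p.1).prod) =
      algebraMap K (AdjoinRoot f) ((-1) ^ d) * AdjoinRoot.mk f (kl l) := by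
    rw [hd, map_mul]
    congr 1
    rw [map_pow, map_pow, map_neg, map_neg, map_one, map_one]
  have hfin : Module.finrank K (AdjoinRoot f) = f.natDegree := by
    have := (AdjoinRoot.powerBasis hg.monic.ne_zero).finrank
    rw [this, AdjoinRoot.powerBasis_dim]
  have hN : Algebra.norm K (AdjoinRoot.mk f ((l.map fun p => p.1).prod)) =
      ((-1) ^ d) ^ f.natDegree * y ^ 2 := by
    rw [hmk, map_mul, hy, Algebra.norm_algebraMap, hfin]
  have hy0 : y ≠ 0 := by
    rintro rfl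
    apply hN0
    rw [hN]
    ring
  refine hk.inv (w := C y⁻¹ * kl l ^ (k + 1)) (kl_cop h) ?_
  have e : C (Algebra.norm K (AdjoinRoot.mk f ((l.map fun p => p.1).prod)))⁻¹ *
      ((l.map fun p => p.1).prod) ^ f.natDegree * kl l - (C y⁻¹ * kl l ^ (k + 1)) ^ 2 = 0 := by
    rw [hN, hd, mul_pow, mul_inv, C_mul]
    have e1 : C ((((-1 : K) ^ d) ^ f.natDegree)⁻¹) * ((-1 : K[X]) ^ d) ^ f.natDegree = 1 := by
      have : ((-1 : K[X]) ^ d) ^ f.natDegree = C (((-1 : K) ^ d) ^ f.natDegree) := by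
        rw [C_pow, C_pow, C_neg, C_1]
      rw [this, ← C_mul, inv_mul_cancel₀, C_1]
      exact pow_ne_zero _ (pow_ne_zero _ (neg_ne_zero.2 one_ne_zero))
    have e2 : (C (y ^ 2)⁻¹ : K[X]) = C y⁻¹ ^ 2 := by rw [← C_pow, inv_pow]
    rw [e2]
    have e3 : kl l ^ f.natDegree * kl l = (kl l ^ (k + 1)) ^ 2 := by
      rw [← pow_succ, hk2, ← pow_mul]
      congr 1
      ring
    linear_combination (C y⁻¹ ^ 2 * kl l ^ f.natDegree * kl l) * e1 + (C y⁻¹ ^ 2) * e3
  rw [e]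
  exact dvd_zero _

variable (hg) in
/-- Every point has a Kummer class, and this class is in the explicit image. -/
theorem kc_exists (Ω : Type) [Field Ω] [Algebra K Ω] [IsGalois K Ω] [IsSepClosed Ω]
    (hodd : Odd f.natDegree) (P : Jac 2 f K) : ∃ h : K[X], KC hg Ω P h ∧
      IsCoprime h f ∧ LocIm K f h ∧ IsSquare (Algebra.norm K (AdjoinRoot.mk f h)) := by
  obtain ⟨I, G, hIP, hIc, hG, hN⟩ := exists_rep (L := K) hyps hg P
  have hid : f.map (algebraMap K K) = f := Polynomial.map_id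
  obtain ⟨hN0, hk⟩ := kc_of (Ω := Ω) hg hIP hIc (lp_coprime hG) hN
  have hG' : LP 2 f G := by
    rw [hid] at hG
    exact hG
  have hs : (f.map (algebraMap K Ω)).Splits := splits_up hg
  obtain ⟨N, hNd⟩ : ∃ N : K, N = Algebra.norm K (AdjoinRoot.mk f G) := ⟨_, rfl⟩
  rw [← hNd] at hk hN0
  have hN1 : algebraMap K Ω N = ((f.map (algebraMap K Ω)).roots.map fun e => aeval e G).prod := by
    rw [hNd]
    exact Pool.Agent.N615.JB.nrm K Ω f G hg.monic hs
  have hval : ∀ e : Ω, aeval e (C N⁻¹ * G ^ f.natDegree) =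
      (algebraMap K Ω N)⁻¹ * aeval e G ^ f.natDegree := by
    intro e
    rw [map_mul, aeval_C, map_inv₀, map_pow]
  have hNΩ : algebraMap K Ω N ≠ 0 := (_root_.map_ne_zero _).2 hN0
  refine ⟨_, hk, ?_, ?_, ?_⟩
  · refine IsCoprime.mul_left ?_ (lp_coprime hG').pow_left
    exact ⟨C N, 0, by rw [zero_mul, add_zero, ← C_mul, mul_inv_cancel₀ hN0, C_1]⟩
  · obtain ⟨l, s, hl, hls⟩ := Pool.Agent.N352.JB.sqlT K Ω f hg.monic hodd hs G hG'
    refine ⟨l, s, hl, ?_⟩
    apply dvd_of_roots (Ω := Ω) hg.sep hs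
    intro e he
    have q1 := hls e he
    rw [map_sub, map_mul, map_pow, hval, mul_assoc, q1, ← hN1, sub_eq_zero]
    field_simp
  · refine ⟨1, ?_⟩
    apply (algebraMap K Ω).injective
    rw [Pool.Agent.N615.JB.nrm K Ω f _ hg.monic hs, mul_one, map_one]
    have e1 : ((f.map (algebraMap K Ω)).roots.map fun e => aeval e (C N⁻¹ * G ^ f.natDegree)).prod =
        ((f.map (algebraMap K Ω)).roots.map fun e =>
          (algebraMap K Ω N)⁻¹ * aeval e G ^ f.natDegree).prod := by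
      congr 1
      apply Multiset.map_congr rfl
      intro e _
      exact hval e
    rw [e1, Multiset.prod_map_mul, Multiset.prod_map_pow, Multiset.map_const',
      Multiset.prod_replicate, ← hN1]
    have e2 : (f.map (algebraMap K Ω)).roots.card = f.natDegree := by
      rw [← hs.natDegree_eq_card_roots, natDegree_map]
    rw [e2, ← mul_pow, inv_mul_cancel₀ hNΩ, one_pow]

end kum

section core

open Pool.Agent.N106.JB (ACoc ACob ATriv acoc acob_iff atriv)
open Pool.Agent.Y713.Jac (Gal)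

/-- Every locally soluble class is a product of classes of explicit divisors. -/
def SelPts {K : Type} [Field K] (Pl : ∀ (E : Type) [Field E] [Algebra K E], Prop) (f : K[X]) :
    Prop :=
  ∀ h : K[X], IsCoprime h f → IsSquare (Algebra.norm K (AdjoinRoot.mk f h)) →
    (∀ (E : Type) [Field E] [Algebra K E], Pl E →
      LocIm E (f.map (algebraMap K E)) (h.map (algebraMap K E))) →
    LocIm K f h

theorem core' {K : Type} [Field K] {f : K[X]} (hg : Good 2 (-1 : K) f) (hirr : Irreducible f)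
    (hodd : Odd f.natDegree)
    (Pl : ∀ (E : Type) [Field E] [Algebra K E], Prop) (hS : SelPts Pl f)
    (c : Gal K → Jac 2 f (SeparableClosure K)) (hc : ACoc c)
    (ht : ∀ (E : Type) [Field E] [Algebra K E], Pl E → ATriv E c)
    (hb : ACob fun σ => 2 • c σ) : ACob c := by
  obtain ⟨Q, hQ⟩ := hb
  obtain ⟨d1, d2, d3⟩ := Pool.Agent.N615.JB.dbl K (SeparableClosure K) f hg
  obtain ⟨Q', hQ'⟩ := d3 Q
  -- the corrected cocycle
  set c'' : Gal K → Jac 2 f (SeparableClosure K) := fun σ => c σ - (jm 2 f (ak σ) Q' - Q') with hc''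
  have hlc : IsLocallyConstant c'' :=
    hc.1.sub ((Pool.Agent.N615.JB.lc K (SeparableClosure K) f hg Q').sub
      (IsLocallyConstant.const Q'))
  have hjm : ∀ (σ τ : Gal K) (x : Jac 2 f (SeparableClosure K)),
      jm 2 f (ak (σ * τ)) x = jm 2 f (ak σ) (jm 2 f (ak τ) x) := by
    intro σ τ x
    rw [jm_jm]
    rfl
  have hco : ∀ σ τ, c'' (σ * τ) = c'' σ + jm 2 f (ak σ) (c'' τ) := by
    intro σ τ
    show c (σ * τ) - (jm 2 f (ak (σ * τ)) Q' - Q') =
      c σ - (jm 2 f (ak σ) Q' - Q') + jm 2 f (ak σ) (c τ - (jm 2 f (ak τ) Q' - Q'))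
    rw [hc.2 σ τ, hjm, map_sub, map_sub]
    abel
  have htor : ∀ σ, Tor hg (c'' σ) := by
    intro σ
    rw [d1]
    show 2 • (c σ - (jm 2 f (ak σ) Q' - Q')) = 0
    have := hQ σ
    simp only at this
    rw [smul_sub, smul_sub, this, ← map_nsmul, hQ']
    abel
  obtain ⟨h, b, hK, hsq⟩ := (Pool.Agent.N232.JB.kum Pool.Agent.N615.JB.lag Pool.Agent.N615.JB.nrm)
    K (SeparableClosure K) f hg hirr c'' hlc hco htor
  have hcop : IsCoprime h f := by
    have hnd : ¬ f ∣ h := by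
      intro hd
      obtain ⟨e, he⟩ := exists_rt hg (SeparableClosure K)
      obtain ⟨hb0, hb1⟩ := hK.val e he
      apply hb0
      have : aeval e h = 0 := by
        obtain ⟨q, hq⟩ := hd
        rw [hq, map_mul, show aeval e f = 0 from he, zero_mul]
      rw [this] at hb1
      exact pow_eq_zero_iff (two_ne_zero) |>.1 hb1
    exact ((hirr.coprime_iff_not_dvd).2 hnd).symm
  have hloc : ∀ (E : Type) [Field E] [Algebra K E], Pl E →
      LocIm E (f.map (algebraMap K E)) (h.map (algebraMap K E)) := by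
    intro E _ _ hE
    obtain ⟨ι, P, hP⟩ := ht E hE
    refine (Pool.Agent.N424.JB.loc Pool.Agent.N615.JB.lag Pool.Agent.N352.JB.sqlT)
      K (SeparableClosure K) E (SeparableClosure E) f hg c'' htor h b hK ι
      (P - jm 2 f ι Q') ?_
    intro τ σ hx
    show jm 2 f ι (c σ - (jm 2 f (ak σ) Q' - Q')) = _
    have hcomm : jm 2 f ι (jm 2 f (ak σ) Q') = jm 2 f (rs K τ) (jm 2 f ι Q') := by
      rw [jm_jm, jm_jm]
      have e : ι.comp (ak σ) = (rs K τ).comp ι := AlgHom.ext fun x => (hx x).symm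
      rw [e]
    rw [map_sub, map_sub, hcomm, hP τ σ hx, map_sub]
    abel
  obtain ⟨l, s, hl, hs⟩ := hS h hcop hsq hloc
  -- the point
  have hl' : Adm (f.map (algebraMap K K)) l := adm_id hl
  have hI0 : idL (f.map (algebraMap K K)) l ≠ ⊥ := by
    intro h0
    have h1 := idL_norm (hg.up K) hl'
    rw [h0, Finset.prod_range_succ, Finset.prod_range_one] at h1
    have h2 : ((⊥ : Ideal (CR 2 (f.map (algebraMap K K)))).map ((hg.up K).tw ^ 0)) = ⊥ :=
      Ideal.map_bot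
    rw [h2, Ideal.bot_mul] at h1
    have h3 := Ideal.span_singleton_eq_bot.1 h1.symm
    exact plL_ne hl' (xp_inj two_ne_zero (h3.trans xp_zero.symm))
  obtain ⟨P0, hP0⟩ := cl_exists hyps hg hI0
  obtain ⟨R0, t, hR0, hk0⟩ := kc_list (Ω := SeparableClosure K) hg hodd hl hP0
  have hT0 := cob_tor hg hR0
  obtain ⟨u, v, huv⟩ := kl_cop hl
  have hk1 := kd_mul htor hT0 hK hk0
  obtain ⟨R, _, hR⟩ := Pool.Agent.N615.JB.cob K (SeparableClosure K) f hg hirr
    (fun σ => c'' σ + cob R0 σ) (fun σ τ => by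
      rw [hco, cob_mul, map_add]
      abel) (fun σ => (htor σ).add (hT0 σ)) _ _ hk1 s hs
  refine ⟨R - R0 + Q', fun σ => ?_⟩
  have h6 : c σ = c'' σ + (jm 2 f (ak σ) Q' - Q') := by
    show c σ = (c σ - (jm 2 f (ak σ) Q' - Q')) + (jm 2 f (ak σ) Q' - Q')
    rw [sub_add_cancel]
  have h7 : c'' σ = jm 2 f (ak σ) R - R - cob R0 σ := by
    rw [← hR σ]
    abel
  rw [h6, h7, map_add, map_sub]
  unfold cob
  abel

/-- **The 2-primary part of the group of locally trivial classes is zero.** -/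
theorem sha' {K : Type} [Field K] {f : K[X]} (h2 : (2 : K) ≠ 0) (hm : f.Monic)
    (hi : Irreducible f) (hs : f.Separable) (ho : Odd f.natDegree)
    {Pl : ∀ (E : Type) [Field E] [Algebra K E], Prop} (hS : SelPts Pl f) :
    Pool.Agent.N352.Sha.ShaTrivialAt 2 f Pl := by
  intro c m hc ht hb
  have hg : Good 2 (-1 : K) f := good_two h2 hm hs ho
  have hb' : Pool.Agent.Y713.Jac.IsCoboundary 2 f (fun σ => c σ ^ 2 ^ m) := hb
  show Pool.Agent.Y713.Jac.IsCoboundary 2 f c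
  rw [acob_iff]
  rw [acob_iff] at hb'
  have key : ∀ (m : ℕ) (c : Gal K → Jac 2 f (SeparableClosure K)), ACoc c →
      (∀ (E : Type) [Field E] [Algebra K E], Pl E → ATriv E c) →
      ACob (fun σ => 2 ^ m • c σ) → ACob c := by
    intro m
    induction m with
    | zero =>
      intro c hc ht hb
      simpa using hb
    | succ m ih =>
      intro c hc ht hb
      refine ih c hc ht (core' hg hi ho Pl hS _ (hc.nsmul _)
        (fun E _ _ hE => (ht E hE).nsmul _) ?_)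
      obtain ⟨Q, hQ⟩ := hb
      refine ⟨Q, fun σ => ?_⟩
      rw [← hQ σ]
      have e : (2 : ℕ) ^ (m + 1) = 2 * 2 ^ m := by rw [pow_succ, mul_comm]
      exact ((congrArg (fun n : ℕ => n • c σ) e).trans (mul_smul 2 (2 ^ m) (c σ))).symm
  exact key m _ (acoc hc) (fun E _ _ hE => atriv (ht E hE)) hb'

end core

end Run7.h905.BS
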