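import Pool.Agent.Run7.h905.BS.EvL
import Pool.Agent.Run7.h905.BS.Kum
import Pool.Agent.W309.TD.Arith

/-!
# The field of the Weierstrass points

`B = k[t][x]`, `f(x) = 0`, is a Dedekind domain with field of fractions `M`, and `K = k(t)`.
-/

open Polynomial WithZero IsDedekindDomain
open scoped Classical

set_option autoImplicit false
set_option linter.all false

namespace Run7.h905.BS

open Pool.Agent.N352.JB

variable {k K B M : Type} [Field k] [Field K] [Algebra k[X] K] [IsFractionRing k[X] K]
  [CommRing B] [IsDedekindDomain B] [Field M] [Algebra B M] [IsFractionRing B M]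
  [Algebra k[X] B] [Algebra.IsIntegral k[X] B] [Algebra K M] [Algebra k[X] M]
  [IsScalarTower k[X] B M] [IsScalarTower k[X] K M]

/-- `B = k[t][x] / (f)`. -/
structure Cv (f : k[X][X]) (x : B) : Prop where
  monic : f.Monic
  odd : Odd f.natDegree
  sm : Ideal.span {f, derivative f, f.sum fun i a => C (derivative a) * X ^ i} = ⊤
  root : aeval x f = 0
  surj : ∀ b : B, ∃ g : k[X][X], aeval x g = b
  ker : ∀ g : k[X][X], aeval x g = 0 → f ∣ g

variable {f : k[X][X]} {x : B}

section basic

theorem Cv.pos (h : Cv f x) : 0 < f.natDegree := h.odd.pos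

theorem Cv.inj (h : Cv f x) : Function.Injective (algebraMap k[X] B) := by
  rw [injective_iff_map_eq_zero]
  intro p hp
  have h1 : f ∣ C p := h.ker _ (by rw [aeval_C, hp])
  by_contra h0
  have h2 := natDegree_le_of_dvd h1 (C_ne_zero.2 h0)
  rw [natDegree_C] at h2
  have := h.pos
  omega

theorem Cv.tf (h : Cv f x) : Module.IsTorsionFree k[X] B :=
  Module.isTorsionFree_iff_algebraMap_injective.2 h.inj

theorem Cv.minpoly (h : Cv f x) : minpoly k[X] x = f := by
  haveI := h.tf
  have hint : IsIntegral k[X] x := Algebra.IsIntegral.isIntegral x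
  have h1 : f ∣ _root_.minpoly k[X] x := h.ker _ (_root_.minpoly.aeval _ _)
  have h2 : _root_.minpoly k[X] x ∣ f := minpoly.isIntegrallyClosed_dvd hint h.root
  exact eq_of_monic_of_associated (_root_.minpoly.monic hint) h.monic (associated_of_dvd_dvd h2 h1)

variable (K M) in
theorem Cv.minpolyK (h : Cv f x) :
    _root_.minpoly K (algebraMap B M x) = f.map (algebraMap k[X] K) := by
  have hint : IsIntegral k[X] x := Algebra.IsIntegral.isIntegral x
  rw [minpoly.isIntegrallyClosed_eq_field_fractions K M hint, h.minpoly]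

variable (K M) in
theorem Cv.intK (h : Cv f x) : IsIntegral K (algebraMap B M x) := by
  refine ⟨f.map (algebraMap k[X] K), h.monic.map _, ?_⟩
  rw [← aeval_def, aeval_map_algebraMap, aeval_algebraMap_apply, h.root, map_zero]

variable (K) in
theorem aeval_B (g : k[X][X]) : aeval (algebraMap B M x) (g.map (algebraMap k[X] K)) =
    algebraMap B M (aeval x g) := by
  rw [aeval_map_algebraMap, aeval_algebraMap_apply]

variable (K) in
theorem Cv.surjK (h : Cv f x) (z : M) : ∃ g : K[X], aeval (algebraMap B M x) g = z := by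
  have halg : IsAlgebraic K (algebraMap B M x) := (h.intK K M).isAlgebraic
  obtain ⟨b, c, hc, rfl⟩ := IsFractionRing.div_surjective (A := B) z
  have hmem : ∀ b : B, algebraMap B M b ∈ IntermediateField.adjoin K {algebraMap B M x} := by
    intro b
    obtain ⟨g, rfl⟩ := h.surj b
    rw [← aeval_B K]
    exact IntermediateField.algebra_adjoin_le_adjoin K _ (aeval_mem_adjoin_singleton _ _)
  have h1 : algebraMap B M b / algebraMap B M c ∈
      (IntermediateField.adjoin K {algebraMap B M x}).toSubalgebra := by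
    exact (IntermediateField.adjoin K {algebraMap B M x}).div_mem (hmem b) (hmem c)
  rw [IntermediateField.adjoin_simple_toSubalgebra_of_isAlgebraic halg,
    Algebra.adjoin_singleton_eq_range_aeval] at h1
  exact h1

end basic

section twist

/-- The equation of the twist by `q`. -/
noncomputable def tF (K : Type) [Field K] [Algebra k[X] K] (f : k[X][X]) (q : K) : K[X] :=
  (f.map (algebraMap k[X] K)).scaleRoots q

theorem tF_comp (q : K) (hf : f.Monic) : (tF K f q).comp (C q * X) =
    C (q ^ f.natDegree) * f.map (algebraMap k[X] K) := by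
  unfold tF comp
  rw [scaleRoots_eval₂_mul, hf.natDegree_map, eval₂_C_X, C_pow]

variable (M) in
/-- The root of the twist. -/
noncomputable def tθ (x : B) (q : K) : M := algebraMap K M q * algebraMap B M x

theorem aeval_comp_tθ (g : K[X]) (q : K) : aeval (algebraMap B M x) (g.comp (C q * X)) =
    aeval (tθ M x q) g := by
  rw [aeval_comp, map_mul, aeval_C, aeval_X]
  rfl

theorem Cv.tF_root (h : Cv f x) (q : K) : aeval (tθ M x q) (tF K f q) = 0 := by
  rw [← aeval_comp_tθ, tF_comp q h.monic, map_mul, aeval_B, h.root, map_zero, mul_zero]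

theorem Cv.tF_monic (h : Cv f x) (q : K) : (tF K f q).Monic :=
  (monic_scaleRoots_iff q).2 (h.monic.map _)

theorem Cv.tF_deg (h : Cv f x) (q : K) : (tF K f q).natDegree = f.natDegree := by
  unfold tF
  rw [natDegree_scaleRoots, h.monic.natDegree_map]

theorem Cv.tF_surj (h : Cv f x) {q : K} (hq : q ≠ 0) (z : M) :
    ∃ g : K[X], aeval (tθ M x q) g = z := by
  obtain ⟨g, hg⟩ := h.surjK K z
  refine ⟨g.comp (C q⁻¹ * X), ?_⟩
  rw [← aeval_comp_tθ, comp_assoc]
  have : (C q⁻¹ * X : K[X]).comp (C q * X) = X := by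
    rw [mul_comp, C_comp, X_comp, ← mul_assoc, ← C_mul, inv_mul_cancel₀ hq, C_1, one_mul]
  rw [this, comp_X, hg]

theorem Cv.tF_ker (h : Cv f x) {q : K} (hq : q ≠ 0) {g : K[X]} (hg : aeval (tθ M x q) g = 0) :
    tF K f q ∣ g := by
  have h1 : f.map (algebraMap k[X] K) ∣ g.comp (C q * X) := by
    rw [← h.minpolyK K M]
    apply minpoly.dvd
    rw [aeval_comp_tθ, hg]
  obtain ⟨r, hr⟩ := h1
  have e : (C q * X : K[X]).comp (C q⁻¹ * X) = X := by
    rw [mul_comp, C_comp, X_comp, ← mul_assoc, ← C_mul, mul_inv_cancel₀ hq, C_1, one_mul]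
  refine ⟨C (q ^ f.natDegree)⁻¹ * r.comp (C q⁻¹ * X), ?_⟩
  have h2 := congrArg (fun p => p.comp (C q⁻¹ * X)) hr
  simp only [comp_assoc, mul_comp, e, comp_X] at h2
  have h3 := congrArg (fun p => p.comp (C q⁻¹ * X)) (tF_comp q h.monic)
  simp only [comp_assoc, mul_comp, e, comp_X, C_comp] at h3
  rw [h2, h3]
  have h4 : C (q ^ f.natDegree) * C (q ^ f.natDegree)⁻¹ = (1 : K[X]) := by
    rw [← C_mul, mul_inv_cancel₀ (pow_ne_zero _ hq), C_1]
  linear_combination (-(f.map (algebraMap k[X] K)).comp (C q⁻¹ * X) * r.comp (C q⁻¹ * X)) * h4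

theorem Cv.tF_minpoly (h : Cv f x) {q : K} (hq : q ≠ 0) :
    _root_.minpoly K (tθ M x q) = tF K f q := by
  have hint : IsIntegral K (tθ M x q) := ⟨tF K f q, h.tF_monic q, h.tF_root q⟩
  have h1 := h.tF_ker hq (_root_.minpoly.aeval K (tθ M x q))
  have h2 := minpoly.dvd K (tθ M x q) (h.tF_root q)
  exact eq_of_monic_of_associated (_root_.minpoly.monic hint) (h.tF_monic q)
    (associated_of_dvd_dvd h2 h1)

variable (M) in
include M in
theorem Cv.tF_irr (h : Cv f x) {q : K} (hq : q ≠ 0) : Irreducible (tF K f q) := by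
  rw [← h.tF_minpoly (M := M) hq]
  exact _root_.minpoly.irreducible ⟨tF K f q, h.tF_monic q, h.tF_root q⟩

/-- The norm. -/
theorem Cv.tF_norm (h : Cv f x) {q : K} (hq : q ≠ 0) (g : K[X]) :
    Algebra.norm K (AdjoinRoot.mk (tF K f q) g) = Algebra.norm K (aeval (tθ M x q) g) := by
  have hroot : eval₂ (Algebra.ofId K M : K →ₐ[K] M) (tθ M x q) (tF K f q) = 0 :=
    h.tF_root (M := M) q
  let φ : AdjoinRoot (tF K f q) →ₐ[K] M :=
    AdjoinRoot.liftAlgHom (tF K f q) (Algebra.ofId K M) (tθ M x q) hroot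
  have hφ : ∀ g : K[X], φ (AdjoinRoot.mk (tF K f q) g) = aeval (tθ M x q) g := by
    intro g
    rfl
  have hbij : Function.Bijective φ := by
    constructor
    · rw [injective_iff_map_eq_zero]
      intro z hz
      obtain ⟨g, rfl⟩ := AdjoinRoot.mk_surjective z
      rw [hφ] at hz
      exact AdjoinRoot.mk_eq_zero.2 (h.tF_ker hq hz)
    · intro z
      obtain ⟨g, hg⟩ := h.tF_surj hq z
      exact ⟨AdjoinRoot.mk _ g, by rw [hφ, hg]⟩
  have h1 := Algebra.norm_eq_of_algEquiv (AlgEquiv.ofBijective φ hbij) (AdjoinRoot.mk (tF K f q) g)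
  rw [← h1]
  exact congrArg _ (hφ g).symm

variable (M) in
theorem Cv.finrank (h : Cv f x) : Module.finrank K M = f.natDegree := by
  have hint := h.intK K M
  have h1 := IntermediateField.adjoin.finrank hint
  rw [h.minpolyK K M, h.monic.natDegree_map] at h1
  have h2 : IntermediateField.adjoin K {algebraMap B M x} = ⊤ := by
    rw [eq_top_iff]
    intro z _
    obtain ⟨g, rfl⟩ := h.surjK K z
    exact IntermediateField.algebra_adjoin_le_adjoin K _ (aeval_mem_adjoin_singleton _ _)
  rw [h2, IntermediateField.finrank_top'] at h1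
  exact h1

end twist

end Run7.h905.BS
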