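import Mathlib

/-!
# The rank of a finitely generated group from a descent
-/

open scoped Classical DirectSum

set_option autoImplicit false
set_option linter.all false

namespace Run7.h905.BS

section idx

variable {A : Type*} [AddCommGroup A]

variable (A) in
/-- The subgroup of the doubles. -/
def dbl : AddSubgroup A := (nsmulAddMonoidHom (α := A) 2).range

theorem mem_dbl (x : A) : x ∈ dbl A ↔ ∃ R : A, x = 2 • R := by
  unfold dbl
  rw [AddMonoidHom.mem_range]
  constructor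
  · rintro ⟨R, rfl⟩
    exact ⟨R, rfl⟩
  · rintro ⟨R, rfl⟩
    exact ⟨R, rfl⟩

theorem sum_symm {m : ℕ} (P : Fin m → A) (S T : Finset (Fin m)) :
    ∑ j ∈ S, P j + ∑ j ∈ T, P j = ∑ j ∈ (S \ T) ∪ (T \ S), P j + 2 • ∑ j ∈ S ∩ T, P j := by
  rw [Finset.sum_union (by
    rw [Finset.disjoint_left]
    intro a h1 h2
    exact (Finset.mem_sdiff.1 h1).2 (Finset.mem_sdiff.1 h2).1)]
  have h1 : ∑ j ∈ S, P j = ∑ j ∈ S \ T, P j + ∑ j ∈ S ∩ T, P j := by
    rw [← Finset.sum_union (Finset.disjoint_sdiff_inter S T), Finset.sdiff_union_inter]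
  have h2 : ∑ j ∈ T, P j = ∑ j ∈ T \ S, P j + ∑ j ∈ S ∩ T, P j := by
    rw [Finset.inter_comm, ← Finset.sum_union (Finset.disjoint_sdiff_inter T S),
      Finset.sdiff_union_inter]
  rw [h1, h2, two_nsmul]
  abel

theorem card_quot {m : ℕ} (hm : 1 ≤ m) (P : Fin m → A)
    (hgen : ∀ x : A, ∃ (S : Finset (Fin m)) (R : A), x = ∑ j ∈ S, P j + 2 • R)
    (hrel : ∀ S : Finset (Fin m), (∃ R : A, ∑ j ∈ S, P j = 2 • R) ↔
      S = ∅ ∨ S = Finset.univ) : Nat.card (A ⧸ dbl A) = 2 ^ (m - 1) := by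
  let j0 : Fin m := ⟨0, by omega⟩
  let U : Finset (Finset (Fin m)) := (Finset.univ.erase j0).powerset
  have hU : ∀ S, S ∈ U ↔ j0 ∉ S := by
    intro S
    rw [Finset.mem_powerset]
    constructor
    · intro h h0
      exact (Finset.mem_erase.1 (h h0)).1 rfl
    · intro h a ha
      exact Finset.mem_erase.2 ⟨fun h0 => h (h0 ▸ ha), Finset.mem_univ _⟩
  have hcard : Nat.card {S // S ∈ U} = 2 ^ (m - 1) := by
    rw [Nat.card_eq_fintype_card, Fintype.card_coe, Finset.card_powerset,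
      Finset.card_erase_of_mem (Finset.mem_univ _), Finset.card_univ, Fintype.card_fin]
  rw [← hcard]
  symm
  refine Nat.card_eq_of_bijective
    (fun S : {S // S ∈ U} => (QuotientAddGroup.mk (∑ j ∈ S.1, P j) : A ⧸ dbl A)) ⟨?_, ?_⟩
  · rintro ⟨S, hS⟩ ⟨T, hT⟩ h
    simp only at h
    rw [QuotientAddGroup.eq, mem_dbl] at h
    obtain ⟨R, hR⟩ := h
    have h1 := sum_symm P S T
    have h2 : ∑ j ∈ (S \ T) ∪ (T \ S), P j = 2 • (R + ∑ j ∈ S, P j - ∑ j ∈ S ∩ T, P j) := by
      rw [smul_sub, smul_add, ← hR, two_nsmul (∑ j ∈ S, P j)]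
      rw [← sub_eq_iff_eq_add] at h1
      rw [← h1]
      abel
    have hS' := (hU S).1 hS
    have hT' := (hU T).1 hT
    rcases (hrel _).1 ⟨_, h2⟩ with h3 | h3
    · have h4 : S \ T = ∅ := by
        rw [Finset.union_eq_empty] at h3
        exact h3.1
      have h5 : T \ S = ∅ := by
        rw [Finset.union_eq_empty] at h3
        exact h3.2
      rw [Finset.sdiff_eq_empty_iff_subset] at h4 h5
      exact Subtype.ext (Finset.Subset.antisymm h4 h5)
    · exfalso
      have h4 : j0 ∈ (S \ T) ∪ (T \ S) := by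
        rw [h3]
        exact Finset.mem_univ _
      rcases Finset.mem_union.1 h4 with h5 | h5
      · exact hS' (Finset.mem_sdiff.1 h5).1
      · exact hT' (Finset.mem_sdiff.1 h5).1
  · intro y
    obtain ⟨x, rfl⟩ := QuotientAddGroup.mk_surjective y
    obtain ⟨S, R, hx⟩ := hgen x
    obtain ⟨R1, hR1⟩ := (hrel Finset.univ).2 (Or.inr rfl)
    by_cases h0 : j0 ∈ S
    · have h1 : ∑ j ∈ Finset.univ \ S, P j + ∑ j ∈ S, P j = 2 • R1 := by
        rw [Finset.sum_sdiff (Finset.subset_univ S), hR1]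
      refine ⟨⟨Finset.univ \ S, (hU _).2 fun h => (Finset.mem_sdiff.1 h).2 h0⟩, ?_⟩
      show (QuotientAddGroup.mk (∑ j ∈ Finset.univ \ S, P j) : A ⧸ dbl A) = _
      rw [QuotientAddGroup.eq, mem_dbl]
      refine ⟨R - R1 + ∑ j ∈ S, P j, ?_⟩
      rw [smul_add, smul_sub, ← h1, hx, two_nsmul (∑ j ∈ S, P j)]
      abel
    · refine ⟨⟨S, (hU _).2 h0⟩, ?_⟩
      show (QuotientAddGroup.mk (∑ j ∈ S, P j) : A ⧸ dbl A) = _
      rw [QuotientAddGroup.eq, mem_dbl]
      exact ⟨R, by rw [hx]; abel⟩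

end idx

section fg

theorem card_fin (n : ℕ) (T : Type*) [AddCommGroup T] (hT : ∀ t : T, ∃ s : T, t = 2 • s) :
    Nat.card (((Fin n →₀ ℤ) × T) ⧸ dbl ((Fin n →₀ ℤ) × T)) = 2 ^ n := by
  let φ : ((Fin n →₀ ℤ) × T) →+ (Fin n → ZMod 2) :=
    { toFun := fun a i => ((a.1 i : ℤ) : ZMod 2)
      map_zero' := by
        funext i
        simp
      map_add' := by
        intro a b
        funext i
        simp }
  have hsurj : Function.Surjective φ := by
    intro y
    refine ⟨(Finsupp.equivFunOnFinite.symm fun i => ((y i).val : ℤ), 0), ?_⟩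
    funext i
    show (((y i).val : ℤ) : ZMod 2) = y i
    simp
  have hker : φ.ker = dbl ((Fin n →₀ ℤ) × T) := by
    ext a
    rw [AddMonoidHom.mem_ker, mem_dbl]
    constructor
    · intro h
      have h1 : ∀ i, ∃ c : ℤ, a.1 i = 2 * c := by
        intro i
        have := congrFun h i
        have h2 : ((a.1 i : ℤ) : ZMod 2) = 0 := this
        rw [ZMod.intCast_zmod_eq_zero_iff_dvd] at h2
        obtain ⟨c, hc⟩ := h2
        exact ⟨c, hc⟩
      choose c hc using h1
      obtain ⟨s, hs⟩ := hT a.2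
      refine ⟨(Finsupp.equivFunOnFinite.symm c, s), Prod.ext ?_ hs⟩
      ext i
      show a.1 i = 2 • c i
      rw [hc i]
      simp
    · rintro ⟨R, rfl⟩
      funext i
      show (((2 • R).1 i : ℤ) : ZMod 2) = 0
      have : (2 • R).1 i = 2 * R.1 i := by simp
      rw [this]
      push_cast
      have h2 : (2 : ZMod 2) = 0 := rfl
      rw [h2, zero_mul]
  have e := QuotientAddGroup.quotientKerEquivOfSurjective φ hsurj
  rw [← hker, Nat.card_congr e.toEquiv, Nat.card_pi]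
  simp

/-- **The rank from the quotient.** -/
theorem rank_of {A : Type*} [AddCommGroup A] [AddGroup.FG A] (htor : ∀ x : A, 2 • x = 0 → x = 0)
    {r : ℕ} (hc : Nat.card (A ⧸ dbl A) = 2 ^ r) : Module.finrank ℤ A = r := by
  obtain ⟨n, ι, hι, p, hp, e, ⟨E⟩⟩ := AddCommGroup.equiv_free_prod_directSum_zmod A
  haveI : ∀ i, NeZero (p i ^ e i) := fun i => ⟨pow_ne_zero _ (hp i).ne_zero⟩
  haveI hfin : Finite (⨁ i : ι, ZMod (p i ^ e i)) := by
    haveI : ∀ i, Finite (ZMod (p i ^ e i)) := fun i => inferInstance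
    exact Finite.of_injective (fun (x : ⨁ i : ι, ZMod (p i ^ e i)) i => x i) DFunLike.coe_injective
  have hT : ∀ t : (⨁ i : ι, ZMod (p i ^ e i)), ∃ s, t = 2 • s := by
    have hinj : Function.Injective (fun s : (⨁ i : ι, ZMod (p i ^ e i)) => 2 • s) := by
      intro a b hab
      have h1 : 2 • ((0, a - b) : (Fin n →₀ ℤ) × ⨁ i : ι, ZMod (p i ^ e i)) = 0 := by
        apply Prod.ext
        · show 2 • (0 : Fin n →₀ ℤ) = 0
          rw [smul_zero]
        · show 2 • (a - b) = 0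
          rw [smul_sub]
          exact sub_eq_zero.2 hab
      have h2 := htor (E.symm (0, a - b)) (by rw [← map_nsmul, h1, map_zero])
      rw [EmbeddingLike.map_eq_zero_iff] at h2
      exact sub_eq_zero.1 (congrArg Prod.snd h2)
    intro t
    obtain ⟨s, hs⟩ := Finite.surjective_of_injective hinj t
    exact ⟨s, hs.symm⟩
  have h1 := card_fin n (⨁ i : ι, ZMod (p i ^ e i)) hT
  have h2 : Nat.card (A ⧸ dbl A) = 2 ^ n := by
    rw [← h1]
    apply Nat.card_congr
    refine (QuotientAddGroup.congr (dbl A) (dbl _) E ?_).toEquiv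
    ext a
    rw [AddSubgroup.mem_map, mem_dbl]
    constructor
    · rintro ⟨b, hb, rfl⟩
      obtain ⟨R, rfl⟩ := (mem_dbl b).1 hb
      exact ⟨E R, by simp⟩
    · rintro ⟨R, rfl⟩
      exact ⟨2 • E.symm R, (mem_dbl _).2 ⟨_, rfl⟩, by simp⟩
  have h3 : n = r := Nat.pow_right_injective le_rfl (h2.symm.trans hc)
  rw [← h3]
  have h4 : Module.finrank ℤ A =
      Module.finrank ℤ ((Fin n →₀ ℤ) × ⨁ i : ι, ZMod (p i ^ e i)) :=
    LinearEquiv.finrank_eq E.toIntLinearEquiv
  rw [h4]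
  have htors : ∀ t : (⨁ i : ι, ZMod (p i ^ e i)), ∃ c : ℤ, c ≠ 0 ∧ c • t = 0 := by
    intro t
    refine ⟨(Nat.card (⨁ i : ι, ZMod (p i ^ e i)) : ℤ), by exact_mod_cast Nat.card_pos.ne', ?_⟩
    rw [natCast_zsmul]
    exact card_nsmul_eq_zero'
  -- the projection to the free part
  let π : ((Fin n →₀ ℤ) × ⨁ i : ι, ZMod (p i ^ e i)) →ₗ[ℤ] (Fin n →₀ ℤ) := LinearMap.fst ℤ _ _
  have h5 : Module.finrank ℤ (Fin n →₀ ℤ) = n := by simp
  have hq : Module.rank ℤ ((Fin n →₀ ℤ) × ⨁ i : ι, ZMod (p i ^ e i)) = n := by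
    have h7 : Module.rank ℤ (⨁ i : ι, ZMod (p i ^ e i)) = 0 := by
      rw [rank_eq_zero_iff]
      intro t
      obtain ⟨c, hc, hct⟩ := htors t
      exact ⟨c, hc, hct⟩
    have h8 : Module.rank ℤ (LinearMap.ker π) = 0 := by
      rw [rank_eq_zero_iff]
      rintro ⟨⟨a, t⟩, ht⟩
      obtain ⟨c, hc, hct⟩ := htors t
      refine ⟨c, hc, Subtype.ext (Prod.ext ?_ hct)⟩
      have : a = 0 := ht
      show c • a = 0
      rw [this, smul_zero]
    have h9 := rank_quotient_add_rank_of_isDomain (LinearMap.ker π)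
    rw [h8, add_zero] at h9
    rw [← h9]
    have h10 : Function.Surjective π := fun a => ⟨(a, 0), rfl⟩
    rw [(π.quotKerEquivOfSurjective h10).rank_eq]
    simp
  rw [Module.finrank, hq]
  simp

end fg

end Run7.h905.BS
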