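import Pool.Agent.Run7.h905.BS.Final
import Pool.Agent.Run7.h905.BS.Rk

/-!
# The criterion in terms of the polynomials
-/

open Polynomial WithZero IsDedekindDomain
open scoped Classical

set_option autoImplicit false
set_option linter.all false

namespace Run7.h905.BS

open Pool.Agent.Y160.SE Pool.Agent.N352.JB
open Pool.Agent.W309.TD (NoTwo)
open Pool.Agent.N352.Sha (ShaTrivial UniquelyDivisible)

section red

variable {k : Type} [Field k] {f : k[X][X]} {Q : k[X]}

/-- Reduction modulo `Q`. -/
noncomputable def red (Q : k[X]) : k[X][X] →+* (AdjoinRoot Q)[X] := mapRingHom (AdjoinRoot.mk Q)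

theorem red_surj (Q : k[X]) : Function.Surjective (red Q) :=
  map_surjective _ AdjoinRoot.mk_surjective

theorem red_ker {g : k[X][X]} (hg : red Q g = 0) : C Q ∣ g := by
  rw [C_dvd_iff_dvd_coeff]
  intro i
  have h1 := congrArg (fun p => coeff p i) hg
  unfold red at h1
  simp only [coe_mapRingHom, coeff_map, coeff_zero] at h1
  exact AdjoinRoot.mk_eq_zero.1 h1

theorem red_CQ : red Q (C Q) = 0 := by
  unfold red
  rw [coe_mapRingHom, map_C, AdjoinRoot.mk_self, C_0]

/-- The factorisation `f = ∏ h j + Q u ^ 2`, and the `h j` are irreducible and distinct modulo `Q`. -/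
structure FacQ (f : k[X][X]) (Q : k[X]) {m : ℕ} (h : Fin m → k[X][X]) (u : k[X][X]) : Prop where
  mon : ∀ j, (h j).Monic
  irr : ∀ j, Irreducible ((h j).map (AdjoinRoot.mk Q))
  dist : Function.Injective fun j => (h j).map (AdjoinRoot.mk Q)
  deg : 2 * u.natDegree < f.natDegree
  id : f = ∏ j, h j + C Q * u ^ 2

variable {m : ℕ} {h : Fin m → k[X][X]} {u : k[X][X]}

theorem comap_red (g : k[X][X]) : (Ideal.span {red Q g}).comap (red Q) = Ideal.span {g, C Q} := by
  apply le_antisymm
  · intro z hz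
    rw [Ideal.mem_comap, Ideal.mem_span_singleton] at hz
    obtain ⟨y, hy⟩ := hz
    obtain ⟨y, rfl⟩ := red_surj Q y
    rw [← map_mul, ← sub_eq_zero, ← map_sub] at hy
    obtain ⟨w, hw⟩ := red_ker hy
    have : z = g * y + C Q * w := by rw [← hw]; ring
    rw [this]
    exact Ideal.add_mem _ (Ideal.mul_mem_right _ _ (Ideal.subset_span (Or.inl rfl)))
      (Ideal.mul_mem_right _ _ (Ideal.subset_span (Or.inr rfl)))
  · rw [Ideal.span_le]
    rintro z (rfl | hz)
    · exact Ideal.mem_span_singleton_self _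
    · rw [Set.mem_singleton_iff] at hz
      rw [hz, SetLike.mem_coe, Ideal.mem_comap, red_CQ]
      exact Ideal.zero_mem _

theorem FacQ.fac (hQ : Irreducible Q) (hF : FacQ f Q h u) : Fac f Q h u := by
  haveI : Fact (Irreducible Q) := ⟨hQ⟩
  refine ⟨hF.mon, ?_, ?_, hF.deg, hF.id⟩
  · intro j
    rw [← comap_red]
    haveI : (Ideal.span {red Q (h j)}).IsMaximal :=
      PrincipalIdealRing.isMaximal_of_irreducible (hF.irr j)
    exact Ideal.comap_isMaximal_of_surjective _ (red_surj Q)
  · intro i j hij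
    have h1 : IsCoprime (red Q (h i)) (red Q (h j)) := by
      refine (hF.irr i).coprime_iff_not_dvd.2 ?_
      intro hd
      apply hij
      apply hF.dist
      exact eq_of_monic_of_associated ((hF.mon i).map _) ((hF.mon j).map _)
        ((hF.irr i).associated_of_dvd (hF.irr j) hd)
    obtain ⟨a, b, hab⟩ := h1
    obtain ⟨a, rfl⟩ := red_surj Q a
    obtain ⟨b, rfl⟩ := red_surj Q b
    rw [← map_mul, ← map_mul, ← map_add, ← map_one (red Q), ← sub_eq_zero, ← map_sub] at hab
    obtain ⟨w, hw⟩ := red_ker hab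
    rw [Ideal.eq_top_iff_one]
    have : (1 : k[X][X]) = a * h i + b * h j - C Q * w := by rw [← hw]; ring
    rw [this]
    exact Ideal.sub_mem _ (Ideal.add_mem _
      (Ideal.mul_mem_left _ _ (Ideal.subset_span (Or.inl rfl)))
      (Ideal.mul_mem_left _ _ (Ideal.subset_span (Or.inr (Or.inl rfl)))))
      (Ideal.mul_mem_right _ _ (Ideal.subset_span (Or.inr (Or.inr rfl))))

/-- `f` is separable. -/
theorem FacQ.der [PerfectField k] (hQ : Irreducible Q) (hF : FacQ f Q h u) (hpos : 0 < f.natDegree)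
    (hf : f.Monic) : derivative f ≠ 0 := by
  haveI : Fact (Irreducible Q) := ⟨hQ⟩
  haveI : Algebra.IsAlgebraic k (AdjoinRoot Q) := by
    haveI := (AdjoinRoot.powerBasis hQ.ne_zero).finite
    infer_instance
  haveI : PerfectField (AdjoinRoot Q) := Algebra.IsAlgebraic.perfectField (K := k)
  intro h0
  have h1 : f.map (AdjoinRoot.mk Q) = ∏ j, (h j).map (AdjoinRoot.mk Q) := by
    have h2 := congrArg (red Q) hF.id
    rw [map_add, map_mul, red_CQ, zero_mul, add_zero, map_prod] at h2
    exact h2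
  have h2 : (f.map (AdjoinRoot.mk Q)).Separable := by
    rw [h1]
    apply separable_prod
    · intro i j hij
      refine (hF.irr i).coprime_iff_not_dvd.2 ?_
      intro hd
      apply hij
      apply hF.dist
      exact eq_of_monic_of_associated ((hF.mon i).map _) ((hF.mon j).map _)
        ((hF.irr i).associated_of_dvd (hF.irr j) hd)
    · exact fun j => PerfectField.separable_of_irreducible (hF.irr j)
  obtain ⟨a, b, hab⟩ := h2
  rw [derivative_map, h0, Polynomial.map_zero, mul_zero, add_zero] at hab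
  have h3 : IsUnit (f.map (AdjoinRoot.mk Q)) := isUnit_iff_exists_inv'.2 ⟨a, hab⟩
  have h4 := natDegree_eq_zero_of_isUnit h3
  rw [hf.natDegree_map] at h4
  omega

end red

section crit

variable {k K : Type} [Field k] [PerfectField k] [Field K] [Algebra k[X] K]
  [IsFractionRing k[X] K] {f : k[X][X]} {Q : k[X]}

/-- The affine plane curve `f = 0` over `k`: `f` is monic in `x` of odd degree, the curve is smooth
with coordinate ring a Dedekind domain, there is no class of order two and all units are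
constants. -/
structure GoodCurve (f : k[X][X]) : Prop where
  monic : f.Monic
  odd : Odd f.natDegree
  smooth : Ideal.span {f, derivative f, f.sum fun i a => C (derivative a) * X ^ i} = ⊤
  ded : IsDedekindDomain (AdjoinRoot f)
  cls : ∀ I : Ideal (AdjoinRoot f), (I ^ 2).IsPrincipal → I.IsPrincipal
  unit : ∀ v : AdjoinRoot f, IsUnit v → ∃ c : k, v = AdjoinRoot.mk f (C (C c))

theorem GoodCurve.cv (hf : GoodCurve f) : Cv f (AdjoinRoot.root f : AdjoinRoot f) := by
  haveI := hf.ded
  refine ⟨hf.monic, hf.odd, hf.smooth, ?_, ?_, ?_⟩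
  · rw [AdjoinRoot.aeval_eq, AdjoinRoot.mk_self]
  · intro b
    obtain ⟨g, rfl⟩ := AdjoinRoot.mk_surjective b
    exact ⟨g, by rw [AdjoinRoot.aeval_eq]⟩
  · intro g hg
    rw [AdjoinRoot.aeval_eq] at hg
    exact AdjoinRoot.mk_eq_zero.1 hg

/-- A constant whose odd power is a square. -/
theorem sq_of_odd_pow {c : k} {n : ℕ} (hn : Odd n)
    (hs : IsSquare (algebraMap k[X] K (C c) ^ n)) : IsSquare (algebraMap k[X] K (C c)) := by
  obtain ⟨r, hr⟩ := hn
  by_cases hc : c = 0
  · rw [hc, C_0, map_zero]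
    exact IsSquare.zero
  have h0 : algebraMap k[X] K (C c) ≠ 0 := by simpa using hc
  obtain ⟨y, hy⟩ := hs
  refine ⟨y / algebraMap k[X] K (C c) ^ r, ?_⟩
  field_simp
  rw [pow_two y, ← hy, hr]
  ring

theorem sep_tF {q : K} (hq : q ≠ 0) (hf : f.Monic) (hirr : Irreducible (tF K f q))
    (hd : derivative f ≠ 0) : (tF K f q).Separable := by
  rw [separable_iff_derivative_ne_zero hirr]
  intro h0
  apply hd
  ext1 i
  have h1 := congrArg (fun p => coeff p i) h0
  simp only [coeff_derivative, coeff_zero] at h1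
  unfold tF at h1
  rw [coeff_scaleRoots, coeff_map] at h1
  rw [coeff_derivative, coeff_zero]
  apply IsFractionRing.injective k[X] K
  rw [map_zero, map_mul, map_add, map_one, map_natCast]
  rcases mul_eq_zero.1 h1 with h2 | h2
  · rcases mul_eq_zero.1 h2 with h3 | h3
    · rw [h3, zero_mul]
    · exact absurd h3 (pow_ne_zero _ hq)
  · rw [h2, mul_zero]

variable {m : ℕ} {h : Fin m → k[X][X]} {u : k[X][X]}

variable (K) in
/-- **The criterion.** -/
theorem crit (h2 : (2 : k) ≠ 0) (hf : GoodCurve f) (hQ : Irreducible Q) (hm : 2 ≤ m)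
    (hF : FacQ f Q h u) :
    ∃ P : Fin m → Jac 2 (tF K f (qK K Q)) K, (∀ j, IsCl K (iP K f Q h u j) (P j)) ∧
      (∀ x : Jac 2 (tF K f (qK K Q)) K, 2 • x = 0 → x = 0) ∧
      (∀ x : Jac 2 (tF K f (qK K Q)) K, ∃ (S : Finset (Fin m)) (R : Jac 2 (tF K f (qK K Q)) K),
        x = ∑ j ∈ S, P j + 2 • R) ∧
      (∀ S : Finset (Fin m), (∃ R : Jac 2 (tF K f (qK K Q)) K, ∑ j ∈ S, P j = 2 • R) ↔
        S = ∅ ∨ S = Finset.univ) ∧
      ShaTrivial 2 (tF K f (qK K Q)) k[X] := by
  haveI := hf.ded
  have hc := hf.cv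
  haveI hfin : Module.Finite k[X] (AdjoinRoot f) := hf.monic.finite_adjoinRoot
  haveI : Algebra.IsIntegral k[X] (AdjoinRoot f) := inferInstance
  let M := FractionRing (AdjoinRoot f)
  have hinj : Function.Injective (algebraMap k[X] M) := by
    rw [IsScalarTower.algebraMap_eq k[X] (AdjoinRoot f) M]
    exact (IsFractionRing.injective (AdjoinRoot f) M).comp hc.inj
  letI : Algebra K M := RingHom.toAlgebra (IsFractionRing.lift hinj)
  haveI : IsScalarTower k[X] K M := IsScalarTower.of_algebraMap_eq fun z =>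
    (IsFractionRing.lift_algebraMap hinj z).symm
  have h2K : (2 : K) ≠ 0 := by
    intro h0
    apply h2
    have h1 : Function.Injective ((algebraMap k[X] K).comp (C : k →+* k[X])) :=
      RingHom.injective _
    apply h1
    rw [map_zero, map_ofNat, h0]
  have hq := qK_ne (K := K) hQ
  have hirr : Irreducible (tF K f (qK K Q)) := hc.tF_irr M hq
  have hsep := sep_tF hq hf.monic hirr (hF.der hQ hf.odd.pos hf.monic)
  refine (hF.fac hQ).all (M := M) hc hQ hf.cls ?_ h2K hm hsep
  intro v hv
  obtain ⟨c, hc'⟩ := hf.unit v v.isUnit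
  have h3 : algebraMap (AdjoinRoot f) M (v : AdjoinRoot f) =
      algebraMap K M (algebraMap k[X] K (C c)) := by
    rw [hc', ← IsScalarTower.algebraMap_apply k[X] K M,
      IsScalarTower.algebraMap_apply k[X] (AdjoinRoot f) M]
    rfl
  rw [h3] at hv ⊢
  rw [Algebra.norm_algebraMap, hc.finrank M] at hv
  exact (sq_of_odd_pow hf.odd hv).map _

variable (K) in
/-- **The criterion**, one factor. -/
theorem crit_one (h2 : (2 : k) ≠ 0) (hf : GoodCurve f) (hQ : Irreducible Q) (hm : m = 1)
    (hF : FacQ f Q h u) :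
    UniquelyDivisible 2 (Pool.Agent.Y713.Jac.J 2 (tF K f (qK K Q)) K) ∧
      ShaTrivial 2 (tF K f (qK K Q)) k[X] := by
  haveI := hf.ded
  have hc := hf.cv
  haveI hfin : Module.Finite k[X] (AdjoinRoot f) := hf.monic.finite_adjoinRoot
  haveI : Algebra.IsIntegral k[X] (AdjoinRoot f) := inferInstance
  let M := FractionRing (AdjoinRoot f)
  have hinj : Function.Injective (algebraMap k[X] M) := by
    rw [IsScalarTower.algebraMap_eq k[X] (AdjoinRoot f) M]
    exact (IsFractionRing.injective (AdjoinRoot f) M).comp hc.inj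
  letI : Algebra K M := RingHom.toAlgebra (IsFractionRing.lift hinj)
  haveI : IsScalarTower k[X] K M := IsScalarTower.of_algebraMap_eq fun z =>
    (IsFractionRing.lift_algebraMap hinj z).symm
  have h2K : (2 : K) ≠ 0 := by
    intro h0
    apply h2
    have h1 : Function.Injective ((algebraMap k[X] K).comp (C : k →+* k[X])) :=
      RingHom.injective _
    apply h1
    rw [map_zero, map_ofNat, h0]
  have hq := qK_ne (K := K) hQ
  have hirr : Irreducible (tF K f (qK K Q)) := hc.tF_irr M hq
  have hsep := sep_tF hq hf.monic hirr (hF.der hQ hf.odd.pos hf.monic)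
  refine (hF.fac hQ).one (M := M) hc hQ hf.cls ?_ h2K hm hsep
  intro v hv
  obtain ⟨c, hc'⟩ := hf.unit v v.isUnit
  have h3 : algebraMap (AdjoinRoot f) M (v : AdjoinRoot f) =
      algebraMap K M (algebraMap k[X] K (C c)) := by
    rw [hc', ← IsScalarTower.algebraMap_apply k[X] K M,
      IsScalarTower.algebraMap_apply k[X] (AdjoinRoot f) M]
    rfl
  rw [h3] at hv ⊢
  rw [Algebra.norm_algebraMap, hc.finrank M] at hv
  exact (sq_of_odd_pow hf.odd hv).map _

end crit

end Run7.h905.BS
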