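import Pool.Agent.N352.JB.All

/-!
# The ideals of the divisors `p(x) = 0`, `y = c(x)` on `y ^ 2 = f(x)` and their Kummer classes
-/

set_option autoImplicit false
set_option linter.all false

open Polynomial IsDedekindDomain
open scoped Classical

namespace Run7.h905.BS

open Pool.Agent.Y160.SE Pool.Agent.N352.JB
open Pool.Agent.TH115.GD (incl rs ak exists_restrict)
open Pool.Agent.N424.JB (dvd_of_roots rt_mem prod_roots_ne rt_up good_two)

section idl

variable {E : Type} [Field E] {f : E[X]}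

/-- The ideal of the divisor `p(x) = 0`, `y = c(x)`. -/
noncomputable def idP (f p c : E[X]) : Ideal (CR 2 f) :=
  Ideal.span {xp 2 f p, yy 2 f - xp 2 f c}

theorem cop_pc {p c : E[X]} (h1 : IsCoprime p f) (h2 : p ∣ c ^ 2 - f) : IsCoprime p c := by
  obtain ⟨q, hq⟩ := h2
  have : IsCoprime p (c ^ 2) := by
    have e : c ^ 2 = f + p * q := by linear_combination hq
    rw [e]
    exact h1.add_mul_left_right q
  exact (IsCoprime.pow_right_iff two_pos).1 this

theorem idP_cop {p c : E[X]} (h1 : IsCoprime p f) (h2 : p ∣ c ^ 2 - f) :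
    idP f p c ⊔ Ideal.span {yy 2 f} = ⊤ := by
  obtain ⟨a, b, hab⟩ := cop_pc h1 h2
  rw [Ideal.eq_top_iff_one]
  have e : (1 : CR 2 f) = (xp 2 f a * xp 2 f p - xp 2 f b * (yy 2 f - xp 2 f c)) +
      xp 2 f b * yy 2 f := by
    have := congrArg (xp 2 f) hab
    rw [xp_add, xp_mul, xp_mul, xp_one] at this
    linear_combination -this
  rw [e]
  refine Ideal.add_mem _ (Ideal.mem_sup_left (Ideal.sub_mem _
    (Ideal.mul_mem_left _ _ (Ideal.subset_span (Or.inl rfl)))
    (Ideal.mul_mem_left _ _ (Ideal.subset_span (Or.inr rfl)))))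
    (Ideal.mem_sup_right (Ideal.mul_mem_left _ _ (Ideal.subset_span rfl)))

theorem zeta_two {ζ : E} (hg : Good 2 ζ f) : ζ = -1 ∧ (2 : E) ≠ 0 := by
  have h1 : ζ = -1 := hg.root.eq_neg_one_of_two_right
  refine ⟨h1, fun h => ?_⟩
  have h2 := hg.root.ne_one one_lt_two
  apply h2
  rw [h1]
  linear_combination -h

theorem idP_norm {ζ : E} (hg : Good 2 ζ f) {p c : E[X]} (h1 : IsCoprime p f) (h2 : p ∣ c ^ 2 - f) :
    ∏ i ∈ Finset.range 2, (idP f p c).map (hg.tw ^ i) = Ideal.span {xp 2 f p} := by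
  obtain ⟨hζ, h20⟩ := zeta_two hg
  obtain ⟨a, b, hab⟩ := cop_pc h1 h2
  have hab' : xp 2 f a * xp 2 f p + xp 2 f b * xp 2 f c = 1 := by
    have := congrArg (xp 2 f) hab
    rwa [xp_add, xp_mul, xp_mul, xp_one] at this
  have htw1 : hg.tw (xp 2 f p) = xp 2 f p := tw_xp _ _
  have htw2 : hg.tw (yy 2 f - xp 2 f c) = -yy 2 f - xp 2 f c := by
    rw [map_sub]
    have e1 : hg.tw (xp 2 f c) = xp 2 f c := tw_xp _ _
    have e2 : hg.tw (yy 2 f) = xp 2 f (C ζ) * yy 2 f := tw_yy _
    rw [e1, e2, hζ, C_neg, C_1, xp_neg, xp_one, neg_one_mul]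
  rw [Finset.prod_range_succ, Finset.prod_range_one, pow_zero, pow_one]
  have e0 : (idP f p c).map (1 : CR 2 f →+* CR 2 f) = idP f p c := Ideal.map_id _
  rw [e0]
  have e1 : (idP f p c).map hg.tw = Ideal.span {xp 2 f p, -yy 2 f - xp 2 f c} := by
    unfold idP
    rw [Ideal.map_span, Set.image_pair, htw1, htw2]
  rw [e1]
  unfold idP
  rw [Ideal.span_pair_mul_span_pair]
  obtain ⟨q, hq⟩ := h2
  have hy : yy 2 f ^ 2 = xp 2 f f := yy_pow 2 f
  have hq' : xp 2 f c ^ 2 - xp 2 f f = xp 2 f p * xp 2 f q := by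
    have := congrArg (xp 2 f) hq
    rwa [xp_sub, xp_pow, xp_mul] at this
  apply le_antisymm
  · rw [Ideal.span_le]
    rintro z (rfl | rfl | rfl | rfl)
    · exact Ideal.mem_span_singleton.2 (dvd_mul_right _ _)
    · exact Ideal.mem_span_singleton.2 (dvd_mul_right _ _)
    · exact Ideal.mem_span_singleton.2 (dvd_mul_left _ _)
    · refine Ideal.mem_span_singleton.2 ⟨xp 2 f q, ?_⟩
      linear_combination hq' - hy
  · rw [Ideal.span_singleton_le_iff_mem]
    have hC : xp 2 f (C (2⁻¹ : E)) * 2 = 1 := by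
      have : (2 : CR 2 f) = xp 2 f (C 2) := by
        rw [show (C (2 : E) : E[X]) = 2 from rfl]
        exact (map_ofNat (AdjoinRoot.of _) 2).symm
      rw [this, ← xp_mul, ← C_mul, inv_mul_cancel₀ h20, C_1, xp_one]
    have e2 : xp 2 f p = xp 2 f a * (xp 2 f p * xp 2 f p) -
        (xp 2 f b * xp 2 f (C (2⁻¹ : E))) * (xp 2 f p * (-yy 2 f - xp 2 f c)) -
        (xp 2 f b * xp 2 f (C (2⁻¹ : E))) * ((yy 2 f - xp 2 f c) * xp 2 f p) := by
      linear_combination (-xp 2 f p) * hab' - (xp 2 f b * xp 2 f c * xp 2 f p) * hC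
    have key : ∀ J : Ideal (CR 2 f), xp 2 f p * xp 2 f p ∈ J →
        xp 2 f p * (-yy 2 f - xp 2 f c) ∈ J → (yy 2 f - xp 2 f c) * xp 2 f p ∈ J →
        xp 2 f p ∈ J := by
      intro J m1 m2 m3
      rw [e2]
      exact Ideal.sub_mem _ (Ideal.sub_mem _ (Ideal.mul_mem_left _ _ m1)
        (Ideal.mul_mem_left _ _ m2)) (Ideal.mul_mem_left _ _ m3)
    exact key _ (Ideal.subset_span (Or.inl rfl)) (Ideal.subset_span (Or.inr (Or.inl rfl)))
      (Ideal.subset_span (Or.inr (Or.inr (Or.inl rfl))))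

/-- The ideal of a sum of divisors. -/
noncomputable def idL (f : E[X]) (l : List (E[X] × E[X])) : Ideal (CR 2 f) :=
  (l.map fun p => idP f p.1 p.2).prod

/-- The admissible lists. -/
def Adm (f : E[X]) (l : List (E[X] × E[X])) : Prop :=
  ∀ p ∈ l, p.1.Monic ∧ IsCoprime p.1 f ∧ p.1 ∣ p.2 ^ 2 - f

theorem Adm.tail {p : E[X] × E[X]} {l : List (E[X] × E[X])} (h : Adm f (p :: l)) : Adm f l :=
  fun q hq => h q (List.mem_cons_of_mem _ hq)

theorem idL_cop {l : List (E[X] × E[X])} (h : Adm f l) : idL f l ⊔ Ideal.span {yy 2 f} = ⊤ := by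
  induction l with
  | nil =>
    unfold idL
    rw [List.map_nil, List.prod_nil, Ideal.one_eq_top, top_sup_eq]
  | cons p l ih =>
    obtain ⟨h1, h2, h3⟩ := h p List.mem_cons_self
    unfold idL at *
    rw [List.map_cons, List.prod_cons, Ideal.mul_sup_eq_of_coprime_left (idP_cop h2 h3)]
    exact ih h.tail

theorem idL_norm {ζ : E} (hg : Good 2 ζ f) {l : List (E[X] × E[X])} (h : Adm f l) :
    ∏ i ∈ Finset.range 2, (idL f l).map (hg.tw ^ i) =
      Ideal.span {xp 2 f (l.map fun p => p.1).prod} := by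
  induction l with
  | nil =>
    unfold idL
    rw [List.map_nil, List.prod_nil, List.map_nil, List.prod_nil, xp_one, Ideal.span_singleton_one,
      ← Ideal.one_eq_top]
    exact Finset.prod_eq_one fun i _ => by rw [Ideal.one_eq_top, Ideal.map_top]
  | cons p l ih =>
    obtain ⟨h1, h2, h3⟩ := h p List.mem_cons_self
    have h4 := idP_norm hg h2 h3
    have h5 := ih h.tail
    unfold idL at *
    rw [List.map_cons, List.prod_cons, List.map_cons, List.prod_cons, xp_mul,
      ← Ideal.span_singleton_mul_span_singleton, ← h4, ← h5, ← Finset.prod_mul_distrib]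
    refine Finset.prod_congr rfl fun i _ => ?_
    rw [Ideal.map_mul]

theorem plL_cop {l : List (E[X] × E[X])} (h : Adm f l) : IsCoprime (l.map fun p => p.1).prod f := by
  induction l with
  | nil => exact isCoprime_one_left
  | cons p l ih =>
    obtain ⟨h1, h2, h3⟩ := h p List.mem_cons_self
    rw [List.map_cons, List.prod_cons]
    exact h2.mul_left (ih h.tail)

theorem plL_ne {l : List (E[X] × E[X])} (h : Adm f l) : (l.map fun p => p.1).prod ≠ 0 := by
  induction l with
  | nil => exact one_ne_zero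
  | cons p l ih =>
    rw [List.map_cons, List.prod_cons]
    exact mul_ne_zero (h p List.mem_cons_self).1.ne_zero (ih h.tail)

/-- The Kummer class of the list. -/
noncomputable def kl (l : List (E[X] × E[X])) : E[X] :=
  (l.map fun p => (-1) ^ p.1.natDegree * p.1).prod

theorem kl_sign (l : List (E[X] × E[X])) :
    ∃ d : ℕ, (l.map fun p => p.1).prod = (-1) ^ d * kl l := by
  unfold kl
  induction l with
  | nil => exact ⟨0, by simp⟩
  | cons p l ih =>
    obtain ⟨d, hd⟩ := ih
    refine ⟨d + p.1.natDegree, ?_⟩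
    rw [List.map_cons, List.prod_cons, List.map_cons, List.prod_cons, hd, pow_add]
    have h1 : ((-1 : E[X]) ^ p.1.natDegree) * (-1) ^ p.1.natDegree = 1 := by
      rw [← mul_pow, neg_one_mul, neg_neg, one_pow]
    linear_combination (-(-1) ^ d * p.1 *
      (l.map fun p => (-1) ^ p.1.natDegree * p.1).prod) * h1

theorem kl_cop {l : List (E[X] × E[X])} (h : Adm f l) : IsCoprime (kl l) f := by
  unfold kl
  induction l with
  | nil => exact isCoprime_one_left
  | cons p l ih =>
    obtain ⟨h1, h2, h3⟩ := h p List.mem_cons_self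
    rw [List.map_cons, List.prod_cons]
    refine IsCoprime.mul_left ?_ (ih h.tail)
    rw [isCoprime_mul_unit_left_left ((isUnit_one.neg).pow _)]
    exact h2

end idl

end Run7.h905.BS
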