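import Pool.Agent.Run7.h905.BS.Res

/-!
# The local condition over a perfect residue field

The theorem `loc_main` of `Pool/Agent/Y154/SE/Loc3.lean` without the assumption on the residue field.
-/

open Polynomial IsLocalRing WithZero
open scoped NNReal

set_option autoImplicit false
set_option linter.all false

namespace Run7.h905.BS

open Pool.Agent.Y154.SE

variable {L : Type*} [NontriviallyNormedField L] [IsUltrametricDist L] [CompleteSpace L]
  {O : ValuationSubring L}

theorem loc_perf (hO : ∀ y : L, y ∈ O ↔ ‖y‖ ≤ 1) (t : O) (ht : maximalIdeal O = Ideal.span {t})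
    (hd : ∀ y : L, y ≠ 0 → ∃ k : ℤ, ‖y‖₊ = ‖(t : L)‖₊ ^ k)
    {M : Type*} [Field M] [Algebra L M] [Algebra.IsAlgebraic L M]
    (w : Valuation M (WithZero (Multiplicative ℤ)))
    (hle : ∀ y : L, ‖y‖ ≤ 1 → w (algebraMap L M y) ≤ 1)
    (ℓ : ℕ) (hℓ : ℓ.Prime) (f : O[X]) (hf : f.Monic)
    (hperf : ∀ a : (ResidueField O)[X], Irreducible a → a.Separable)
    (hreg : ∀ a : O[X], a.Monic → Irreducible (a.map (residue O)) →
      f ∉ (Ideal.span {a} ⊔ (maximalIdeal O).map C) ^ 2)
    (hdeg : ℓ.Coprime f.natDegree) (p c : L[X]) (u : L) (hu : ‖u‖₊ = 1)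
    (hp : p.Monic) (hpi : Irreducible p)
    (hpf : p ∣ f.map (algebraMap O L) - C u * c ^ ℓ) (x : M)
    (hx : aeval x (f.map (algebraMap O L)) = 0) :
    ∃ γ : WithZero (Multiplicative ℤ), w (aeval x p) = γ ^ ℓ := by
  classical
  have hinj : Function.Injective (algebraMap O L) := Subtype.val_injective
  by_cases hz : aeval x p = 0
  · exact ⟨0, by rw [hz, map_zero, zero_pow hℓ.ne_zero]⟩
  set σ : M →ₐ[L] AlgebraicClosure L := IsAlgClosed.lift with hσ
  set θ := σ x with hθ
  have hix : IsIntegral L x := Algebra.IsIntegral.isIntegral x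
  have hiθ : IsIntegral L θ := Algebra.IsIntegral.isIntegral θ
  have hσp : ∀ g : L[X], σ (aeval x g) = aeval θ g := fun g => by
    rw [hθ, aeval_algHom_apply]
  have hfθ : aeval θ (f.map (algebraMap O L)) = 0 := by rw [← hσp, hx, map_zero]
  have hcoef : ∀ (g : O[X]) (i : ℕ), sv (((g.map (algebraMap O L)).map
      (algebraMap L (AlgebraicClosure L))).coeff i) ≤ 1 := by
    intro g i
    rw [coeff_map, coeff_map]
    exact sv_coe_le hO _
  have hsθ : sv θ ≤ 1 := by
    refine val_le_one sv ((f.map (algebraMap O L)).map (algebraMap L (AlgebraicClosure L)))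
      ((hf.map _).map _) (hcoef f) θ ?_
    rw [eval_map_algebraMap, hfθ]
  -- integral lift of the minimal polynomial of an integral element
  have hlift : ∀ η : AlgebraicClosure L, sv η ≤ 1 → ∃ F : O[X], F.Monic ∧
      F.map (algebraMap O L) = minpoly L η := by
    intro η hη
    have h1 := (sv_le_one_iff η).1 hη
    have h2 : minpoly L η ∈ lifts (algebraMap O L) := by
      rw [lifts_iff_coeff_lifts]
      intro n
      exact ⟨⟨_, (hO _).2 (h1 n)⟩, rfl⟩
    obtain ⟨F, h3, -, h4⟩ := lifts_and_natDegree_eq_and_monic h2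
      (minpoly.monic (Algebra.IsIntegral.isIntegral η))
    exact ⟨F, h4, h3⟩
  obtain ⟨F, hFm, hF⟩ := hlift θ hsθ
  obtain ⟨g, hg⟩ : F ∣ f := by
    rw [← map_dvd_map (algebraMap O L) hinj hFm, hF]
    exact minpoly.dvd L θ hfθ
  -- a root of `p`
  obtain ⟨ξ, hξ⟩ := IsAlgClosed.exists_aeval_eq_zero (AlgebraicClosure L) p hpi.degree_pos.ne'
  have hξp : minpoly L ξ = p := (minpoly.eq_of_irreducible_of_monic hpi hξ hp).symm
  set d := (minpoly L θ).natDegree with hd'
  set m := p.natDegree with hm'
  have hd0 : d ≠ 0 := (minpoly.natDegree_pos hiθ).ne'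
  have hm0 : m ≠ 0 := hpi.natDegree_pos.ne'
  have hsym : sv (aeval θ p) ^ d = sv (aeval ξ (minpoly L θ)) ^ m := by
    have := sv_resultant_comm θ ξ
    rwa [hξp] at this
  have hcξ : sv (aeval ξ (f.map (algebraMap O L))) = sv (aeval ξ c) ^ ℓ := by
    obtain ⟨q, hq⟩ := hpf
    have := congrArg (aeval ξ) hq
    rw [map_sub, map_mul, map_mul, hξ, zero_mul, map_pow, sub_eq_zero, aeval_C] at this
    rw [this, map_mul, sv_algebraMap, hu, one_mul, map_pow]
  have hres : ∀ q : L[X], ‖resultant p q‖₊ = sv (aeval ξ q) ^ m := by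
    intro q
    have := sv_resultant ξ q
    rwa [hξp] at this
  by_cases hξ1 : 1 < sv ξ
  · -- the non-integral case
    have hA1 : sv (aeval ξ (f.map (algebraMap O L))) = sv ξ ^ f.natDegree := by
      have := val_eval_large sv ((f.map (algebraMap O L)).map (algebraMap L (AlgebraicClosure L)))
        ((hf.map _).map _) (hcoef f) ξ hξ1
      rwa [eval_map_algebraMap, natDegree_map, natDegree_map_eq_of_injective hinj] at this
    have hA2 : sv (aeval ξ (minpoly L θ)) = sv ξ ^ d := by
      have := val_eval_large sv ((F.map (algebraMap O L)).map (algebraMap L (AlgebraicClosure L)))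
        ((hFm.map _).map _) (hcoef F) ξ hξ1
      rwa [eval_map_algebraMap, natDegree_map, hF] at this
    have h1 : ‖resultant p X‖₊ ^ f.natDegree = ‖resultant p c‖₊ ^ ℓ := by
      rw [hres, hres, aeval_X, ← pow_mul, mul_comm m, pow_mul, ← hA1, hcξ, ← pow_mul,
        ← pow_mul, mul_comm]
    have h2 : sv (aeval θ p) = ‖resultant p X‖₊ := by
      have h3 : sv (aeval θ p) ^ d = ‖resultant p X‖₊ ^ d := by
        rw [hsym, hA2, hres, aeval_X, ← pow_mul, ← pow_mul, mul_comm]
      exact (pow_left_inj₀ zero_le zero_le hd0).1 h3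
    have h4 : w (aeval x p) ^ 1 = w (algebraMap L M (resultant p X)) := by
      refine w_eq w hle σ _ _ 1 hz ?_
      rw [pow_one, hσp, h2]
    rw [pow_one] at h4
    have hX0 : resultant p X ≠ 0 := by
      rw [← nnnorm_ne_zero_iff, hres, aeval_X]
      exact pow_ne_zero _ (zero_lt_one.trans hξ1).ne'
    have hX0' : algebraMap L M (resultant p X) ≠ 0 := (_root_.map_ne_zero _).2 hX0
    have h5 : w (algebraMap L M (resultant p X)) ^ f.natDegree
        = w (algebraMap L M (resultant p c ^ ℓ)) := by
      refine w_eq w hle σ _ _ _ hX0' ?_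
      rw [AlgHom.commutes, sv_algebraMap, h1, nnnorm_pow]
    have hc0 : resultant p c ≠ 0 := by
      intro e
      rw [e, nnnorm_zero, zero_pow hℓ.ne_zero] at h1
      exact pow_ne_zero _ (nnnorm_ne_zero_iff.2 hX0) h1
    obtain ⟨k1, hk1⟩ := exists_exp ((Valuation.ne_zero_iff w).2 hX0')
    obtain ⟨k2, hk2⟩ := exists_exp ((Valuation.ne_zero_iff w).2 ((_root_.map_ne_zero (algebraMap L M)).2 hc0))
    rw [map_pow, map_pow, hk1, hk2, exp_pow, exp_pow] at h5
    have h6 := exp_inj h5
    rw [h4, hk1]
    refine power_of_dvd ?_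
    have h7 : (ℓ : ℤ) ∣ (f.natDegree : ℤ) * k1 := ⟨k2, h6⟩
    exact (Int.isCoprime_iff_gcd_eq_one.2 (by simpa using hdeg)).dvd_of_dvd_mul_left h7
  · rw [not_lt] at hξ1
    -- the integral case
    obtain ⟨P, hPm, hP⟩ := hlift ξ hξ1
    rw [hξp] at hP
    have hevP : ev θ P = aeval θ p := by rw [ev_apply, hP]
    have hle1 : sv (aeval θ p) ≤ 1 := by
      rw [← hevP]
      exact sv_ev_le hO hsθ P
    rcases hle1.eq_or_lt with h1 | h1
    · refine ⟨1, ?_⟩
      have h4 : w (aeval x p) ^ 1 = w (algebraMap L M 1) := by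
        refine w_eq w hle σ _ _ 1 hz ?_
        rw [pow_one, hσp, h1, nnnorm_one]
      rw [pow_one, map_one, map_one] at h4
      rw [h4, one_pow]
    · obtain ⟨a, ham, hai, ha⟩ := exists_a hO θ hsθ F hFm (by rw [ev_apply, hF, minpoly.aeval])
      obtain ⟨a', ham', hai', ha'⟩ := exists_a hO ξ hξ1 P hPm (by rw [ev_apply, hP, hξ])
      have haa : a'.map (residue O) = a.map (residue O) := by
        obtain ⟨n, hn⟩ := red_pow hO ξ P hPm (by rw [hP, hξp]) a' ham' hai' ha'
        have h2 : a.map (residue O) ∣ P.map (residue O) := (ha P).1 (by rw [hevP]; exact h1)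
        rw [hn] at h2
        have h3 := hai.prime.dvd_of_dvd_pow h2
        exact eq_of_irr_dvd (ham.map _) (ham'.map _) hai hai' h3
      have hFa : a.map (residue O) ∣ F.map (residue O) := by
        rw [← ha, ev_apply, hF, minpoly.aeval, map_zero]
        exact zero_lt_one
      have hFmem : F ∈ Ideal.span {a} ⊔ (maximalIdeal O).map C := mem_of_dvd a F hFa
      have hgξ : sv (ev ξ g) = 1 := by
        refine le_antisymm (sv_ev_le hO hξ1 g) ?_
        by_contra h2
        rw [not_le, ha', haa] at h2
        refine hreg a ham hai ?_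
        rw [hg, sq]
        exact Ideal.mul_mem_mul hFmem (mem_of_dvd a g h2)
      have hFξ : sv (aeval ξ (minpoly L θ)) = sv (aeval ξ c) ^ ℓ := by
        rw [← hcξ, hg, Polynomial.map_mul, map_mul, map_mul, hF]
        rw [ev_apply] at hgξ
        rw [hgξ, mul_one]
      have hw1 : w (aeval x p) ^ d = w (algebraMap L M (resultant p c ^ ℓ)) := by
        refine w_eq w hle σ _ _ d hz ?_
        rw [hσp, hsym, hFξ, nnnorm_pow, hres, ← pow_mul, ← pow_mul, mul_comm]
      obtain ⟨e0, he0⟩ := red_pow hO θ F hFm hF a ham hai ha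
      have hdf : d = e0 * (a.map (residue O)).natDegree := by
        rw [hd', ← hF, natDegree_map_eq_of_injective hinj, ← hFm.natDegree_map (residue O), he0,
          (ham.map (residue O)).natDegree_pow]
      have he00 : e0 ≠ 0 := by
        rintro rfl
        rw [zero_mul] at hdf
        exact hd0 hdf
      have hwz : w (aeval x p) ≠ 0 := (Valuation.ne_zero_iff w).2 hz
      obtain ⟨W, hW⟩ := exists_exp hwz
      have hcξ0 : aeval ξ c ≠ 0 := by
        intro e
        have h3 : resultant p c = 0 := by
          have := hres c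
          rw [e, map_zero, zero_pow hm0] at this
          exact nnnorm_eq_zero.1 this
        rw [h3, zero_pow hℓ.ne_zero, map_zero, map_zero] at hw1
        exact pow_ne_zero _ hwz hw1
      set δ := (a.map (residue O)).natDegree with hδ
      have hδ0 : δ ≠ 0 := hai.natDegree_pos.ne'
      obtain ⟨b, hb0, hb⟩ := norm_dvd hO hξ1 a' ham' hai' (hperf _ hai') ha' c hcξ0
      rw [hξp, haa, ← hres, ← hδ] at hb
      have hc0 : resultant p c ≠ 0 := by
        rw [← nnnorm_ne_zero_iff, hb]
        exact pow_ne_zero _ (nnnorm_ne_zero_iff.2 hb0)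
      have hb0' : algebraMap L M b ≠ 0 := (_root_.map_ne_zero _).2 hb0
      have hwr : w (algebraMap L M (resultant p c)) = w (algebraMap L M b) ^ δ := by
        have h3 := w_eq w hle σ (algebraMap L M (resultant p c)) (b ^ δ) 1
          ((_root_.map_ne_zero (algebraMap L M)).2 hc0)
          (by rw [pow_one, AlgHom.commutes, sv_algebraMap, hb, nnnorm_pow])
        rwa [pow_one, map_pow, map_pow] at h3
      obtain ⟨B, hB⟩ := exists_exp ((Valuation.ne_zero_iff w).2 hb0')
      have hWB : (e0 : ℤ) * W = ℓ * B := by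
        rw [map_pow, map_pow, hwr, hW, hB, exp_pow, exp_pow, exp_pow] at hw1
        have h3 := exp_inj hw1
        rw [hdf] at h3
        push_cast at h3
        have h4 : (δ : ℤ) ≠ 0 := by exact_mod_cast hδ0
        apply mul_left_cancel₀ h4
        linear_combination h3
      rw [hW]
      refine power_of_dvd ?_
      by_cases h2 : e0 = 1
      · rw [h2] at hWB
        exact ⟨B, by linear_combination hWB⟩
      have hFa2 : (F - a ^ e0) ∈ (maximalIdeal O).map C := by
        rw [Ideal.mem_map_C_iff]
        intro n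
        rw [← residue_eq_zero_iff]
        have h3 : (F - a ^ e0).map (residue O) = 0 := by
          rw [Polynomial.map_sub, Polynomial.map_pow, he0, sub_self]
        have h4 := congrArg (fun q => q.coeff n) h3
        simp only [coeff_map, coeff_zero] at h4
        exact h4
      rw [ht, Ideal.map_span, Set.image_singleton, Ideal.mem_span_singleton] at hFa2
      obtain ⟨h, hh⟩ := hFa2
      have hCt : C t ∈ Ideal.span {a} ⊔ (maximalIdeal O).map C := by
        refine Ideal.mem_sup_right (Ideal.mem_map_of_mem _ ?_)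
        rw [ht]
        exact Ideal.mem_span_singleton_self t
      have hamem : a ∈ Ideal.span {a} ⊔ (maximalIdeal O).map C :=
        Ideal.mem_sup_left (Ideal.mem_span_singleton_self a)
      have hhθ : sv (ev θ h) = 1 := by
        refine le_antisymm (sv_ev_le hO hsθ h) ?_
        by_contra h3
        rw [not_le, ha] at h3
        refine hreg a ham hai ?_
        have h4 : F = a ^ 2 * a ^ (e0 - 2) + C t * h := by
          rw [← pow_add, Nat.add_sub_cancel' (by omega), ← hh]
          ring
        have h5 : F ∈ (Ideal.span {a} ⊔ (maximalIdeal O).map C) ^ 2 := by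
          rw [h4]
          refine Ideal.add_mem _ (Ideal.mul_mem_right _ _ (Ideal.pow_mem_pow hamem 2)) ?_
          rw [sq]
          exact Ideal.mul_mem_mul hCt (mem_of_dvd a h h3)
        rw [hg]
        exact Ideal.mul_mem_right _ _ h5
      have h6 : ev θ a ^ e0 = -(algebraMap L (AlgebraicClosure L) (t : L) * ev θ h) := by
        have h7 := congrArg (ev θ) hh
        have h8 : ev θ F = 0 := by rw [ev_apply, hF, minpoly.aeval]
        have h9 : ev θ (C t) = algebraMap L (AlgebraicClosure L) (t : L) := by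
          rw [ev_apply, map_C, aeval_C]
          rfl
        rw [map_sub, map_pow, map_mul, h8, h9] at h7
        linear_combination -h7
      have h7 : sv (ev θ a) ^ e0 = ‖(t : L)‖₊ := by
        rw [← map_pow, h6, Valuation.map_neg, map_mul, hhθ, mul_one, sv_algebraMap]
      have ht0 : (t : L) ≠ 0 := by
        intro e
        have ht0' : t = 0 := Subtype.ext e
        obtain ⟨y, hy⟩ := NormedField.exists_norm_lt_one L
        have hy1 : (⟨y, (hO y).2 hy.2.le⟩ : O) ∈ maximalIdeal O := (mem_max_iff hO _).2 hy.2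
        rw [ht, ht0', Ideal.mem_span_singleton, zero_dvd_iff] at hy1
        have hy2 : y = 0 := congrArg Subtype.val hy1
        rw [hy2, norm_zero] at hy
        exact lt_irrefl _ hy.1
      have hza : aeval x (a.map (algebraMap O L)) ≠ 0 := by
        intro e
        have h8 : ev θ a = 0 := by rw [ev_apply, ← hσp, e, map_zero]
        rw [h8, map_zero, zero_pow he00] at h7
        exact ht0 (nnnorm_eq_zero.1 h7.symm)
      have h8 : w (aeval x (a.map (algebraMap O L))) ^ e0 = w (algebraMap L M (t : L)) := by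
        refine w_eq w hle σ _ _ e0 hza ?_
        rw [hσp, ← ev_apply, h7]
      obtain ⟨A, hA⟩ := exists_exp ((Valuation.ne_zero_iff w).2 hza)
      obtain ⟨k, hk⟩ := hd _ hb0
      have h9 : w (algebraMap L M b) = w (algebraMap L M ((t : L) ^ k)) := by
        have := w_eq w hle σ (algebraMap L M b) ((t : L) ^ k) 1 hb0'
          (by rw [pow_one, AlgHom.commutes, sv_algebraMap, hk, nnnorm_zpow])
        rwa [pow_one] at this
      rw [hB, map_zpow₀, map_zpow₀, ← h8, hA, exp_pow, ← exp_zsmul] at h9
      have h10 := exp_inj h9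
      rw [smul_eq_mul] at h10
      have h11 : (e0 : ℤ) ≠ 0 := by exact_mod_cast he00
      refine ⟨k * A, ?_⟩
      apply mul_left_cancel₀ h11
      rw [hWB, h10]
      ring

end Run7.h905.BS
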