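import Pool.Agent.Run7.h905.BS.DescU

/-!
# Points with different ordinates
-/

open Polynomial WithZero IsDedekindDomain
open scoped Classical

set_option autoImplicit false
set_option linter.all false

namespace Run7.h905.BS

open Pool.Agent.Y160.SE Pool.Agent.N352.JB
open Pool.Agent.TH115.GD (incl rs ak exists_restrict)
open Pool.Agent.N424.JB (good_two)
open Pool.Agent.W309.TD (NoTwo even_rep sq_of_nonsq isSquare_coe)
open Pool.Agent.N352.Sha (ShaTrivial ShaTrivialAt)

theorem card_of_map {A : Type*} [AddCommGroup A] {m : ℕ} (hm : 1 ≤ m) (Pi : A →+ (Fin m → ZMod 2))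
    (hker : ∀ P : A, (∃ R : A, P = 2 • R) ↔ ∃ a, ∀ j, Pi P j = a)
    (hsurj : ∀ y : Fin m → ZMod 2, ∃ (P : A) (a : ZMod 2), ∀ j, y j = Pi P j + a) :
    Nat.card (A ⧸ dbl A) = 2 ^ (m - 1) := by
  let Z := AddSubgroup.zmultiples (1 : Fin m → ZMod 2)
  let Pi1 := (QuotientAddGroup.mk' Z).comp Pi
  have hk : Pi1.ker = dbl A := by
    ext P
    rw [AddMonoidHom.mem_ker, mem_dbl, hker P, ← mem_zm]
    exact QuotientAddGroup.eq_zero_iff _
  have hs : Function.Surjective Pi1 := by
    intro y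
    obtain ⟨y, rfl⟩ := QuotientAddGroup.mk_surjective y
    obtain ⟨P, a, ha⟩ := hsurj y
    refine ⟨P, ?_⟩
    show QuotientAddGroup.mk (Pi P) = QuotientAddGroup.mk y
    rw [QuotientAddGroup.eq, mem_zm]
    refine ⟨a, fun j => ?_⟩
    show -(Pi P j) + y j = a
    rw [ha j]
    ring
  rw [← hk, ← card_zm hm]
  exact Nat.card_congr (QuotientAddGroup.quotientKerEquivOfSurjective Pi1 hs).toEquiv

variable {k K B M : Type} [Field k] [Field K] [Algebra k[X] K] [IsFractionRing k[X] K]
  [CommRing B] [IsDedekindDomain B] [Field M] [Algebra B M] [IsFractionRing B M]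
  [Algebra k[X] B] [Algebra.IsIntegral k[X] B] [Algebra K M] [Algebra k[X] M]
  [IsScalarTower k[X] B M] [IsScalarTower k[X] K M] {f : k[X][X]} {x : B}
  {Q : k[X]} {m : ℕ} {h : Fin m → k[X][X]} {v : k[X][X]} {u : Fin m → k[X][X]}

section pts

theorem dvdU {g w : k[X][X]} (hg : g.Monic) (hf : f.Monic) (hodd : Odd f.natDegree)
    (hQ : Irreducible Q) (hd : g ∣ f - C Q * w ^ 2) :
    tF K g (qK K Q) ∣ cP K f Q w ^ 2 - tF K f (qK K Q) := by
  have hq := qK_ne (K := K) hQ
  have key : (tF K g (qK K Q)).comp (C (qK K Q) * X) ∣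
      (cP K f Q w ^ 2 - tF K f (qK K Q)).comp (C (qK K Q) * X) := by
    rw [sub_comp, pow_comp]
    unfold cP
    rw [tF_comp _ hg, tF_comp _ hf, mul_comp, C_comp, comp_lin hq]
    obtain ⟨r, hr⟩ := hodd
    have e1 : (f.natDegree + 1) / 2 = r + 1 := by omega
    rw [e1]
    obtain ⟨s, hs⟩ := hd
    have e2 : (f.map (algebraMap k[X] K)) = g.map (algebraMap k[X] K) * s.map (algebraMap k[X] K) +
        C (qK K Q) * (w.map (algebraMap k[X] K)) ^ 2 := by
      have : f = g * s + C Q * w ^ 2 := by rw [← hs]; ring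
      conv_lhs => rw [this]
      rw [Polynomial.map_add, Polynomial.map_mul, Polynomial.map_mul, Polynomial.map_pow, map_C]
    have e4 : (C (qK K Q ^ (r + 1)) : K[X]) ^ 2 = C (qK K Q ^ f.natDegree) * C (qK K Q) := by
      rw [← C_pow, ← C_mul, hr]
      congr 1
      ring
    have e3 : (C (qK K Q ^ (r + 1)) * w.map (algebraMap k[X] K)) ^ 2 -
        C (qK K Q ^ f.natDegree) * f.map (algebraMap k[X] K) =
        -(C (qK K Q ^ f.natDegree) * (g.map (algebraMap k[X] K) * s.map (algebraMap k[X] K))) := by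
      rw [e2]
      linear_combination (w.map (algebraMap k[X] K)) ^ 2 * e4
    rw [e3]
    have hn : C (qK K Q ^ g.natDegree) * C ((qK K Q ^ g.natDegree)⁻¹) = (1 : K[X]) := by
      rw [← C_mul, mul_inv_cancel₀ (pow_ne_zero _ hq), C_1]
    refine ⟨-(C ((qK K Q ^ g.natDegree)⁻¹) * C (qK K Q ^ f.natDegree) *
      s.map (algebraMap k[X] K)), ?_⟩
    linear_combination (g.map (algebraMap k[X] K) * C (qK K Q ^ f.natDegree) *
      s.map (algebraMap k[X] K)) * hn
  obtain ⟨r, hr⟩ := key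
  have h3 := congrArg (fun g => g.comp (C (qK K Q)⁻¹ * X)) hr
  simp only [mul_comp (p := (tF K g (qK K Q)).comp (C (qK K Q) * X))] at h3
  rw [comp_lin' hq, comp_lin' hq] at h3
  exact ⟨_, h3⟩

theorem aevalU {g : k[X][X]} (hg : g.Monic) :
    aeval (tθ M x (qK K Q)) (tF K g (qK K Q)) =
      algebraMap K M (qK K Q) ^ g.natDegree * algebraMap B M (Hv x g) := by
  rw [← aeval_comp_tθ, tF_comp _ hg, map_mul, aeval_C, map_pow, aeval_B]
  rfl

theorem tF_monicU {g : k[X][X]} (hg : g.Monic) : (tF K g (qK K Q)).Monic :=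
  (monic_scaleRoots_iff _).2 (hg.map _)

theorem tF_degU {g : k[X][X]} (hg : g.Monic) : (tF K g (qK K Q)).natDegree = g.natDegree := by
  unfold tF
  rw [natDegree_scaleRoots, hg.natDegree_map]

/-- The divisor of a set of indices. -/
noncomputable def lU (K : Type) [Field K] [Algebra k[X] K] (f : k[X][X]) (Q : k[X])
    (h : Fin m → k[X][X]) (u : Fin m → k[X][X]) (S : Finset (Fin m)) : List (K[X] × K[X]) :=
  S.toList.map fun j => (tF K (h j) (qK K Q), cP K f Q (u j))

theorem Fac0.ne (hF : Fac0 f Q h v) (hc : Cv f x) (hQ : Irreducible Q) (hm : 2 ≤ m) (j : Fin m) :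
    Hv x (h j) ≠ 0 := by
  intro h0
  haveI : Nontrivial (Fin m) := Fin.nontrivial_iff_two_le.2 hm
  obtain ⟨i, hi⟩ := exists_ne j
  have hj : Hv x (h j) ∈ (hF.pl hc hQ i).asIdeal := by
    rw [h0]
    exact zero_mem _
  exact hi (hF.mem_unique _ (hF.pl_ov hc hQ i) (hF.pl_mem hc hQ i) hj)

variable (M) in
include M in
theorem Fac0.adm (hF : Fac0 f Q h v) (hmon : ∀ j, (h j).Monic) (hc : Cv f x) (hQ : Irreducible Q)
    (hm : 2 ≤ m) {D : Finset (Fin m)} (hd : ∀ j ∈ D, h j ∣ f - C Q * u j ^ 2)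
    {S : Finset (Fin m)} (hS : S ⊆ D) : Adm (tF K f (qK K Q)) (lU K f Q h u S) := by
  have hq := qK_ne (K := K) hQ
  intro p hp
  unfold lU at hp
  rw [List.mem_map] at hp
  obtain ⟨j, hj, rfl⟩ := hp
  rw [Finset.mem_toList] at hj
  refine ⟨tF_monicU (hmon j), ?_, dvdU (hmon j) hc.monic hc.odd hQ (hd j (hS hj))⟩
  have hirr : Irreducible (tF K f (qK K Q)) := hc.tF_irr M hq
  refine ((hirr.coprime_iff_not_dvd).2 ?_).symm
  rintro ⟨r, hr⟩
  have h1 := congrArg (aeval (tθ M x (qK K Q))) hr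
  simp only at h1
  rw [map_mul, hc.tF_root, zero_mul, aevalU (hmon j)] at h1
  rcases mul_eq_zero.1 h1 with h2 | h2
  · exact pow_ne_zero _ ((_root_.map_ne_zero _).2 hq) h2
  · exact hF.ne hc hQ hm j ((IsFractionRing.injective B M) (h2.trans (map_zero _).symm))

variable (K) in
include K in
/-- The parity of `h j` at the places above `Q`. -/
theorem Fac0.pr_H (hF : Fac0 f Q h v) (hmon : ∀ j, (h j).Monic) (hc : Cv f x) (hQ : Irreducible Q)
    (hm : 2 ≤ m) {j : Fin m} (hd : h j ∣ f - C Q * u j ^ 2) (i : Fin m) :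
    pr (hF.pl hc hQ i) (algebraMap B M (Hv x (h j))) = if j = i then 1 else 0 := by
  have hw := hF.pl_ov hc hQ i
  have hi := hF.pl_mem hc hQ i
  set w := hF.pl hc hQ i with hwd
  have hhj : algebraMap B M (Hv x (h j)) ≠ 0 := fun h2 =>
    hF.ne hc hQ hm j ((IsFractionRing.injective B M) (h2.trans (map_zero _).symm))
  by_cases hji : j = i
  · rw [if_pos hji]
    subst hji
    obtain ⟨s, hs⟩ := hd
    -- the cofactor is a unit at `w`
    have h1 : C Q ∣ s - ∏ a ∈ Finset.univ.erase j, h a := by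
      have h2 : h j * (s - ∏ a ∈ Finset.univ.erase j, h a) = C Q * (v - u j ^ 2) := by
        have h3 := hF.id
        rw [← Finset.mul_prod_erase _ _ (Finset.mem_univ j)] at h3
        linear_combination h3 - hs
      have hp : Prime (C Q : k[X][X]) := (prime_C_iff).2 hQ.prime
      rcases hp.dvd_or_dvd (Dvd.intro _ h2.symm) with h4 | h4
      · exfalso
        have h5 := (C_dvd_iff_dvd_coeff Q (h j)).1 h4 (h j).natDegree
        rw [show (h j).coeff (h j).natDegree = 1 from (hmon j).coeff_natDegree] at h5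
        exact hQ.not_isUnit (isUnit_of_dvd_one h5)
      · exact h4
    have hsw : Hv x s ∉ w.asIdeal := by
      intro h2
      obtain ⟨r, hr⟩ := h1
      have h3 : Hv x (∏ a ∈ Finset.univ.erase j, h a) ∈ w.asIdeal := by
        have : (∏ a ∈ Finset.univ.erase j, h a) = s - C Q * r := by rw [← hr]; ring
        rw [this]
        unfold Hv
        rw [map_sub, map_mul, aeval_C]
        exact sub_mem h2 (Ideal.mul_mem_right _ _ hw)
      haveI := w.isPrime
      have h4 : ∏ a ∈ Finset.univ.erase j, Hv x (h a) ∈ w.asIdeal := by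
        have : Hv x (∏ a ∈ Finset.univ.erase j, h a) = ∏ a ∈ Finset.univ.erase j, Hv x (h a) :=
          map_prod _ _ _
        rwa [this] at h3
      obtain ⟨a, ha, ha2⟩ := Ideal.IsPrime.prod_mem_iff.1 h4
      exact (Finset.mem_erase.1 ha).1 (hF.mem_unique w hw ha2 hi)
    have hs0 : algebraMap B M (Hv x s) ≠ 0 := by
      intro h2
      apply hsw
      rw [(IsFractionRing.injective B M) (h2.trans (map_zero _).symm)]
      exact zero_mem _
    have hprs : pr w (algebraMap B M (Hv x s)) = 0 := by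
      unfold pr
      rw [HeightOneSpectrum.valuation_of_algebraMap,
        (w.intValuation_eq_one_iff).2 hsw, log_one, Int.cast_zero]
    have h5 : algebraMap B M (Hv x (h j)) * algebraMap B M (Hv x s) =
        -(algebraMap K M (qK K Q) * algebraMap B M (Hv x (u j)) ^ 2) := by
      have h6 := congrArg (aeval x) hs
      rw [map_sub, hc.root, map_mul, map_mul, aeval_C, map_pow, zero_sub] at h6
      have h7 := congrArg (algebraMap B M) h6
      rw [map_neg, map_mul, map_mul, map_pow] at h7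
      have h8 : algebraMap K M (qK K Q) = algebraMap B M (algebraMap k[X] B Q) := by
        unfold qK
        rw [← IsScalarTower.algebraMap_apply k[X] K M, IsScalarTower.algebraMap_apply k[X] B M]
      rw [h8]
      exact h7.symm
    have hu0 : algebraMap B M (Hv x (u j)) ≠ 0 := by
      intro h6
      rw [h6, zero_pow two_ne_zero, mul_zero, neg_zero] at h5
      exact mul_ne_zero hhj hs0 h5
    have hq0 : algebraMap K M (qK K Q) ≠ 0 := (_root_.map_ne_zero _).2 (qK_ne hQ)
    have h6 := congrArg (pr w) h5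
    rw [pr_mul w hhj hs0, hprs, add_zero, pr_neg, pr_mul w hq0 (pow_ne_zero _ hu0),
      pr_pow w hu0, hF.pr_q hc w hw] at h6
    rw [h6]
    have h2 : ((2 : ℕ) : ZMod 2) = 0 := rfl
    rw [h2, zero_mul, add_zero]
  · rw [if_neg hji]
    unfold pr
    rw [HeightOneSpectrum.valuation_of_algebraMap]
    have h1 : w.intValuation (Hv x (h j)) = 1 := by
      rw [HeightOneSpectrum.intValuation_eq_one_iff]
      intro h3
      exact hji (hF.mem_unique w hw h3 hi)
    rw [h1, log_one, Int.cast_zero]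

/-- The parity of the class of a set of points. -/
theorem Fac0.pr_lU (hF : Fac0 f Q h v) (hmon : ∀ j, (h j).Monic) (hc : Cv f x)
    (hQ : Irreducible Q) (hm : 2 ≤ m) {D : Finset (Fin m)}
    (hd : ∀ j ∈ D, h j ∣ f - C Q * u j ^ 2) {S : Finset (Fin m)} (hS : S ⊆ D) (i : Fin m) :
    pr (hF.pl hc hQ i) (aeval (tθ M x (qK K Q)) (kl (lU K f Q h u S))) =
      (∑ j ∈ S, ((h j).natDegree : ZMod 2)) + if i ∈ S then 1 else 0 := by
  have hkl : kl (lU K f Q h u S) = ∏ j ∈ S, (-1) ^ (h j).natDegree * tF K (h j) (qK K Q) := by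
    unfold kl lU
    rw [List.map_map, Finset.prod_map_toList]
    apply Finset.prod_congr rfl
    intro j _
    show (-1) ^ (tF K (h j) (qK K Q)).natDegree * tF K (h j) (qK K Q) = _
    rw [tF_degU (hmon j)]
  have hfn : ∀ j, ((-1 : M) ^ (h j).natDegree *
      (algebraMap K M (qK K Q) ^ (h j).natDegree * algebraMap B M (Hv x (h j)))) ≠ 0 := by
    intro j
    refine mul_ne_zero (pow_ne_zero _ (neg_ne_zero.2 one_ne_zero)) (mul_ne_zero
      (pow_ne_zero _ ((_root_.map_ne_zero _).2 (qK_ne hQ))) ?_)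
    intro h2
    exact hF.ne hc hQ hm j ((IsFractionRing.injective B M) (h2.trans (map_zero _).symm))
  have e : aeval (tθ M x (qK K Q)) (kl (lU K f Q h u S)) = ∏ j ∈ S, (-1) ^ (h j).natDegree *
      (algebraMap K M (qK K Q) ^ (h j).natDegree * algebraMap B M (Hv x (h j))) := by
    rw [hkl, map_prod]
    apply Finset.prod_congr rfl
    intro j _
    rw [map_mul, aevalU (hmon j), map_pow, map_neg, map_one]
  have hw := hF.pl_ov hc hQ i
  rw [e, pr_prod _ _ _ fun j _ => hfn j]
  have h1 : ∀ j ∈ S, pr (hF.pl hc hQ i) ((-1 : M) ^ (h j).natDegree *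
      (algebraMap K M (qK K Q) ^ (h j).natDegree * algebraMap B M (Hv x (h j)))) =
      ((h j).natDegree : ZMod 2) + if j = i then 1 else 0 := by
    intro j hj
    have hH : algebraMap B M (Hv x (h j)) ≠ 0 := fun h2 =>
      hF.ne hc hQ hm j ((IsFractionRing.injective B M) (h2.trans (map_zero _).symm))
    have hq : algebraMap K M (qK K Q) ≠ 0 := (_root_.map_ne_zero _).2 (qK_ne hQ)
    rw [pr_mul _ (pow_ne_zero _ (neg_ne_zero.2 one_ne_zero)) (mul_ne_zero (pow_ne_zero _ hq) hH),
      pr_mul _ (pow_ne_zero _ hq) hH, pr_pow _ (neg_ne_zero.2 one_ne_zero), pr_neg, pr_one,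
      mul_zero, zero_add, pr_pow _ hq, hF.pr_q hc _ hw, mul_one,
      hF.pr_H K hmon hc hQ hm (hd j (hS hj)) i]
  rw [Finset.sum_congr rfl h1, Finset.sum_add_distrib]
  congr 1
  rw [Finset.sum_ite_eq' S i]

end pts

section desc

variable [PerfectField k] (hF : Fac0 f Q h v) (hc : Cv f x) (hQ : Irreducible Q) (hcl : NoTwo B)
  (hun : ∀ u : Bˣ, IsSquare (Algebra.norm K (algebraMap B M (u : B))) →
    IsSquare (algebraMap B M (u : B)))

include hF hc hQ hcl hun

/-- The parities above `Q`. -/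
theorem Fac0.map (hg : Good 2 (-1 : K) (tF K f (qK K Q))) :
    ∃ Pi : Jac 2 (tF K f (qK K Q)) K →+ (Fin m → ZMod 2),
      (∀ P g, IsCoprime g (tF K f (qK K Q)) → KC hg (SeparableClosure K) P g →
        ∀ j, Pi P j = pr (hF.pl hc hQ j) (aeval (tθ M x (qK K Q)) g)) ∧
      ∀ P, (∃ R, P = 2 • R) ↔ ∃ a, ∀ j, Pi P j = a := by
  have hq := qK_ne (K := K) hQ
  have hirr : Irreducible (tF K f (qK K Q)) := hc.tF_irr M hq
  have hodd : Odd (tF K f (qK K Q)).natDegree := by
    rw [hc.tF_deg]; exact hc.odd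
  obtain ⟨θ, hθ⟩ : ∃ θ, θ = tθ M x (qK K Q) := ⟨_, rfl⟩
  have hex := kc_exists hg (SeparableClosure K) hodd
  choose hh hk hcop hloc hN using hex
  have hz : ∀ P, aeval θ (hh P) ≠ 0 := by
    intro P
    rw [hθ]
    exact hc.ne_of_cop (M := M) (hcop P)
  have hsq : ∀ g s : K[X], aeval θ g ≠ 0 → tF K f (qK K Q) ∣ g - s ^ 2 →
      ∀ w : HeightOneSpectrum B, pr w (aeval θ g) = 0 := by
    intro g s hg0 hs w
    have h3 : IsSquare (aeval θ g) := by
      rw [hθ]
      exact hc.dvd_sq hs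
    rw [← sq_pr w hg0]
    obtain ⟨y, hy⟩ := h3
    exact ⟨w.valuation M y, by rw [hy, map_mul]⟩
  have hadd : ∀ P P' : Jac 2 (tF K f (qK K Q)) K, ∀ w : HeightOneSpectrum B,
      pr w (aeval θ (hh (P + P'))) = pr w (aeval θ (hh P)) + pr w (aeval θ (hh P')) := by
    intro P P' w
    have h3 := ((hk P).add (hk P')).add (hk (P + P'))
    rw [← two_nsmul] at h3
    obtain ⟨s, hs⟩ := h3.of_two
    have h0 : aeval θ (hh P * hh P' * hh (P + P')) ≠ 0 := by
      rw [map_mul, map_mul]
      exact mul_ne_zero (mul_ne_zero (hz _) (hz _)) (hz _)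
    have h4 := hsq _ s h0 hs w
    rw [map_mul, map_mul, pr_mul w (mul_ne_zero (hz _) (hz _)) (hz _),
      pr_mul w (hz _) (hz _)] at h4
    have h5 := CharTwo.add_self_eq_zero (pr w (aeval θ (hh (P + P'))))
    linear_combination h5 - h4
  let Pi0 : Jac 2 (tF K f (qK K Q)) K →+ (Fin m → ZMod 2) :=
    AddMonoidHom.mk' (fun P j => pr (hF.pl hc hQ j) (aeval θ (hh P))) (by
      intro P P'
      funext j
      exact hadd P P' _)
  refine ⟨Pi0, ?_, ?_⟩
  · intro P g hgc hgk j
    rw [← hθ]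
    have hg0 : aeval θ g ≠ 0 := by
      rw [hθ]
      exact hc.ne_of_cop (M := M) hgc
    have h3 := (hk P).add hgk
    rw [← two_nsmul] at h3
    obtain ⟨s, hs⟩ := h3.of_two
    have h4 := hsq _ s (by
      rw [map_mul]
      exact mul_ne_zero (hz P) hg0) hs (hF.pl hc hQ j)
    rw [map_mul, pr_mul _ (hz P) hg0] at h4
    show pr (hF.pl hc hQ j) (aeval θ (hh P)) = _
    have h5 := CharTwo.add_self_eq_zero (pr (hF.pl hc hQ j) (aeval θ g))
    linear_combination h4 - h5
  · intro P
    constructor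
    · rintro ⟨R, rfl⟩
      obtain ⟨s, hs⟩ := (hk (2 • R)).of_two
      exact ⟨0, fun j => hsq _ s (hz _) hs _⟩
    · rintro ⟨a, ha⟩
      have hc1 : ∃ a, ∀ j, pr (hF.pl hc hQ j) (aeval (tθ M x (qK K Q)) (hh P)) = a := by
        rw [← hθ]
        exact ⟨a, ha⟩
      obtain ⟨s, hs⟩ := hF.const_sq (M := M) hc hQ hcl hun (hcop P) (hN P)
        (fun v => Pool.Agent.N424.JB.LocIm.up (hloc P)) hc1
      obtain ⟨R, hR⟩ := KC.sq hg hirr (hk P) hs
      exact ⟨R, hR.symm⟩

/-- **The points.** -/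
theorem Fac0.pts (h2 : (2 : K) ≠ 0) (hm : 2 ≤ m) (hsep : (tF K f (qK K Q)).Separable)
    (hmon : ∀ j, (h j).Monic) {D : Finset (Fin m)} (hd : ∀ j ∈ D, h j ∣ f - C Q * u j ^ 2) :
    ∃ P : Fin m → Jac 2 (tF K f (qK K Q)) K,
      (∀ j ∈ D, IsCl K (idP ((tF K f (qK K Q)).map (algebraMap K K)) (tF K (h j) (qK K Q))
        (cP K f Q (u j))) (P j)) ∧
      (∀ S ⊆ D, (∃ R : Jac 2 (tF K f (qK K Q)) K, ∑ j ∈ S, P j = 2 • R) ↔
        S = ∅ ∨ S = Finset.univ) ∧
      (m - 1 ≤ D.card → (∀ y : Jac 2 (tF K f (qK K Q)) K,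
          ∃ S ⊆ D, ∃ R : Jac 2 (tF K f (qK K Q)) K, y = ∑ j ∈ S, P j + 2 • R) ∧
        Nat.card (Jac 2 (tF K f (qK K Q)) K ⧸ dbl (Jac 2 (tF K f (qK K Q)) K)) =
          2 ^ (m - 1)) := by
  have hq := qK_ne (K := K) hQ
  have hmonF : (tF K f (qK K Q)).Monic := hc.tF_monic _
  have hirr : Irreducible (tF K f (qK K Q)) := hc.tF_irr M hq
  have hodd : Odd (tF K f (qK K Q)).natDegree := by
    rw [hc.tF_deg]; exact hc.odd
  have hg : Good 2 (-1 : K) (tF K f (qK K Q)) := good_two h2 hmonF hsep hodd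
  obtain ⟨Pi, hPi, hker⟩ := hF.map (M := M) hc hQ hcl hun hg
  have hadm : ∀ S ⊆ D, Adm (tF K f (qK K Q)) (lU K f Q h u S) :=
    fun S hS => hF.adm M (K := K) hmon hc hQ hm hd hS
  have hidl : ∀ S : Finset (Fin m), idL ((tF K f (qK K Q)).map (algebraMap K K)) (lU K f Q h u S) =
      ∏ j ∈ S, idP ((tF K f (qK K Q)).map (algebraMap K K)) (tF K (h j) (qK K Q))
        (cP K f Q (u j)) := by
    intro S
    unfold idL lU
    rw [List.map_map, Finset.prod_map_toList]
    rfl
  have hex : ∀ j, ∃ P : Jac 2 (tF K f (qK K Q)) K, j ∈ D →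
      IsCl K (idP ((tF K f (qK K Q)).map (algebraMap K K)) (tF K (h j) (qK K Q))
        (cP K f Q (u j))) P := by
    intro j
    by_cases hj : j ∈ D
    · obtain ⟨P, hP⟩ := cl_exists (K := K) (Ω := K) (f := tF K f (qK K Q)) hyps hg
        (I := idP ((tF K f (qK K Q)).map (algebraMap K K)) (tF K (h j) (qK K Q))
          (cP K f Q (u j))) (by
        have := adm_ideal_ne hg (hadm {j} (Finset.singleton_subset_iff.2 hj))
        rwa [hidl, Finset.prod_singleton] at this)
      exact ⟨P, fun _ => hP⟩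
    · exact ⟨0, fun h => absurd h hj⟩
  choose P hP using hex
  have hcls : ∀ S ⊆ D, IsCl K (idL ((tF K f (qK K Q)).map (algebraMap K K)) (lU K f Q h u S))
      (∑ j ∈ S, P j) := by
    intro S
    rw [hidl]
    induction S using Finset.induction_on with
    | empty =>
      intro _
      rw [Finset.prod_empty, Finset.sum_empty, Ideal.one_eq_top]
      exact cl_top hyps hg
    | insert a s ha ih =>
      intro hS
      rw [Finset.prod_insert ha, Finset.sum_insert ha]
      exact cl_mul hyps hg (hP a (hS (Finset.mem_insert_self _ _)))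
        (ih fun b hb => hS (Finset.mem_insert_of_mem hb))
  have hval : ∀ S ⊆ D, ∀ i, Pi (∑ j ∈ S, P j) i =
      (∑ j ∈ S, ((h j).natDegree : ZMod 2)) + if i ∈ S then 1 else 0 := by
    intro S hS i
    rw [hPi _ _ (kl_cop (hadm S hS)) (kc_list hg hodd (hadm S hS) (hcls S hS)) i]
    exact hF.pr_lU hmon hc hQ hm hd hS i
  have hch : m - 1 ≤ D.card → ∀ y : Fin m → ZMod 2, ∃ S ⊆ D, ∃ a, ∀ j,
      y j = Pi (∑ j ∈ S, P j) j + a := by
    intro hD y
    -- the value outside of `D`
    obtain ⟨c, hcD⟩ : ∃ c, ∀ j, j ∉ D → y j = c := by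
      by_cases hD2 : ∃ j0, j0 ∉ D
      · obtain ⟨j0, hj0⟩ := hD2
        refine ⟨y j0, fun j hj => ?_⟩
        have hcard : (Finset.univ \ D).card ≤ 1 := by
          rw [Finset.card_sdiff_of_subset (Finset.subset_univ D), Finset.card_univ, Fintype.card_fin]
          omega
        have := Finset.card_le_one.1 hcard j (Finset.mem_sdiff.2 ⟨Finset.mem_univ _, hj⟩) j0
          (Finset.mem_sdiff.2 ⟨Finset.mem_univ _, hj0⟩)
        rw [this]
      · push Not at hD2
        exact ⟨0, fun j hj => absurd (hD2 j) hj⟩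
    refine ⟨Finset.univ.filter fun j => y j ≠ c, ?_, ?_⟩
    · intro j hj
      by_contra hjD
      exact (Finset.mem_filter.1 hj).2 (hcD j hjD)
    · refine ⟨c - ∑ j ∈ Finset.univ.filter (fun j => y j ≠ c), ((h j).natDegree : ZMod 2), ?_⟩
      intro j
      rw [hval _ (by
        intro j hj
        by_contra hjD
        exact (Finset.mem_filter.1 hj).2 (hcD j hjD))]
      by_cases hj : y j = c
      · rw [if_neg (by
          intro h3
          exact (Finset.mem_filter.1 h3).2 hj), hj]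
        ring
      · rw [if_pos (show j ∈ Finset.univ.filter (fun j => y j ≠ c) from
          Finset.mem_filter.2 ⟨Finset.mem_univ _, hj⟩)]
        have h3 : y j = 1 + c := by
          rcases pr_cases (y j) with h4 | h4 <;> rcases pr_cases c with h5 | h5
          · exact absurd (h4.trans h5.symm) hj
          · rw [h4, h5]; rfl
          · rw [h4, h5]; rfl
          · exact absurd (h4.trans h5.symm) hj
        rw [h3]
        ring
  refine ⟨P, hP, ?_, ?_⟩
  · intro S hS
    rw [hker]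
    simp only [hval S hS]
    constructor
    · rintro ⟨a, ha⟩
      by_cases hem : S = ∅
      · exact Or.inl hem
      · right
        obtain ⟨i, hi⟩ := Finset.nonempty_iff_ne_empty.2 hem
        rw [Finset.eq_univ_iff_forall]
        intro j
        by_contra hj
        have h3 := ha i
        have h4 := ha j
        rw [if_pos hi] at h3
        rw [if_neg hj] at h4
        have h5 : (1 : ZMod 2) = 0 := by linear_combination h3 - h4
        exact one_ne_zero h5
    · rintro (rfl | rfl)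
      · exact ⟨_, fun j => by rw [if_neg (Finset.notMem_empty _)]⟩
      · exact ⟨_, fun j => by rw [if_pos (Finset.mem_univ _)]⟩
  · intro hD
    refine ⟨?_, ?_⟩
    · intro y
      obtain ⟨S, hS, a, ha⟩ := hch hD (Pi y)
      obtain ⟨R, hR⟩ := (hker (y - ∑ j ∈ S, P j)).2 ⟨a, fun j => by
        rw [map_sub]
        show Pi y j - Pi (∑ j ∈ S, P j) j = a
        rw [ha j]
        ring⟩
      exact ⟨S, hS, R, by rw [← hR]; abel⟩
    · apply card_of_map (by omega) Pi hker
      intro y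
      obtain ⟨S, hS, a, ha⟩ := hch hD y
      exact ⟨_, a, ha⟩

end desc

end Run7.h905.BS
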