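import Pool.Agent.Run7.h905.BS.Pts

/-!
# Points with different ordinates, in terms of the polynomials
-/

open Polynomial WithZero IsDedekindDomain
open scoped Classical

set_option autoImplicit false
set_option linter.all false

namespace Run7.h905.BS

open Pool.Agent.Y160.SE Pool.Agent.N352.JB
open Pool.Agent.W309.TD (NoTwo)
open Pool.Agent.N352.Sha (ShaTrivial)

section split

variable {k : Type} [Field k] {f : k[X][X]} {Q : k[X]} {m : ℕ}

/-- `f` is modulo `Q` the product of the distinct irreducible reductions of the monic `h j`. -/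
structure LiftQ (f : k[X][X]) (Q : k[X]) {m : ℕ} (h : Fin m → k[X][X]) : Prop where
  mon : ∀ j, (h j).Monic
  irr : ∀ j, Irreducible ((h j).map (AdjoinRoot.mk Q))
  dist : Function.Injective fun j => (h j).map (AdjoinRoot.mk Q)
  prod : f.map (AdjoinRoot.mk Q) = ∏ j, (h j).map (AdjoinRoot.mk Q)

variable {h : Fin m → k[X][X]}

theorem LiftQ.split (hQ : Irreducible Q) (hF : LiftQ f Q h) :
    SplitQ f Q fun j => (h j).map (AdjoinRoot.mk Q) := by
  haveI : Fact (Irreducible Q) := ⟨hQ⟩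
  refine ⟨hF.irr, ?_, hF.prod⟩
  intro i j hij
  refine (hF.irr i).coprime_iff_not_dvd.2 ?_
  intro hd
  apply hij
  apply hF.dist
  exact eq_of_monic_of_associated ((hF.mon i).map _) ((hF.mon j).map _)
    ((hF.irr i).associated_of_dvd (hF.irr j) hd)

theorem LiftQ.fac0 (hQ : Irreducible Q) (hF : LiftQ f Q h) : ∃ v, Fac0 f Q h v := by
  haveI : Fact (Irreducible Q) := ⟨hQ⟩
  have hS := hF.split hQ
  obtain ⟨v, hv⟩ : C Q ∣ f - ∏ j, h j := by
    apply red_ker
    rw [map_sub, map_prod]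
    show f.map (AdjoinRoot.mk Q) - ∏ j, (h j).map (AdjoinRoot.mk Q) = 0
    rw [hF.prod, sub_self]
  refine ⟨v, ?_, ?_, by rw [← hv]; ring⟩
  · intro j
    rw [← comap_red]
    haveI : (Ideal.span {red Q (h j)}).IsMaximal :=
      PrincipalIdealRing.isMaximal_of_irreducible (hF.irr j)
    exact Ideal.comap_isMaximal_of_surjective _ (red_surj Q)
  · intro i j hij
    obtain ⟨a, b, hab⟩ := hS.cop i j hij
    obtain ⟨a, rfl⟩ := red_surj Q a
    obtain ⟨b, rfl⟩ := red_surj Q b
    have hab' : red Q a * red Q (h i) + red Q b * red Q (h j) = 1 := hab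
    rw [← map_mul, ← map_mul, ← map_add, ← map_one (red Q), ← sub_eq_zero,
      ← map_sub] at hab'
    obtain ⟨w, hw⟩ := red_ker hab'
    rw [Ideal.eq_top_iff_one]
    have : (1 : k[X][X]) = a * h i + b * h j - C Q * w := by rw [← hw]; ring
    rw [this]
    exact Ideal.sub_mem _ (Ideal.add_mem _
      (Ideal.mul_mem_left _ _ (Ideal.subset_span (Or.inl rfl)))
      (Ideal.mul_mem_left _ _ (Ideal.subset_span (Or.inr (Or.inl rfl)))))
      (Ideal.mul_mem_right _ _ (Ideal.subset_span (Or.inr (Or.inr rfl))))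

end split

section critP

variable {k : Type} (K : Type) [Field k] [PerfectField k] [Field K] [Algebra k[X] K]
  [IsFractionRing k[X] K] {f : k[X][X]} {Q : k[X]} {m : ℕ} {h u : Fin m → k[X][X]}

/-- **The points.** -/
theorem critP (h2 : (2 : k) ≠ 0) (hf : GoodCurve f) (hQ : Irreducible Q) (hF : LiftQ f Q h)
    (hm : 2 ≤ m) {D : Finset (Fin m)} (hd : ∀ j ∈ D, h j ∣ f - C Q * u j ^ 2) :
    ∃ P : Fin m → Jac 2 (tF K f (qK K Q)) K,
      (∀ j ∈ D, IsCl K (idP ((tF K f (qK K Q)).map (algebraMap K K)) (tF K (h j) (qK K Q))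
        (cP K f Q (u j))) (P j)) ∧
      (∀ S ⊆ D, (∃ R : Jac 2 (tF K f (qK K Q)) K, ∑ j ∈ S, P j = 2 • R) ↔
        S = ∅ ∨ S = Finset.univ) ∧
      (m - 1 ≤ D.card → (∀ y : Jac 2 (tF K f (qK K Q)) K,
          ∃ S ⊆ D, ∃ R : Jac 2 (tF K f (qK K Q)) K, y = ∑ j ∈ S, P j + 2 • R) ∧
        Nat.card (Jac 2 (tF K f (qK K Q)) K ⧸ dbl (Jac 2 (tF K f (qK K Q)) K)) =
          2 ^ (m - 1)) := by
  haveI := hf.ded
  have hc := hf.cv
  haveI hfin : Module.Finite k[X] (AdjoinRoot f) := hf.monic.finite_adjoinRoot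
  haveI : Algebra.IsIntegral k[X] (AdjoinRoot f) := inferInstance
  let M := FractionRing (AdjoinRoot f)
  have hinj : Function.Injective (algebraMap k[X] M) := by
    rw [IsScalarTower.algebraMap_eq k[X] (AdjoinRoot f) M]
    exact (IsFractionRing.injective (AdjoinRoot f) M).comp hc.inj
  letI : Algebra K M := RingHom.toAlgebra (IsFractionRing.lift hinj)
  haveI : IsScalarTower k[X] K M := IsScalarTower.of_algebraMap_eq fun z =>
    (IsFractionRing.lift_algebraMap hinj z).symm
  have h2K : (2 : K) ≠ 0 := by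
    intro h0
    apply h2
    have h1 : Function.Injective ((algebraMap k[X] K).comp (C : k →+* k[X])) :=
      RingHom.injective _
    apply h1
    rw [map_zero, map_ofNat, h0]
  have hq := qK_ne (K := K) hQ
  have hirr : Irreducible (tF K f (qK K Q)) := hc.tF_irr M hq
  have hsep := sep_tF hq hf.monic hirr ((hF.split hQ).der hQ hf.odd.pos hf.monic)
  obtain ⟨v, hH⟩ := hF.fac0 hQ
  refine hH.pts (M := M) hc hQ hf.cls ?_ h2K hm hsep hF.mon hd
  intro v hv
  obtain ⟨c, hc'⟩ := hf.unit v v.isUnit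
  have h3 : algebraMap (AdjoinRoot f) M (v : AdjoinRoot f) =
      algebraMap K M (algebraMap k[X] K (C c)) := by
    rw [hc', ← IsScalarTower.algebraMap_apply k[X] K M,
      IsScalarTower.algebraMap_apply k[X] (AdjoinRoot f) M]
    rfl
  rw [h3] at hv ⊢
  rw [Algebra.norm_algebraMap, hc.finrank M] at hv
  exact (sq_of_odd_pow hf.odd hv).map _

end critP

end Run7.h905.BS
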