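import Mathlib

/-!
# Degree functions and quadratic extensions
-/

open Polynomial
open scoped Classical

set_option autoImplicit false
set_option linter.all false

namespace Run7.h905.BS

section wb

theorem wb_par {x y : WithBot ℕ} {n : ℕ} (hn : Odd n) (h : x + x = y + y + n) :
    x = ⊥ ∧ y = ⊥ := by
  induction x using WithBot.recBotCoe with
  | bot =>
    induction y using WithBot.recBotCoe with
    | bot => exact ⟨rfl, rfl⟩
    | coe b =>
      exfalso
      rw [Nat.cast_withBot, WithBot.bot_add, ← WithBot.coe_add, ← WithBot.coe_add] at h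
      exact WithBot.coe_ne_bot h.symm
  | coe a =>
    induction y using WithBot.recBotCoe with
    | bot =>
      exfalso
      rw [WithBot.bot_add, WithBot.bot_add, ← WithBot.coe_add] at h
      exact WithBot.coe_ne_bot h
    | coe b =>
      exfalso
      rw [Nat.cast_withBot, ← WithBot.coe_add, ← WithBot.coe_add, ← WithBot.coe_add,
        WithBot.coe_inj] at h
      have h1 : a + a = b + b + n := h
      obtain ⟨r, hr⟩ := hn
      omega

theorem wb_eq {x y : WithBot ℕ} (h : x + x = y + y) : x = y := by
  induction x using WithBot.recBotCoe with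
  | bot =>
    induction y using WithBot.recBotCoe with
    | bot => rfl
    | coe b =>
      exfalso
      have h1 : ((b + b : ℕ) : WithBot ℕ) = ⊥ := by
        push_cast
        rw [WithBot.bot_add] at h
        exact h.symm
      exact WithBot.coe_ne_bot h1
  | coe a =>
    induction y using WithBot.recBotCoe with
    | bot =>
      exfalso
      have h1 : ((a + a : ℕ) : WithBot ℕ) = ⊥ := by
        push_cast
        rw [WithBot.bot_add] at h
        exact h
      exact WithBot.coe_ne_bot h1
    | coe b =>
      have h1 : a + a = b + b := by exact_mod_cast h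
      have h2 : a = b := by omega
      rw [h2]

theorem wb_lt {a b c : WithBot ℕ} (h : a < b) (h' : c ≤ b) : a + c < b + b := by
  induction b using WithBot.recBotCoe with
  | bot => exact absurd h (not_lt_bot)
  | coe b =>
    have hb : (⊥ : WithBot ℕ) < (b : WithBot ℕ) + b := by
      have : ((b : WithBot ℕ) + b) = ((b + b : ℕ) : WithBot ℕ) := by push_cast; rfl
      rw [this]
      exact WithBot.bot_lt_coe _
    induction a using WithBot.recBotCoe with
    | bot => rw [WithBot.bot_add]; exact hb
    | coe a =>
      induction c using WithBot.recBotCoe with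
      | bot => rw [WithBot.add_bot]; exact hb
      | coe c =>
        have h1 : a < b := by exact_mod_cast h
        have h2 : c ≤ b := by exact_mod_cast h'
        have h3 : a + c < b + b := by omega
        exact_mod_cast h3

theorem wb_mono {a b : WithBot ℕ} (h : a < b) (n : ℕ) : a + a + n < b + b + n := by
  rw [Nat.cast_withBot]
  induction b using WithBot.recBotCoe with
  | bot => exact absurd h (not_lt_bot)
  | coe b =>
    induction a using WithBot.recBotCoe with
    | bot =>
      rw [WithBot.bot_add, WithBot.bot_add, ← WithBot.coe_add, ← WithBot.coe_add]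
      exact WithBot.bot_lt_coe _
    | coe a =>
      have h1 : a < b := by exact_mod_cast h
      have h3 : a + a + n < b + b + n := by omega
      exact_mod_cast h3

theorem wb_zero {x y : WithBot ℕ} (h : x + y = 0) : x = 0 ∧ y = 0 := by
  induction x using WithBot.recBotCoe with
  | bot =>
    rw [WithBot.bot_add] at h
    exact absurd h.symm WithBot.coe_ne_bot
  | coe a =>
    induction y using WithBot.recBotCoe with
    | bot =>
      rw [WithBot.add_bot] at h
      exact absurd h.symm WithBot.coe_ne_bot
    | coe b =>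
      rw [← WithBot.coe_zero, ← WithBot.coe_add, WithBot.coe_inj] at h
      have h1 : a = 0 := by omega
      have h2 : b = 0 := by omega
      rw [h1, h2]
      exact ⟨rfl, rfl⟩

theorem wb_idem {x : WithBot ℕ} (h : x = x + x) (hx : x ≠ ⊥) : x = 0 := by
  induction x using WithBot.recBotCoe with
  | bot => exact absurd rfl hx
  | coe a =>
    rw [← WithBot.coe_add, WithBot.coe_inj] at h
    have h1 : a = 0 := by omega
    rw [h1]
    rfl

theorem wb_neg {x : WithBot ℕ} (h : x < 0) : x = ⊥ := by
  induction x using WithBot.recBotCoe with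
  | bot => rfl
  | coe a =>
    rw [← WithBot.coe_zero, WithBot.coe_lt_coe] at h
    omega

theorem wb_canc {a b : WithBot ℕ} {n : ℕ} (h : a + a + n = b + b + n) : a = b := by
  rcases lt_trichotomy a b with h1 | h1 | h1
  · exact absurd h (wb_mono h1 n).ne
  · exact h1
  · exact absurd h (wb_mono h1 n).ne'

end wb

/-- A degree function with residue field `k`. -/
structure InfDeg (k : Type) {B : Type} [Field k] [CommRing B] [Algebra k B] (d : B → WithBot ℕ) :
    Prop where
  zero : ∀ a, d a = ⊥ ↔ a = 0
  mul : ∀ a b, d (a * b) = d a + d b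
  add : ∀ a b, d (a + b) ≤ max (d a) (d b)
  res : ∀ a b, a ≠ 0 → d a = d b → ∃ c : k, d (a - c • b) < d a

section deg

variable {k B : Type} [Field k] [CommRing B] [Algebra k B] {d : B → WithBot ℕ} (h : InfDeg k d)

include h

theorem InfDeg.noZero : NoZeroDivisors B := by
  refine ⟨fun {a b} hab => ?_⟩
  rw [← h.zero, h.mul, WithBot.add_eq_bot, h.zero, h.zero] at hab
  exact hab

theorem InfDeg.one [Nontrivial B] : d 1 = 0 := by
  have h1 : d 1 ≠ ⊥ := by
    rw [Ne, h.zero]
    exact one_ne_zero
  have h2 := h.mul 1 1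
  rw [mul_one] at h2
  exact wb_idem h2 h1

theorem InfDeg.neg_one [Nontrivial B] : d (-1) = 0 := by
  have h2 := h.mul (-1) (-1)
  rw [neg_mul_neg, mul_one, h.one] at h2
  exact (wb_zero h2.symm).1

theorem InfDeg.neg [Nontrivial B] (a : B) : d (-a) = d a := by
  rw [← neg_one_mul, h.mul, h.neg_one, zero_add]

theorem InfDeg.sub [Nontrivial B] (a b : B) : d (a - b) ≤ max (d a) (d b) := by
  rw [sub_eq_add_neg, ← h.neg b]
  exact h.add _ _

theorem InfDeg.add_eq [Nontrivial B] {a b : B} (hab : d a < d b) : d (a + b) = d b := by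
  apply le_antisymm
  · refine (h.add a b).trans ?_
    rw [max_eq_right hab.le]
  · have h1 := h.sub (a + b) a
    rw [add_sub_cancel_left] at h1
    rcases le_max_iff.1 h1 with h2 | h2
    · exact h2
    · exact absurd h2 (not_le.2 hab)

theorem InfDeg.const [Nontrivial B] {c : k} (hc : c ≠ 0) : d (algebraMap k B c) = 0 := by
  have h1 := h.mul (algebraMap k B c) (algebraMap k B c⁻¹)
  rw [← map_mul, mul_inv_cancel₀ hc, map_one, h.one] at h1
  exact (wb_zero h1.symm).1

theorem InfDeg.smul [Nontrivial B] {c : k} (hc : c ≠ 0) (a : B) : d (c • a) = d a := by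
  rw [Algebra.smul_def, h.mul, h.const hc, zero_add]

theorem InfDeg.smul_le [Nontrivial B] (c : k) (a : B) : d (c • a) ≤ d a := by
  by_cases hc : c = 0
  · rw [hc, zero_smul, (h.zero 0).2 rfl]
    exact bot_le
  · rw [h.smul hc]

/-- The units are constants. -/
theorem InfDeg.unit [Nontrivial B] {u : B} (hu : IsUnit u) :
    ∃ c : k, c ≠ 0 ∧ u = algebraMap k B c := by
  obtain ⟨v, hv⟩ := hu.exists_right_inv
  have h1 := h.mul u v
  rw [hv, h.one] at h1
  have h6 : d u = d 1 := by rw [(wb_zero h1.symm).1, h.one]
  obtain ⟨c, hc⟩ := h.res u 1 hu.ne_zero h6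
  rw [h6, h.one] at hc
  have h7 : d (u - c • 1) = ⊥ := wb_neg hc
  rw [h.zero, sub_eq_zero, Algebra.smul_def, mul_one] at h7
  refine ⟨c, ?_, h7⟩
  rintro rfl
  rw [map_zero] at h7
  exact hu.ne_zero h7

/-- The degree of `X ^ 2 - τ Y ^ 2`. -/
theorem InfDeg.form [Nontrivial B] {τ : B} {n : ℕ} (hn : Odd n) (hτ : d τ = n) (X Y : B) :
    d (X ^ 2 - τ * Y ^ 2) = max (d X + d X) (d Y + d Y + n) := by
  have hx : d (X ^ 2) = d X + d X := by rw [pow_two, h.mul]
  have hy : d (-(τ * Y ^ 2)) = d Y + d Y + n := by
    rw [h.neg, h.mul, hτ, pow_two, h.mul, add_comm]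
  by_cases he : d X + d X = d Y + d Y + n
  · obtain ⟨h1, h2⟩ := wb_par hn he
    rw [h.zero] at h1 h2
    rw [h1, h2, (h.zero 0).2 rfl]
    have : (0 : B) ^ 2 - τ * 0 ^ 2 = 0 := by ring
    rw [this, (h.zero 0).2 rfl]
    rfl
  · rcases lt_or_gt_of_ne he with h1 | h1
    · rw [max_eq_right h1.le, sub_eq_add_neg, h.add_eq (by rw [hx, hy]; exact h1), hy]
    · rw [max_eq_left h1.le, sub_eq_add_neg, add_comm, h.add_eq (by rw [hx, hy]; exact h1), hx]

/-- A norm which is a constant times a square. -/
theorem InfDeg.sq_const [Nontrivial B] {τ : B} {n : ℕ} (hn : Odd n) (hτ : d τ = n) {X Y b : B}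
    (hb : b ≠ 0) {c : k} (hc : c ≠ 0) (he : X ^ 2 - τ * Y ^ 2 = c • b ^ 2) : ∃ e : k, c = e ^ 2 := by
  have hb0 : d b ≠ ⊥ := by rwa [Ne, h.zero]
  have h1 := h.form hn hτ X Y
  rw [he, h.smul hc, pow_two, h.mul] at h1
  have h2 : d X = d b ∧ d Y + d Y + n < d b + d b := by
    rcases le_total (d X + d X) (d Y + d Y + n) with h3 | h3
    · rw [max_eq_right h3] at h1
      exact absurd (wb_par hn h1).1 hb0
    · rw [max_eq_left h3] at h1
      refine ⟨(wb_eq h1).symm, ?_⟩
      rcases h3.lt_or_eq with h4 | h4
      · rw [h1]; exact h4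
      · exfalso
        apply hb0
        rw [wb_eq h1]
        exact (wb_par hn h4.symm).1
  obtain ⟨h3, h4⟩ := h2
  have hX : X ≠ 0 := by
    rw [Ne, ← h.zero, h3]
    exact hb0
  obtain ⟨e, he2⟩ := h.res X b hX h3
  refine ⟨e, ?_⟩
  by_contra hne
  have h5 : (c - e ^ 2) • b ^ 2 = (X - e • b) * (X + e • b) + -(τ * Y ^ 2) := by
    rw [sub_smul, ← he]
    simp only [Algebra.smul_def, map_pow]
    ring
  have h6 : d ((c - e ^ 2) • b ^ 2) = d b + d b := by
    rw [h.smul (sub_ne_zero.2 hne), pow_two, h.mul]
  have h7 : d ((X - e • b) * (X + e • b) + -(τ * Y ^ 2)) < d b + d b := by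
    refine lt_of_le_of_lt (h.add _ _) (max_lt ?_ ?_)
    · rw [h.mul]
      rw [h3] at he2
      apply wb_lt he2
      refine (h.add _ _).trans (max_le h3.le (h.smul_le e b))
    · rw [h.neg, h.mul, hτ, pow_two, h.mul, add_comm]
      exact h4
  rw [← h5, h6] at h7
  exact lt_irrefl _ h7

end deg

/-- `B' = B ⊕ B t`, `t ^ 2 = τ`. -/
structure Quad {B B' : Type} [CommRing B] [CommRing B'] [Algebra B B'] (τ : B) (t : B') :
    Prop where
  sq : t ^ 2 = algebraMap B B' τ
  rep : ∀ z : B', ∃ X Y : B, z = algebraMap B B' X + algebraMap B B' Y * t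
  uni : ∀ X Y : B, algebraMap B B' X + algebraMap B B' Y * t = 0 → X = 0 ∧ Y = 0

section quad

variable {B B' : Type} [CommRing B] [CommRing B'] [Algebra B B'] {τ : B} {t : B'} (q : Quad τ t)

noncomputable def Quad.re (q : Quad τ t) (z : B') : B := (q.rep z).choose

noncomputable def Quad.im (q : Quad τ t) (z : B') : B := (q.rep z).choose_spec.choose

include q

theorem Quad.spec (z : B') : z = algebraMap B B' (q.re z) + algebraMap B B' (q.im z) * t :=
  (q.rep z).choose_spec.choose_spec

theorem Quad.eq {X Y : B} {z : B'} (hz : z = algebraMap B B' X + algebraMap B B' Y * t) :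
    q.re z = X ∧ q.im z = Y := by
  have h1 := q.spec z
  have h2 : algebraMap B B' (q.re z - X) + algebraMap B B' (q.im z - Y) * t = 0 := by
    rw [map_sub, map_sub]
    linear_combination hz - h1
  obtain ⟨h3, h4⟩ := q.uni _ _ h2
  exact ⟨sub_eq_zero.1 h3, sub_eq_zero.1 h4⟩

theorem Quad.inj : Function.Injective (algebraMap B B') := by
  rw [injective_iff_map_eq_zero]
  intro a ha
  exact (q.uni a 0 (by rw [ha, map_zero, zero_mul, add_zero])).1

theorem Quad.re_base (b : B) : q.re (algebraMap B B' b) = b :=
  (q.eq (Y := 0) (by rw [map_zero, zero_mul, add_zero])).1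

theorem Quad.im_base (b : B) : q.im (algebraMap B B' b) = 0 :=
  (q.eq (X := b) (by rw [map_zero, zero_mul, add_zero])).2

theorem Quad.add_re (z w : B') : q.re (z + w) = q.re z + q.re w :=
  (q.eq (Y := q.im z + q.im w) (by
    rw [map_add, map_add]
    linear_combination q.spec z + q.spec w)).1

theorem Quad.add_im (z w : B') : q.im (z + w) = q.im z + q.im w :=
  (q.eq (X := q.re z + q.re w) (by
    rw [map_add, map_add]
    linear_combination q.spec z + q.spec w)).2

theorem Quad.mul_aux (z w : B') : z * w =
    algebraMap B B' (q.re z * q.re w + τ * (q.im z * q.im w)) +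
      algebraMap B B' (q.re z * q.im w + q.im z * q.re w) * t := by
  conv_lhs => rw [q.spec z, q.spec w]
  simp only [map_add, map_mul]
  linear_combination (algebraMap B B' (q.im z) * algebraMap B B' (q.im w)) * q.sq

theorem Quad.mul_re (z w : B') :
    q.re (z * w) = q.re z * q.re w + τ * (q.im z * q.im w) := (q.eq (q.mul_aux z w)).1

theorem Quad.mul_im (z w : B') :
    q.im (z * w) = q.re z * q.im w + q.im z * q.re w := (q.eq (q.mul_aux z w)).2

/-- The norm. -/
noncomputable def Quad.nm (q : Quad τ t) (z : B') : B := q.re z ^ 2 - τ * q.im z ^ 2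

omit q in
theorem Quad.nm_mul (q : Quad τ t) (z w : B') : q.nm (z * w) = q.nm z * q.nm w := by
  unfold Quad.nm
  rw [q.mul_re, q.mul_im]
  ring

/-- The conjugate. -/
noncomputable def Quad.cj (q : Quad τ t) (z : B') : B' :=
  algebraMap B B' (q.re z) - algebraMap B B' (q.im z) * t

omit q in
theorem Quad.mul_cj (q : Quad τ t) (z : B') : z * q.cj z = algebraMap B B' (q.nm z) := by
  unfold Quad.cj Quad.nm
  simp only [map_sub, map_mul, map_pow]
  linear_combination (-(algebraMap B B' (q.im z)) ^ 2) * q.sq +
    (algebraMap B B' (q.re z) - algebraMap B B' (q.im z) * t) * q.spec z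

theorem Quad.cj_add (z w : B') : q.cj (z + w) = q.cj z + q.cj w := by
  unfold Quad.cj
  rw [q.add_re, q.add_im, map_add, map_add]
  ring

theorem Quad.cj_mul (z w : B') : q.cj (z * w) = q.cj z * q.cj w := by
  unfold Quad.cj
  rw [q.mul_re, q.mul_im]
  simp only [map_add, map_mul]
  linear_combination (-(algebraMap B B' (q.im z)) * algebraMap B B' (q.im w)) * q.sq

theorem Quad.cj_base (b : B) : q.cj (algebraMap B B' b) = algebraMap B B' b := by
  unfold Quad.cj
  rw [q.re_base, q.im_base, map_zero, zero_mul, sub_zero]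

theorem Quad.nm_base (b : B) : q.nm (algebraMap B B' b) = b ^ 2 := by
  unfold Quad.nm
  rw [q.re_base, q.im_base]
  ring

variable {k : Type} [Field k] [Algebra k B] [Algebra k B'] [IsScalarTower k B B']
  {d : B → WithBot ℕ} (h : InfDeg k d)

theorem Quad.smul_re (c : k) (z : B') : q.re (c • z) = c • q.re z := by
  rw [Algebra.smul_def, IsScalarTower.algebraMap_apply k B B', q.mul_re, q.re_base, q.im_base,
    Algebra.smul_def]
  ring

theorem Quad.smul_im (c : k) (z : B') : q.im (c • z) = c • q.im z := by
  rw [Algebra.smul_def, IsScalarTower.algebraMap_apply k B B', q.mul_im, q.re_base, q.im_base,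
    Algebra.smul_def]
  ring

include h

/-- **The degree function of the quadratic extension.** -/
theorem Quad.infDeg [Nontrivial B] {n : ℕ} (hn : Odd n) (hτ : d τ = n) :
    InfDeg k fun z : B' => d (q.nm z) := by
  have hf : ∀ z : B', d (q.nm z) = max (d (q.re z) + d (q.re z)) (d (q.im z) + d (q.im z) + n) :=
    fun z => h.form hn hτ _ _
  have hz : ∀ z : B', q.re z = 0 → q.im z = 0 → z = 0 := by
    intro z h1 h2
    rw [q.spec z, h1, h2, map_zero, zero_mul, add_zero]
  refine ⟨?_, ?_, ?_, ?_⟩
  · intro z
    show d (q.nm z) = ⊥ ↔ z = 0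
    rw [hf]
    constructor
    · intro h1
      have h2 : d (q.re z) + d (q.re z) = ⊥ := by
        rw [← le_bot_iff, ← h1]
        exact le_max_left _ _
      have h3 : d (q.im z) + d (q.im z) + n = ⊥ := by
        rw [← le_bot_iff, ← h1]
        exact le_max_right _ _
      rw [WithBot.add_eq_bot, or_self, h.zero] at h2
      rw [WithBot.add_eq_bot, WithBot.add_eq_bot, or_self, h.zero] at h3
      rcases h3 with h3 | h3
      · exact hz z h2 h3
      · exact absurd h3 WithBot.coe_ne_bot
    · rintro rfl
      have h1 := q.re_base 0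
      have h2 := q.im_base 0
      rw [map_zero] at h1 h2
      rw [h1, h2, (h.zero 0).2 rfl]
      rfl
  · intro z w
    show d (q.nm (z * w)) = d (q.nm z) + d (q.nm w)
    rw [q.nm_mul, h.mul]
  · intro z w
    show d (q.nm (z + w)) ≤ max (d (q.nm z)) (d (q.nm w))
    rw [hf, hf, hf, q.add_re, q.add_im]
    refine max_le ?_ ?_
    · rcases le_total (d (q.re z)) (d (q.re w)) with h1 | h1
      · have h2 := (h.add (q.re z) (q.re w)).trans (max_le h1 le_rfl)
        exact (add_le_add h2 h2).trans ((le_max_left _ _).trans (le_max_right _ _))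
      · have h2 := (h.add (q.re z) (q.re w)).trans (max_le le_rfl h1)
        exact (add_le_add h2 h2).trans ((le_max_left _ _).trans (le_max_left _ _))
    · rcases le_total (d (q.im z)) (d (q.im w)) with h1 | h1
      · have h2 := (h.add (q.im z) (q.im w)).trans (max_le h1 le_rfl)
        exact (add_le_add (add_le_add h2 h2) le_rfl).trans
          ((le_max_right _ _).trans (le_max_right _ _))
      · have h2 := (h.add (q.im z) (q.im w)).trans (max_le le_rfl h1)
        exact (add_le_add (add_le_add h2 h2) le_rfl).trans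
          ((le_max_right _ _).trans (le_max_left _ _))
  · intro z w hz0 hzw
    have hzw' : d (q.nm z) = d (q.nm w) := hzw
    show ∃ c : k, d (q.nm (z - c • w)) < d (q.nm z)
    have hsub : ∀ c : k, z - c • w = z + (-c) • w := by
      intro c
      rw [neg_smul]
      ring
    have hre : ∀ c : k, q.re (z - c • w) = q.re z - c • q.re w := by
      intro c
      rw [hsub, q.add_re, q.smul_re, neg_smul]
      ring
    have him : ∀ c : k, q.im (z - c • w) = q.im z - c • q.im w := by
      intro c
      rw [hsub, q.add_im, q.smul_im, neg_smul]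
      ring
    rcases lt_trichotomy (d (q.re z) + d (q.re z)) (d (q.im z) + d (q.im z) + n) with h1 | h1 | h1
    · -- odd
      have hmz : d (q.nm z) = d (q.im z) + d (q.im z) + n := by rw [hf, max_eq_right h1.le]
      have him0 : q.im z ≠ 0 := by
        intro h0
        rw [h0, (h.zero 0).2 rfl, WithBot.bot_add, WithBot.bot_add] at h1
        exact absurd h1 not_lt_bot
      have hw : d (q.im w) = d (q.im z) ∧
          d (q.re w) + d (q.re w) < d (q.im z) + d (q.im z) + n := by
        rw [hmz, hf w] at hzw'
        rcases le_total (d (q.re w) + d (q.re w)) (d (q.im w) + d (q.im w) + n) with h3 | h3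
        · rw [max_eq_right h3] at hzw'
          have h4 := wb_canc hzw'
          refine ⟨h4.symm, ?_⟩
          rw [hzw']
          rcases h3.lt_or_eq with h5 | h5
          · exact h5
          · exfalso
            have := (wb_par hn h5).2
            rw [← h4, h.zero] at this
            exact him0 this
        · rw [max_eq_left h3] at hzw'
          have := (wb_par hn hzw'.symm).2
          rw [h.zero] at this
          exact absurd this him0
      obtain ⟨c, hc⟩ := h.res (q.im z) (q.im w) him0 hw.1.symm
      refine ⟨c, ?_⟩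
      rw [hmz, hf, hre, him]
      refine max_lt ?_ (wb_mono hc n)
      have h5 : d (q.re z - c • q.re w) ≤ max (d (q.re z)) (d (q.re w)) :=
        (h.sub _ _).trans (max_le_max le_rfl (h.smul_le c _))
      rcases le_total (d (q.re z)) (d (q.re w)) with h6 | h6
      · rw [max_eq_right h6] at h5
        exact lt_of_le_of_lt (add_le_add h5 h5) hw.2
      · rw [max_eq_left h6] at h5
        exact lt_of_le_of_lt (add_le_add h5 h5) h1
    · exfalso
      obtain ⟨h2, h3⟩ := wb_par hn h1
      rw [h.zero] at h2 h3
      exact hz0 (hz z h2 h3)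
    · -- even
      have hmz : d (q.nm z) = d (q.re z) + d (q.re z) := by rw [hf, max_eq_left h1.le]
      have hre0 : q.re z ≠ 0 := by
        intro h0
        rw [h0, (h.zero 0).2 rfl, WithBot.bot_add] at h1
        exact absurd h1 not_lt_bot
      have hw : d (q.re w) = d (q.re z) ∧
          d (q.im w) + d (q.im w) + n < d (q.re z) + d (q.re z) := by
        rw [hmz, hf w] at hzw'
        rcases le_total (d (q.re w) + d (q.re w)) (d (q.im w) + d (q.im w) + n) with h3 | h3
        · rw [max_eq_right h3] at hzw'
          have := (wb_par hn hzw').1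
          rw [h.zero] at this
          exact absurd this hre0
        · rw [max_eq_left h3] at hzw'
          have h4 := wb_eq hzw'
          refine ⟨h4.symm, ?_⟩
          rw [hzw']
          rcases h3.lt_or_eq with h5 | h5
          · exact h5
          · exfalso
            have := (wb_par hn h5.symm).1
            rw [← h4, h.zero] at this
            exact hre0 this
      obtain ⟨c, hc⟩ := h.res (q.re z) (q.re w) hre0 hw.1.symm
      refine ⟨c, ?_⟩
      rw [hmz, hf, hre, him]
      refine max_lt (wb_lt hc hc.le) ?_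
      have h5 : d (q.im z - c • q.im w) ≤ max (d (q.im z)) (d (q.im w)) :=
        (h.sub _ _).trans (max_le_max le_rfl (h.smul_le c _))
      rcases le_total (d (q.im z)) (d (q.im w)) with h6 | h6
      · rw [max_eq_right h6] at h5
        exact lt_of_le_of_lt (add_le_add (add_le_add h5 h5) le_rfl) hw.2
      · rw [max_eq_left h6] at h5
        exact lt_of_le_of_lt (add_le_add (add_le_add h5 h5) le_rfl) h1

end quad

end Run7.h905.BS
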