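import Pool.Agent.Run7.h905.BS.Qa

/-!
# Quadratic extensions of Dedekind domains: the ring is a Dedekind domain, the norm
-/

open Polynomial IsDedekindDomain
open scoped Classical

set_option autoImplicit false
set_option linter.all false

namespace Run7.h905.BS

/-- An integral element with a denominator. -/
theorem int_div {B L : Type} [CommRing B] [IsDomain B] [IsIntegrallyClosed B] [Field L]
    [Algebra B L] (hinj : Function.Injective (algebraMap B L)) {z : L} (hz : IsIntegral B z)
    {n a : B} (hn : n ≠ 0) (h : algebraMap B L n * z = algebraMap B L a) : n ∣ a := by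
  haveI : FaithfulSMul B L := (faithfulSMul_iff_algebraMap_injective B L).2 hinj
  letI := FractionRing.liftAlgebra B L
  haveI := FractionRing.isScalarTower_liftAlgebra B L
  have hn' : algebraMap B (FractionRing B) n ≠ 0 := by simpa using hn
  have hnL : algebraMap B L n ≠ 0 := by
    rw [Ne, ← map_zero (algebraMap B L)]
    exact fun h0 => hn (hinj h0)
  have h1 : algebraMap (FractionRing B) L (algebraMap B (FractionRing B) a /
      algebraMap B (FractionRing B) n) = z := by
    rw [map_div₀, ← IsScalarTower.algebraMap_apply, ← IsScalarTower.algebraMap_apply, ← h]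
    field_simp
  have h2 : IsIntegral B (algebraMap B (FractionRing B) a / algebraMap B (FractionRing B) n) := by
    rw [← h1] at hz
    exact (isIntegral_algebraMap_iff (algebraMap (FractionRing B) L).injective).1 hz
  obtain ⟨b, hb⟩ := IsIntegrallyClosed.isIntegral_iff.1 h2
  refine ⟨b, ?_⟩
  apply IsFractionRing.injective B (FractionRing B)
  rw [map_mul, hb]
  field_simp

section ded

variable {B B' : Type} [CommRing B] [IsDedekindDomain B] [CommRing B'] [IsDomain B']
  [Algebra B B'] {τ : B} {t : B'} (q : Quad τ t)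

/-- The basis `1`, `t`. -/
noncomputable def Quad.basis (q : Quad τ t) : Module.Basis (Fin 2) B B' :=
  Module.Basis.ofEquivFun
    { toFun := fun z => ![q.re z, q.im z]
      map_add' := fun z w => by
        rw [q.add_re, q.add_im]
        simp
      map_smul' := fun b z => by
        rw [Algebra.smul_def, q.mul_re, q.mul_im, q.re_base, q.im_base]
        simp
      invFun := fun v => algebraMap B B' (v 0) + algebraMap B B' (v 1) * t
      left_inv := fun z => (q.spec z).symm
      right_inv := fun v => by
        obtain ⟨h1, h2⟩ := q.eq (rfl : algebraMap B B' (v 0) + algebraMap B B' (v 1) * t = _)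
        funext i
        fin_cases i
        · exact h1
        · exact h2 }

theorem Quad.repr (q : Quad τ t) (z : B') (i : Fin 2) :
    q.basis.repr z i = ![q.re z, q.im z] i := by
  unfold Quad.basis
  rfl

theorem Quad.basis0 (q : Quad τ t) : q.basis 0 = 1 := by
  apply q.basis.repr.injective
  ext i
  rw [q.basis.repr_self, q.repr]
  have h1 := q.re_base 1
  have h2 := q.im_base 1
  rw [map_one] at h1 h2
  rw [h1, h2]
  fin_cases i <;> simp

theorem Quad.re_t (q : Quad τ t) : q.re t = 0 ∧ q.im t = 1 :=
  q.eq (by rw [map_zero, map_one, zero_add, one_mul])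

theorem Quad.basis1 (q : Quad τ t) : q.basis 1 = t := by
  apply q.basis.repr.injective
  ext i
  rw [q.basis.repr_self, q.repr, q.re_t.1, q.re_t.2]
  fin_cases i <;> simp

theorem Quad.finite (q : Quad τ t) : Module.Finite B B' := Module.Finite.of_basis q.basis

theorem Quad.free (q : Quad τ t) : Module.Free B B' := Module.Free.of_basis q.basis

theorem Quad.norm (q : Quad τ t) (z : B') : Algebra.norm B z = q.nm z := by
  rw [Algebra.norm_eq_matrix_det q.basis, Matrix.det_fin_two,
    Algebra.leftMulMatrix_eq_repr_mul, Algebra.leftMulMatrix_eq_repr_mul,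
    Algebra.leftMulMatrix_eq_repr_mul, Algebra.leftMulMatrix_eq_repr_mul, q.basis0, q.basis1,
    mul_one, q.repr, q.repr, q.repr, q.repr, q.mul_re, q.mul_im, q.re_t.1, q.re_t.2]
  unfold Quad.nm
  simp only [Matrix.cons_val_zero, Matrix.cons_val_one]
  ring

theorem Quad.cj_cj (q : Quad τ t) (z : B') : q.cj (q.cj z) = z := by
  have h1 : q.cj z = algebraMap B B' (q.re z) + algebraMap B B' (-q.im z) * t := by
    unfold Quad.cj
    rw [map_neg]
    ring
  obtain ⟨h2, h3⟩ := q.eq h1
  have h4 : q.cj (q.cj z) = algebraMap B B' (q.re (q.cj z)) - algebraMap B B' (q.im (q.cj z)) * t :=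
    rfl
  rw [h4, h2, h3, map_neg]
  conv_rhs => rw [q.spec z]
  ring

/-- The conjugation. -/
noncomputable def Quad.cjE (q : Quad τ t) : B' ≃+* B' where
  toFun := q.cj
  invFun := q.cj
  left_inv := q.cj_cj
  right_inv := q.cj_cj
  map_mul' := q.cj_mul
  map_add' := q.cj_add

theorem Quad.nm_ne (q : Quad τ t) {z : B'} (hz : z ≠ 0) : q.nm z ≠ 0 := by
  intro h0
  have h1 := q.mul_cj z
  rw [h0, map_zero] at h1
  rcases mul_eq_zero.1 h1 with h2 | h2
  · exact hz h2
  · apply hz
    rw [← q.cj_cj z, h2]
    exact map_zero q.cjE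

/-- **The quadratic extension is a Dedekind domain.** -/
theorem Quad.dedekind (q : Quad τ t) (h2 : IsUnit (2 : B)) (hτ : Prime τ) :
    IsDedekindDomain B' := by
  haveI := q.finite
  haveI := q.free
  haveI : Algebra.IsIntegral B B' := inferInstance
  rw [isDedekindDomain_iff B' (FractionRing B')]
  refine ⟨inferInstance, IsNoetherianRing.of_finite B B', Ring.DimensionLEOne.of_isIntegral B B',
    ?_⟩
  intro x hx
  have hinj : Function.Injective (algebraMap B (FractionRing B')) := by
    rw [IsScalarTower.algebraMap_eq B B' (FractionRing B')]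
    exact (IsFractionRing.injective B' (FractionRing B')).comp q.inj
  have hxB : IsIntegral B x := isIntegral_trans x hx
  obtain ⟨u, v, hv, rfl⟩ := IsFractionRing.div_surjective (A := B') x
  have hv0 : v ≠ 0 := nonZeroDivisors.ne_zero hv
  have hvL : algebraMap B' (FractionRing B') v ≠ 0 := by simpa using hv0
  set x := algebraMap B' (FractionRing B') u / algebraMap B' (FractionRing B') v with hxd
  set n := q.nm v with hn
  have hn0 : n ≠ 0 := q.nm_ne hv0
  set w := u * q.cj v with hw
  have hwx : algebraMap B (FractionRing B') n * x = algebraMap B' (FractionRing B') w := by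
    rw [IsScalarTower.algebraMap_apply B B' (FractionRing B'), hn, ← q.mul_cj, hxd, hw, map_mul,
      map_mul]
    field_simp
  let σ : FractionRing B' ≃+* FractionRing B' := IsFractionRing.ringEquivOfRingEquiv q.cjE
  have hσ : ∀ z : B', σ (algebraMap B' (FractionRing B') z) =
      algebraMap B' (FractionRing B') (q.cj z) := fun z =>
    IsFractionRing.ringEquivOfRingEquiv_algebraMap q.cjE z
  have hσB : ∀ b : B, σ (algebraMap B (FractionRing B') b) = algebraMap B (FractionRing B') b := by
    intro b
    rw [IsScalarTower.algebraMap_apply B B' (FractionRing B'), hσ, q.cj_base]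
  have hxc : IsIntegral B (σ x) := by
    refine hxB.map_of_comp_eq (RingHom.id B) (σ : FractionRing B' →+* FractionRing B') ?_
    ext b
    exact (hσB b).symm
  have hwc : algebraMap B (FractionRing B') n * σ x =
      algebraMap B' (FractionRing B') (q.cj w) := by
    rw [← hσ, ← hwx, map_mul, hσB]
  -- the trace
  have htr : w + q.cj w = algebraMap B B' (2 * q.re w) := by
    unfold Quad.cj
    rw [map_mul, map_ofNat]
    linear_combination q.spec w
  have h3 : n ∣ 2 * q.re w := by
    apply int_div hinj (hxB.add hxc) hn0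
    rw [mul_add, hwx, hwc, ← map_add, htr, ← IsScalarTower.algebraMap_apply]
  have h4 : n ^ 2 ∣ q.nm w := by
    apply int_div hinj (hxB.mul hxc) (pow_ne_zero 2 hn0)
    rw [map_pow]
    have : algebraMap B (FractionRing B') n ^ 2 * (x * σ x) =
        (algebraMap B (FractionRing B') n * x) * (algebraMap B (FractionRing B') n * σ x) := by
      ring
    rw [this, hwx, hwc, ← map_mul, q.mul_cj, ← IsScalarTower.algebraMap_apply]
  have h5 : n ∣ q.re w := (h2.dvd_mul_left).1 h3
  have h6 : n ^ 2 ∣ τ * q.im w ^ 2 := by
    have : τ * q.im w ^ 2 = q.re w ^ 2 - q.nm w := by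
      unfold Quad.nm
      ring
    rw [this]
    exact dvd_sub (pow_dvd_pow_of_dvd h5 2) h4
  have h7 : n ∣ τ * q.im w := by
    rw [← IsIntegrallyClosed.pow_dvd_pow_iff (n := 2) two_ne_zero]
    have : (τ * q.im w) ^ 2 = (τ * q.im w ^ 2) * τ := by ring
    rw [this]
    exact h6.mul_right _
  obtain ⟨e, he⟩ := h7
  obtain ⟨c, hc⟩ := h6
  have h8 : e ^ 2 = τ * c := by
    have h9 : n ^ 2 * e ^ 2 = n ^ 2 * (τ * c) := by
      have : n ^ 2 * e ^ 2 = (τ * q.im w) ^ 2 := by rw [he]; ring
      rw [this]
      have : n ^ 2 * (τ * c) = τ * (τ * q.im w ^ 2) := by rw [hc]; ring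
      rw [this]
      ring
    exact mul_left_cancel₀ (pow_ne_zero 2 hn0) h9
  obtain ⟨e', he'⟩ : τ ∣ e := hτ.dvd_of_dvd_pow (Dvd.intro _ h8.symm)
  obtain ⟨X, hX⟩ := h5
  have hY : q.im w = n * e' := by
    apply mul_left_cancel₀ hτ.ne_zero
    rw [he, he']
    ring
  refine ⟨algebraMap B B' X + algebraMap B B' e' * t, ?_⟩
  have hnL : algebraMap B (FractionRing B') n ≠ 0 := by
    rw [Ne, ← map_zero (algebraMap B (FractionRing B'))]
    exact fun h0 => hn0 (hinj h0)
  apply mul_left_cancel₀ hnL
  rw [hwx, q.spec w, hX, hY, IsScalarTower.algebraMap_apply B B' (FractionRing B'), ← map_mul]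
  congr 1
  rw [map_mul, map_mul]
  ring

end ded

end Run7.h905.BS
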