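import Pool.Agent.Run7.h905.BS.Qb
import Pool.Agent.Run7.h905.BS.Glob

/-!
# Quadratic extensions of Dedekind domains: no ideal class of order two
-/

open Polynomial IsDedekindDomain WithZero
open scoped Classical

set_option autoImplicit false
set_option linter.all false
set_option maxHeartbeats 400000

namespace Run7.h905.BS

open Pool.Agent.W309.TD (NoTwo even_rep isSquare_coe sq_of_nonsq exists_sqrt_ideal)

theorem sq_val_of_sq {R : Type} [CommRing R] [IsDedekindDomain R] {I : Ideal R} {a : R}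
    (ha : a ≠ 0) (hI : I ^ 2 = Ideal.span {a}) (v : HeightOneSpectrum R) :
    IsSquare (v.intValuation a) := by
  have hI0 : I ≠ 0 := by
    rintro rfl
    rw [zero_pow two_ne_zero] at hI
    apply ha
    rw [← Ideal.span_singleton_eq_bot]
    exact hI.symm
  rw [v.intValuation_if_neg ha, ← hI, Associates.mk_pow,
    Associates.count_pow (by rwa [Ne, Associates.mk_eq_zero]) v.associates_irreducible]
  have h2 : IsSquare (((Multiplicative.ofAdd (-(((2 * (Associates.mk v.asIdeal).count
      (Associates.mk I).factors : ℕ)) : ℤ)) : Multiplicative ℤ)) :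
        WithZero (Multiplicative ℤ)) := by
    rw [isSquare_coe, toAdd_ofAdd, even_neg]
    push_cast
    exact even_two_mul _
  exact h2

section notwo

variable {B B' : Type} [CommRing B] [IsDedekindDomain B] [CommRing B'] [IsDedekindDomain B']
  [Algebra B B'] {τ : B} {t : B'} (q : Quad τ t)

/-- The ideals generated by primes away from `τ` are radical. -/
theorem Quad.map_mem (q : Quad τ t) (p : Ideal B) {z : B'}
    (hz : z ∈ p.map (algebraMap B B')) : q.re z ∈ p ∧ q.im z ∈ p := by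
  let I : Ideal B' :=
    { carrier := {z | q.re z ∈ p ∧ q.im z ∈ p}
      add_mem' := by
        rintro a b ⟨h1, h2⟩ ⟨h3, h4⟩
        refine ⟨?_, ?_⟩
        · rw [q.add_re]; exact add_mem h1 h3
        · rw [q.add_im]; exact add_mem h2 h4
      zero_mem' := by
        have h1 := q.re_base 0
        have h2 := q.im_base 0
        rw [map_zero] at h1 h2
        refine ⟨?_, ?_⟩
        · rw [h1]; exact zero_mem _
        · rw [h2]; exact zero_mem _
      smul_mem' := by
        rintro c a ⟨h1, h2⟩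
        rw [smul_eq_mul]
        refine ⟨?_, ?_⟩
        · rw [q.mul_re]
          exact add_mem (p.mul_mem_left _ h1) (p.mul_mem_left _ (p.mul_mem_left _ h2))
        · rw [q.mul_im]
          exact add_mem (p.mul_mem_left _ h2) (p.mul_mem_left _ h1) }
  have h1 : p.map (algebraMap B B') ≤ I := by
    rw [Ideal.map_le_iff_le_comap]
    intro b hb
    refine ⟨?_, ?_⟩
    · rw [q.re_base]; exact hb
    · rw [q.im_base]; exact zero_mem _
  exact h1 hz

theorem Quad.mem_map (q : Quad τ t) (p : Ideal B) {z : B'} (h1 : q.re z ∈ p) (h2 : q.im z ∈ p) :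
    z ∈ p.map (algebraMap B B') := by
  rw [q.spec z]
  exact add_mem (Ideal.mem_map_of_mem _ h1) (Ideal.mul_mem_right _ _ (Ideal.mem_map_of_mem _ h2))

theorem Quad.radical (q : Quad τ t) (h2 : IsUnit (2 : B)) (v : HeightOneSpectrum B)
    (hv : τ ∉ v.asIdeal) {z : B'} (hz : z ^ 2 ∈ v.asIdeal.map (algebraMap B B')) :
    z ∈ v.asIdeal.map (algebraMap B B') := by
  obtain ⟨h3, h4⟩ := q.map_mem _ hz
  rw [pow_two, q.mul_re] at h3
  rw [pow_two, q.mul_im] at h4
  haveI := v.isPrime
  have h5 : q.re z * q.im z ∈ v.asIdeal := by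
    have : q.re z * q.im z + q.im z * q.re z = 2 * (q.re z * q.im z) := by ring
    rw [this] at h4
    exact (v.asIdeal.unit_mul_mem_iff_mem h2).1 h4
  rcases v.isPrime.mem_or_mem h5 with h6 | h6
  · have h7 : τ * (q.im z * q.im z) ∈ v.asIdeal := by
      have := sub_mem h3 (v.asIdeal.mul_mem_left (q.re z) h6)
      rwa [add_sub_cancel_left] at this
    have h8 := (v.isPrime.mem_or_mem h7).resolve_left hv
    exact q.mem_map _ h6 ((v.isPrime.mem_or_mem h8).elim id id)
  · have h7 : q.re z * q.re z ∈ v.asIdeal := by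
      have := sub_mem h3 (v.asIdeal.mul_mem_left τ (v.asIdeal.mul_mem_left (q.im z) h6))
      rwa [add_sub_cancel_right] at this
    exact q.mem_map _ ((v.isPrime.mem_or_mem h7).elim id id) h6

/-- Primes away from `τ` are unramified. -/
theorem Quad.ram (q : Quad τ t) (h2 : IsUnit (2 : B)) (v : HeightOneSpectrum B)
    (hv : τ ∉ v.asIdeal) (w : HeightOneSpectrum B') [w.asIdeal.LiesOver v.asIdeal] :
    v.asIdeal.ramificationIdx' w.asIdeal = 1 := by
  have hle : v.asIdeal.map (algebraMap B B') ≤ w.asIdeal :=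
    Ideal.map_le_iff_le_comap.2 (Ideal.over_def w.asIdeal v.asIdeal).le
  by_contra hne
  rw [← Ne, Ideal.ramificationIdx'_ne_one_iff hle] at hne
  obtain ⟨R, hR⟩ := Ideal.dvd_iff_le.2 hne
  have hbot : v.asIdeal.map (algebraMap B B') ≠ ⊥ := by
    rw [Ne, Ideal.map_eq_bot_iff_of_injective q.inj]
    exact v.ne_bot
  have h3 : w.asIdeal * R ≤ v.asIdeal.map (algebraMap B B') := by
    intro z hz
    apply q.radical h2 v hv
    have h4 : z ^ 2 ∈ (w.asIdeal * R) ^ 2 := Ideal.pow_mem_pow hz 2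
    have h5 : (w.asIdeal * R) ^ 2 ≤ v.asIdeal.map (algebraMap B B') := by
      rw [mul_pow, pow_two R, ← mul_assoc, ← hR]
      exact Ideal.mul_le_left
    exact h5 h4
  have h4 : w.asIdeal ^ 2 * R ∣ w.asIdeal * R := by
    rw [← hR]
    exact Ideal.dvd_iff_le.2 h3
  have hR0 : R ≠ 0 := by
    rintro rfl
    rw [mul_zero] at hR
    exact hbot hR
  have h5 : w.asIdeal ^ 2 ∣ w.asIdeal := (mul_dvd_mul_iff_right hR0).1 h4
  have h6 : w.asIdeal * w.asIdeal ∣ w.asIdeal * 1 := by
    rw [mul_one, ← pow_two]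
    exact h5
  have h7 : w.asIdeal ∣ 1 := (mul_dvd_mul_iff_left w.ne_bot).1 h6
  rw [← isUnit_iff_dvd_one, Ideal.isUnit_iff] at h7
  exact w.isPrime.ne_top h7

variable {k : Type} [Field k] [Algebra k B] {d : B → WithBot ℕ}

/-- **No ideal class of order two.** -/
theorem Quad.noTwo (q : Quad τ t) (h2 : IsUnit (2 : B)) (hτ : Prime τ) (hcl : NoTwo B)
    (h : InfDeg k d) {n : ℕ} (hn : Odd n) (hd : d τ = n) : NoTwo B' := by
  intro I hI
  haveI := q.finite
  haveI := q.free
  haveI : Algebra.IsIntegral B B' := inferInstance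
  haveI : FaithfulSMul B B' := (faithfulSMul_iff_algebraMap_injective B B').2 q.inj
  haveI : Module.IsTorsionFree B B' := inferInstance
  by_cases hI0 : I = ⊥
  · rw [hI0]
    exact bot_isPrincipal
  obtain ⟨α, hα⟩ : ∃ α, I ^ 2 = Ideal.span {α} := ⟨_, hI.principal.choose_spec⟩
  have hα0 : α ≠ 0 := by
    rintro rfl
    rw [Set.singleton_zero, Ideal.span_zero] at hα
    exact hI0 (pow_eq_zero_iff two_ne_zero |>.1 hα)
  have ht0 : t ≠ 0 := by
    rintro rfl
    have h1 := q.sq
    rw [zero_pow two_ne_zero] at h1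
    exact hτ.ne_zero (q.inj (h1.symm.trans (map_zero _).symm))
  -- the norm
  have hN : (Ideal.relNorm B I) ^ 2 = Ideal.span {q.nm α} := by
    rw [← map_pow, hα, Ideal.relNorm_singleton, Algebra.intNorm_eq_norm, q.norm]
  obtain ⟨b, hb⟩ : ∃ b, Ideal.relNorm B I = Ideal.span {b} :=
    ⟨_, (hcl _ (by rw [hN]; exact ⟨⟨_, rfl⟩⟩)).principal.choose_spec⟩
  rw [hb, Ideal.span_singleton_pow, Ideal.span_singleton_eq_span_singleton] at hN
  obtain ⟨u, hu⟩ := hN
  obtain ⟨c, hc, huc⟩ := h.unit u.isUnit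
  have hb0 : b ≠ 0 := by
    rintro rfl
    apply q.nm_ne hα0
    rw [← hu]
    ring
  have he : q.re α ^ 2 - τ * q.im α ^ 2 = c • b ^ 2 := by
    have h3 : (u : B) * b ^ 2 = q.nm α := by rw [← hu]; ring
    rw [Algebra.smul_def, ← huc, h3]
    rfl
  obtain ⟨e, rfl⟩ := h.sq_const hn hd hb0 hc he
  have he0 : e ≠ 0 := by
    rintro rfl
    exact hc (zero_pow two_ne_zero)
  obtain ⟨b1, hb1⟩ : ∃ b1, b1 = algebraMap k B e * b := ⟨_, rfl⟩
  have hb10 : b1 ≠ 0 := by
    rw [hb1]
    refine mul_ne_zero ?_ hb0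
    rw [Ne, ← map_zero (algebraMap k B)]
    exact fun h0 => he0 ((algebraMap k B).injective h0)
  have hnm : q.nm α = b1 ^ 2 := by
    have : q.nm α = q.re α ^ 2 - τ * q.im α ^ 2 := rfl
    rw [this, he, Algebra.smul_def, map_pow, hb1]
    ring
  -- Hilbert 90
  obtain ⟨n0, e1, δ, hn0, he1, hδ, hkey⟩ : ∃ (n0 e1 : B) (δ : B'), n0 ≠ 0 ∧ e1 ≠ 0 ∧ δ ≠ 0 ∧
      algebraMap B B' n0 ^ 2 * α = algebraMap B B' e1 * δ ^ 2 := by
    by_cases h0 : algebraMap B B' b1 + α = 0
    · refine ⟨1, -b1, 1, one_ne_zero, neg_ne_zero.2 hb10, one_ne_zero, ?_⟩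
      rw [map_one, map_neg]
      linear_combination h0
    · refine ⟨q.nm (algebraMap B B' b1 + α), q.nm (algebraMap B B' b1 + α) * b1,
        algebraMap B B' b1 + α, q.nm_ne h0, mul_ne_zero (q.nm_ne h0) hb10, h0, ?_⟩
      rw [map_mul, ← q.mul_cj, q.cj_add, q.cj_base]
      have h3 := q.mul_cj α
      rw [hnm, map_pow] at h3
      linear_combination ((algebraMap B B' b1 + α) ^ 2 * (algebraMap B B' b1 + q.cj α)) * h3
  -- the parity away from `τ`
  have hpar : ∀ v : HeightOneSpectrum B, τ ∉ v.asIdeal → IsSquare (v.intValuation e1) := by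
    intro v hv
    haveI := v.isPrime.isMaximal v.ne_bot
    obtain ⟨W, hW, hWv⟩ := Ideal.exists_maximal_ideal_liesOver_of_isIntegral (S := B') v.asIdeal
    have hWb : W ≠ ⊥ := by
      rintro rfl
      apply v.ne_bot
      rw [Ideal.over_def (⊥ : Ideal B') v.asIdeal, Ideal.under_bot]
    let w : HeightOneSpectrum B' := ⟨W, hW.isPrime, hWb⟩
    haveI : w.asIdeal.LiesOver v.asIdeal := hWv
    have h3 := v.intValuation_liesOver w e1
    rw [q.ram h2 v hv w, pow_one] at h3
    rw [h3]
    have h4 := congrArg w.intValuation hkey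
    rw [map_mul, map_mul, map_pow, map_pow] at h4
    have h5 : IsSquare (w.intValuation δ ^ 2 * w.intValuation (algebraMap B B' e1)) := by
      rw [mul_comm, ← h4]
      exact (IsSquare.sq _).mul (sq_val_of_sq hα0 hα w)
    exact (sq_cancel (IsSquare.sq _) (pow_ne_zero _ (w.intValuation_ne_zero _ hδ))).1 h5
  -- the last step
  have last : ∀ (g : B') (c u1 : B), g ≠ 0 → IsUnit u1 →
      algebraMap B B' (c ^ 2 * u1) = g ^ 2 * algebraMap B B' e1 → I.IsPrincipal := by
    intro g c u1 hg hu1 hgc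
    have hA0 : algebraMap B B' n0 * g ≠ 0 := by
      refine mul_ne_zero ?_ hg
      rw [Ne, ← map_zero (algebraMap B B')]
      exact fun h0 => hn0 (q.inj h0)
    have h3 : (Ideal.span {algebraMap B B' n0 * g} * I) ^ 2 =
        (Ideal.span {algebraMap B B' c * δ}) ^ 2 := by
      rw [mul_pow, hα, Ideal.span_singleton_pow, Ideal.span_singleton_pow,
        Ideal.span_singleton_mul_span_singleton, Ideal.span_singleton_eq_span_singleton]
      have h4 : (algebraMap B B' n0 * g) ^ 2 * α =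
          (algebraMap B B' c * δ) ^ 2 * algebraMap B B' u1 := by
        rw [map_mul, map_pow] at hgc
        linear_combination g ^ 2 * hkey - δ ^ 2 * hgc
      rw [h4]
      obtain ⟨u2, rfl⟩ := hu1
      exact ⟨(Units.map (algebraMap B B').toMonoidHom u2)⁻¹, by
        show (algebraMap B B' c * δ) ^ 2 * algebraMap B B' u2 *
          ((Units.map (algebraMap B B').toMonoidHom u2)⁻¹ : B'ˣ) = _
        have : algebraMap B B' (u2 : B) = ((Units.map (algebraMap B B').toMonoidHom u2 : B'ˣ) : B') :=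
          rfl
        rw [this, Units.mul_inv_cancel_right]⟩
    have h5 : Ideal.span {algebraMap B B' n0 * g} * I = Ideal.span {algebraMap B B' c * δ} :=
      (IsMulTorsionFree.pow_left_injective (M := Ideal B') two_ne_zero) h3
    have h6 : algebraMap B B' c * δ ∈ Ideal.span {algebraMap B B' n0 * g} := by
      have h7 : algebraMap B B' c * δ ∈ Ideal.span {algebraMap B B' n0 * g} * I := by
        rw [h5]
        exact Ideal.mem_span_singleton_self _
      exact Ideal.mul_le_left h7
    obtain ⟨ρ, hρ⟩ := Ideal.mem_span_singleton.1 h6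
    have h5' : Ideal.span {algebraMap B B' n0 * g} * I =
        Ideal.span {algebraMap B B' n0 * g} * Ideal.span {ρ} := by
      rw [h5, hρ]
      exact (Ideal.span_singleton_mul_span_singleton _ _).symm
    have h8 : I = Ideal.span {ρ} := by
      have h9 : (Ideal.span {algebraMap B B' n0 * g} : Ideal B') ≠ 0 := by
        rw [Ideal.zero_eq_bot, Ne, Ideal.span_singleton_eq_bot]
        exact hA0
      exact mul_left_cancel₀ h9 h5'
    rw [h8]
    exact ⟨⟨_, rfl⟩⟩
  let vτ : HeightOneSpectrum B := ⟨Ideal.span {τ}, (Ideal.span_singleton_prime hτ.ne_zero).2 hτ, by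
    rw [Ne, Ideal.span_singleton_eq_bot]
    exact hτ.ne_zero⟩
  have hoff : ∀ v : HeightOneSpectrum B, τ ∈ v.asIdeal → v = vτ := by
    intro v hv
    haveI := vτ.isPrime.isMaximal vτ.ne_bot
    apply HeightOneSpectrum.ext
    have h3 : Ideal.span {τ} ≤ v.asIdeal := (Ideal.span_singleton_le_iff_mem _).2 hv
    exact (this.eq_of_le v.isPrime.ne_top h3).symm
  by_cases hsq : IsSquare (vτ.intValuation e1)
  · obtain ⟨J, hJ⟩ := exists_sqrt_ideal he1 (by
      intro v
      by_cases hv : τ ∈ v.asIdeal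
      · rw [hoff v hv]; exact hsq
      · exact hpar v hv)
    obtain ⟨c, hc⟩ : ∃ c, J = Ideal.span {c} :=
      ⟨_, (hcl _ (by rw [hJ]; exact ⟨⟨_, rfl⟩⟩)).principal.choose_spec⟩
    rw [hc, Ideal.span_singleton_pow, Ideal.span_singleton_eq_span_singleton] at hJ
    obtain ⟨u1, hu1⟩ := hJ
    exact last 1 c u1 one_ne_zero u1.isUnit (by rw [hu1, one_pow, one_mul])
  · obtain ⟨J, hJ⟩ := exists_sqrt_ideal (mul_ne_zero hτ.ne_zero he1) (by
      intro v
      rw [map_mul]
      by_cases hv : τ ∈ v.asIdeal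
      · rw [hoff v hv]
        refine sq_of_nonsq ?_ hsq
        rw [vτ.intValuation_singleton hτ.ne_zero rfl]
        exact not_sq_exp
      · refine IsSquare.mul ?_ (hpar v hv)
        rw [(v.intValuation_eq_one_iff).2 hv]
        exact IsSquare.one)
    obtain ⟨c, hc⟩ : ∃ c, J = Ideal.span {c} :=
      ⟨_, (hcl _ (by rw [hJ]; exact ⟨⟨_, rfl⟩⟩)).principal.choose_spec⟩
    rw [hc, Ideal.span_singleton_pow, Ideal.span_singleton_eq_span_singleton] at hJ
    obtain ⟨u1, hu1⟩ := hJ
    exact last t c u1 ht0 u1.isUnit (by rw [hu1, map_mul, q.sq])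

end notwo

end Run7.h905.BS
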