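import Pool.Agent.Run7.h905.BS.Qc

/-!
# The tower `t ^ (2 ^ i)`: the abstract step and the rings
-/

open Polynomial IsDedekindDomain WithZero
open scoped Classical

set_option autoImplicit false
set_option linter.all false
set_option maxHeartbeats 400000

namespace Run7.h905.BS

open Pool.Agent.W309.TD (NoTwo)

/-- A Dedekind domain with a degree function, without ideal class of order two, and a prime element of
odd degree. -/
structure Good0 (k : Type) {B : Type} [Field k] [CommRing B] [Algebra k B] (τ : B) : Prop where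
  ded : IsDedekindDomain B
  ntw : NoTwo B
  prm : Prime τ
  deg : ∃ (d : B → WithBot ℕ) (n : ℕ), InfDeg k d ∧ Odd n ∧ d τ = n

theorem Good0.step {k B B' : Type} [Field k] [CommRing B] [Algebra k B] [CommRing B']
    [Algebra k B'] [Algebra B B'] [IsScalarTower k B B'] {τ : B} {t : B'} (h2 : (2 : k) ≠ 0)
    (q : Quad τ t) (hg : Good0 k τ) : Good0 k t := by
  obtain ⟨d, n, hd, hn, hτ⟩ := hg.deg
  haveI := hg.ded
  have hD := q.infDeg hd hn hτ
  haveI : Nontrivial B' := q.inj.nontrivial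
  haveI := hD.noZero
  haveI : IsDomain B' := NoZeroDivisors.to_isDomain B'
  have h2B : IsUnit (2 : B) := by
    have : (2 : B) = algebraMap k B 2 := (map_ofNat _ 2).symm
    rw [this]
    exact (isUnit_iff_ne_zero.2 h2).map _
  have hded : IsDedekindDomain B' := q.dedekind h2B hg.prm
  have hdvd : ∀ z : B', t ∣ z ↔ τ ∣ q.re z := by
    intro z
    constructor
    · rintro ⟨w, rfl⟩
      rw [q.mul_re, q.re_t.1, q.re_t.2]
      exact ⟨q.im w, by ring⟩
    · rintro ⟨w, hw⟩
      refine ⟨algebraMap B B' (q.im z) + algebraMap B B' w * t, ?_⟩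
      conv_lhs => rw [q.spec z, hw, map_mul, ← q.sq]
      ring
  refine ⟨hded, q.noTwo h2B hg.prm hg.ntw hd hn hτ, ?_, ⟨_, n, hD, hn, ?_⟩⟩
  · refine ⟨?_, ?_, ?_⟩
    · rintro rfl
      have h1 := q.sq
      rw [zero_pow two_ne_zero] at h1
      exact hg.prm.ne_zero (q.inj (h1.symm.trans (map_zero _).symm))
    · intro hu
      apply hg.prm.not_unit
      have h1 := (hdvd 1).1 (isUnit_iff_dvd_one.1 hu)
      have h3 := q.re_base 1
      rw [map_one] at h3
      rw [h3] at h1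
      exact isUnit_iff_dvd_one.2 h1
    · intro a b hab
      rw [hdvd, q.mul_re] at hab
      have h1 : τ ∣ q.re a * q.re b := (dvd_add_left (dvd_mul_right _ _)).1 hab
      rcases hg.prm.dvd_or_dvd h1 with h3 | h3
      · exact Or.inl ((hdvd a).2 h3)
      · exact Or.inr ((hdvd b).2 h3)
  · show d (q.nm t) = n
    have : q.nm t = -τ := by
      unfold Quad.nm
      rw [q.re_t.1, q.re_t.2]
      ring
    rw [this, hd.neg, hτ]

section parity

variable {k : Type} [Field k]

/-- `t ↦ t ^ 2`. -/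
noncomputable def ex2 (k : Type) [Field k] : k[X] →+* k[X] := (expand k 2 : k[X] →ₐ[k] k[X])

theorem ex2_X : ex2 k X = X ^ 2 := by
  show expand k 2 X = X ^ 2
  rw [expand_X]

theorem ex2_C (c : k) : ex2 k (C c) = C c := by
  show expand k 2 (C c) = C c
  rw [expand_C]

theorem ex2_coeff (p : k[X]) (n : ℕ) : (ex2 k p).coeff n = if 2 ∣ n then p.coeff (n / 2) else 0 :=
  coeff_expand (by norm_num) p n

theorem par_uni {p0 p1 : k[X]} (h : ex2 k p0 + X * ex2 k p1 = 0) : p0 = 0 ∧ p1 = 0 := by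
  constructor
  · ext n
    have h1 := congrArg (fun p => coeff p (2 * n)) h
    simp only [coeff_add, coeff_zero] at h1
    rw [ex2_coeff, if_pos (dvd_mul_right 2 n), Nat.mul_div_cancel_left n (by norm_num)] at h1
    have h2 : (X * ex2 k p1).coeff (2 * n) = 0 := by
      rcases Nat.eq_zero_or_pos n with rfl | hn
      · rw [mul_zero, coeff_X_mul_zero]
      · obtain ⟨j, hj⟩ : ∃ j, 2 * n = j + 1 := ⟨2 * n - 1, by omega⟩
        rw [hj, coeff_X_mul, ex2_coeff, if_neg (by omega)]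
    rw [h2, add_zero] at h1
    rw [h1, coeff_zero]
  · ext n
    have h1 := congrArg (fun p => coeff p (2 * n + 1)) h
    simp only [coeff_add, coeff_zero] at h1
    rw [ex2_coeff, if_neg (by omega), coeff_X_mul, ex2_coeff, if_pos (dvd_mul_right 2 n),
      Nat.mul_div_cancel_left n (by norm_num), zero_add] at h1
    rw [h1, coeff_zero]

theorem par_rep (p : k[X]) : ∃ p0 p1 : k[X], p = ex2 k p0 + X * ex2 k p1 := by
  induction p using Polynomial.induction_on with
  | C a => exact ⟨C a, 0, by rw [ex2_C, map_zero, mul_zero, add_zero]⟩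
  | add p q hp hq =>
    obtain ⟨a, b, h1⟩ := hp
    obtain ⟨c, d, h2⟩ := hq
    exact ⟨a + c, b + d, by rw [h1, h2, map_add, map_add]; ring⟩
  | monomial n a ih =>
    obtain ⟨p0, p1, h1⟩ := ih
    refine ⟨X * p1, p0, ?_⟩
    rw [pow_succ, ← mul_assoc, h1, map_mul, ex2_X]
    ring

/-- `t ↦ t ^ 2` on the polynomials in `x`. -/
noncomputable def E2 (k : Type) [Field k] : k[X][X] →+* k[X][X] := mapRingHom (ex2 k)

theorem E2_X : E2 k X = X := by
  unfold E2
  rw [coe_mapRingHom, map_X]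

theorem E2_C (p : k[X]) : E2 k (C p) = C (ex2 k p) := by
  unfold E2
  rw [coe_mapRingHom, map_C]

theorem par_uni2 {g0 g1 : k[X][X]} (h : E2 k g0 + C X * E2 k g1 = 0) : g0 = 0 ∧ g1 = 0 := by
  have h1 : ∀ n, g0.coeff n = 0 ∧ g1.coeff n = 0 := by
    intro n
    apply par_uni
    have h2 := congrArg (fun p => coeff p n) h
    simp only [coeff_add, coeff_zero, coeff_C_mul] at h2
    unfold E2 at h2
    simpa only [coe_mapRingHom, coeff_map] using h2
  exact ⟨Polynomial.ext fun n => by rw [(h1 n).1, coeff_zero],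
    Polynomial.ext fun n => by rw [(h1 n).2, coeff_zero]⟩

theorem par_rep2 (g : k[X][X]) : ∃ g0 g1 : k[X][X], g = E2 k g0 + C X * E2 k g1 := by
  induction g using Polynomial.induction_on with
  | C p =>
    obtain ⟨p0, p1, h1⟩ := par_rep p
    exact ⟨C p0, C p1, by rw [E2_C, E2_C, ← C_mul, ← C_add, ← h1]⟩
  | add p q hp hq =>
    obtain ⟨a, b, h1⟩ := hp
    obtain ⟨c, d, h2⟩ := hq
    exact ⟨a + c, b + d, by rw [h1, h2, map_add, map_add]; ring⟩
  | monomial n a ih =>
    obtain ⟨p0, p1, h1⟩ := ih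
    refine ⟨p0 * X, p1 * X, ?_⟩
    rw [pow_succ, ← mul_assoc, h1, map_mul, map_mul, E2_X]
    ring

end parity

section tower

variable {k : Type} [Field k]

/-- `a(x) + c t ^ N`. -/
noncomputable def fT (a : k[X]) (c : k) (N : ℕ) : k[X][X] := a.map C + C (C c * X ^ N)

theorem E2_fT (a : k[X]) (c : k) (N : ℕ) : E2 k (fT a c N) = fT a c (2 * N) := by
  unfold fT
  rw [map_add, E2_C, map_mul, map_pow, ex2_C, ex2_X, ← pow_mul]
  congr 1
  unfold E2
  rw [coe_mapRingHom, map_map]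
  congr 1
  ext c
  show (ex2 k (C c)).coeff _ = _
  rw [ex2_C]

/-- The map of the rings. -/
noncomputable def phi (a : k[X]) (c : k) (N : ℕ) :
    AdjoinRoot (fT a c N) →+* AdjoinRoot (fT a c (2 * N)) :=
  AdjoinRoot.lift ((AdjoinRoot.of (fT a c (2 * N))).comp (ex2 k)) (AdjoinRoot.root _) (by
    have h1 : eval₂ (AdjoinRoot.of (fT a c (2 * N))) (AdjoinRoot.root _)
        ((fT a c N).map (ex2 k)) = 0 := by
      have : (fT a c N).map (ex2 k) = fT a c (2 * N) := E2_fT a c N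
      rw [this, AdjoinRoot.eval₂_root]
    rw [eval₂_map] at h1
    exact h1)

theorem phi_mk (a : k[X]) (c : k) (N : ℕ) (g : k[X][X]) :
    phi a c N (AdjoinRoot.mk _ g) = AdjoinRoot.mk _ (E2 k g) := by
  unfold phi
  rw [AdjoinRoot.lift_mk, ← eval₂_map]
  show eval₂ (AdjoinRoot.of (fT a c (2 * N))) (AdjoinRoot.root (fT a c (2 * N))) (E2 k g) = _
  have := AdjoinRoot.aeval_eq (f := fT a c (2 * N)) (E2 k g)
  rw [← this]
  rfl

theorem quad_fT (a : k[X]) (c : k) (N : ℕ) :
    letI := (phi a c N).toAlgebra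
    Quad (AdjoinRoot.of (fT a c N) X) (AdjoinRoot.of (fT a c (2 * N)) X) := by
  letI := (phi a c N).toAlgebra
  refine ⟨?_, ?_, ?_⟩
  · show _ = phi a c N (AdjoinRoot.of (fT a c N) X)
    have : AdjoinRoot.of (fT a c N) X = AdjoinRoot.mk (fT a c N) (C X) := rfl
    rw [this, phi_mk, E2_C, ex2_X, ← map_pow]
    rfl
  · intro z
    obtain ⟨g, rfl⟩ := AdjoinRoot.mk_surjective z
    obtain ⟨g0, g1, hg⟩ := par_rep2 g
    refine ⟨AdjoinRoot.mk _ g0, AdjoinRoot.mk _ g1, ?_⟩
    show _ = phi a c N (AdjoinRoot.mk _ g0) + phi a c N (AdjoinRoot.mk _ g1) * _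
    rw [phi_mk, phi_mk, hg, map_add, map_mul,
      mul_comm (AdjoinRoot.mk (fT a c (2 * N)) (C X))]
    rfl
  · intro Z W hZW
    obtain ⟨g0, rfl⟩ := AdjoinRoot.mk_surjective Z
    obtain ⟨g1, rfl⟩ := AdjoinRoot.mk_surjective W
    have h1 : phi a c N (AdjoinRoot.mk _ g0) +
        phi a c N (AdjoinRoot.mk _ g1) * AdjoinRoot.mk (fT a c (2 * N)) (C X) = 0 := hZW
    rw [phi_mk, phi_mk, ← map_mul, ← map_add, AdjoinRoot.mk_eq_zero, ← E2_fT] at h1
    obtain ⟨r, hr⟩ := h1
    obtain ⟨r0, r1, hr2⟩ := par_rep2 r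
    have h2 : E2 k (g0 - fT a c N * r0) + C X * E2 k (g1 - fT a c N * r1) = 0 := by
      rw [map_sub, map_sub, map_mul, map_mul]
      rw [hr2] at hr
      linear_combination hr
    obtain ⟨h3, h4⟩ := par_uni2 h2
    rw [AdjoinRoot.mk_eq_zero, AdjoinRoot.mk_eq_zero]
    exact ⟨⟨r0, sub_eq_zero.1 h3⟩, ⟨r1, sub_eq_zero.1 h4⟩⟩

theorem tower_fT (a : k[X]) (c : k) (N : ℕ) :
    letI := (phi a c N).toAlgebra
    IsScalarTower k (AdjoinRoot (fT a c N)) (AdjoinRoot (fT a c (2 * N))) := by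
  letI := (phi a c N).toAlgebra
  refine IsScalarTower.of_algebraMap_eq fun e => ?_
  show _ = phi a c N (AdjoinRoot.mk (fT a c N) (C (C e)))
  rw [phi_mk, E2_C, ex2_C]
  rfl

theorem Good0.double (h2 : (2 : k) ≠ 0) {a : k[X]} {c : k} {N : ℕ}
    (hg : Good0 k (AdjoinRoot.of (fT a c N) X)) : Good0 k (AdjoinRoot.of (fT a c (2 * N)) X) := by
  letI := (phi a c N).toAlgebra
  haveI := tower_fT a c N
  exact Good0.step h2 (quad_fT a c N) hg

end tower

end Run7.h905.BS
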