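import Pool.Agent.Run7.h905.BS.Qd
import Pool.Agent.Run7.h905.BS.Gen

/-!
# The curves `a(x) + c t ^ (2 ^ i) = 0`
-/

open Polynomial IsDedekindDomain WithZero
open scoped Classical

set_option autoImplicit false
set_option linter.all false
set_option maxHeartbeats 400000

namespace Run7.h905.BS

open Pool.Agent.W309.TD (NoTwo)

section base

variable {k : Type} [Field k] {a : k[X]} {c : k}

/-- The value of `t`. -/
noncomputable def bT (a : k[X]) (c : k) : k[X] := C (-c⁻¹) * a

theorem comp_bT_C : (compRingHom (bT a c)).comp C = (C : k →+* k[X]) := by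
  ext e
  simp

/-- `x ↦ x`, `t ↦ - a(x) / c`. -/
noncomputable def toT (a : k[X]) {c : k} (hc : c ≠ 0) : AdjoinRoot (fT a c 1) →+* k[X] :=
  AdjoinRoot.lift (compRingHom (bT a c)) X (by
    unfold fT
    rw [eval₂_add, eval₂_map, eval₂_C, comp_bT_C, eval₂_C_X, pow_one, map_mul]
    have h1 : compRingHom (bT a c) (C c) = C c := by simp
    have h2 : compRingHom (bT a c) X = bT a c := by simp
    rw [h1, h2]
    unfold bT
    rw [← mul_assoc, ← C_mul, mul_neg, mul_inv_cancel₀ hc, C_neg, C_1]
    ring)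

noncomputable def ofT (a : k[X]) (c : k) : k[X] →+* AdjoinRoot (fT a c 1) :=
  eval₂RingHom ((AdjoinRoot.of (fT a c 1)).comp C) (AdjoinRoot.root (fT a c 1))

theorem toT_root (hc : c ≠ 0) : toT a hc (AdjoinRoot.root (fT a c 1)) = X := by
  unfold toT
  rw [AdjoinRoot.lift_root]

theorem toT_of (hc : c ≠ 0) (g : k[X]) : toT a hc (AdjoinRoot.of (fT a c 1) g) = g.comp (bT a c) := by
  unfold toT
  rw [AdjoinRoot.lift_of]
  rfl

theorem ofT_C (e : k) : ofT a c (C e) = AdjoinRoot.of (fT a c 1) (C e) := by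
  unfold ofT
  rw [coe_eval₂RingHom, eval₂_C]
  rfl

theorem ofT_b (hc : c ≠ 0) : ofT a c (bT a c) = AdjoinRoot.of (fT a c 1) X := by
  have h1 : AdjoinRoot.mk (fT a c 1) (fT a c 1) = 0 := AdjoinRoot.mk_self
  rw [← AdjoinRoot.aeval_eq] at h1
  conv at h1 =>
    lhs
    arg 2
    unfold fT
  rw [map_add, aeval_C, pow_one] at h1
  have h2 : aeval (AdjoinRoot.root (fT a c 1)) (a.map C) = ofT a c a := by
    unfold ofT
    rw [coe_eval₂RingHom, aeval_def, eval₂_map]
    rfl
  rw [h2] at h1
  have h3 : algebraMap k[X] (AdjoinRoot (fT a c 1)) (C c * X) =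
      AdjoinRoot.of (fT a c 1) (C c) * AdjoinRoot.of (fT a c 1) X := by
    rw [← map_mul]
    rfl
  rw [h3] at h1
  have h4 : AdjoinRoot.of (fT a c 1) (C (-c⁻¹)) * AdjoinRoot.of (fT a c 1) (C c) = -1 := by
    rw [← map_mul, ← C_mul, neg_mul, inv_mul_cancel₀ hc, C_neg, C_1, map_neg, map_one]
  unfold bT
  rw [map_mul, ofT_C]
  linear_combination (AdjoinRoot.of (fT a c 1) (C (-c⁻¹))) * h1 -
    (AdjoinRoot.of (fT a c 1) X) * h4

theorem toT_ofT (hc : c ≠ 0) (g : k[X]) : toT a hc (ofT a c g) = g := by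
  have : (toT a hc).comp (ofT a c) = RingHom.id _ := by
    apply ringHom_ext
    · intro e
      show toT a hc (ofT a c (C e)) = C e
      rw [ofT_C, toT_of, C_comp]
    · show toT a hc (ofT a c X) = X
      unfold ofT
      rw [coe_eval₂RingHom, eval₂_X, toT_root]
  exact congrArg (fun φ : k[X] →+* k[X] => φ g) this

theorem ofT_toT (hc : c ≠ 0) (g : AdjoinRoot (fT a c 1)) : ofT a c (toT a hc g) = g := by
  have h1 : ((ofT a c).comp (toT a hc)).comp (AdjoinRoot.mk (fT a c 1)) =
      AdjoinRoot.mk (fT a c 1) := by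
    apply ringHom_ext
    · intro g
      have h2 : ((ofT a c).comp (toT a hc)).comp (AdjoinRoot.of (fT a c 1)) =
          AdjoinRoot.of (fT a c 1) := by
        apply ringHom_ext
        · intro e
          show ofT a c (toT a hc (AdjoinRoot.of (fT a c 1) (C e))) = _
          rw [toT_of, C_comp, ofT_C]
        · show ofT a c (toT a hc (AdjoinRoot.of (fT a c 1) X)) = _
          rw [toT_of, X_comp, ofT_b hc]
      exact congrArg (fun φ : k[X] →+* AdjoinRoot (fT a c 1) => φ g) h2
    · show ofT a c (toT a hc (AdjoinRoot.root (fT a c 1))) = _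
      rw [toT_root]
      unfold ofT
      rw [coe_eval₂RingHom, eval₂_X]
      rfl
  obtain ⟨p, rfl⟩ := AdjoinRoot.mk_surjective g
  exact congrArg (fun φ : k[X][X] →+* AdjoinRoot (fT a c 1) => φ p) h1

/-- The coordinate ring is the polynomial ring in `x`. -/
noncomputable def eT (a : k[X]) {c : k} (hc : c ≠ 0) : AdjoinRoot (fT a c 1) ≃+* k[X] :=
  RingEquiv.ofRingHom (toT a hc) (ofT a c) (RingHom.ext (toT_ofT hc)) (RingHom.ext (ofT_toT hc))

theorem good0_one (hc : c ≠ 0) (ha : Irreducible a) (ho : Odd a.natDegree) :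
    Good0 k (AdjoinRoot.of (fT a c 1) X) := by
  haveI : IsDomain (AdjoinRoot (fT a c 1)) := (eT a hc).toMulEquiv.isDomain _
  haveI : IsPrincipalIdealRing (AdjoinRoot (fT a c 1)) :=
    IsPrincipalIdealRing.of_surjective (eT a hc).symm.toRingHom (eT a hc).symm.surjective
  have hinj : Function.Injective (toT a hc) := (eT a hc).injective
  have hb : toT a hc (AdjoinRoot.of (fT a c 1) X) = C (-c⁻¹) * a := by
    rw [toT_of, X_comp]
    rfl
  have hc' : -c⁻¹ ≠ 0 := neg_ne_zero.2 (inv_ne_zero hc)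
  refine ⟨inferInstance, fun I _ => IsPrincipalIdealRing.principal I, ?_,
    ⟨fun z => (toT a hc z).degree, a.natDegree, ⟨?_, ?_, ?_, ?_⟩, ho, ?_⟩⟩
  · have h1 : Prime (toT a hc (AdjoinRoot.of (fT a c 1) X)) := by
      rw [hb]
      have h2 : Associated a (C (-c⁻¹) * a) := by
        rw [mul_comm]
        exact associated_mul_unit_right _ _ (isUnit_C.2 (isUnit_iff_ne_zero.2 hc'))
      exact (h2.prime_iff).1 ha.prime
    exact (MulEquiv.prime_iff (eT a hc).toMulEquiv).1 h1
  · intro z
    show (toT a hc z).degree = ⊥ ↔ z = 0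
    rw [degree_eq_bot, map_eq_zero_iff _ hinj]
  · intro z w
    show (toT a hc (z * w)).degree = _
    rw [map_mul, degree_mul]
  · intro z w
    show (toT a hc (z + w)).degree ≤ _
    rw [map_add]
    exact degree_add_le _ _
  · intro z w hz hzw
    have hzw' : (toT a hc z).degree = (toT a hc w).degree := hzw
    have hz' : toT a hc z ≠ 0 := by rwa [Ne, map_eq_zero_iff _ hinj]
    have hw' : toT a hc w ≠ 0 := by
      rw [Ne, ← degree_eq_bot, ← hzw', degree_eq_bot]
      exact hz'
    refine ⟨(toT a hc z).leadingCoeff / (toT a hc w).leadingCoeff, ?_⟩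
    show (toT a hc (z - _ • w)).degree < (toT a hc z).degree
    have hl : (toT a hc w).leadingCoeff ≠ 0 := leadingCoeff_ne_zero.2 hw'
    have hl' : (toT a hc z).leadingCoeff / (toT a hc w).leadingCoeff ≠ 0 :=
      div_ne_zero (leadingCoeff_ne_zero.2 hz') hl
    have h1 : ∀ e : k, toT a hc (e • w) = C e * toT a hc w := by
      intro e
      rw [Algebra.smul_def, map_mul]
      congr 1
      show toT a hc (AdjoinRoot.of (fT a c 1) (C e)) = _
      rw [toT_of, C_comp]
    rw [map_sub, h1]
    apply degree_sub_lt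
    · rw [degree_C_mul hl', hzw']
    · exact hz'
    · rw [leadingCoeff_mul, leadingCoeff_C]
      field_simp
  · show (toT a hc (AdjoinRoot.of (fT a c 1) X)).degree = (a.natDegree : WithBot ℕ)
    rw [hb, degree_C_mul hc', degree_eq_natDegree ha.ne_zero]

end base

section good

variable {k : Type} [Field k] {a : k[X]} {c : k}

theorem good0_fT (h2 : (2 : k) ≠ 0) (hc : c ≠ 0) (ha : Irreducible a) (ho : Odd a.natDegree)
    (i : ℕ) : Good0 k (AdjoinRoot.of (fT a c (2 ^ i)) X) := by
  induction i with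
  | zero => exact good0_one hc ha ho
  | succ i ih =>
    have h1 : 2 ^ (i + 1) = 2 * 2 ^ i := by ring
    rw [h1]
    exact ih.double h2

theorem fT_monic (ha : a.Monic) (hd : 0 < a.natDegree) (N : ℕ) : (fT a c N).Monic := by
  unfold fT
  apply (ha.map _).add_of_left
  rw [degree_map_eq_of_injective C_injective]
  refine lt_of_le_of_lt degree_C_le ?_
  exact natDegree_pos_iff_degree_pos.1 hd

theorem fT_deg (hd : 0 < a.natDegree) (N : ℕ) : (fT a c N).natDegree = a.natDegree := by
  unfold fT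
  rw [natDegree_add_eq_left_of_natDegree_lt, natDegree_map_eq_of_injective C_injective]
  rw [natDegree_map_eq_of_injective C_injective, natDegree_C]
  exact hd

theorem fT_coeff (N i : ℕ) :
    (fT a c N).coeff i = C (a.coeff i) + if i = 0 then C c * X ^ N else 0 := by
  unfold fT
  rw [coeff_add, coeff_map, coeff_C]

theorem fT_smooth (hs : a.Separable) (hc : c ≠ 0) {N : ℕ} (hN : (N : k) ≠ 0) :
    Ideal.span {fT a c N, derivative (fT a c N),
      (fT a c N).sum fun i a => C (derivative a) * X ^ i} = ⊤ := by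
  have hN0 : N ≠ 0 := by
    rintro rfl
    exact hN (Nat.cast_zero)
  have h1 : ((fT a c N).sum fun i a => C (derivative a) * X ^ i) =
      C (C (c * N) * X ^ (N - 1)) := by
    rw [sum_over_range (fT a c N) (fun n => by simp), Finset.sum_eq_single 0]
    · rw [fT_coeff, if_pos rfl, derivative_add, derivative_C, derivative_C_mul,
        derivative_X_pow, zero_add, pow_zero, mul_one, ← mul_assoc, ← C_mul]
    · intro i _ hi
      rw [fT_coeff, if_neg hi, add_zero, derivative_C]
      simp
    · intro h0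
      exact absurd (Finset.mem_range.2 (Nat.succ_pos _)) h0
  have h2 : derivative (fT a c N) = (derivative a).map C := by
    unfold fT
    rw [derivative_add, derivative_C, add_zero, derivative_map]
  rw [h1, h2, Ideal.eq_top_iff_one]
  obtain ⟨u, v, huv⟩ := hs
  have e1 : (C (C (N : k)⁻¹ * X) : k[X][X]) * C (C (c * N) * X ^ (N - 1)) = C (C c * X ^ N) := by
    rw [← C_mul]
    congr 1
    obtain ⟨j, rfl⟩ := Nat.exists_eq_succ_of_ne_zero hN0
    have e2 : (C ((j.succ : ℕ) : k)⁻¹ : k[X]) * C (c * ((j.succ : ℕ) : k)) = C c := by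
      rw [← C_mul]
      congr 1
      field_simp
    rw [Nat.succ_sub_one, pow_succ]
    linear_combination (X * X ^ j) * e2
  have h3 : (1 : k[X][X]) = u.map C * fT a c N + v.map C * (derivative a).map C -
      (u.map C * C (C (N : k)⁻¹ * X)) * C (C (c * N) * X ^ (N - 1)) := by
    have h4 := congrArg (fun p => p.map (C : k →+* k[X])) huv
    simp only [Polynomial.map_add, Polynomial.map_mul, Polynomial.map_one] at h4
    rw [← h4]
    unfold fT
    linear_combination (u.map C) * e1
  rw [h3]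
  refine Ideal.sub_mem _ (Ideal.add_mem _ (Ideal.mul_mem_left _ _ (Ideal.subset_span (Or.inl rfl)))
    (Ideal.mul_mem_left _ _ (Ideal.subset_span (Or.inr (Or.inl rfl)))))
    (Ideal.mul_mem_left _ _ (Ideal.subset_span (Or.inr (Or.inr rfl))))

/-- **The curves `a(x) + c t ^ (2 ^ i) = 0`.** -/
theorem fT_good [PerfectField k] (h2 : (2 : k) ≠ 0) (hc : c ≠ 0) (ham : a.Monic)
    (ha : Irreducible a) (ho : Odd a.natDegree) (i : ℕ) : GoodCurve (fT a c (2 ^ i)) := by
  have hg := good0_fT h2 hc ha ho i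
  haveI := hg.ded
  obtain ⟨d, n, hd, hn, hτ⟩ := hg.deg
  have hN : ((2 ^ i : ℕ) : k) ≠ 0 := by
    push_cast
    exact pow_ne_zero _ h2
  refine ⟨fT_monic ham ho.pos _, by rw [fT_deg ho.pos]; exact ho,
    fT_smooth (PerfectField.separable_of_irreducible ha) hc hN, hg.ded, hg.ntw, ?_⟩
  intro v hv
  obtain ⟨e, _, he⟩ := hd.unit hv
  exact ⟨e, he⟩

end good

end Run7.h905.BS
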