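import Pool.Agent.Run7.h905.BS.Qe

/-!
# The curves `E(x) + R(t) = 0`, `R` a composite of quadratic polynomials
-/

open Polynomial IsDedekindDomain WithZero
open scoped Classical

set_option autoImplicit false
set_option linter.all false
set_option maxHeartbeats 400000

namespace Run7.h905.BS

open Pool.Agent.W309.TD (NoTwo)

/-- A Dedekind domain with a degree function, without ideal class of order two, and an element of odd
degree. -/
structure Good1 (k : Type) {B : Type} [Field k] [CommRing B] [Algebra k B] (τ : B) : Prop where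
  ded : IsDedekindDomain B
  ntw : NoTwo B
  deg : ∃ (d : B → WithBot ℕ) (n : ℕ), InfDeg k d ∧ Odd n ∧ d τ = n

section aff

variable {k : Type} [Field k]

/-- `t ↦ α t + β`. -/
noncomputable def aff (α β : k) : k[X] →+* k[X] := compRingHom (C α * X + C β)

/-- `t ↦ α t ^ 2 + β`. -/
noncomputable def s2 (α β : k) : k[X] →+* k[X] := compRingHom (C α * X ^ 2 + C β)

theorem s2_eq (α β : k) : s2 α β = (ex2 k).comp (aff α β) := by
  apply ringHom_ext
  · intro e
    show (C e : k[X]).comp _ = ex2 k ((C e : k[X]).comp _)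
    rw [C_comp, C_comp, ex2_C]
  · show (X : k[X]).comp _ = ex2 k ((X : k[X]).comp _)
    rw [X_comp, X_comp, map_add, map_mul, ex2_C, ex2_C, ex2_X]

theorem aff_bij {α : k} (hα : α ≠ 0) (β : k) : Function.Bijective (aff α β) := by
  have h1 : (aff α β).comp (aff α⁻¹ (-(α⁻¹ * β))) = RingHom.id _ := by
    apply ringHom_ext
    · intro e
      show ((C e : k[X]).comp _).comp _ = C e
      rw [C_comp, C_comp]
    · show ((X : k[X]).comp _).comp _ = X
      rw [X_comp, add_comp, mul_comp, C_comp, X_comp, C_comp, C_neg, C_mul]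
      have : (C α⁻¹ : k[X]) * C α = 1 := by rw [← C_mul, inv_mul_cancel₀ hα, C_1]
      linear_combination X * this
  have h2 : (aff α⁻¹ (-(α⁻¹ * β))).comp (aff α β) = RingHom.id _ := by
    apply ringHom_ext
    · intro e
      show ((C e : k[X]).comp _).comp _ = C e
      rw [C_comp, C_comp]
    · show ((X : k[X]).comp _).comp _ = X
      rw [X_comp, add_comp, mul_comp, C_comp, X_comp, C_comp, C_neg, C_mul]
      have : (C α : k[X]) * C α⁻¹ = 1 := by rw [← C_mul, mul_inv_cancel₀ hα, C_1]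
      linear_combination (X - C β) * this
  refine ⟨?_, ?_⟩
  · intro p q hpq
    have h3 := congrArg (aff α⁻¹ (-(α⁻¹ * β))) hpq
    have h4 : ∀ r, aff α⁻¹ (-(α⁻¹ * β)) (aff α β r) = r := fun r =>
      congrArg (fun φ : k[X] →+* k[X] => φ r) h2
    rwa [h4, h4] at h3
  · intro p
    exact ⟨aff α⁻¹ (-(α⁻¹ * β)) p, congrArg (fun φ : k[X] →+* k[X] => φ p) h1⟩

theorem s2_uni {α : k} (hα : α ≠ 0) {β : k} {p0 p1 : k[X]}
    (h : s2 α β p0 + X * s2 α β p1 = 0) : p0 = 0 ∧ p1 = 0 := by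
  rw [s2_eq] at h
  obtain ⟨h1, h2⟩ := par_uni h
  have h0 := map_zero (aff α β)
  exact ⟨(aff_bij hα β).1 (h1.trans h0.symm), (aff_bij hα β).1 (h2.trans h0.symm)⟩

theorem s2_rep {α : k} (hα : α ≠ 0) (β : k) (p : k[X]) :
    ∃ p0 p1 : k[X], p = s2 α β p0 + X * s2 α β p1 := by
  obtain ⟨p0, p1, h⟩ := par_rep p
  obtain ⟨q0, rfl⟩ := (aff_bij hα β).2 p0
  obtain ⟨q1, rfl⟩ := (aff_bij hα β).2 p1
  refine ⟨q0, q1, ?_⟩
  rw [s2_eq]
  exact h

/-- `t ↦ α t ^ 2 + β` on the polynomials in `x`. -/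
noncomputable def S2 (α β : k) : k[X][X] →+* k[X][X] := mapRingHom (s2 α β)

theorem S2_X (α β : k) : S2 α β X = X := by
  unfold S2
  rw [coe_mapRingHom, map_X]

theorem S2_C (α β : k) (p : k[X]) : S2 α β (C p) = C (s2 α β p) := by
  unfold S2
  rw [coe_mapRingHom, map_C]

theorem s2_C (α β e : k) : s2 α β (C e) = C e := by
  show (C e : k[X]).comp _ = C e
  rw [C_comp]

theorem s2_X (α β : k) : s2 α β X = C α * X ^ 2 + C β := by
  show (X : k[X]).comp _ = _
  rw [X_comp]

theorem S2_uni {α : k} (hα : α ≠ 0) {β : k} {g0 g1 : k[X][X]}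
    (h : S2 α β g0 + C X * S2 α β g1 = 0) : g0 = 0 ∧ g1 = 0 := by
  have h1 : ∀ n, g0.coeff n = 0 ∧ g1.coeff n = 0 := by
    intro n
    apply s2_uni hα (β := β)
    have h2 := congrArg (fun p => coeff p n) h
    simp only [coeff_add, coeff_zero, coeff_C_mul] at h2
    unfold S2 at h2
    simpa only [coe_mapRingHom, coeff_map] using h2
  exact ⟨Polynomial.ext fun n => by rw [(h1 n).1, coeff_zero],
    Polynomial.ext fun n => by rw [(h1 n).2, coeff_zero]⟩

theorem S2_rep {α : k} (hα : α ≠ 0) (β : k) (g : k[X][X]) :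
    ∃ g0 g1 : k[X][X], g = S2 α β g0 + C X * S2 α β g1 := by
  induction g using Polynomial.induction_on with
  | C p =>
    obtain ⟨p0, p1, h1⟩ := s2_rep hα β p
    exact ⟨C p0, C p1, by rw [S2_C, S2_C, ← C_mul, ← C_add, ← h1]⟩
  | add p q hp hq =>
    obtain ⟨a, b, h1⟩ := hp
    obtain ⟨c, d, h2⟩ := hq
    exact ⟨a + c, b + d, by rw [h1, h2, map_add, map_add]; ring⟩
  | monomial n a ih =>
    obtain ⟨p0, p1, h1⟩ := ih
    refine ⟨p0 * X, p1 * X, ?_⟩
    rw [pow_succ, ← mul_assoc, h1, map_mul, map_mul, S2_X]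
    ring

end aff

section tower

variable {k : Type} [Field k]

/-- `E(x) + R(t)`. -/
noncomputable def fR (E R : k[X]) : k[X][X] := E.map C + C R

theorem S2_fR (E R : k[X]) (α β : k) :
    S2 α β (fR E R) = fR E (R.comp (C α * X ^ 2 + C β)) := by
  unfold fR
  rw [map_add, S2_C]
  congr 1
  unfold S2
  rw [coe_mapRingHom, map_map]
  congr 1
  ext e
  show (s2 α β (C e)).coeff _ = _
  rw [s2_C]

/-- The map of the rings. -/
noncomputable def phR (E R : k[X]) (α β : k) :
    AdjoinRoot (fR E R) →+* AdjoinRoot (fR E (R.comp (C α * X ^ 2 + C β))) :=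
  AdjoinRoot.lift ((AdjoinRoot.of (fR E (R.comp (C α * X ^ 2 + C β)))).comp (s2 α β))
    (AdjoinRoot.root _) (by
    have h1 : eval₂ (AdjoinRoot.of (fR E (R.comp (C α * X ^ 2 + C β)))) (AdjoinRoot.root _)
        ((fR E R).map (s2 α β)) = 0 := by
      have : (fR E R).map (s2 α β) = fR E (R.comp (C α * X ^ 2 + C β)) := S2_fR E R α β
      rw [this, AdjoinRoot.eval₂_root]
    rw [eval₂_map] at h1
    exact h1)

theorem phR_mk (E R : k[X]) (α β : k) (g : k[X][X]) :
    phR E R α β (AdjoinRoot.mk _ g) = AdjoinRoot.mk _ (S2 α β g) := by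
  unfold phR
  rw [AdjoinRoot.lift_mk, ← eval₂_map]
  show eval₂ (AdjoinRoot.of _) (AdjoinRoot.root _) (S2 α β g) = _
  have := AdjoinRoot.aeval_eq (f := fR E (R.comp (C α * X ^ 2 + C β))) (S2 α β g)
  rw [← this]
  rfl

theorem quad_fR (E R : k[X]) {α : k} (hα : α ≠ 0) (β : k) :
    letI := (phR E R α β).toAlgebra
    Quad (AdjoinRoot.of (fR E R) (C α⁻¹ * (X - C β)))
      (AdjoinRoot.of (fR E (R.comp (C α * X ^ 2 + C β))) X) := by
  letI := (phR E R α β).toAlgebra
  refine ⟨?_, ?_, ?_⟩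
  · show _ = phR E R α β (AdjoinRoot.of (fR E R) (C α⁻¹ * (X - C β)))
    have : AdjoinRoot.of (fR E R) (C α⁻¹ * (X - C β)) =
        AdjoinRoot.mk (fR E R) (C (C α⁻¹ * (X - C β))) := rfl
    rw [this, phR_mk, S2_C, map_mul, map_sub, s2_C, s2_C, s2_X, ← map_pow]
    have h1 : (C α⁻¹ : k[X]) * (C α * X ^ 2 + C β - C β) = X ^ 2 := by
      have h2 : (C α⁻¹ : k[X]) * C α = 1 := by rw [← C_mul, inv_mul_cancel₀ hα, C_1]
      linear_combination X ^ 2 * h2
    rw [h1]
    rfl
  · intro z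
    obtain ⟨g, rfl⟩ := AdjoinRoot.mk_surjective z
    obtain ⟨g0, g1, hg⟩ := S2_rep hα β g
    refine ⟨AdjoinRoot.mk _ g0, AdjoinRoot.mk _ g1, ?_⟩
    show _ = phR E R α β (AdjoinRoot.mk _ g0) + phR E R α β (AdjoinRoot.mk _ g1) * _
    rw [phR_mk, phR_mk, hg, map_add, map_mul, mul_comm (AdjoinRoot.mk _ (C X))]
    rfl
  · intro Z W hZW
    obtain ⟨g0, rfl⟩ := AdjoinRoot.mk_surjective Z
    obtain ⟨g1, rfl⟩ := AdjoinRoot.mk_surjective W
    have h1 : phR E R α β (AdjoinRoot.mk _ g0) +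
        phR E R α β (AdjoinRoot.mk _ g1) * AdjoinRoot.mk _ (C X) = 0 := hZW
    rw [phR_mk, phR_mk, ← map_mul, ← map_add, AdjoinRoot.mk_eq_zero, ← S2_fR] at h1
    obtain ⟨r, hr⟩ := h1
    obtain ⟨r0, r1, hr2⟩ := S2_rep hα β r
    have h2 : S2 α β (g0 - fR E R * r0) + C X * S2 α β (g1 - fR E R * r1) = 0 := by
      rw [map_sub, map_sub, map_mul, map_mul]
      rw [hr2] at hr
      linear_combination hr
    obtain ⟨h3, h4⟩ := S2_uni hα h2
    rw [AdjoinRoot.mk_eq_zero, AdjoinRoot.mk_eq_zero]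
    exact ⟨⟨r0, sub_eq_zero.1 h3⟩, ⟨r1, sub_eq_zero.1 h4⟩⟩

theorem tower_fR (E R : k[X]) (α β : k) :
    letI := (phR E R α β).toAlgebra
    IsScalarTower k (AdjoinRoot (fR E R))
      (AdjoinRoot (fR E (R.comp (C α * X ^ 2 + C β)))) := by
  letI := (phR E R α β).toAlgebra
  refine IsScalarTower.of_algebraMap_eq fun e => ?_
  show _ = phR E R α β (AdjoinRoot.mk (fR E R) (C (C e)))
  rw [phR_mk, S2_C, s2_C]
  rfl

/-- The prime elements `t - β`. -/
theorem prime_sub {E R : k[X]} {β : k} (hirr : Irreducible (E + C (R.eval β)))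
    (h0 : AdjoinRoot.of (fR E R) (X - C β) ≠ 0) : Prime (AdjoinRoot.of (fR E R) (X - C β)) := by
  let ev : k[X][X] →+* k[X] := mapRingHom (evalRingHom β)
  have hevf : ev (fR E R) = E + C (R.eval β) := by
    show (fR E R).map (evalRingHom β) = _
    unfold fR
    rw [Polynomial.map_add, map_C, map_map]
    congr 1
    have : (evalRingHom β).comp (C : k →+* k[X]) = RingHom.id k := by
      ext e
      simp
    rw [this, Polynomial.map_id]
  have hker : ∀ g : k[X][X], ev g = 0 → C (X - C β) ∣ g := by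
    intro g hg
    rw [C_dvd_iff_dvd_coeff]
    intro i
    have h1 := congrArg (fun p => coeff p i) hg
    have h2 : (g.map (evalRingHom β)).coeff i = 0 := h1
    rw [coeff_map, coe_evalRingHom] at h2
    exact dvd_iff_isRoot.2 h2
  have hevC : ∀ g : k[X][X], ev (C (X - C β) * g) = 0 := by
    intro g
    rw [map_mul]
    have : ev (C (X - C β)) = 0 := by
      show (C (X - C β) : k[X][X]).map (evalRingHom β) = 0
      rw [map_C, coe_evalRingHom, eval_sub, eval_X, eval_C, sub_self, C_0]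
    rw [this, zero_mul]
  have hiff : ∀ g : k[X][X], AdjoinRoot.of (fR E R) (X - C β) ∣ AdjoinRoot.mk (fR E R) g ↔
      E + C (R.eval β) ∣ ev g := by
    intro g
    constructor
    · rintro ⟨z, hz⟩
      obtain ⟨r, rfl⟩ := AdjoinRoot.mk_surjective z
      have h1 : AdjoinRoot.mk (fR E R) g = AdjoinRoot.mk (fR E R) (C (X - C β) * r) := by
        rw [hz, map_mul]
        rfl
      rw [AdjoinRoot.mk_eq_mk] at h1
      obtain ⟨s, hs⟩ := h1
      have h2 := congrArg ev hs
      rw [map_sub, hevC, sub_zero, map_mul, hevf] at h2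
      exact ⟨_, h2⟩
    · rintro ⟨s, hs⟩
      have h1 : ev (g - fR E R * s.map C) = 0 := by
        have h3 : ev (s.map C) = s := by
          show (s.map C).map (evalRingHom β) = s
          rw [map_map]
          have : (evalRingHom β).comp (C : k →+* k[X]) = RingHom.id k := by
            ext e
            simp
          rw [this, Polynomial.map_id]
        rw [map_sub, map_mul, hevf, h3, hs, sub_self]
      obtain ⟨r, hr⟩ := hker _ h1
      refine ⟨AdjoinRoot.mk _ r, ?_⟩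
      have h2 : AdjoinRoot.of (fR E R) (X - C β) * AdjoinRoot.mk (fR E R) r =
          AdjoinRoot.mk (fR E R) (C (X - C β) * r) := by
        rw [map_mul]
        rfl
      rw [h2, AdjoinRoot.mk_eq_mk]
      exact ⟨s.map C, by linear_combination hr⟩
  have hp := hirr.prime
  refine ⟨h0, ?_, ?_⟩
  · intro hu
    have h1 : AdjoinRoot.of (fR E R) (X - C β) ∣ AdjoinRoot.mk (fR E R) 1 := hu.dvd
    rw [hiff, map_one] at h1
    exact hp.not_unit (isUnit_iff_dvd_one.2 h1)
  · intro z w hzw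
    obtain ⟨g, rfl⟩ := AdjoinRoot.mk_surjective z
    obtain ⟨r, rfl⟩ := AdjoinRoot.mk_surjective w
    rw [← map_mul, hiff, map_mul] at hzw
    rw [hiff, hiff]
    exact hp.dvd_or_dvd hzw

theorem Good1.step {E R : k[X]} (h2 : (2 : k) ≠ 0) {α β : k} (hα : α ≠ 0)
    (hg : Good1 k (AdjoinRoot.of (fR E R) X)) (hirr : Irreducible (E + C (R.eval β))) :
    Good1 k (AdjoinRoot.of (fR E (R.comp (C α * X ^ 2 + C β))) X) := by
  letI := (phR E R α β).toAlgebra
  haveI := tower_fR E R α β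
  haveI := hg.ded
  obtain ⟨d, n, hd, hn, hτ⟩ := hg.deg
  have h3 : d (AdjoinRoot.of (fR E R) (X - C β)) = n := by
    have e1 : AdjoinRoot.of (fR E R) (X - C β) =
        -(algebraMap k (AdjoinRoot (fR E R)) β) + AdjoinRoot.of (fR E R) X := by
      rw [map_sub]
      have : algebraMap k (AdjoinRoot (fR E R)) β = AdjoinRoot.of (fR E R) (C β) := rfl
      rw [this]
      ring
    rw [e1, hd.add_eq, hτ]
    rw [hd.neg, hτ]
    by_cases hβ : β = 0
    · rw [hβ, map_zero, (hd.zero 0).2 rfl]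
      exact WithBot.bot_lt_coe _
    · rw [hd.const hβ]
      have := hn.pos
      exact_mod_cast this
  have h4 : AdjoinRoot.of (fR E R) (X - C β) ≠ 0 := by
    rw [Ne, ← hd.zero, h3]
    exact WithBot.coe_ne_bot
  have h5 := prime_sub hirr h4
  have hα' : α⁻¹ ≠ 0 := inv_ne_zero hα
  have e2 : AdjoinRoot.of (fR E R) (C α⁻¹ * (X - C β)) =
      algebraMap k (AdjoinRoot (fR E R)) α⁻¹ * AdjoinRoot.of (fR E R) (X - C β) := by
    rw [map_mul]
    rfl
  have hg0 : Good0 k (AdjoinRoot.of (fR E R) (C α⁻¹ * (X - C β))) := by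
    refine ⟨hg.ded, hg.ntw, ?_, d, n, hd, hn, ?_⟩
    · rw [e2, mul_comm]
      have h6 : IsUnit (algebraMap k (AdjoinRoot (fR E R)) α⁻¹) :=
        (isUnit_iff_ne_zero.2 hα').map _
      exact ((associated_mul_unit_right _ _ h6).prime_iff).1 h5
    · rw [e2, hd.mul, hd.const hα', h3, zero_add]
  have h7 := Good0.step h2 (quad_fR E R hα β) hg0
  exact ⟨h7.ded, h7.ntw, h7.deg⟩

end tower

end Run7.h905.BS
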