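import Pool.Agent.Run7.h905.BS.Qf

/-!
# Admissible polynomials
-/

open Polynomial IsDedekindDomain WithZero
open scoped Classical

set_option autoImplicit false
set_option linter.all false
set_option maxHeartbeats 400000

namespace Run7.h905.BS

open Pool.Agent.W309.TD (NoTwo)

section base

variable {k : Type} [Field k] {a : k[X]} {c : k}

theorem good1_one (hc : c ≠ 0) (ho : Odd a.natDegree) :
    Good1 k (AdjoinRoot.of (fT a c 1) X) := by
  have ha : a ≠ 0 := by
    rintro rfl
    rw [natDegree_zero] at ho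
    exact absurd ho (by decide)
  haveI : IsDomain (AdjoinRoot (fT a c 1)) := (eT a hc).toMulEquiv.isDomain _
  haveI : IsPrincipalIdealRing (AdjoinRoot (fT a c 1)) :=
    IsPrincipalIdealRing.of_surjective (eT a hc).symm.toRingHom (eT a hc).symm.surjective
  have hinj : Function.Injective (toT a hc) := (eT a hc).injective
  have hb : toT a hc (AdjoinRoot.of (fT a c 1) X) = C (-c⁻¹) * a := by
    rw [toT_of, X_comp]
    rfl
  have hc' : -c⁻¹ ≠ 0 := neg_ne_zero.2 (inv_ne_zero hc)
  refine ⟨inferInstance, fun I _ => IsPrincipalIdealRing.principal I,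
    ⟨fun z => (toT a hc z).degree, a.natDegree, ⟨?_, ?_, ?_, ?_⟩, ho, ?_⟩⟩
  · intro z
    show (toT a hc z).degree = ⊥ ↔ z = 0
    rw [degree_eq_bot, map_eq_zero_iff _ hinj]
  · intro z w
    show (toT a hc (z * w)).degree = _
    rw [map_mul, degree_mul]
  · intro z w
    show (toT a hc (z + w)).degree ≤ _
    rw [map_add]
    exact degree_add_le _ _
  · intro z w hz hzw
    have hzw' : (toT a hc z).degree = (toT a hc w).degree := hzw
    have hz' : toT a hc z ≠ 0 := by rwa [Ne, map_eq_zero_iff _ hinj]
    have hw' : toT a hc w ≠ 0 := by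
      rw [Ne, ← degree_eq_bot, ← hzw', degree_eq_bot]
      exact hz'
    refine ⟨(toT a hc z).leadingCoeff / (toT a hc w).leadingCoeff, ?_⟩
    show (toT a hc (z - _ • w)).degree < (toT a hc z).degree
    have hl : (toT a hc w).leadingCoeff ≠ 0 := leadingCoeff_ne_zero.2 hw'
    have hl' : (toT a hc z).leadingCoeff / (toT a hc w).leadingCoeff ≠ 0 :=
      div_ne_zero (leadingCoeff_ne_zero.2 hz') hl
    have h1 : ∀ e : k, toT a hc (e • w) = C e * toT a hc w := by
      intro e
      rw [Algebra.smul_def, map_mul]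
      congr 1
      show toT a hc (AdjoinRoot.of (fT a c 1) (C e)) = _
      rw [toT_of, C_comp]
    rw [map_sub, h1]
    apply degree_sub_lt
    · rw [degree_C_mul hl', hzw']
    · exact hz'
    · rw [leadingCoeff_mul, leadingCoeff_C]
      field_simp
  · show (toT a hc (AdjoinRoot.of (fT a c 1) X)).degree = (a.natDegree : WithBot ℕ)
    rw [hb, degree_C_mul hc', degree_eq_natDegree ha]

theorem fT_eq_fR (E : k[X]) (α β : k) : fT (E + C β) α 1 = fR E (C α * X + C β) := by
  unfold fT fR
  rw [Polynomial.map_add, map_C, pow_one, C_add]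
  ring

theorem good1_base {E : k[X]} (ho : Odd E.natDegree) {α : k} (hα : α ≠ 0) (β : k) :
    Good1 k (AdjoinRoot.of (fR E (C α * X + C β)) X) := by
  rw [← fT_eq_fR]
  exact good1_one hα (by rw [natDegree_add_C]; exact ho)

end base

/-- The linear polynomials, and with `R` the polynomials `R(α t ^ 2 + β)`, `α ≠ 0`, for which
`E(x) + R(β)` is irreducible. -/
inductive Adm2 {k : Type} [Field k] (E : k[X]) : k[X] → Prop
  | base (α β : k) (hα : α ≠ 0) : Adm2 E (C α * X + C β)
  | step (R : k[X]) (α β : k) (hα : α ≠ 0) (hR : Adm2 E R)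
      (hirr : Irreducible (E + C (R.eval β))) : Adm2 E (R.comp (C α * X ^ 2 + C β))

section adm

variable {k : Type} [Field k] {E : k[X]}

theorem Adm2.good1 (h2 : (2 : k) ≠ 0) (ho : Odd E.natDegree) {R : k[X]} (h : Adm2 E R) :
    Good1 k (AdjoinRoot.of (fR E R) X) := by
  induction h with
  | base α β hα => exact good1_base ho hα β
  | step R α β hα hR hirr ih => exact ih.step h2 hα hirr

theorem Adm2.deg {R : k[X]} (h : Adm2 E R) : ∃ i, R.natDegree = 2 ^ i := by
  induction h with
  | base α β hα =>
    exact ⟨0, by rw [natDegree_add_C, natDegree_C_mul hα, natDegree_X, pow_zero]⟩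
  | step R α β hα hR hirr ih =>
    obtain ⟨i, hi⟩ := ih
    refine ⟨i + 1, ?_⟩
    rw [natDegree_comp, hi, natDegree_add_C, natDegree_C_mul_X_pow 2 α hα, pow_succ]

theorem fR_der (E R : k[X]) : derivative (fR E R) = (derivative E).map C := by
  unfold fR
  rw [derivative_add, derivative_C, add_zero, derivative_map]

theorem fR_coeff (E R : k[X]) (i : ℕ) :
    (fR E R).coeff i = C (E.coeff i) + if i = 0 then R else 0 := by
  unfold fR
  rw [coeff_add, coeff_map, coeff_C]

theorem fR_sum (E R : k[X]) :
    ((fR E R).sum fun i a => C (derivative a) * X ^ i) = C (derivative R) := by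
  rw [sum_over_range (fR E R) (fun n => by simp), Finset.sum_eq_single 0]
  · rw [fR_coeff, if_pos rfl, derivative_add, derivative_C, zero_add, pow_zero, mul_one]
  · intro i _ hi
    rw [fR_coeff, if_neg hi, add_zero, derivative_C]
    simp
  · intro h0
    exact absurd (Finset.mem_range.2 (Nat.succ_pos _)) h0

/-- The curve is smooth. -/
def Sm (E R : k[X]) : Prop :=
  Ideal.span {fR E R, (derivative E).map C, C (derivative R)} = ⊤

theorem Sm.step (h2 : (2 : k) ≠ 0) {R : k[X]} {α β : k} (hα : α ≠ 0) (h : Sm E R)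
    (hs : (E + C (R.eval β)).Separable) : Sm E (R.comp (C α * X ^ 2 + C β)) := by
  unfold Sm at h ⊢
  set I : Ideal k[X][X] := Ideal.span {fR E (R.comp (C α * X ^ 2 + C β)), (derivative E).map C,
    C (derivative (R.comp (C α * X ^ 2 + C β)))} with hI
  have m1 : fR E (R.comp (C α * X ^ 2 + C β)) ∈ I := Ideal.subset_span (Or.inl rfl)
  have m2 : (derivative E).map C ∈ I := Ideal.subset_span (Or.inr (Or.inl rfl))
  have m3 : C (derivative (R.comp (C α * X ^ 2 + C β))) ∈ I :=
    Ideal.subset_span (Or.inr (Or.inr rfl))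
  -- the derivative
  have m4 : C X * C ((derivative R).comp (C α * X ^ 2 + C β)) ∈ I := by
    have e1 : C X * C ((derivative R).comp (C α * X ^ 2 + C β)) =
        C (C (2 * α)⁻¹) * C (derivative (R.comp (C α * X ^ 2 + C β))) := by
      rw [← C_mul, ← C_mul, derivative_comp, derivative_add, derivative_C, derivative_C_mul_X_pow]
      congr 1
      have e2 : (C (2 * α)⁻¹ : k[X]) * C (α * (2 : ℕ)) = 1 := by
        rw [← C_mul, ← C_1]
        congr 1
        push_cast
        field_simp
      simp only [add_zero, Nat.add_one_sub_one, pow_one]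
      linear_combination (-(X * (derivative R).comp (C α * X ^ 2 + C β))) * e2
    rw [e1]
    exact I.mul_mem_left _ m3
  -- the first relation
  have h3 : (1 : k[X][X]) ∈ Ideal.span {fR E R, (derivative E).map C, C (derivative R)} := by
    rw [h]
    exact Submodule.mem_top
  obtain ⟨A, z, hz, h4⟩ := Ideal.mem_span_insert.1 h3
  obtain ⟨B, w, hw, h5⟩ := Ideal.mem_span_insert.1 hz
  obtain ⟨D, h6⟩ := Ideal.mem_span_singleton'.1 hw
  have h7 : (1 : k[X][X]) = S2 α β A * fR E (R.comp (C α * X ^ 2 + C β)) +
      (S2 α β B * (derivative E).map C +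
        S2 α β D * C ((derivative R).comp (C α * X ^ 2 + C β))) := by
    have h8 := congrArg (S2 α β) h4
    rw [map_one, map_add, map_mul, S2_fR, h5, map_add, map_mul, ← h6, map_mul, S2_C] at h8
    have h9 : S2 α β ((derivative E).map C) = (derivative E).map C := by
      unfold S2
      rw [coe_mapRingHom, map_map]
      congr 1
      ext e
      show (s2 α β (C e)).coeff _ = _
      rw [s2_C]
    rw [h9] at h8
    exact h8
  have m5 : 1 - S2 α β D * C ((derivative R).comp (C α * X ^ 2 + C β)) ∈ I := by
    have : 1 - S2 α β D * C ((derivative R).comp (C α * X ^ 2 + C β)) =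
        S2 α β A * fR E (R.comp (C α * X ^ 2 + C β)) + S2 α β B * (derivative E).map C := by
      linear_combination h7
    rw [this]
    exact add_mem (I.mul_mem_left _ m1) (I.mul_mem_left _ m2)
  -- the second relation
  obtain ⟨u, v, huv⟩ := hs
  obtain ⟨W, hW⟩ : X ∣ R.comp (C α * X ^ 2 + C β) - C (R.eval β) := by
    rw [X_dvd_iff, coeff_sub, coeff_C_zero, coeff_zero_eq_eval_zero, eval_comp]
    simp
  have m6 : 1 + u.map C * C W * C X ∈ I := by
    have e1 := congrArg (fun p => p.map (C : k →+* k[X])) huv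
    simp only [Polynomial.map_add, Polynomial.map_mul, Polynomial.map_one, derivative_add,
      derivative_C, add_zero, map_C] at e1
    have e2 := congrArg (C : k[X] → k[X][X]) hW
    rw [C_sub, C_mul] at e2
    have : 1 + u.map C * C W * C X = u.map C * fR E (R.comp (C α * X ^ 2 + C β)) +
        v.map C * (derivative E).map C := by
      rw [← e1]
      unfold fR
      linear_combination (-(u.map C)) * e2
    rw [this]
    exact add_mem (I.mul_mem_left _ m1) (I.mul_mem_left _ m2)
  rw [Ideal.eq_top_iff_one]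
  have e : (1 : k[X][X]) = (1 - S2 α β D * C ((derivative R).comp (C α * X ^ 2 + C β))) +
      S2 α β D * C ((derivative R).comp (C α * X ^ 2 + C β)) * (1 + u.map C * C W * C X) -
      (S2 α β D * u.map C * C W) * (C X * C ((derivative R).comp (C α * X ^ 2 + C β))) := by
    ring
  rw [e]
  exact sub_mem (add_mem m5 (I.mul_mem_left _ m6)) (I.mul_mem_left _ m4)

theorem Adm2.sm [PerfectField k] (h2 : (2 : k) ≠ 0) {R : k[X]} (h : Adm2 E R) : Sm E R := by
  induction h with
  | base α β hα =>
    unfold Sm
    rw [Ideal.eq_top_iff_one]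
    have h1 : derivative (C α * X + C β : k[X]) = C α := by
      rw [derivative_add, derivative_C, derivative_C_mul, derivative_X, mul_one, add_zero]
    rw [h1]
    have h3 : (1 : k[X][X]) = C (C α⁻¹) * C (C α) := by
      rw [← C_mul, ← C_mul, inv_mul_cancel₀ hα, C_1, C_1]
    rw [h3]
    exact Ideal.mul_mem_left _ _ (Ideal.subset_span (Or.inr (Or.inr rfl)))
  | step R α β hα hR hirr ih =>
    exact ih.step h2 hα (PerfectField.separable_of_irreducible hirr)

theorem fR_monic (hE : E.Monic) (hd : 0 < E.natDegree) (R : k[X]) : (fR E R).Monic := by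
  unfold fR
  apply (hE.map _).add_of_left
  rw [degree_map_eq_of_injective C_injective]
  refine lt_of_le_of_lt degree_C_le ?_
  exact natDegree_pos_iff_degree_pos.1 hd

theorem fR_deg (hd : 0 < E.natDegree) (R : k[X]) : (fR E R).natDegree = E.natDegree := by
  unfold fR
  rw [natDegree_add_eq_left_of_natDegree_lt, natDegree_map_eq_of_injective C_injective]
  rw [natDegree_map_eq_of_injective C_injective, natDegree_C]
  exact hd

/-- **The curves `E(x) + R(t) = 0`, `R` admissible.** -/
theorem Adm2.goodCurve [PerfectField k] (h2 : (2 : k) ≠ 0) (hE : E.Monic) (ho : Odd E.natDegree)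
    {R : k[X]} (h : Adm2 E R) : GoodCurve (fR E R) := by
  have hg := h.good1 h2 ho
  haveI := hg.ded
  obtain ⟨d, n, hd, hn, hτ⟩ := hg.deg
  refine ⟨fR_monic hE ho.pos _, by rw [fR_deg ho.pos]; exact ho, ?_, hg.ded, hg.ntw, ?_⟩
  · rw [fR_der, fR_sum]
    exact h.sm h2
  · intro v hv
    obtain ⟨e, _, he⟩ := hd.unit hv
    exact ⟨e, he⟩

end adm

end Run7.h905.BS
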