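import Pool.Agent.Run7.h905.BS.Qg
import Pool.Agent.Run7.h905.BS.PtsU

/-!
# The twists `R(t) y ^ 2 = E(x) + R(t)`
-/

open Polynomial IsDedekindDomain WithZero
open scoped Classical

set_option autoImplicit false
set_option linter.all false
set_option maxHeartbeats 400000

namespace Run7.h905.BS

open Pool.Agent.Y160.SE
open Pool.Agent.N352.Sha (ShaTrivial)

/-- An irreducible polynomial of degree prime to the degree of the extension stays irreducible. -/
theorem irr_cop {k L : Type} [Field k] [Field L] [Algebra k L] [FiniteDimensional k L] {g : k[X]}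
    (hg : Irreducible g) (hcop : Nat.Coprime g.natDegree (Module.finrank k L)) :
    Irreducible (g.map (algebraMap k L)) := by
  have hnu : ¬ IsUnit (g.map (algebraMap k L)) := by
    intro hu
    have h1 := natDegree_eq_zero_of_isUnit hu
    rw [natDegree_map] at h1
    exact absurd h1 hg.natDegree_pos.ne'
  have hne : g.map (algebraMap k L) ≠ 0 := (Polynomial.map_ne_zero_iff
    (algebraMap k L).injective).2 hg.ne_zero
  obtain ⟨p, hp, hpd⟩ := WfDvdMonoid.exists_irreducible_factor hnu hne
  haveI : Fact (Irreducible p) := ⟨hp⟩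
  haveI : Fact (Irreducible g) := ⟨hg⟩
  have hroot : eval₂ (algebraMap k (AdjoinRoot p)) (AdjoinRoot.root p) g = 0 := by
    obtain ⟨s, hs⟩ := hpd
    have h1 : eval₂ (AdjoinRoot.of p) (AdjoinRoot.root p) (g.map (algebraMap k L)) = 0 := by
      rw [hs, eval₂_mul, AdjoinRoot.eval₂_root, zero_mul]
    rw [eval₂_map] at h1
    exact h1
  letI : Algebra (AdjoinRoot g) (AdjoinRoot p) :=
    (AdjoinRoot.lift (algebraMap k (AdjoinRoot p)) (AdjoinRoot.root p) hroot).toAlgebra
  haveI : IsScalarTower k (AdjoinRoot g) (AdjoinRoot p) := by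
    refine IsScalarTower.of_algebraMap_eq fun e => ?_
    show _ = AdjoinRoot.lift (algebraMap k (AdjoinRoot p)) (AdjoinRoot.root p) hroot
      (AdjoinRoot.of g e)
    rw [AdjoinRoot.lift_of]
  haveI : FiniteDimensional L (AdjoinRoot p) := (AdjoinRoot.powerBasis hp.ne_zero).finite
  haveI : FiniteDimensional k (AdjoinRoot g) := (AdjoinRoot.powerBasis hg.ne_zero).finite
  haveI : FiniteDimensional k (AdjoinRoot p) := FiniteDimensional.trans k L (AdjoinRoot p)
  haveI : FiniteDimensional (AdjoinRoot g) (AdjoinRoot p) :=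
    FiniteDimensional.right k (AdjoinRoot g) (AdjoinRoot p)
  have h1 := Module.finrank_mul_finrank k L (AdjoinRoot p)
  have h2 := Module.finrank_mul_finrank k (AdjoinRoot g) (AdjoinRoot p)
  have h3 : Module.finrank L (AdjoinRoot p) = p.natDegree := by
    rw [(AdjoinRoot.powerBasis hp.ne_zero).finrank, AdjoinRoot.powerBasis_dim]
  have h4 : Module.finrank k (AdjoinRoot g) = g.natDegree := by
    rw [(AdjoinRoot.powerBasis hg.ne_zero).finrank, AdjoinRoot.powerBasis_dim]
  rw [h3] at h1
  rw [h4] at h2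
  have h5 : g.natDegree ∣ Module.finrank k L * p.natDegree := ⟨_, h1.trans h2.symm⟩
  have h6 : g.natDegree ∣ p.natDegree := hcop.dvd_of_dvd_mul_left h5
  have h7 : g.natDegree ≤ p.natDegree := Nat.le_of_dvd hp.natDegree_pos h6
  obtain ⟨s, hs⟩ := hpd
  have hs0 : s ≠ 0 := by
    rintro rfl
    rw [mul_zero] at hs
    exact hne hs
  have h8 := congrArg natDegree hs
  rw [natDegree_map, natDegree_mul hp.ne_zero hs0] at h8
  have h9 : s.natDegree = 0 := by omega
  have h10 : IsUnit s := by
    rw [natDegree_eq_zero] at h9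
    obtain ⟨e, rfl⟩ := h9
    rw [isUnit_C, isUnit_iff_ne_zero]
    rintro rfl
    exact hs0 C_0
  rw [hs]
  exact (irreducible_mul_isUnit h10).2 hp

section main

variable {k : Type} [Field k] [PerfectField k] {E : k[X]} {R : k[X]} {m : ℕ} {g : Fin m → k[X]}

omit [PerfectField k] in
theorem liftR (hgm : ∀ j, (g j).Monic) (hgi : ∀ j, Irreducible (g j))
    (hgd : Function.Injective g) (hgo : ∀ j, Odd (g j).natDegree) (hE : E = ∏ j, g j)
    (hR : Adm2 E R) (hRi : Irreducible R) : LiftQ (fR E R) R fun j => (g j).map C := by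
  haveI : Fact (Irreducible R) := ⟨hRi⟩
  haveI : FiniteDimensional k (AdjoinRoot R) := (AdjoinRoot.powerBasis hRi.ne_zero).finite
  have hfin : Module.finrank k (AdjoinRoot R) = R.natDegree := by
    rw [(AdjoinRoot.powerBasis hRi.ne_zero).finrank, AdjoinRoot.powerBasis_dim]
  have hmap : ∀ p : k[X], (p.map C).map (AdjoinRoot.mk R) = p.map (algebraMap k (AdjoinRoot R)) := by
    intro p
    rw [map_map]
    rfl
  refine ⟨fun j => (hgm j).map _, ?_, ?_, ?_⟩
  · intro j
    rw [hmap]
    apply irr_cop (hgi j)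
    obtain ⟨i, hi⟩ := hR.deg
    rw [hfin, hi]
    exact Nat.Coprime.pow_right i (Nat.coprime_two_right.2 (hgo j))
  · intro a b hab
    simp only [hmap] at hab
    exact hgd (map_injective _ (algebraMap k (AdjoinRoot R)).injective hab)
  · have h1 : (fR E R).map (AdjoinRoot.mk R) = E.map (algebraMap k (AdjoinRoot R)) := by
      unfold fR
      rw [Polynomial.map_add, hmap, map_C, AdjoinRoot.mk_self, C_0, add_zero]
    rw [h1, hE, Polynomial.map_prod]
    simp only [hmap]

variable (K : Type) [Field K] [Algebra k[X] K] [IsFractionRing k[X] K]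

/-- **The rank is `m - 1`, the part of the Tate-Shafarevich group is zero.** -/
theorem mainR (h2 : (2 : k) ≠ 0) (hgm : ∀ j, (g j).Monic) (hgi : ∀ j, Irreducible (g j))
    (hgd : Function.Injective g) (hgo : ∀ j, Odd (g j).natDegree) (hE : E = ∏ j, g j)
    (ho : Odd E.natDegree) (hR : Adm2 E R) (hRi : Irreducible R) :
    (∀ x : Jac 2 (tF K (fR E R) (qK K R)) K, 2 • x = 0 → x = 0) ∧
      Nat.card (Jac 2 (tF K (fR E R) (qK K R)) K ⧸ dbl (Jac 2 (tF K (fR E R) (qK K R)) K)) =
        2 ^ (m - 1) ∧
      ShaTrivial 2 (tF K (fR E R) (qK K R)) k[X] := by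
  have hEm : E.Monic := by
    rw [hE]
    exact monic_prod_of_monic _ _ fun j _ => hgm j
  have hf := hR.goodCurve h2 hEm ho
  have hL := liftR hgm hgi hgd hgo hE hR hRi
  obtain ⟨h3, ⟨r, hr, h4⟩, h5⟩ := critS K h2 hf hRi (hL.split hRi)
  have key : Nat.card (Jac 2 (tF K (fR E R) (qK K R)) K ⧸
      dbl (Jac 2 (tF K (fR E R) (qK K R)) K)) = 2 ^ (m - 1) := by
    by_cases hm : 2 ≤ m
    · obtain ⟨P, -, -, h6⟩ := critP K h2 hf hRi hL hm (D := Finset.univ) (u := fun _ => 1) (by
        intro j _
        have h7 : fR E R - C R * 1 ^ 2 = ∏ j, (g j).map C := by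
          have h8 : (∏ j, (g j).map C : k[X][X]) = E.map C := by
            rw [hE, Polynomial.map_prod]
          rw [h8]
          unfold fR
          ring
        rw [h7]
        exact Finset.dvd_prod_of_mem (fun j => (g j).map C) (Finset.mem_univ j))
      exact (h6 (by rw [Finset.card_univ, Fintype.card_fin]; omega)).2
    · have h9 : m - 1 = 0 := by omega
      rw [h9] at hr
      have : r = 0 := by omega
      rw [h4, this, h9]
  exact ⟨h3, key, h5 key⟩

end main

end Run7.h905.BS
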