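import Pool.Agent.Run7.h905.BS.Qh
import Mathlib.RingTheory.Polynomial.Dickson
import Mathlib.FieldTheory.KummerExtension

/-!
# Dickson polynomials
-/

open Polynomial
open scoped Classical

set_option autoImplicit false
set_option linter.all false
set_option maxHeartbeats 400000

namespace Run7.h905.BS

open Pool.Agent.Y160.SE
open Pool.Agent.N352.Sha (ShaTrivial)

section dick

variable {k : Type} [Field k]

/-- The Dickson polynomial `D_n`, `D_n(u + 1 / u) = u ^ n + 1 / u ^ n`. -/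
noncomputable def Dk (k : Type) [Field k] (n : ℕ) : k[X] := dickson 1 (1 : k) n

theorem Dk_rec (n : ℕ) : Dk k (n + 2) = X * Dk k (n + 1) - Dk k n := by
  unfold Dk
  rw [dickson_add_two, C_1, one_mul]

theorem Dk_zero : Dk k 0 = 2 := by
  unfold Dk
  rw [dickson_zero]
  push_cast
  norm_num

theorem Dk_one : Dk k 1 = X := by
  unfold Dk
  rw [dickson_one]

theorem Dk_aux (n : ℕ) : (Dk k n).natDegree ≤ n ∧
    ((Dk k (n + 1)).Monic ∧ (Dk k (n + 1)).natDegree = n + 1) := by
  induction n with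
  | zero =>
    refine ⟨?_, ?_, ?_⟩
    · rw [Dk_zero]
      exact (natDegree_C (2 : k)).le
    · rw [zero_add, Dk_one]
      exact monic_X
    · rw [zero_add, Dk_one, natDegree_X]
  | succ n ih =>
    obtain ⟨h1, h2, h3⟩ := ih
    have h4 : (X * Dk k (n + 1)).natDegree = n + 2 := by
      rw [natDegree_X_mul h2.ne_zero, h3]
    have h5 : (X * Dk k (n + 1)).Monic := monic_X.mul h2
    have h6 : (Dk k n).degree < (X * Dk k (n + 1)).degree := by
      rw [degree_eq_natDegree h5.ne_zero, h4]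
      refine lt_of_le_of_lt degree_le_natDegree ?_
      exact_mod_cast lt_of_le_of_lt h1 (by omega)
    refine ⟨h3.le, ?_, ?_⟩
    · rw [Dk_rec]
      exact h5.sub_of_left h6
    · rw [Dk_rec, natDegree_sub_eq_left_of_natDegree_lt, h4]
      rw [h4]
      omega

theorem Dk_monic {n : ℕ} (hn : n ≠ 0) : (Dk k n).Monic := by
  obtain ⟨m, rfl⟩ := Nat.exists_eq_succ_of_ne_zero hn
  exact (Dk_aux m).2.1

theorem Dk_deg {n : ℕ} (hn : n ≠ 0) : (Dk k n).natDegree = n := by
  obtain ⟨m, rfl⟩ := Nat.exists_eq_succ_of_ne_zero hn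
  exact (Dk_aux m).2.2

theorem Dk_eval {u : k} (hu : u ≠ 0) (n : ℕ) :
    (Dk k n).eval (u + u⁻¹) = u ^ n + u⁻¹ ^ n := by
  unfold Dk
  exact dickson_one_one_eval_add_inv u u⁻¹ (mul_inv_cancel₀ hu) n

theorem Dk_map {L : Type} [Field L] (φ : k →+* L) (n : ℕ) : (Dk k n).map φ = Dk L n := by
  unfold Dk
  rw [map_dickson, map_one]

/-- The roots of `D_n`. -/
noncomputable def eD (ι ζ : k) (j : ℕ) : k := ι * ζ ^ j + (ι * ζ ^ j)⁻¹

variable {n : ℕ} {ι ζ : k}

theorem eD_root (hn : Odd n) (hι : ι ^ 2 = -1) (hζ : IsPrimitiveRoot ζ n) (j : ℕ) :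
    (Dk k n).eval (eD ι ζ j) = 0 := by
  have hι0 : ι ≠ 0 := by
    rintro rfl
    norm_num at hι
  have hζ0 : ζ ≠ 0 := hζ.ne_zero (by rintro rfl; exact absurd hn (by decide))
  have hw : ι * ζ ^ j ≠ 0 := mul_ne_zero hι0 (pow_ne_zero _ hζ0)
  unfold eD
  rw [Dk_eval hw]
  have h1 : (ι * ζ ^ j) ^ n = ι ^ n := by
    rw [mul_pow, ← pow_mul, mul_comm j n, pow_mul, hζ.pow_eq_one, one_pow, mul_one]
  rw [inv_pow, h1]
  have h2 : ι ^ n * ι ^ n = -1 := by
    rw [← pow_add, ← two_mul, pow_mul, hι, hn.neg_one_pow]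
  have h3 : ι ^ n ≠ 0 := pow_ne_zero _ hι0
  field_simp
  rw [pow_two, h2]
  ring

theorem eD_inj (h2 : (2 : k) ≠ 0) (hn : Odd n) (hι : ι ^ 2 = -1) (hζ : IsPrimitiveRoot ζ n)
    {i j : ℕ} (hi : i < n) (hj : j < n) (h : eD ι ζ i = eD ι ζ j) : i = j := by
  have hι0 : ι ≠ 0 := by
    rintro rfl
    norm_num at hι
  have hζ0 : ζ ≠ 0 := hζ.ne_zero (by rintro rfl; exact absurd hn (by decide))
  have hw : ∀ j, ι * ζ ^ j ≠ 0 := fun j => mul_ne_zero hι0 (pow_ne_zero _ hζ0)
  unfold eD at h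
  have h3 : (ι * ζ ^ i - ι * ζ ^ j) * (1 - ((ι * ζ ^ i) * (ι * ζ ^ j))⁻¹) = 0 := by
    have a1 := mul_inv_cancel₀ (hw i)
    have a2 := mul_inv_cancel₀ (hw j)
    rw [mul_inv]
    linear_combination h - (ι * ζ ^ j)⁻¹ * a1 + (ι * ζ ^ i)⁻¹ * a2
  rcases mul_eq_zero.1 h3 with h4 | h4
  · have h5 : ζ ^ i = ζ ^ j := mul_left_cancel₀ hι0 (sub_eq_zero.1 h4)
    exact hζ.pow_inj hi hj h5
  · exfalso
    have h5 : (ι * ζ ^ i) * (ι * ζ ^ j) = 1 := by
      have h6 := sub_eq_zero.1 h4
      rw [eq_comm, inv_eq_one] at h6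
      exact h6
    have h6 : -(ζ ^ (i + j)) = 1 := by
      rw [← h5, pow_add]
      linear_combination (-(ζ ^ i * ζ ^ j)) * hι
    have h7 := congrArg (fun z => z ^ n) h6
    simp only [one_pow] at h7
    rw [hn.neg_pow, ← pow_mul, mul_comm (i + j) n, pow_mul, hζ.pow_eq_one, one_pow] at h7
    exact h2 (by linear_combination (-1 : k) * h7)

theorem Dk_prod (h2 : (2 : k) ≠ 0) (hn : Odd n) (hι : ι ^ 2 = -1) (hζ : IsPrimitiveRoot ζ n) :
    Dk k n = ∏ j : Fin n, (X - C (eD ι ζ j)) := by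
  have hn0 : n ≠ 0 := by rintro rfl; exact absurd hn (by decide)
  have hinj : Function.Injective fun j : Fin n => eD ι ζ j := by
    intro a b hab
    exact Fin.ext (eD_inj h2 hn hι hζ a.2 b.2 hab)
  refine eq_of_monic_of_dvd_of_natDegree_le (monic_prod_of_monic _ _ fun j _ => monic_X_sub_C _)
    (Dk_monic hn0) ?_ ?_
  · refine Finset.prod_dvd_of_coprime ?_ ?_
    · intro a _ b _ hab
      exact isCoprime_X_sub_C_of_isUnit_sub (isUnit_iff_ne_zero.2
        (sub_ne_zero.2 fun h => hab (hinj h)))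
    · intro j _
      rw [dvd_iff_isRoot, IsRoot.def]
      exact eD_root hn hι hζ j
  · rw [Dk_deg hn0, natDegree_prod_of_monic _ _ fun j _ => monic_X_sub_C _]
    simp

end dick

section irr

variable {k : Type} [Field k] {n : ℕ}

/-- `D_n - (v + 1 / v)` is irreducible if `v` is not a `p`-th power for the primes `p` dividing the
odd number `n`. -/
theorem Dk_irr (hn : Odd n) {v : k} (hv0 : v ≠ 0)
    (hv : ∀ p : ℕ, p.Prime → p ∣ n → ∀ b : k, b ^ p ≠ v) :
    Irreducible (Dk k n - C (v + v⁻¹)) := by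
  have hn0 : n ≠ 0 := by rintro rfl; exact absurd hn (by decide)
  have hirr := X_pow_sub_C_irreducible_of_odd hn hv
  haveI : Fact (Irreducible (X ^ n - C v)) := ⟨hirr⟩
  haveI : FiniteDimensional k (AdjoinRoot (X ^ n - C v)) :=
    (AdjoinRoot.powerBasis hirr.ne_zero).finite
  have hfin : Module.finrank k (AdjoinRoot (X ^ n - C v)) = n := by
    rw [(AdjoinRoot.powerBasis hirr.ne_zero).finrank, AdjoinRoot.powerBasis_dim,
      natDegree_X_pow_sub_C]
  set L := AdjoinRoot (X ^ n - C v) with hL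
  set u : L := AdjoinRoot.root (X ^ n - C v) with hu
  have hun : u ^ n = algebraMap k L v := by
    have h1 := AdjoinRoot.eval₂_root (X ^ n - C v)
    rw [eval₂_sub, eval₂_X_pow, eval₂_C] at h1
    exact sub_eq_zero.1 h1
  have hu0 : u ≠ 0 := by
    intro h
    rw [h, zero_pow hn0] at hun
    exact hv0 ((map_eq_zero (algebraMap k L)).1 hun.symm)
  -- the trace
  set x : L := u + u⁻¹ with hx
  have hroot : aeval x (Dk k n - C (v + v⁻¹)) = 0 := by
    rw [aeval_def, eval₂_eq_eval_map, Polynomial.map_sub, Dk_map, map_C, eval_sub, eval_C, hx,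
      Dk_eval hu0, inv_pow, hun, map_add, map_inv₀, sub_self]
  have hne : Dk k n - C (v + v⁻¹) ≠ 0 := by
    intro h
    have := congrArg natDegree h
    rw [natDegree_sub_C, Dk_deg hn0, natDegree_zero] at this
    exact hn0 this
  have hint : IsIntegral k x := Algebra.IsIntegral.isIntegral x
  have hdvd : minpoly k x ∣ Dk k n - C (v + v⁻¹) := minpoly.dvd k x hroot
  -- degree
  have htop : IntermediateField.adjoin k {u} = ⊤ := by
    rw [eq_top_iff]
    intro z _
    obtain ⟨p, rfl⟩ := AdjoinRoot.mk_surjective z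
    rw [← AdjoinRoot.aeval_eq]
    have : aeval (AdjoinRoot.root (X ^ n - C v)) p =
        (aeval (⟨u, IntermediateField.mem_adjoin_simple_self k u⟩ :
          IntermediateField.adjoin k {u}) p : L) := by
      rw [← IntermediateField.algebraMap_apply, ← aeval_algebraMap_apply]
      rfl
    rw [this]
    exact SetLike.coe_mem _
  set F := IntermediateField.adjoin k {x} with hF
  have hxF : x ∈ F := IntermediateField.mem_adjoin_simple_self k x
  have htop' : IntermediateField.adjoin F {u} = ⊤ := by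
    rw [eq_top_iff]
    intro z _
    have hz : z ∈ IntermediateField.adjoin k {u} := by
      rw [htop]
      exact IntermediateField.mem_top
    have hle : IntermediateField.adjoin k {u} ≤
        (IntermediateField.adjoin F {u}).restrictScalars k := by
      rw [IntermediateField.adjoin_simple_le_iff]
      exact IntermediateField.mem_adjoin_simple_self F u
    exact hle hz
  have hle2 : Module.finrank F L ≤ 2 := by
    rw [← IntermediateField.finrank_top', ← htop',
      IntermediateField.adjoin.finrank (Algebra.IsIntegral.isIntegral u)]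
    have hq : (X ^ 2 - C (⟨x, hxF⟩ : F) * X + C 1 : F[X]).natDegree = 2 := by
      compute_degree!
    have hqm : (X ^ 2 - C (⟨x, hxF⟩ : F) * X + C 1 : F[X]).Monic := by
      monicity!
    have hq0 : aeval u (X ^ 2 - C (⟨x, hxF⟩ : F) * X + C 1 : F[X]) = 0 := by
      rw [map_add, map_sub, map_mul, map_pow, aeval_X, aeval_C, aeval_C, map_one]
      show u ^ 2 - x * u + 1 = 0
      rw [hx]
      linear_combination (-1 : L) * (inv_mul_cancel₀ hu0)
    rw [← hq]
    exact natDegree_le_of_dvd (minpoly.dvd F u hq0) hqm.ne_zero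
  have hmul := Module.finrank_mul_finrank k F L
  rw [hfin] at hmul
  have h1 : Module.finrank F L = 1 := by
    have hpos : 0 < Module.finrank F L := Nat.pos_of_ne_zero (by
      intro h
      rw [h, mul_zero] at hmul
      exact hn0 hmul.symm)
    have h2 : Module.finrank F L ≠ 2 := by
      intro h
      rw [h] at hmul
      rw [← hmul] at hn
      exact (Nat.not_odd_iff_even.2 (even_two.mul_left _)) hn
    omega
  rw [h1, mul_one, hF, IntermediateField.adjoin.finrank hint] at hmul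
  have hmon : (Dk k n - C (v + v⁻¹)).Monic := by
    apply (Dk_monic hn0).sub_of_left
    rw [degree_eq_natDegree (Dk_monic hn0).ne_zero, Dk_deg hn0]
    exact lt_of_le_of_lt degree_C_le (by exact_mod_cast Nat.pos_of_ne_zero hn0)
  have heq := eq_of_monic_of_dvd_of_natDegree_le (minpoly.monic hint) hmon hdvd (by
    rw [natDegree_sub_C, Dk_deg hn0, hmul])
  rw [heq]
  exact minpoly.irreducible hint

/-- `X ^ (2 ^ i) - a` is irreducible if `-1` is a square and `a` is not. -/
theorem two_irr (i : ℕ) : ∀ (k : Type) [Field k] (ι a : k), ι ^ 2 = -1 → (∀ b : k, b ^ 2 ≠ a) →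
    Irreducible (X ^ 2 ^ i - C a : k[X]) := by
  induction i with
  | zero =>
    intro k _ ι a hι ha
    rw [pow_zero, pow_one]
    exact irreducible_X_sub_C a
  | succ i ih =>
    intro k _ ι a hι ha
    rw [pow_succ]
    refine X_pow_mul_sub_C_irreducible (X_pow_sub_C_irreducible_of_prime Nat.prime_two ha) ?_
    intro E _ _ x hx
    have hint : IsIntegral k x := by
      by_contra h
      have := minpoly.eq_zero h
      rw [this] at hx
      exact X_pow_sub_C_ne_zero two_pos a hx.symm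
    apply ih _ (algebraMap k _ ι)
    · rw [← map_pow, hι, map_neg, map_one]
    · intro b hb
      apply ha (ι * Algebra.norm k b)
      rw [mul_pow, hι, ← map_pow, hb, ← IntermediateField.adjoin.powerBasis_gen hint,
        Algebra.PowerBasis.norm_gen_eq_coeff_zero_minpoly]
      simp [IntermediateField.minpoly_gen, hx]

end irr

section tower

variable {k : Type} [Field k]

/-- `c t ^ (2 ^ i) - e`. -/
noncomputable def Rt (c e : k) (i : ℕ) : k[X] := C c * X ^ 2 ^ i - C e

theorem Rt_eval (c e : k) (i : ℕ) : (Rt c e i).eval 0 = -e := by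
  unfold Rt
  rw [eval_sub, eval_mul, eval_C, eval_pow, eval_X, eval_C, zero_pow (pow_ne_zero _ two_ne_zero)]
  ring

theorem Rt_adm {E : k[X]} {c e : k} (hc : c ≠ 0) (hE : Irreducible (E - C e)) (i : ℕ) :
    Adm2 E (Rt c e i) := by
  induction i with
  | zero =>
    have : Rt c e 0 = C c * X + C (-e) := by
      unfold Rt
      rw [pow_zero, pow_one, C_neg, sub_eq_add_neg]
    rw [this]
    exact Adm2.base c (-e) hc
  | succ i ih =>
    have : Rt c e (i + 1) = (Rt c e i).comp (C 1 * X ^ 2 + C 0) := by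
      unfold Rt
      rw [sub_comp, mul_comp, C_comp, C_comp, pow_comp, X_comp, C_0, C_1, add_zero, one_mul,
        ← pow_mul, pow_succ, mul_comm (2 ^ i) 2]
    rw [this]
    refine Adm2.step _ 1 0 one_ne_zero ih ?_
    rw [Rt_eval, C_neg, ← sub_eq_add_neg]
    exact hE

theorem Rt_irr {ι c e : k} (hι : ι ^ 2 = -1) (hc : c ≠ 0) (h : ∀ b : k, b ^ 2 ≠ e / c) (i : ℕ) :
    Irreducible (Rt c e i) := by
  have h1 := two_irr i k ι (e / c) hι h
  have h2 : Rt c e i = C c * (X ^ 2 ^ i - C (e / c)) := by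
    unfold Rt
    rw [mul_sub, ← C_mul, mul_div_cancel₀ _ hc]
  rw [h2]
  exact (irreducible_isUnit_mul (isUnit_C.2 (isUnit_iff_ne_zero.2 hc))).2 h1

end tower

section gen

variable {k : Type} [Field k] [Finite k]

theorem gen_order {v : kˣ} (hv : ∀ x : kˣ, x ∈ Subgroup.zpowers v) :
    orderOf v = Nat.card k - 1 := by
  rw [orderOf_eq_card_of_forall_mem_zpowers hv, Nat.card_units]

theorem gen_prime {v : kˣ} (hv : ∀ x : kˣ, x ∈ Subgroup.zpowers v) {p : ℕ} (hp : p.Prime)
    (hd : p ∣ Nat.card k - 1) (b : k) : b ^ p ≠ v := by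
  intro h
  have hb : b ≠ 0 := by
    rintro rfl
    rw [zero_pow hp.ne_zero] at h
    exact v.ne_zero h.symm
  have h1 : (Units.mk0 b hb) ^ p = v := Units.ext (by
    rw [Units.val_pow_eq_pow_val, Units.val_mk0, h])
  have ho := gen_order hv
  obtain ⟨N, hN⟩ := hd
  have hpos : 0 < Nat.card k - 1 := by
    have := Finite.one_lt_card (α := k)
    omega
  have hN0 : 0 < N := Nat.pos_of_ne_zero (by
    rintro rfl
    omega)
  have h2 : v ^ N = 1 := by
    rw [← h1, ← pow_mul, ← hN, ← Nat.card_units]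
    exact pow_card_eq_one'
  have h3 := orderOf_le_of_pow_eq_one hN0 h2
  rw [ho, hN] at h3
  have h4 := hp.two_le
  nlinarith

theorem gen_root {v : kˣ} (hv : ∀ x : kˣ, x ∈ Subgroup.zpowers v) {r : ℕ}
    (hd : r ∣ Nat.card k - 1) : ∃ z : k, IsPrimitiveRoot z r := by
  have hpos : 0 < Nat.card k - 1 := by
    have := Finite.one_lt_card (α := k)
    omega
  obtain ⟨s, hs⟩ := hd
  have h1 : IsPrimitiveRoot v (Nat.card k - 1) := by
    rw [← gen_order hv]
    exact IsPrimitiveRoot.orderOf v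
  have h2 : IsPrimitiveRoot (v : k) (Nat.card k - 1) := IsPrimitiveRoot.coe_units_iff.2 h1
  exact ⟨_, h2.pow hpos (hs.trans (mul_comm _ _))⟩

theorem mainD (K : Type) [Field K] [Algebra k[X] K] [IsFractionRing k[X] K] {v : kˣ}
    (hv : ∀ x : kˣ, x ∈ Subgroup.zpowers v) {n : ℕ} (hn : Odd n) (hn3 : 3 ≤ n)
    (hd : 4 * n ∣ Nat.card k - 1) (i : ℕ) {e c : k} (hev : e = (v : k) + (v : k)⁻¹)
    (hcv : c = e * (v : k)) :
    (∀ x : Jac 2 (tF K (fR (Dk k n) (Rt c e i)) (qK K (Rt c e i))) K, 2 • x = 0 → x = 0) ∧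
      Nat.card (Jac 2 (tF K (fR (Dk k n) (Rt c e i)) (qK K (Rt c e i))) K ⧸
        dbl (Jac 2 (tF K (fR (Dk k n) (Rt c e i)) (qK K (Rt c e i))) K)) = 2 ^ (n - 1) ∧
      ShaTrivial 2 (tF K (fR (Dk k n) (Rt c e i)) (qK K (Rt c e i))) k[X] := by
  have h1lt := Finite.one_lt_card (α := k)
  have hdn : n ∣ Nat.card k - 1 := (Dvd.intro_left 4 rfl).trans hd
  have hd4 : 4 ∣ Nat.card k - 1 := (Dvd.intro n rfl).trans hd
  have hd2 : 2 ∣ Nat.card k - 1 := (by norm_num : 2 ∣ 4).trans hd4
  have hle : 4 * n ≤ Nat.card k - 1 := Nat.le_of_dvd (by omega) hd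
  -- the characteristic
  obtain ⟨z2, hz2⟩ := gen_root hv hd2
  have h2 : (2 : k) ≠ 0 := by
    intro h
    have h3 : z2 = 1 := by
      have h4 : (z2 - 1) ^ 2 = 0 := by
        have := hz2.pow_eq_one
        linear_combination this - (z2 - 1) * h
      exact sub_eq_zero.1 (pow_eq_zero_iff two_ne_zero |>.1 h4)
    exact hz2.ne_one one_lt_two h3
  obtain ⟨ι, hι4⟩ := gen_root hv hd4
  have hι : ι ^ 2 = -1 := (hι4.pow (by norm_num) (by norm_num : 4 = 2 * 2)).eq_neg_one_of_two_right
  obtain ⟨ζ, hζ⟩ := gen_root hv hdn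
  have hv0 : (v : k) ≠ 0 := v.ne_zero
  -- the sum
  have he : e ≠ 0 := by
    intro h
    rw [hev] at h
    have h3 : (v : k) ^ 2 = -1 := by
      have := mul_inv_cancel₀ hv0
      linear_combination (v : k) * h - this
    have h4 : v ^ 4 = 1 := Units.ext (by
      rw [Units.val_pow_eq_pow_val, Units.val_one]
      linear_combination ((v : k) ^ 2 - 1) * h3)
    have h5 := orderOf_le_of_pow_eq_one (by norm_num) h4
    rw [gen_order hv] at h5
    omega
  have hc : c ≠ 0 := by
    rw [hcv]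
    exact mul_ne_zero he hv0
  have hirr : Irreducible (Dk k n - C e) := by
    rw [hev]
    exact Dk_irr hn hv0 fun p hp hpn b => gen_prime hv hp (hpn.trans hdn) b
  have hRi : Irreducible (Rt c e i) := by
    refine Rt_irr hι hc ?_ i
    intro b hb
    have h3 : b ^ 2 = (v : k)⁻¹ := by
      rw [hb, hcv]
      field_simp
    exact gen_prime hv Nat.prime_two hd2 b⁻¹ (by rw [inv_pow, h3, inv_inv])
  have hn0 : n ≠ 0 := by omega
  refine mainR K (m := n) (g := fun j => X - C (eD ι ζ j)) h2 (fun j => monic_X_sub_C _)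
    (fun j => irreducible_X_sub_C _) ?_ (fun j => ?_) (Dk_prod h2 hn hι hζ) ?_
    (Rt_adm hc hirr i) hRi
  · intro a b hab
    have h3 : eD ι ζ a = eD ι ζ b := by
      have h4 := sub_right_inj.1 hab
      exact C_injective h4
    exact Fin.ext (eD_inj h2 hn hι hζ a.2 b.2 h3)
  · rw [natDegree_X_sub_C]
    exact odd_one
  · rw [Dk_deg hn0]
    exact hn

end gen

end Run7.h905.BS
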