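import Pool.Agent.Run7.h905.BS.Qi
import Pool.Agent.Run7.h905.CB.Ch

/-!
# A positive proportion of the towers `c t ^ (2 ^ i) - e`
-/

open Polynomial
open scoped Classical

set_option autoImplicit false
set_option linter.all false
set_option maxHeartbeats 400000

namespace Run7.h905.BS

open Pool.Agent.Y160.SE
open Pool.Agent.N352.Sha (ShaTrivial)

section

variable {k : Type} [Field k] [Finite k]

/-- Roots of unity and the characteristic. -/
theorem roots_of {n : ℕ} (hn0 : n ≠ 0) (hd : 4 * n ∣ Nat.card k - 1) :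
    (2 : k) ≠ 0 ∧ (∃ ι : k, ι ^ 2 = -1) ∧ ∃ ζ : k, IsPrimitiveRoot ζ n := by
  obtain ⟨v, hv⟩ := IsCyclic.exists_generator (α := kˣ)
  have hdn : n ∣ Nat.card k - 1 := (Dvd.intro_left 4 rfl).trans hd
  have hd4 : 4 ∣ Nat.card k - 1 := (Dvd.intro n rfl).trans hd
  have hd2 : 2 ∣ Nat.card k - 1 := (by norm_num : 2 ∣ 4).trans hd4
  obtain ⟨z2, hz2⟩ := gen_root hv hd2
  obtain ⟨ι, hι4⟩ := gen_root hv hd4
  obtain ⟨ζ, hζ⟩ := gen_root hv hdn
  refine ⟨?_, ⟨ι, ?_⟩, ζ, hζ⟩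
  · intro h
    have h3 : z2 = 1 := by
      have h4 : (z2 - 1) ^ 2 = 0 := by
        have := hz2.pow_eq_one
        linear_combination this - (z2 - 1) * h
      exact sub_eq_zero.1 (pow_eq_zero_iff two_ne_zero |>.1 h4)
    exact hz2.ne_one one_lt_two h3
  · exact (hι4.pow (by norm_num) (by norm_num : 4 = 2 * 2)).eq_neg_one_of_two_right

end

section

variable {k : Type} [Field k] [PerfectField k] {E : k[X]} {m : ℕ} {g : Fin m → k[X]}
  (K : Type) [Field K] [Algebra k[X] K] [IsFractionRing k[X] K]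

theorem mainE (h2 : (2 : k) ≠ 0) {ι : k} (hι : ι ^ 2 = -1) (hgm : ∀ j, (g j).Monic)
    (hgi : ∀ j, Irreducible (g j))
    (hgd : Function.Injective g) (hgo : ∀ j, Odd (g j).natDegree) (hE : E = ∏ j, g j)
    (ho : Odd E.natDegree) {c e : k} (hEe : Irreducible (E - C e)) (hc : c ≠ 0)
    (hce : ∀ b : k, b ^ 2 ≠ e / c) (i : ℕ) :
    (∀ x : Jac 2 (tF K (fR E (Rt c e i)) (qK K (Rt c e i))) K, 2 • x = 0 → x = 0) ∧
      Nat.card (Jac 2 (tF K (fR E (Rt c e i)) (qK K (Rt c e i))) K ⧸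
        dbl (Jac 2 (tF K (fR E (Rt c e i)) (qK K (Rt c e i))) K)) = 2 ^ (m - 1) ∧
      ShaTrivial 2 (tF K (fR E (Rt c e i)) (qK K (Rt c e i))) k[X] :=
  mainR K h2 hgm hgi hgd hgo hE ho (Rt_adm hc hEe i) (Rt_irr hι hc hce i)

end

end Run7.h905.BS
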