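import Pool.Agent.Y154.SE.Loc3

/-!
# The residue degree divides the valuation of a resultant
-/

open Polynomial IsLocalRing WithZero IntermediateField
open scoped NNReal Classical

set_option autoImplicit false
set_option linter.all false

namespace Run7.h905.BS

open Pool.Agent.Y154.SE

variable {L : Type*} [NontriviallyNormedField L] [IsUltrametricDist L] [CompleteSpace L]
  {O : ValuationSubring L}

theorem sv_equiv' (F : IntermediateField L (AlgebraicClosure L))
    (σ : AlgebraicClosure L ≃ₐ[F] AlgebraicClosure L) (z : AlgebraicClosure L) :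
    sv (σ z) = sv z := sv_equiv (σ.restrictScalars L) z

theorem mlt1 {a b : ℝ≥0} (ha : a ≤ 1) (hb : b < 1) : a * b < 1 :=
  lt_of_le_of_lt (mul_le_of_le_one_left' ha) hb

theorem mlt2 {a b : ℝ≥0} (ha : a < 1) (hb : b ≤ 1) : a * b < 1 :=
  lt_of_le_of_lt (mul_le_of_le_one_right' hb) ha

theorem sv_neg (z : AlgebraicClosure L) : sv (-z) = sv z := Valuation.map_neg _ _

/-- Integral polynomials at close points. -/
theorem ev_close (hO : ∀ y : L, y ∈ O ↔ ‖y‖ ≤ 1) {ξ η : AlgebraicClosure L} (hξ : sv ξ ≤ 1)
    (hη : sv η ≤ 1) (h : sv (ξ - η) < 1) (g : O[X]) : sv (ev ξ g) < 1 ↔ sv (ev η g) < 1 := by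
  have key : ∀ g : O[X], sv (ev ξ g - ev η g) < 1 := by
    intro g
    induction g using Polynomial.induction_on' with
    | add p q hp hq =>
      have : ev ξ (p + q) - ev η (p + q) = (ev ξ p - ev η p) + (ev ξ q - ev η q) := by
        rw [map_add, map_add]; ring
      rw [this]
      exact Valuation.map_add_lt _ hp hq
    | monomial n c =>
      have e : ∀ θ : AlgebraicClosure L, ev θ (monomial n c) =
          algebraMap L (AlgebraicClosure L) (c : L) * θ ^ n := by
        intro θ
        rw [ev_apply, map_monomial, aeval_monomial]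
        rfl
      rw [e, e, ← mul_sub, map_mul]
      clear e
      have h1 : sv (ξ ^ n - η ^ n) < 1 := by
        induction n with
        | zero => simp
        | succ n ih =>
          have : ξ ^ (n + 1) - η ^ (n + 1) = ξ * (ξ ^ n - η ^ n) + (ξ - η) * η ^ n := by ring
          rw [this]
          refine Valuation.map_add_lt _ ?_ ?_
          · rw [map_mul]
            exact mlt1 hξ ih
          · rw [map_mul, map_pow]
            exact mlt2 h (pow_le_one' hη n)
      exact mlt1 (sv_coe_le hO c) h1
  constructor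
  · intro h1
    have : ev η g = ev ξ g + -(ev ξ g - ev η g) := by ring
    rw [this]
    exact Valuation.map_add_lt _ h1 (by rw [sv_neg]; exact key g)
  · intro h1
    have : ev ξ g = ev η g + (ev ξ g - ev η g) := by ring
    rw [this]
    exact Valuation.map_add_lt _ h1 (key g)

/-- Krasner's lemma for the unramified part. -/
theorem krasner (hO : ∀ y : L, y ∈ O ↔ ‖y‖ ≤ 1) {ξ : AlgebraicClosure L} (hξ : sv ξ ≤ 1)
    (a : O[X]) (ham : a.Monic) (hai : Irreducible (a.map (residue O)))
    (hsep : (a.map (residue O)).Separable)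
    (ha : ∀ g : O[X], sv (ev ξ g) < 1 ↔ a.map (residue O) ∣ g.map (residue O)) :
    ∃ η : AlgebraicClosure L, ev η a = 0 ∧ sv η ≤ 1 ∧ sv (ξ - η) < 1 ∧ η ∈ L⟮ξ⟯ := by
  set A : (AlgebraicClosure L)[X] :=
    (a.map (algebraMap O L)).map (algebraMap L (AlgebraicClosure L)) with hA
  have hAm : A.Monic := (ham.map _).map _
  have hs : A.Splits := IsAlgClosed.splits A
  have hcoef : ∀ i, sv (A.coeff i) ≤ 1 := by
    intro i
    rw [hA, coeff_map, coeff_map]
    exact sv_coe_le hO _
  have hev : ∀ θ : AlgebraicClosure L, A.eval θ = ev θ a := by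
    intro θ
    rw [hA, eval_map_algebraMap, ev_apply]
  have hroot : ∀ θ ∈ A.roots, sv θ ≤ 1 := by
    intro θ hθ
    exact val_le_one sv A hAm hcoef θ ((mem_roots hAm.ne_zero).1 hθ)
  -- a close root
  obtain ⟨η, hη, hclose⟩ : ∃ η ∈ A.roots, sv (ξ - η) < 1 := by
    by_contra hcon
    push Not at hcon
    have h1 : sv (A.eval ξ) < 1 := by
      rw [hev, ha]
    rw [hs.eval_eq_prod_roots_of_monic hAm, map_multiset_prod, Multiset.map_map] at h1
    have h2 : ∀ s : Multiset (AlgebraicClosure L), (∀ η ∈ s, 1 ≤ sv (ξ - η)) →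
        1 ≤ (s.map (⇑sv ∘ fun x => ξ - x)).prod := by
      intro s
      induction s using Multiset.induction_on with
      | empty => intro _; simp
      | cons x s ih =>
        intro h
        rw [Multiset.map_cons, Multiset.prod_cons]
        exact one_le_mul (h x (Multiset.mem_cons_self x s))
          (ih fun y hy => h y (Multiset.mem_cons_of_mem hy))
    exact absurd h1 (not_lt.2 (h2 _ hcon))
  have hη1 := hroot η hη
  have haη : ev η a = 0 := by
    rw [← hev]
    exact (mem_roots hAm.ne_zero).1 hη
  have haη' : ∀ g : O[X], sv (ev η g) < 1 ↔ a.map (residue O) ∣ g.map (residue O) := fun g => by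
    rw [← ev_close hO hξ hη1 hclose, ha]
  refine ⟨η, haη, hη1, hclose, ?_⟩
  -- the derivative is a unit
  have hder : sv (ev η (derivative a)) = 1 := by
    refine le_antisymm (sv_ev_le hO hη1 _) ?_
    by_contra h1
    rw [not_le, haη', ← derivative_map] at h1
    have h2 : IsCoprime (a.map (residue O)) (derivative (a.map (residue O))) := hsep
    exact hai.not_isUnit (h2.isUnit_of_dvd h1)
  have hder2 : ev η (derivative a) = ((A.roots.erase η).map fun x => η - x).prod := by
    have h1 : ev η (derivative a) = (derivative A).eval η := by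
      rw [hA, derivative_map, derivative_map, eval_map_algebraMap, ev_apply]
    rw [h1]
    have := hs.eval_root_derivative hAm hη
    exact this
  have hfar : ∀ x ∈ A.roots.erase η, ¬ sv (η - x) < 1 := by
    intro x hx hlt
    obtain ⟨s, hs'⟩ := Multiset.exists_cons_of_mem hx
    have h3 : ∀ y ∈ s, sv (η - y) ≤ 1 := by
      intro y hy
      have h4 : y ∈ A.roots := Multiset.mem_of_mem_erase (by rw [hs']; exact Multiset.mem_cons_of_mem hy)
      rw [sub_eq_add_neg]
      exact Valuation.map_add_le _ hη1 (by rw [sv_neg]; exact hroot y h4)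
    have h5 : ∀ s : Multiset (AlgebraicClosure L), (∀ y ∈ s, sv (η - y) ≤ 1) →
        sv ((s.map fun x => η - x).prod) ≤ 1 := by
      intro s
      induction s using Multiset.induction_on with
      | empty => intro _; simp
      | cons x s ih =>
        intro h
        rw [Multiset.map_cons, Multiset.prod_cons, map_mul]
        exact mul_le_one' (h x (Multiset.mem_cons_self x s))
          (ih fun y hy => h y (Multiset.mem_cons_of_mem hy))
    rw [hder2, hs', Multiset.map_cons, Multiset.prod_cons, map_mul] at hder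
    have h6 : sv (η - x) * sv ((s.map fun x => η - x).prod) < 1 :=
      mlt2 hlt (h5 s h3)
    rw [hder] at h6
    exact lt_irrefl _ h6
  -- the minimal polynomial over `L(ξ)`
  set M := L⟮ξ⟯ with hM
  set q := minpoly M η with hq
  have hint : IsIntegral M η := Algebra.IsIntegral.isIntegral η
  have hqm : q.Monic := minpoly.monic hint
  set q' := q.map (algebraMap M (AlgebraicClosure L)) with hq'
  have hq's : q'.Splits := IsAlgClosed.splits q'
  have hq'm : q'.Monic := hqm.map _
  have hdvd : q' ∣ A := by
    have h1 : q ∣ (a.map (algebraMap O L)).map (algebraMap L M) := by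
      apply minpoly.dvd
      rw [aeval_map_algebraMap]
      exact haη
    have h2 := Polynomial.map_dvd (algebraMap M (AlgebraicClosure L)) h1
    rw [Polynomial.map_map, ← IsScalarTower.algebraMap_eq] at h2
    exact h2
  have hle : q'.roots ≤ A.roots := roots.le_of_dvd hAm.ne_zero hdvd
  have hηq : η ∈ q'.roots := by
    rw [mem_roots hq'm.ne_zero, IsRoot.def, hq', eval_map_algebraMap]
    exact minpoly.aeval M η
  have hemp : q'.roots.erase η = 0 := by
    apply Multiset.eq_zero_of_forall_notMem
    intro x hx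
    have h1 : x ∈ A.roots.erase η := Multiset.mem_of_le (Multiset.erase_le_erase η hle) hx
    apply hfar x h1
    have h2 : aeval x q = 0 := by
      have := (mem_roots hq'm.ne_zero).1 (Multiset.mem_of_mem_erase hx)
      rwa [IsRoot.def, hq', eval_map_algebraMap] at this
    obtain ⟨σ, hσ⟩ := minpoly.exists_algEquiv_of_root' (Algebra.IsAlgebraic.isAlgebraic η) h2
    have h3 : σ ξ = ξ := σ.commutes ⟨ξ, mem_adjoin_simple_self L ξ⟩
    have h4 : sv (ξ - x) < 1 := by
      rw [← h3, ← hσ, ← map_sub, sv_equiv' M σ]
      exact hclose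
    have h5 : η - x = (ξ - x) + -(ξ - η) := by ring
    rw [h5]
    exact Valuation.map_add_lt _ h4 (by rw [sv_neg]; exact hclose)
  have hcard : q'.roots.card = 1 := by
    rw [← Multiset.cons_erase hηq, hemp]
    simp
  have hdeg : q.natDegree = 1 := by
    rw [← hcard, ← hq's.natDegree_eq_card_roots, hq', natDegree_map]
  obtain ⟨y, hy⟩ := minpoly.mem_range_of_degree_eq_one M η
    ((degree_eq_iff_natDegree_eq hqm.ne_zero).2 hdeg)
  rw [← hy]
  exact y.2

/-- The values of the elements of the unramified extension. -/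
theorem val_adjoin (hO : ∀ y : L, y ∈ O ↔ ‖y‖ ≤ 1) {η : AlgebraicClosure L} (hη1 : sv η ≤ 1)
    (a : O[X]) (ham : a.Monic) (haη : ev η a = 0)
    (ha : ∀ g : O[X], sv (ev η g) < 1 ↔ a.map (residue O) ∣ g.map (residue O))
    (w : AlgebraicClosure L) (hw : w ∈ L⟮η⟯) (hw0 : w ≠ 0) : ∃ b : L, b ≠ 0 ∧ sv w = ‖b‖₊ := by
  have hint : IsIntegral L η := Algebra.IsIntegral.isIntegral η
  have hw' : w ∈ (L⟮η⟯).toSubalgebra := hw
  rw [adjoin_simple_toSubalgebra_of_isAlgebraic hint.isAlgebraic,
    Algebra.adjoin_singleton_eq_range_aeval] at hw'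
  obtain ⟨g, hg⟩ := hw'
  have hg' : aeval η g = w := hg
  set aL : L[X] := a.map (algebraMap O L) with haL
  have haLm : aL.Monic := ham.map _
  have haLη : aeval η aL = 0 := haη
  set g1 := g %ₘ aL with hg1
  have hg1η : aeval η g1 = w := by
    rw [hg1, ← hg']
    have h1 := modByMonic_add_div g aL
    have h2 := congrArg (aeval η) h1
    rw [map_add, map_mul, haLη, zero_mul, add_zero] at h2
    exact h2
  have hg10 : g1 ≠ 0 := by
    intro h0
    rw [h0, map_zero] at hg1η
    exact hw0 hg1η.symm
  have hdeg : g1.degree < aL.degree := degree_modByMonic_lt g haLm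
  obtain ⟨i, hi, hmax⟩ := Finset.exists_max_image g1.support (fun i => ‖g1.coeff i‖)
    (nonempty_support_iff.2 hg10)
  set b := g1.coeff i with hb
  have hb0 : b ≠ 0 := mem_support_iff.1 hi
  have hbn : 0 < ‖b‖ := norm_pos_iff.2 hb0
  have hcO : ∀ j, ‖(C b⁻¹ * g1).coeff j‖ ≤ 1 := by
    intro j
    rw [coeff_C_mul, norm_mul, norm_inv, inv_mul_le_iff₀ hbn, mul_one]
    by_cases hj : j ∈ g1.support
    · exact hmax j hj
    · rw [notMem_support_iff.1 hj, norm_zero]
      exact hbn.le
  have hlift : C b⁻¹ * g1 ∈ lifts (algebraMap O L) := by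
    rw [lifts_iff_coeff_lifts]
    intro n
    exact ⟨⟨_, (hO _).2 (hcO n)⟩, rfl⟩
  obtain ⟨G, hG⟩ := (mem_lifts _).1 hlift
  have hinj : Function.Injective (algebraMap O L) := Subtype.val_injective
  have hGi : G.coeff i = 1 := by
    apply hinj
    rw [← coeff_map, hG, coeff_C_mul, ← hb, inv_mul_cancel₀ hb0, map_one]
  have hGdeg : G.degree < a.degree := by
    have h1 : G.degree = (C b⁻¹ * g1).degree := by
      rw [← hG, degree_map_eq_of_injective hinj]
    have h2 : (C b⁻¹ * g1).degree = g1.degree := degree_C_mul (inv_ne_zero hb0)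
    have h3 : aL.degree = a.degree := degree_map_eq_of_injective hinj a
    rw [h1, h2, ← h3]
    exact hdeg
  have hGsv : sv (ev η G) = 1 := by
    refine le_antisymm (sv_ev_le hO hη1 G) ?_
    by_contra h1
    rw [not_le, ha] at h1
    have h2 : G.map (residue O) ≠ 0 := by
      intro h0
      have h3 := congrArg (fun q => q.coeff i) h0
      simp only [coeff_map, coeff_zero, hGi, map_one] at h3
      exact one_ne_zero h3
    have h4 := degree_le_of_dvd h1 h2
    have h5 : (a.map (residue O)).degree = a.degree := ham.degree_map _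
    rw [h5] at h4
    exact absurd (lt_of_le_of_lt (h4.trans degree_map_le) hGdeg) (lt_irrefl _)
  refine ⟨b, hb0, ?_⟩
  have h6 : w = algebraMap L (AlgebraicClosure L) b * ev η G := by
    rw [ev_apply, hG, map_mul, aeval_C, hg1η, ← mul_assoc, ← map_mul, mul_inv_cancel₀ hb0, map_one,
      one_mul]
  rw [h6, map_mul, hGsv, mul_one, sv_algebraMap]

/-- The degree of the residue field divides the degree and the valuation of the norm. -/
theorem norm_dvd (hO : ∀ y : L, y ∈ O ↔ ‖y‖ ≤ 1) {ξ : AlgebraicClosure L} (hξ : sv ξ ≤ 1)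
    (a : O[X]) (ham : a.Monic) (hai : Irreducible (a.map (residue O)))
    (hsep : (a.map (residue O)).Separable)
    (ha : ∀ g : O[X], sv (ev ξ g) < 1 ↔ a.map (residue O) ∣ g.map (residue O))
    (c : L[X]) (hc : aeval ξ c ≠ 0) :
    ∃ b : L, b ≠ 0 ∧ sv (aeval ξ c) ^ (minpoly L ξ).natDegree =
      ‖b‖₊ ^ (a.map (residue O)).natDegree := by
  obtain ⟨η, haη, hη1, hclose, hmem⟩ := krasner hO hξ a ham hai hsep ha
  have haη' : ∀ g : O[X], sv (ev η g) < 1 ↔ a.map (residue O) ∣ g.map (residue O) := fun g => by
    rw [← ev_close hO hξ hη1 hclose, ha]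
  have hintη : IsIntegral L η := Algebra.IsIntegral.isIntegral η
  have hintξ : IsIntegral L ξ := Algebra.IsIntegral.isIntegral ξ
  have hinj : Function.Injective (algebraMap O L) := Subtype.val_injective
  -- the degree of `η`
  have hdegη : (minpoly L η).natDegree = (a.map (residue O)).natDegree := by
    have h1 : minpoly L η = a.map (algebraMap O L) := by
      have h2 : Irreducible (a.map (algebraMap O L)) := by
        have h3 : Irreducible a := Monic.irreducible_of_irreducible_map (residue O) a ham hai
        exact (ham.irreducible_iff_irreducible_map_fraction_map (K := L)).1 h3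
      exact (minpoly.eq_of_irreducible_of_monic h2 haη (ham.map _)).symm
    rw [h1, natDegree_map_eq_of_injective hinj, ham.natDegree_map]
  set F1 := L⟮η⟯ with hF1
  set p' := minpoly F1 ξ with hp'
  have hint' : IsIntegral F1 ξ := Algebra.IsIntegral.isIntegral ξ
  have hp'm : p'.Monic := minpoly.monic hint'
  -- the tower
  have htower : (minpoly L η).natDegree * p'.natDegree = (minpoly L ξ).natDegree := by
    have h1 : Module.finrank L F1 = (minpoly L η).natDegree := adjoin.finrank hintη
    have h2 : Module.finrank F1 F1⟮ξ⟯ = p'.natDegree := adjoin.finrank hint'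
    have h3 : Module.finrank L L⟮ξ⟯ = (minpoly L ξ).natDegree := adjoin.finrank hintξ
    rw [← h1, ← h2, ← h3, Module.finrank_mul_finrank L F1 F1⟮ξ⟯]
    have h4 : F1⟮ξ⟯.restrictScalars L = L⟮ξ⟯ := by
      rw [hF1, adjoin_simple_adjoin_simple]
      apply le_antisymm
      · rw [adjoin_le_iff]
        rintro x (rfl | hx)
        · exact hmem
        · rw [Set.mem_singleton_iff] at hx
          rw [hx]
          exact mem_adjoin_simple_self L ξ
      · rw [adjoin_simple_le_iff]
        exact subset_adjoin L _ (Or.inr rfl)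
    exact congrArg (fun F : IntermediateField L (AlgebraicClosure L) => Module.finrank L F) h4
  -- the norm to `L(η)`
  set P' := p'.map (algebraMap F1 (AlgebraicClosure L)) with hP'
  have hs : P'.Splits := IsAlgClosed.splits P'
  set cF : F1[X] := c.map (algebraMap L F1) with hcF
  set w : F1 := resultant p' cF with hw
  have hw1 : algebraMap F1 (AlgebraicClosure L) w =
      (P'.roots.map fun z => aeval z c).prod := by
    have h2 := resultant_eq_prod_eval P' (cF.map (algebraMap F1 (AlgebraicClosure L)))
      cF.natDegree natDegree_map_le hs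
    rw [(hp'm.map _).leadingCoeff, one_pow, one_mul, hP', natDegree_map, resultant_map_map] at h2
    rw [hw, h2]
    congr 1
    apply Multiset.map_congr rfl
    intro z _
    rw [hcF, Polynomial.map_map, ← IsScalarTower.algebraMap_eq, eval_map_algebraMap]
  have hconj : ∀ z ∈ P'.roots, sv (aeval z c) = sv (aeval ξ c) := by
    intro z hz
    have h2 : aeval z p' = 0 := by
      have := (mem_roots (hp'm.map _).ne_zero).1 hz
      rwa [IsRoot.def, eval_map_algebraMap] at this
    obtain ⟨σ, hσ⟩ := minpoly.exists_algEquiv_of_root' (Algebra.IsAlgebraic.isAlgebraic ξ) h2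
    have h3 : aeval z c = σ (aeval ξ c) := by
      rw [← hσ]
      exact aeval_algHom_apply (σ.toAlgHom.restrictScalars L) ξ c
    rw [h3, sv_equiv' F1 σ]
  have hsvw : sv (algebraMap F1 (AlgebraicClosure L) w) = sv (aeval ξ c) ^ p'.natDegree := by
    rw [hw1, map_multiset_prod, Multiset.map_map]
    have h3 : Multiset.map (⇑sv ∘ fun z => aeval z c) P'.roots
        = Multiset.map (fun _ => sv (aeval ξ c)) P'.roots :=
      Multiset.map_congr rfl fun x hx => hconj x hx
    rw [h3, Multiset.map_const', Multiset.prod_replicate, ← hs.natDegree_eq_card_roots, hP',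
      natDegree_map]
  have hw0 : algebraMap F1 (AlgebraicClosure L) w ≠ 0 := by
    intro h0
    rw [h0, map_zero] at hsvw
    exact pow_ne_zero _ ((Valuation.ne_zero_iff _).2 hc) hsvw.symm
  obtain ⟨b, hb0, hb⟩ := val_adjoin hO hη1 a ham haη haη' _ w.2 hw0
  refine ⟨b, hb0, ?_⟩
  have hb' : sv (algebraMap F1 (AlgebraicClosure L) w) = ‖b‖₊ := hb
  rw [← htower, mul_comm, pow_mul, ← hsvw, hb', hdegη]

end Run7.h905.BS
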