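import Pool.Agent.Run7.h905.BS.ExD
import Pool.Agent.Run7.h905.BS.Spec

/-!
# An explicit tower over `F_7(t)`
-/

open Polynomial
open scoped Classical

set_option autoImplicit false
set_option linter.all false

namespace Run7.h905.BS.Seven

section frob

variable {E : Type} [Field E] [CharP E 7] {τ : E}

local instance : Fact (Nat.Prime 7) := ⟨by norm_num⟩

omit [CharP E 7] in
theorem h7' [CharP E 7] : (7 : E) = 0 := by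
  have := CharP.cast_eq_zero E 7
  exact_mod_cast this

theorem f1 (hQ : τ ^ 6 + 2 * τ ^ 2 - τ + 2 = 0) : frobenius E 7 τ = (5)*τ + (1)*τ^2 + (5)*τ^3 := by
  have h7 := h7' (E := E)
  rw [frobenius_def]
  linear_combination ((1)*τ) * hQ + ((-1)*τ + (-1)*τ^3) * h7

theorem f2 (hQ : τ ^ 6 + 2 * τ ^ 2 - τ + 2 = 0) : frobenius E 7 (frobenius E 7 τ) = (1) + (6)*τ + (6)*τ^2 + (1)*τ^3 + (3)*τ^5 := by
  have h7 := h7' (E := E)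
  rw [f1 hQ]
  simp only [map_add, map_mul, map_pow, map_ofNat, map_one]
  rw [f1 hQ]
  linear_combination ((780) + (1950)*τ + (375)*τ^2 + (625)*τ^3) * hQ + ((-223) + (-443)*τ + (-48)*τ^2 + (-588)*τ^3 + (43)*τ^4 + (101)*τ^5) * h7

/-- `x ↦ x ^ 343`. -/
noncomputable def ps (E : Type) [Field E] [CharP E 7] : E →+* E :=
  (frobenius E 7).comp ((frobenius E 7).comp (frobenius E 7))

theorem f3 (hQ : τ ^ 6 + 2 * τ ^ 2 - τ + 2 = 0) : ps E τ = (5)*τ + (5)*τ^2 + (4)*τ^3 + (1)*τ^4 + (3)*τ^5 := by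
  have h7 := h7' (E := E)
  show frobenius E 7 (frobenius E 7 (frobenius E 7 τ)) = _
  rw [f2 hQ]
  simp only [map_add, map_mul, map_pow, map_ofNat, map_one]
  rw [f1 hQ]
  linear_combination ((-77255) + (-184635)*τ + (-6300)*τ^2 + (-5425)*τ^3 + (48378)*τ^4 + (86325)*τ^5 + (38250)*τ^6 + (50625)*τ^7 + (9375)*τ^8 + (9375)*τ^9) * hQ + ((22073) + (41720)*τ + (-2482)*τ^2 + (53433)*τ^3 + (-12743)*τ^4 + (-14800)*τ^5) * h7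

theorem f6 (hQ : τ ^ 6 + 2 * τ ^ 2 - τ + 2 = 0) : ps E (ps E τ) = τ := by
  have h7 := h7' (E := E)
  rw [f3 hQ]
  simp only [map_add, map_mul, map_pow, map_ofNat, map_one]
  rw [f3 hQ]
  linear_combination ((403760) + (62207)*τ + (-212845)*τ^2 + (-364227)*τ^3 + (-295165)*τ^4 + (-147233)*τ^5 + (47721)*τ^6 + (212040)*τ^7 + (299129)*τ^8 + (326971)*τ^9 + (289465)*τ^10 + (226560)*τ^11 + (159801)*τ^12 + (100185)*τ^13 + (56613)*τ^14 + (28962)*τ^15 + (12825)*τ^16 + (5670)*τ^17 + (1215)*τ^18 + (729)*τ^19) * hQ + ((-115360) + (39910)*τ + (-45639)*τ^2 + (55995)*τ^3 + (93464)*τ^4 + (106085)*τ^5) * h7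

theorem n2 (hQ : τ ^ 6 + 2 * τ ^ 2 - τ + 2 = 0) : frobenius E 7 (frobenius E 7 τ) ≠ τ := by
  have h7 := h7' (E := E)
  intro h
  rw [f2 hQ] at h
  apply one_ne_zero (α := E)
  linear_combination (-1) * (((-6) + (-1)*τ + (-3)*τ^2 + (-4)*τ^3 + (-1)*τ^5) * h + ((-1) + (-6)*τ + (-1)*τ^2 + (-4)*τ^4) * hQ - ((-1) + (-6)*τ + (-6)*τ^2 + (-6)*τ^3 + (-7)*τ^4 + (-6)*τ^5 + (-3)*τ^6 + (-3)*τ^7 + (-2)*τ^8 + (-1)*τ^10) * h7)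

theorem n3 (hQ : τ ^ 6 + 2 * τ ^ 2 - τ + 2 = 0) : ps E τ ≠ τ := by
  have h7 := h7' (E := E)
  intro h
  rw [f3 hQ] at h
  apply one_ne_zero (α := E)
  linear_combination (-1) * (((-3) + (-5)*τ + (-3)*τ^2 + (-5)*τ^3 + (-3)*τ^4 + (-4)*τ^5) * h + ((-4) + (-3)*τ + (-1)*τ^2 + (-1)*τ^3 + (-2)*τ^4) * hQ - ((-1) + (-2)*τ + (-6)*τ^2 + (-8)*τ^3 + (-9)*τ^4 + (-9)*τ^5 + (-11)*τ^6 + (-7)*τ^7 + (-5)*τ^8 + (-2)*τ^9 + (-2)*τ^10) * h7)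

theorem nA_w (hQ : τ ^ 6 + 2 * τ ^ 2 - τ + 2 = 0) :
    ((1)*τ) * frobenius E 7 ((1)*τ) * frobenius E 7 (frobenius E 7 ((1)*τ)) = (1) + (5)*τ + (6)*τ^2 + (6)*τ^3 + (1)*τ^4 + (4)*τ^5 := by
  have h7 := h7' (E := E)
  have e1 : frobenius E 7 ((1)*τ) = (5)*τ + (1)*τ^2 + (5)*τ^3 := by
    simp only [map_add, map_mul, map_pow, map_ofNat, map_one, map_neg]
    rw [f1 hQ]
    linear_combination (0) * hQ + (0) * h7
  have e2 : frobenius E 7 ((5)*τ + (1)*τ^2 + (5)*τ^3) = (1) + (6)*τ + (6)*τ^2 + (1)*τ^3 + (3)*τ^5 := by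
    simp only [map_add, map_mul, map_pow, map_ofNat, map_one, map_neg]
    rw [f1 hQ]
    linear_combination ((780) + (1950)*τ + (375)*τ^2 + (625)*τ^3) * hQ + ((-223) + (-443)*τ + (-48)*τ^2 + (-588)*τ^3 + (43)*τ^4 + (101)*τ^5) * h7
  rw [e1, e2]
  linear_combination ((31) + (20)*τ + (3)*τ^2 + (15)*τ^3) * hQ + ((-9) + (-2)*τ + (-7)*τ^2 + (-6)*τ^3 + (7)*τ^4 + (1)*τ^5) * h7

theorem nB_w (hQ : τ ^ 6 + 2 * τ ^ 2 - τ + 2 = 0) :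
    ((1) + (5)*τ + (6)*τ^2 + (6)*τ^3 + (1)*τ^4 + (4)*τ^5) * ps E ((1) + (5)*τ + (6)*τ^2 + (6)*τ^3 + (1)*τ^4 + (4)*τ^5) = 2 := by
  have h7 := h7' (E := E)
  have e1 : ps E ((1) + (5)*τ + (6)*τ^2 + (6)*τ^3 + (1)*τ^4 + (4)*τ^5) = (6) + (2)*τ + (1)*τ^2 + (4)*τ^3 + (6)*τ^4 + (6)*τ^5 := by
    simp only [map_add, map_mul, map_pow, map_ofNat, map_one, map_neg]
    rw [f3 hQ]
    linear_combination ((541843) + (86518)*τ + (-281455)*τ^2 + (-484904)*τ^3 + (-394681)*τ^4 + (-198301)*τ^5 + (61302)*τ^6 + (280552)*τ^7 + (397194)*τ^8 + (434867)*τ^9 + (385311)*τ^10 + (301752)*τ^11 + (212906)*τ^12 + (133544)*τ^13 + (75457)*τ^14 + (38616)*τ^15 + (17100)*τ^16 + (7560)*τ^17 + (1620)*τ^18 + (972)*τ^19) * hQ + ((-154813) + (52690)*τ + (-62012)*τ^2 + (73769)*τ^3 + (124376)*τ^4 + (141584)*τ^5) * h7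
  rw [e1]
  linear_combination ((51) + (80)*τ + (58)*τ^2 + (30)*τ^3 + (24)*τ^4) * hQ + ((-14) + (-11)*τ + (-13)*τ^2 + (-15)*τ^3 + (-12)*τ^4 + (8)*τ^5) * h7

theorem nA_a (hQ : τ ^ 6 + 2 * τ ^ 2 - τ + 2 = 0) :
    ((2) + (1)*τ^4) * frobenius E 7 ((2) + (1)*τ^4) * frobenius E 7 (frobenius E 7 ((2) + (1)*τ^4)) = (6) + (6)*τ^2 + (3)*τ^3 + (6)*τ^4 + (6)*τ^5 := by
  have h7 := h7' (E := E)
  have e1 : frobenius E 7 ((2) + (1)*τ^4) = (5) + (1)*τ + (5)*τ^2 + (5)*τ^3 + (6)*τ^5 := by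
    simp only [map_add, map_mul, map_pow, map_ofNat, map_one, map_neg]
    rw [f1 hQ]
    linear_combination ((-3400) + (1145)*τ + (2801)*τ^2 + (1520)*τ^3 + (2650)*τ^4 + (500)*τ^5 + (625)*τ^6) * hQ + ((971) + (-813)*τ + (334)*τ^2 + (-362)*τ^3 + (-1251)*τ^4 + (-128)*τ^5) * h7
  have e2 : frobenius E 7 ((5) + (1)*τ + (5)*τ^2 + (5)*τ^3 + (6)*τ^5) = (2)*τ^2 + (4)*τ^3 + (5)*τ^4 + (6)*τ^5 := by
    simp only [map_add, map_mul, map_pow, map_ofNat, map_one, map_neg]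
    rw [f1 hQ]
    linear_combination ((-154232) + (-368100)*τ + (-12375)*τ^2 + (-10475)*τ^3 + (96756)*τ^4 + (172650)*τ^5 + (76500)*τ^6 + (101250)*τ^7 + (18750)*τ^8 + (18750)*τ^9) * hQ + ((44067) + (83139)*τ + (-4966)*τ^2 + (106493)*τ^3 + (-25516)*τ^4 + (-29550)*τ^5) * h7
  rw [e1, e2]
  linear_combination ((-31) + (16)*τ + (-3)*τ^2 + (101)*τ^3 + (51)*τ^4 + (67)*τ^5 + (54)*τ^6 + (30)*τ^7 + (36)*τ^8) * hQ + ((8) + (-9)*τ + (14)*τ^2 + (-28)*τ^3 + (11)*τ^4 + (-23)*τ^5) * h7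

theorem nB_a (hQ : τ ^ 6 + 2 * τ ^ 2 - τ + 2 = 0) :
    ((6) + (6)*τ^2 + (3)*τ^3 + (6)*τ^4 + (6)*τ^5) * ps E ((6) + (6)*τ^2 + (3)*τ^3 + (6)*τ^4 + (6)*τ^5) = 4 := by
  have h7 := h7' (E := E)
  have e1 : ps E ((6) + (6)*τ^2 + (3)*τ^3 + (6)*τ^4 + (6)*τ^5) = (2) + (4)*τ + (2)*τ^2 + (1)*τ^3 + (4)*τ^4 + (2)*τ^5 := by
    simp only [map_add, map_mul, map_pow, map_ofNat, map_one, map_neg]
    rw [f3 hQ]
    linear_combination ((764325) + (81759)*τ + (-452454)*τ^2 + (-735741)*τ^3 + (-575448)*τ^4 + (-269601)*τ^5 + (123978)*τ^6 + (450447)*τ^7 + (618075)*τ^8 + (667155)*τ^9 + (586638)*τ^10 + (457056)*τ^11 + (321546)*τ^12 + (200802)*τ^13 + (113550)*τ^14 + (57924)*τ^15 + (25650)*τ^16 + (11340)*τ^17 + (2430)*τ^18 + (1458)*τ^19) * hQ + ((-218378) + (85829)*τ + (-77405)*τ^2 + (122312)*τ^3 + (189332)*τ^4 + (210187)*τ^5) * h7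
  rw [e1]
  linear_combination ((39) + (42)*τ + (36)*τ^2 + (36)*τ^3 + (12)*τ^4) * hQ + ((-10) + (-3)*τ + (-12)*τ^2 + (-12)*τ^3) * h7

theorem nA_d (hQ : τ ^ 6 + 2 * τ ^ 2 - τ + 2 = 0) :
    ((-8) + (-3)*τ^4) * frobenius E 7 ((-8) + (-3)*τ^4) * frobenius E 7 (frobenius E 7 ((-8) + (-3)*τ^4)) = (1)*τ^2 + (2)*τ^3 + (2)*τ^4 + (2)*τ^5 := by
  have h7 := h7' (E := E)
  have e1 : frobenius E 7 ((-8) + (-3)*τ^4) = (4) + (4)*τ + (6)*τ^2 + (6)*τ^3 + (3)*τ^5 := by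
    simp only [map_add, map_mul, map_pow, map_ofNat, map_one, map_neg]
    rw [f1 hQ]
    linear_combination ((10200) + (-3435)*τ + (-8403)*τ^2 + (-4560)*τ^3 + (-7950)*τ^4 + (-1500)*τ^5 + (-1875)*τ^6) * hQ + ((-2916) + (2438)*τ + (-1005)*τ^2 + (1083)*τ^3 + (3753)*τ^4 + (381)*τ^5) * h7
  have e2 : frobenius E 7 ((4) + (4)*τ + (6)*τ^2 + (6)*τ^3 + (3)*τ^5) = (5) + (1)*τ^2 + (2)*τ^3 + (6)*τ^4 + (3)*τ^5 := by
    simp only [map_add, map_mul, map_pow, map_ofNat, map_one, map_neg]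
    rw [f1 hQ]
    linear_combination ((-76500) + (-182685)*τ + (-5925)*τ^2 + (-4800)*τ^3 + (48378)*τ^4 + (86325)*τ^5 + (38250)*τ^6 + (50625)*τ^7 + (9375)*τ^8 + (9375)*τ^9) * hQ + ((21857) + (41270)*τ + (-2526)*τ^2 + (52839)*τ^3 + (-12708)*τ^4 + (-14700)*τ^5) * h7
  rw [e1, e2]
  linear_combination ((-213) + (-204)*τ + (-162)*τ^2 + (-270)*τ^3 + (-198)*τ^4 + (-171)*τ^5 + (-72)*τ^6 + (-54)*τ^7 + (-27)*τ^8) * hQ + ((38) + (5)*τ + (39)*τ^2 + (64)*τ^3 + (12)*τ^4 + (10)*τ^5) * h7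

theorem nB_d (hQ : τ ^ 6 + 2 * τ ^ 2 - τ + 2 = 0) :
    ((1)*τ^2 + (2)*τ^3 + (2)*τ^4 + (2)*τ^5) * ps E ((1)*τ^2 + (2)*τ^3 + (2)*τ^4 + (2)*τ^5) = 6 := by
  have h7 := h7' (E := E)
  have e1 : ps E ((1)*τ^2 + (2)*τ^3 + (2)*τ^4 + (2)*τ^5) = (4) + (6)*τ + (4)*τ^2 + (6)*τ^3 + (6)*τ^4 + (5)*τ^5 := by
    simp only [map_add, map_mul, map_pow, map_ofNat, map_one, map_neg]
    rw [f3 hQ]
    linear_combination ((254476) + (27450)*τ + (-150311)*τ^2 + (-244730)*τ^3 + (-191339)*τ^4 + (-89540)*τ^5 + (41534)*τ^6 + (150266)*τ^7 + (206052)*τ^8 + (222412)*τ^9 + (195546)*τ^10 + (152352)*τ^11 + (107182)*τ^12 + (66934)*τ^13 + (37850)*τ^14 + (19308)*τ^15 + (8550)*τ^16 + (3780)*τ^17 + (810)*τ^18 + (486)*τ^19) * hQ + ((-72708) + (28510)*τ + (-25837)*τ^2 + (40649)*τ^3 + (62947)*τ^4 + (69978)*τ^5) * h7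
  rw [e1]
  linear_combination ((18) + (37)*τ + (34)*τ^2 + (22)*τ^3 + (10)*τ^4) * hQ + ((-6) + (-8)*τ + (-9)*τ^2 + (-10)*τ^3 + (-6)*τ^4) * h7

end frob

end Run7.h905.BS.Seven
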