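import Pool.Agent.Run7.h905.BS.Seven

/-!
# The tower over `F_7(t)`: the factorisation
-/

open Polynomial
open scoped Classical

set_option autoImplicit false
set_option linter.all false

namespace Run7.h905.BS.Seven

local instance inst7 : Fact (Nat.Prime 7) := ⟨by norm_num⟩

/-- `t ^ 6 + 2 t ^ 2 - t + 2`. -/
noncomputable def Q7 : (ZMod 7)[X] := X ^ 6 + 2 * X ^ 2 - X + 2

theorem Q7_deg : Q7.natDegree = 6 := by
  unfold Q7
  compute_degree!

theorem Q7_monic : Q7.Monic := by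
  unfold Q7
  monicity!

theorem root7 {E : Type} [Field E] [Algebra (ZMod 7) E] {g : (ZMod 7)[X]} (hg : g ∣ Q7) {τ : E}
    (h0 : aeval τ g = 0) : τ ^ 6 + 2 * τ ^ 2 - τ + 2 = 0 := by
  obtain ⟨r, hr⟩ := hg
  have h1 := congrArg (aeval τ) hr
  rw [map_mul, h0, zero_mul] at h1
  unfold Q7 at h1
  simpa only [map_add, map_sub, map_mul, map_pow, aeval_X, map_ofNat] using h1

theorem ps_pow {E : Type} [Field E] [CharP E 7] (x : E) : ps E x = x ^ 343 := by
  show frobenius E 7 (frobenius E 7 (frobenius E 7 x)) = _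
  rw [frobenius_def, frobenius_def, frobenius_def, ← pow_mul, ← pow_mul]

theorem fr2_pow {E : Type} [Field E] [CharP E 7] (x : E) :
    frobenius E 7 (frobenius E 7 x) = x ^ 49 := by
  rw [frobenius_def, frobenius_def, ← pow_mul]

theorem Q7_irr : Irreducible Q7 := by
  have hnu : ¬ IsUnit Q7 := by
    intro hu
    have := natDegree_eq_zero_of_isUnit hu
    rw [Q7_deg] at this
    omega
  obtain ⟨g, hg1, hg2⟩ := WfDvdMonoid.exists_irreducible_factor hnu Q7_monic.ne_zero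
  haveI : Fact (Irreducible g) := ⟨hg1⟩
  haveI : CharP (AdjoinRoot g) 7 :=
    charP_of_injective_algebraMap (algebraMap (ZMod 7) (AdjoinRoot g)).injective 7
  have h0 : aeval (AdjoinRoot.root g) g = 0 := by
    rw [AdjoinRoot.aeval_eq, AdjoinRoot.mk_self]
  have hQ := root7 hg2 h0
  have hc : Nat.card (ZMod 7) = 7 := Nat.card_zmod 7
  have h6 : g ∣ X ^ Nat.card (ZMod 7) ^ 6 - X := by
    rw [← AdjoinRoot.mk_eq_zero, map_sub, map_pow, AdjoinRoot.mk_X, hc, sub_eq_zero]
    have := f6 hQ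
    rw [ps_pow, ps_pow, ← pow_mul] at this
    exact this
  have hd := hg1.natDegree_dvd_of_dvd_X_pow_card_pow_sub_X h6
  have hn : ∀ j, g.natDegree ∣ j → AdjoinRoot.root g ^ 7 ^ j = AdjoinRoot.root g := by
    intro j hj
    have h1 := hg1.natDegree_dvd_iff_dvd_X_pow_card_pow_sub_X.1 hj
    rw [← AdjoinRoot.mk_eq_zero, map_sub, map_pow, AdjoinRoot.mk_X, hc, sub_eq_zero] at h1
    exact h1
  have h2 : ¬ g.natDegree ∣ 2 := by
    intro hj
    apply n2 hQ
    rw [fr2_pow]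
    exact hn 2 hj
  have h3 : ¬ g.natDegree ∣ 3 := by
    intro hj
    apply n3 hQ
    rw [ps_pow]
    exact hn 3 hj
  have h4 : g.natDegree = 6 := by
    have h5 := Nat.le_of_dvd (by norm_num) hd
    have h7 := hg1.natDegree_pos
    interval_cases hdeg : g.natDegree <;> omega
  exact (associated_of_dvd_of_natDegree_le hg2 Q7_monic.ne_zero (by rw [Q7_deg, h4])).irreducible
    hg1

local instance instQ : Fact (Irreducible Q7) := ⟨Q7_irr⟩

/-- The residue field. -/
abbrev F7 : Type := AdjoinRoot Q7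

local instance instC : CharP F7 7 :=
  charP_of_injective_algebraMap (algebraMap (ZMod 7) F7).injective 7

/-- The generator. -/
noncomputable abbrev t7 : F7 := AdjoinRoot.root Q7

theorem t7_root : t7 ^ 6 + 2 * t7 ^ 2 - t7 + 2 = 0 :=
  root7 (dvd_refl Q7) (by rw [AdjoinRoot.aeval_eq, AdjoinRoot.mk_self])

theorem fin7 : Module.finrank (ZMod 7) F7 = 6 := by
  rw [(AdjoinRoot.powerBasis Q7_monic.ne_zero).finrank, AdjoinRoot.powerBasis_dim, Q7_deg]

theorem finite7 : Finite F7 := by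
  haveI := (AdjoinRoot.powerBasis Q7_monic.ne_zero).finite
  exact Module.finite_of_finite (ZMod 7)

theorem norm7 {z A : F7} {c : ZMod 7}
    (h1 : z * frobenius F7 7 z * frobenius F7 7 (frobenius F7 7 z) = A)
    (h2 : A * ps F7 A = algebraMap (ZMod 7) F7 c) : Algebra.norm (ZMod 7) z = c := by
  haveI := finite7
  apply (algebraMap (ZMod 7) F7).injective
  rw [FiniteField.algebraMap_norm_eq_prod_pow, fin7, Nat.card_zmod, ← h2, ← h1, ps_pow,
    frobenius_def, frobenius_def]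
  simp only [Finset.prod_range_succ, Finset.prod_range_zero]
  ring

theorem norm_w : Algebra.norm (ZMod 7) (t7 ^ 2) = 4 := by
  have h1 : Algebra.norm (ZMod 7) ((1) * t7) = 2 := by
    apply norm7 (nA_w t7_root)
    rw [nB_w t7_root]
    exact (map_ofNat (algebraMap (ZMod 7) F7) 2).symm
  rw [one_mul] at h1
  rw [map_pow, h1]
  decide

theorem norm_a : Algebra.norm (ZMod 7) (t7 ^ 4 + 2) = 4 := by
  have h1 : Algebra.norm (ZMod 7) ((2) + (1) * t7 ^ 4) = 4 := by
    apply norm7 (nA_a t7_root)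
    rw [nB_a t7_root]
    exact (map_ofNat (algebraMap (ZMod 7) F7) 4).symm
  rw [← h1]
  congr 1
  ring

theorem norm_d : Algebra.norm (ZMod 7) (-3 * t7 ^ 4 - 8) = 6 := by
  have h1 : Algebra.norm (ZMod 7) ((-8) + (-3) * t7 ^ 4) = 6 := by
    apply norm7 (nA_d t7_root)
    rw [nB_d t7_root]
    exact (map_ofNat (algebraMap (ZMod 7) F7) 6).symm
  rw [← h1]
  congr 1
  ring

theorem nocube {z : F7} (hz : Algebra.norm (ZMod 7) z = 4) (b : F7) : b ^ 3 ≠ z := by
  intro h
  have h1 := congrArg (Algebra.norm (ZMod 7)) h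
  rw [map_pow, hz] at h1
  have h2 : ∀ y : ZMod 7, y ^ 3 ≠ 4 := by decide
  exact h2 _ h1

/-- The first factor. -/
theorem irr0 (i : ℕ) : Irreducible (X ^ (3 ^ i) - C (t7 ^ 2)) :=
  X_pow_sub_C_irreducible_of_prime_pow Nat.prime_three (by norm_num) i (nocube norm_w)

/-- The quadratic polynomial. -/
noncomputable def G7 : F7[X] := X ^ 2 + C (t7 ^ 2) * X + C (t7 ^ 4 + 2)

theorem G7_deg : G7.natDegree = 2 := by
  unfold G7
  compute_degree!

theorem G7_monic : G7.Monic := by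
  unfold G7
  monicity!

theorem G7_irr : Irreducible G7 := by
  apply irreducible_of_degree_le_three_of_not_isRoot
  · rw [G7_deg]
    exact Finset.mem_Icc.2 ⟨by norm_num, by norm_num⟩
  · intro y hy
    rw [IsRoot.def] at hy
    unfold G7 at hy
    simp only [eval_add, eval_pow, eval_X, eval_mul, eval_C] at hy
    have h1 : (2 * y + t7 ^ 2) ^ 2 = -3 * t7 ^ 4 - 8 := by linear_combination 4 * hy
    have h2 := congrArg (Algebra.norm (ZMod 7)) h1
    rw [map_pow, norm_d] at h2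
    have h3 : ∀ y : ZMod 7, y ^ 2 ≠ 6 := by decide
    exact h3 _ h2

/-- The second factor. -/
theorem irr1 (i : ℕ) : Irreducible (G7.comp (X ^ (3 ^ i))) := by
  have hN : (3 : ℕ) ^ i ≠ 0 := pow_ne_zero _ (by norm_num)
  apply Polynomial.irreducible_comp G7_monic (monic_X_pow _) G7_irr
  intro E _ _ x hx
  have hint : IsIntegral F7 x := by
    by_contra h0
    rw [minpoly.eq_zero h0] at hx
    exact G7_monic.ne_zero hx.symm
  rw [Polynomial.map_pow, map_X]
  apply X_pow_sub_C_irreducible_of_prime_pow Nat.prime_three (by norm_num)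
  intro b hb
  have h1 : Algebra.norm F7 (IntermediateField.AdjoinSimple.gen F7 x) = t7 ^ 4 + 2 := by
    have h2 := Algebra.PowerBasis.norm_gen_eq_coeff_zero_minpoly
      (IntermediateField.adjoin.powerBasis hint)
    rw [IntermediateField.adjoin.powerBasis_gen, IntermediateField.adjoin.powerBasis_dim,
      IntermediateField.minpoly_gen, hx, G7_deg] at h2
    rw [h2]
    unfold G7
    rw [coeff_add, coeff_add, coeff_X_pow, coeff_C_mul, coeff_X_zero, coeff_C_zero]
    norm_num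
  apply nocube norm_a (Algebra.norm F7 b)
  rw [← map_pow, hb, h1]

/-- The factors. -/
noncomputable def h7 (N : ℕ) : Fin 2 → (ZMod 7)[X][X] :=
  ![X ^ N - C (X ^ 2), X ^ (2 * N) + C (X ^ 2) * X ^ N + C (X ^ 4 + 2)]

/-- `x ^ (3 N) + 2 x ^ N + 2`. -/
noncomputable def a7 (N : ℕ) : (ZMod 7)[X] := X ^ (3 * N) + 2 * X ^ N + 2

theorem a7_eq (N : ℕ) : a7 N = (X ^ 3 + 2 * X + 2 : (ZMod 7)[X]).comp (X ^ N) := by
  unfold a7
  simp only [add_comp, pow_comp, X_comp, mul_comp, ofNat_comp, Nat.cast_ofNat]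
  rw [← pow_mul, mul_comm N 3]

theorem a7_base : (X ^ 3 + 2 * X + 2 : (ZMod 7)[X]).Monic ∧
    (X ^ 3 + 2 * X + 2 : (ZMod 7)[X]).natDegree = 3 := by
  constructor
  · monicity!
  · compute_degree!

theorem a7_monic {N : ℕ} (hN : N ≠ 0) : (a7 N).Monic := by
  rw [a7_eq]
  exact a7_base.1.comp (monic_X_pow N) (by rw [natDegree_X_pow]; exact hN)

theorem a7_deg (N : ℕ) : (a7 N).natDegree = 3 * N := by
  rw [a7_eq, natDegree_comp, a7_base.2, natDegree_X_pow]

theorem fac7 (i : ℕ) : FacQ (fa (a7 (3 ^ i))) Q7 (h7 (3 ^ i)) 1 := by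
  have hN : (3 : ℕ) ^ i ≠ 0 := pow_ne_zero _ (by norm_num)
  have hm0 : (X ^ (3 ^ i) - C (X ^ 2) : (ZMod 7)[X][X]).Monic := monic_X_pow_sub_C _ hN
  have e1 : (X ^ (2 * 3 ^ i) + C (X ^ 2) * X ^ (3 ^ i) + C (X ^ 4 + 2) : (ZMod 7)[X][X]) =
      (X ^ 2 + C (X ^ 2) * X + C (X ^ 4 + 2)).comp (X ^ (3 ^ i)) := by
    simp only [add_comp, pow_comp, X_comp, mul_comp, C_comp]
    rw [← pow_mul, mul_comm 2]
  have hm1 : (X ^ (2 * 3 ^ i) + C (X ^ 2) * X ^ (3 ^ i) + C (X ^ 4 + 2) :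
      (ZMod 7)[X][X]).Monic := by
    rw [e1]
    refine Monic.comp ?_ (monic_X_pow _) (by rw [natDegree_X_pow]; exact hN)
    monicity!
  have r0 : (X ^ (3 ^ i) - C (X ^ 2) : (ZMod 7)[X][X]).map (AdjoinRoot.mk Q7) =
      X ^ (3 ^ i) - C (t7 ^ 2) := by
    rw [Polynomial.map_sub, Polynomial.map_pow, map_X, map_C, map_pow, AdjoinRoot.mk_X]
  have r1 : (X ^ (2 * 3 ^ i) + C (X ^ 2) * X ^ (3 ^ i) + C (X ^ 4 + 2) : (ZMod 7)[X][X]).map
      (AdjoinRoot.mk Q7) = G7.comp (X ^ (3 ^ i)) := by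
    rw [e1, Polynomial.map_comp]
    congr 1
    · unfold G7
      simp only [Polynomial.map_add, Polynomial.map_mul, Polynomial.map_pow, map_X, map_C, map_pow,
        map_add, AdjoinRoot.mk_X, map_ofNat, Polynomial.map_ofNat]
    · rw [Polynomial.map_pow, map_X]
  refine ⟨?_, ?_, ?_, ?_, ?_⟩
  · intro j
    fin_cases j
    · exact hm0
    · exact hm1
  · intro j
    fin_cases j
    · show Irreducible ((X ^ (3 ^ i) - C (X ^ 2) : (ZMod 7)[X][X]).map (AdjoinRoot.mk Q7))
      rw [r0]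
      exact irr0 i
    · show Irreducible ((X ^ (2 * 3 ^ i) + C (X ^ 2) * X ^ (3 ^ i) + C (X ^ 4 + 2) :
        (ZMod 7)[X][X]).map (AdjoinRoot.mk Q7))
      rw [r1]
      exact irr1 i
  · have hne : X ^ (3 ^ i) - C (t7 ^ 2) ≠ G7.comp (X ^ (3 ^ i)) := by
      intro h0
      have h1 := congrArg natDegree h0
      rw [natDegree_X_pow_sub_C, natDegree_comp, G7_deg, natDegree_X_pow] at h1
      omega
    intro a b hab
    fin_cases a <;> fin_cases b
    · rfl
    · exfalso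
      apply hne
      rw [← r0, ← r1]
      exact hab
    · exfalso
      apply hne
      rw [← r0, ← r1]
      exact hab.symm
    · rfl
  · rw [natDegree_one, fa_deg (by rw [a7_deg]; omega), a7_deg]
    omega
  · rw [Fin.prod_univ_two]
    show fa (a7 (3 ^ i)) = (X ^ (3 ^ i) - C (X ^ 2)) *
      (X ^ (2 * 3 ^ i) + C (X ^ 2) * X ^ (3 ^ i) + C (X ^ 4 + 2)) + C Q7 * 1 ^ 2
    unfold fa a7 Q7
    simp only [Polynomial.map_add, Polynomial.map_mul, Polynomial.map_pow, map_X, C_sub,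
      C_mul, C_add, C_pow, C_1, Polynomial.map_ofNat]
    have h2 : (C (2 : (ZMod 7)[X]) : (ZMod 7)[X][X]) = 2 := map_ofNat C 2
    rw [h2, pow_mul', pow_mul']
    ring

end Run7.h905.BS.Seven
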