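import Pool.Agent.Run7.h905.BS.PtsU
import Pool.Agent.Run7.h905.BS.Spec
import Mathlib.FieldTheory.KummerExtension

/-!
# Towers `x ↦ x ^ (s ^ i)`
-/

open Polynomial IsDedekindDomain WithZero
open scoped Classical

set_option autoImplicit false
set_option linter.all false
set_option maxHeartbeats 400000

namespace Run7.h905.BS

open Pool.Agent.Y160.SE
open Pool.Agent.N352.Sha (ShaTrivial)

/-- `h(x ^ (s ^ i))` is irreducible if the root of `h` is not an `s`-th power. -/
theorem tower_irr {L : Type} [Field L] {h : L[X]} (hm : h.Monic) (hi : Irreducible h) {s : ℕ}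
    (hs : s.Prime) (hs2 : s ≠ 2) (hr : ∀ z : AdjoinRoot h, z ^ s ≠ AdjoinRoot.root h) (i : ℕ) :
    Irreducible (h.comp (X ^ s ^ i)) := by
  refine irreducible_comp hm (monic_X_pow _) hi ?_
  intro E _ _ x hx
  rw [Polynomial.map_pow, map_X]
  refine X_pow_sub_C_irreducible_of_prime_pow hs hs2 i ?_
  intro b hb
  have hint : IsIntegral L x := by
    by_contra h0
    have := minpoly.eq_zero h0
    rw [this] at hx
    exact hi.ne_zero hx.symm
  subst hx
  have h1 := IntermediateField.adjoinRootEquivAdjoin_apply_root L hint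
  apply hr ((IntermediateField.adjoinRootEquivAdjoin L hint).symm b)
  apply (IntermediateField.adjoinRootEquivAdjoin L hint).injective
  rw [map_pow, AlgEquiv.apply_symm_apply, h1, hb]

section tower

variable {k : Type} [Field k] {a : k[X]} {Q : k[X]} {m : ℕ} {h u : Fin m → k[X][X]}

theorem comp_inj {R : Type} [CommRing R] [IsDomain R] {N : ℕ} (hN : N ≠ 0) :
    Function.Injective fun p : R[X] => p.comp (X ^ N) := by
  intro p q hpq
  have h1 : (p - q).comp (X ^ N) = 0 := by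
    rw [sub_comp]
    exact sub_eq_zero.2 hpq
  rw [comp_eq_zero_iff] at h1
  rcases h1 with h1 | ⟨-, h2⟩
  · exact sub_eq_zero.1 h1
  · exfalso
    have := congrArg natDegree h2
    rw [natDegree_X_pow, natDegree_C] at this
    exact hN this

theorem map_comp_pow {R S : Type} [CommRing R] [CommRing S] (φ : R →+* S) (p : R[X]) (N : ℕ) :
    (p.comp (X ^ N)).map φ = (p.map φ).comp (X ^ N) := by
  rw [map_comp, Polynomial.map_pow, map_X]

theorem LiftQ.tower (hQ : Irreducible Q) (hF : LiftQ (a.map C - C X) Q h) {s : ℕ} (hs : s.Prime)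
    (hs2 : s ≠ 2)
    (hr : ∀ j, ∀ z : AdjoinRoot ((h j).map (AdjoinRoot.mk Q)), z ^ s ≠ AdjoinRoot.root _) (i : ℕ) :
    LiftQ ((a.comp (X ^ s ^ i)).map C - C X) Q fun j => (h j).comp (X ^ s ^ i) := by
  haveI : Fact (Irreducible Q) := ⟨hQ⟩
  have hN : s ^ i ≠ 0 := pow_ne_zero _ hs.ne_zero
  refine ⟨?_, ?_, ?_, ?_⟩
  · intro j
    exact (hF.mon j).comp (monic_X_pow _) (by rw [natDegree_X_pow]; exact hN)
  · intro j
    simp only [map_comp_pow]
    exact tower_irr ((hF.mon j).map _) (hF.irr j) hs hs2 (hr j) i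
  · intro b c hbc
    simp only [map_comp_pow] at hbc
    exact hF.dist (comp_inj hN hbc)
  · simp only [map_comp_pow (AdjoinRoot.mk Q)]
    have h1 := congrArg (fun p : (AdjoinRoot Q)[X] => p.comp (X ^ s ^ i)) hF.prod
    simp only [prod_comp] at h1
    rw [← h1, ← map_comp_pow, sub_comp, C_comp, map_comp_pow C]

theorem dvd_tower {N : ℕ} {j : Fin m} (hd : h j ∣ (a.map C - C X) - C Q * u j ^ 2) :
    (h j).comp (X ^ N) ∣ ((a.comp (X ^ N)).map C - C X) - C Q * ((u j).comp (X ^ N)) ^ 2 := by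
  obtain ⟨v, hv⟩ := hd
  refine ⟨v.comp (X ^ N), ?_⟩
  rw [← mul_comp, ← hv, sub_comp, sub_comp, mul_comp, C_comp, C_comp, pow_comp, map_comp_pow]

variable [PerfectField k] (K : Type) [Field K] [Algebra k[X] K] [IsFractionRing k[X] K]

/-- **The rank is constant in the towers.** -/
theorem mainX (h2 : (2 : k) ≠ 0) (ha : a.Monic) (ho : Odd a.natDegree) (hQ : Irreducible Q)
    (hF : LiftQ (a.map C - C X) Q h) {s : ℕ} (hs : s.Prime) (hs2 : s ≠ 2)
    (hr : ∀ j, ∀ z : AdjoinRoot ((h j).map (AdjoinRoot.mk Q)), z ^ s ≠ AdjoinRoot.root _)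
    {D : Finset (Fin m)} (hD : m - 1 ≤ D.card)
    (hd : ∀ j ∈ D, h j ∣ (a.map C - C X) - C Q * u j ^ 2) (i : ℕ) :
    (∀ x : Jac 2 (tF K ((a.comp (X ^ s ^ i)).map C - C X) (qK K Q)) K, 2 • x = 0 → x = 0) ∧
      Nat.card (Jac 2 (tF K ((a.comp (X ^ s ^ i)).map C - C X) (qK K Q)) K ⧸
        dbl (Jac 2 (tF K ((a.comp (X ^ s ^ i)).map C - C X) (qK K Q)) K)) = 2 ^ (m - 1) ∧
      ShaTrivial 2 (tF K ((a.comp (X ^ s ^ i)).map C - C X) (qK K Q)) k[X] := by
  have hN : s ^ i ≠ 0 := pow_ne_zero _ hs.ne_zero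
  have ha' : (a.comp (X ^ s ^ i)).Monic :=
    ha.comp (monic_X_pow _) (by rw [natDegree_X_pow]; exact hN)
  have ho' : Odd (a.comp (X ^ s ^ i)).natDegree := by
    rw [natDegree_comp, natDegree_X_pow]
    exact ho.mul (hs.odd_of_ne_two hs2).pow
  have hf : GoodCurve ((a.comp (X ^ s ^ i)).map C - C X) := fa_good ha' ho'
  have hL := hF.tower hQ hs hs2 hr i
  obtain ⟨h3, ⟨r, hr', h4⟩, h5⟩ := critS K h2 hf hQ (hL.split hQ)
  have key : Nat.card (Jac 2 (tF K ((a.comp (X ^ s ^ i)).map C - C X) (qK K Q)) K ⧸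
      dbl (Jac 2 (tF K ((a.comp (X ^ s ^ i)).map C - C X) (qK K Q)) K)) = 2 ^ (m - 1) := by
    by_cases hm : 2 ≤ m
    · obtain ⟨P, -, -, h6⟩ := critP K h2 hf hQ hL hm (D := D)
        (u := fun j => (u j).comp (X ^ s ^ i)) fun j hj => dvd_tower (hd j hj)
      exact (h6 hD).2
    · have h9 : m - 1 = 0 := by omega
      rw [h9] at hr'
      have : r = 0 := by omega
      rw [h4, this, h9]
  exact ⟨h3, key, h5 key⟩

end tower

end Run7.h905.BS
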