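import Pool.Agent.Run7.h905.BS.Qg

/-!
# The substitution `t ↦ α t ^ 2 + β` for arbitrary plane curves
-/

open Polynomial IsDedekindDomain WithZero
open scoped Classical

set_option autoImplicit false
set_option linter.all false
set_option maxHeartbeats 400000

namespace Run7.h905.BS

open Pool.Agent.W309.TD (NoTwo)

section tower

variable {k : Type} [Field k]

/-- The map of the rings. -/
noncomputable def phS (f : k[X][X]) (α β : k) : AdjoinRoot f →+* AdjoinRoot (S2 α β f) :=
  AdjoinRoot.lift ((AdjoinRoot.of (S2 α β f)).comp (s2 α β)) (AdjoinRoot.root _) (by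
    have h1 : eval₂ (AdjoinRoot.of (S2 α β f)) (AdjoinRoot.root _) (f.map (s2 α β)) = 0 := by
      have : f.map (s2 α β) = S2 α β f := rfl
      rw [this, AdjoinRoot.eval₂_root]
    rw [eval₂_map] at h1
    exact h1)

theorem phS_mk (f : k[X][X]) (α β : k) (g : k[X][X]) :
    phS f α β (AdjoinRoot.mk _ g) = AdjoinRoot.mk _ (S2 α β g) := by
  unfold phS
  rw [AdjoinRoot.lift_mk, ← eval₂_map]
  show eval₂ (AdjoinRoot.of _) (AdjoinRoot.root _) (S2 α β g) = _
  have := AdjoinRoot.aeval_eq (f := S2 α β f) (S2 α β g)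
  rw [← this]
  rfl

theorem quad_S (f : k[X][X]) {α : k} (hα : α ≠ 0) (β : k) :
    letI := (phS f α β).toAlgebra
    Quad (AdjoinRoot.of f (C α⁻¹ * (X - C β))) (AdjoinRoot.of (S2 α β f) X) := by
  letI := (phS f α β).toAlgebra
  refine ⟨?_, ?_, ?_⟩
  · show _ = phS f α β (AdjoinRoot.of f (C α⁻¹ * (X - C β)))
    have : AdjoinRoot.of f (C α⁻¹ * (X - C β)) =
        AdjoinRoot.mk f (C (C α⁻¹ * (X - C β))) := rfl
    rw [this, phS_mk, S2_C, map_mul, map_sub, s2_C, s2_C, s2_X, ← map_pow]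
    have h1 : (C α⁻¹ : k[X]) * (C α * X ^ 2 + C β - C β) = X ^ 2 := by
      have h2 : (C α⁻¹ : k[X]) * C α = 1 := by rw [← C_mul, inv_mul_cancel₀ hα, C_1]
      linear_combination X ^ 2 * h2
    rw [h1]
    rfl
  · intro z
    obtain ⟨g, rfl⟩ := AdjoinRoot.mk_surjective z
    obtain ⟨g0, g1, hg⟩ := S2_rep hα β g
    refine ⟨AdjoinRoot.mk _ g0, AdjoinRoot.mk _ g1, ?_⟩
    show _ = phS f α β (AdjoinRoot.mk _ g0) + phS f α β (AdjoinRoot.mk _ g1) * _
    rw [phS_mk, phS_mk, hg, map_add, map_mul, mul_comm (AdjoinRoot.mk _ (C X))]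
    rfl
  · intro Z W hZW
    obtain ⟨g0, rfl⟩ := AdjoinRoot.mk_surjective Z
    obtain ⟨g1, rfl⟩ := AdjoinRoot.mk_surjective W
    have h1 : phS f α β (AdjoinRoot.mk _ g0) +
        phS f α β (AdjoinRoot.mk _ g1) * AdjoinRoot.mk _ (C X) = 0 := hZW
    rw [phS_mk, phS_mk, ← map_mul, ← map_add, AdjoinRoot.mk_eq_zero] at h1
    obtain ⟨r, hr⟩ := h1
    obtain ⟨r0, r1, hr2⟩ := S2_rep hα β r
    have h2 : S2 α β (g0 - f * r0) + C X * S2 α β (g1 - f * r1) = 0 := by
      rw [map_sub, map_sub, map_mul, map_mul]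
      rw [hr2] at hr
      linear_combination hr
    obtain ⟨h3, h4⟩ := S2_uni hα h2
    rw [AdjoinRoot.mk_eq_zero, AdjoinRoot.mk_eq_zero]
    exact ⟨⟨r0, sub_eq_zero.1 h3⟩, ⟨r1, sub_eq_zero.1 h4⟩⟩

theorem tower_S (f : k[X][X]) (α β : k) :
    letI := (phS f α β).toAlgebra
    IsScalarTower k (AdjoinRoot f) (AdjoinRoot (S2 α β f)) := by
  letI := (phS f α β).toAlgebra
  refine IsScalarTower.of_algebraMap_eq fun e => ?_
  show _ = phS f α β (AdjoinRoot.mk f (C (C e)))
  rw [phS_mk, S2_C, s2_C]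
  rfl

/-- The prime elements `t - β`. -/
theorem prime_subS {f : k[X][X]} {β : k} (hirr : Irreducible (f.map (evalRingHom β)))
    (h0 : AdjoinRoot.of f (X - C β) ≠ 0) : Prime (AdjoinRoot.of f (X - C β)) := by
  let ev : k[X][X] →+* k[X] := mapRingHom (evalRingHom β)
  have hevf : ev f = f.map (evalRingHom β) := rfl
  have hker : ∀ g : k[X][X], ev g = 0 → C (X - C β) ∣ g := by
    intro g hg
    rw [C_dvd_iff_dvd_coeff]
    intro i
    have h1 := congrArg (fun p => coeff p i) hg
    have h2 : (g.map (evalRingHom β)).coeff i = 0 := h1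
    rw [coeff_map, coe_evalRingHom] at h2
    exact dvd_iff_isRoot.2 h2
  have hevC : ∀ g : k[X][X], ev (C (X - C β) * g) = 0 := by
    intro g
    rw [map_mul]
    have : ev (C (X - C β)) = 0 := by
      show (C (X - C β) : k[X][X]).map (evalRingHom β) = 0
      rw [map_C, coe_evalRingHom, eval_sub, eval_X, eval_C, sub_self, C_0]
    rw [this, zero_mul]
  have hiff : ∀ g : k[X][X], AdjoinRoot.of f (X - C β) ∣ AdjoinRoot.mk f g ↔
      f.map (evalRingHom β) ∣ ev g := by
    intro g
    constructor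
    · rintro ⟨z, hz⟩
      obtain ⟨r, rfl⟩ := AdjoinRoot.mk_surjective z
      have h1 : AdjoinRoot.mk f g = AdjoinRoot.mk f (C (X - C β) * r) := by
        rw [hz, map_mul]
        rfl
      rw [AdjoinRoot.mk_eq_mk] at h1
      obtain ⟨s, hs⟩ := h1
      have h2 := congrArg ev hs
      rw [map_sub, hevC, sub_zero, map_mul, hevf] at h2
      exact ⟨_, h2⟩
    · rintro ⟨s, hs⟩
      have h1 : ev (g - f * s.map C) = 0 := by
        have h3 : ev (s.map C) = s := by
          show (s.map C).map (evalRingHom β) = s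
          rw [map_map]
          have : (evalRingHom β).comp (C : k →+* k[X]) = RingHom.id k := by
            ext e
            simp
          rw [this, Polynomial.map_id]
        rw [map_sub, map_mul, hevf, h3, hs, sub_self]
      obtain ⟨r, hr⟩ := hker _ h1
      refine ⟨AdjoinRoot.mk _ r, ?_⟩
      have h2 : AdjoinRoot.of f (X - C β) * AdjoinRoot.mk f r =
          AdjoinRoot.mk f (C (X - C β) * r) := by
        rw [map_mul]
        rfl
      rw [h2, AdjoinRoot.mk_eq_mk]
      exact ⟨s.map C, by linear_combination hr⟩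
  have hp := hirr.prime
  refine ⟨h0, ?_, ?_⟩
  · intro hu
    have h1 : AdjoinRoot.of f (X - C β) ∣ AdjoinRoot.mk f 1 := hu.dvd
    rw [hiff, map_one] at h1
    exact hp.not_unit (isUnit_iff_dvd_one.2 h1)
  · intro z w hzw
    obtain ⟨g, rfl⟩ := AdjoinRoot.mk_surjective z
    obtain ⟨r, rfl⟩ := AdjoinRoot.mk_surjective w
    rw [← map_mul, hiff, map_mul] at hzw
    rw [hiff, hiff]
    exact hp.dvd_or_dvd hzw

theorem Good1.zero {f : k[X][X]} {α β : k} (hα : α ≠ 0) (hg : Good1 k (AdjoinRoot.of f X))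
    (hirr : Irreducible (f.map (evalRingHom β))) :
    Good0 k (AdjoinRoot.of f (C α⁻¹ * (X - C β))) := by
  haveI := hg.ded
  obtain ⟨d, n, hd, hn, hτ⟩ := hg.deg
  have h3 : d (AdjoinRoot.of f (X - C β)) = n := by
    have e1 : AdjoinRoot.of f (X - C β) =
        -(algebraMap k (AdjoinRoot f) β) + AdjoinRoot.of f X := by
      rw [map_sub]
      have : algebraMap k (AdjoinRoot f) β = AdjoinRoot.of f (C β) := rfl
      rw [this]
      ring
    rw [e1, hd.add_eq, hτ]
    rw [hd.neg, hτ]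
    by_cases hβ : β = 0
    · rw [hβ, map_zero, (hd.zero 0).2 rfl]
      exact WithBot.bot_lt_coe _
    · rw [hd.const hβ]
      have := hn.pos
      exact_mod_cast this
  have h4 : AdjoinRoot.of f (X - C β) ≠ 0 := by
    rw [Ne, ← hd.zero, h3]
    exact WithBot.coe_ne_bot
  have h5 := prime_subS hirr h4
  have hα' : α⁻¹ ≠ 0 := inv_ne_zero hα
  have e2 : AdjoinRoot.of f (C α⁻¹ * (X - C β)) =
      algebraMap k (AdjoinRoot f) α⁻¹ * AdjoinRoot.of f (X - C β) := by
    rw [map_mul]
    rfl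
  refine ⟨hg.ded, hg.ntw, ?_, d, n, hd, hn, ?_⟩
  · rw [e2, mul_comm]
    have h6 : IsUnit (algebraMap k (AdjoinRoot f) α⁻¹) :=
      (isUnit_iff_ne_zero.2 hα').map _
    exact ((associated_mul_unit_right _ _ h6).prime_iff).1 h5
  · rw [e2, hd.mul, hd.const hα', h3, zero_add]

theorem Good1.stepS {f : k[X][X]} (h2 : (2 : k) ≠ 0) {α β : k} (hα : α ≠ 0)
    (hg : Good1 k (AdjoinRoot.of f X)) (hirr : Irreducible (f.map (evalRingHom β))) :
    Good1 k (AdjoinRoot.of (S2 α β f) X) := by
  letI := (phS f α β).toAlgebra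
  haveI := tower_S f α β
  have h7 := Good0.step h2 (quad_S f hα β) (hg.zero hα hirr)
  exact ⟨h7.ded, h7.ntw, h7.deg⟩

/-- The derivative with respect to the coefficients. -/
noncomputable def dT (f : k[X][X]) : k[X][X] := f.sum fun i a => C (derivative a) * X ^ i

theorem dT_coeff (f : k[X][X]) (i : ℕ) : (dT f).coeff i = derivative (f.coeff i) := by
  unfold dT
  rw [sum_def, finset_sum_coeff]
  simp only [coeff_C_mul, coeff_X_pow]
  rw [Finset.sum_eq_single i]
  · rw [if_pos rfl, mul_one]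
  · intro j _ hj
    rw [if_neg (Ne.symm hj), mul_zero]
  · intro hi
    rw [notMem_support_iff] at hi
    rw [hi, derivative_zero, zero_mul]

/-- The curve is smooth. -/
def SmG (f : k[X][X]) : Prop := Ideal.span {f, derivative f, dT f} = ⊤

theorem S2_coeff (α β : k) (f : k[X][X]) (i : ℕ) : (S2 α β f).coeff i = s2 α β (f.coeff i) := by
  unfold S2
  rw [coe_mapRingHom, coeff_map]

theorem S2_der (α β : k) (f : k[X][X]) : derivative (S2 α β f) = S2 α β (derivative f) := by
  unfold S2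
  rw [coe_mapRingHom, derivative_map]

theorem S2_dT (α β : k) (f : k[X][X]) :
    dT (S2 α β f) = C (C (2 * α) * X) * S2 α β (dT f) := by
  ext1 i
  rw [dT_coeff, coeff_C_mul, S2_coeff, S2_coeff, dT_coeff]
  show derivative ((f.coeff i).comp _) = _ * (derivative (f.coeff i)).comp _
  rw [derivative_comp, derivative_add, derivative_C, derivative_C_mul_X_pow]
  congr 1
  rw [add_zero, Nat.add_one_sub_one, pow_one]
  push_cast
  rw [mul_comm α 2]

theorem SmG.step (h2 : (2 : k) ≠ 0) {f : k[X][X]} {α β : k} (hα : α ≠ 0) (h : SmG f)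
    (hs : (f.map (evalRingHom β)).Separable) : SmG (S2 α β f) := by
  unfold SmG at h ⊢
  set I : Ideal k[X][X] := Ideal.span {S2 α β f, derivative (S2 α β f), dT (S2 α β f)} with hI
  have m1 : S2 α β f ∈ I := Ideal.subset_span (Or.inl rfl)
  have m2 : derivative (S2 α β f) ∈ I := Ideal.subset_span (Or.inr (Or.inl rfl))
  have m3 : dT (S2 α β f) ∈ I := Ideal.subset_span (Or.inr (Or.inr rfl))
  -- the derivative
  have m4 : C X * S2 α β (dT f) ∈ I := by
    have e1 : C X * S2 α β (dT f) = C (C (2 * α)⁻¹) * dT (S2 α β f) := by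
      rw [S2_dT, C_mul]
      have e2 : (C (C (2 * α)⁻¹) : k[X][X]) * C (C (2 * α)) = 1 := by
        rw [← C_mul, ← C_mul, inv_mul_cancel₀ (mul_ne_zero h2 hα), C_1, C_1]
      linear_combination (-(C X * S2 α β (dT f))) * e2
    rw [e1]
    exact I.mul_mem_left _ m3
  -- the first relation
  have h3 : (1 : k[X][X]) ∈ Ideal.span {f, derivative f, dT f} := by
    rw [h]
    exact Submodule.mem_top
  obtain ⟨A, z, hz, h4⟩ := Ideal.mem_span_insert.1 h3
  obtain ⟨B, w, hw, h5⟩ := Ideal.mem_span_insert.1 hz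
  obtain ⟨D, h6⟩ := Ideal.mem_span_singleton'.1 hw
  have m5 : 1 - S2 α β D * S2 α β (dT f) ∈ I := by
    have h8 := congrArg (S2 α β) h4
    rw [map_one, map_add, map_mul, h5, map_add, map_mul, ← h6, map_mul, ← S2_der] at h8
    have : 1 - S2 α β D * S2 α β (dT f) =
        S2 α β A * S2 α β f + S2 α β B * derivative (S2 α β f) := by
      linear_combination h8
    rw [this]
    exact add_mem (I.mul_mem_left _ m1) (I.mul_mem_left _ m2)
  -- the second relation
  have key : ∀ g : k[X][X], ∃ W, S2 α β g = (g.map (evalRingHom β)).map C + C X * W := by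
    intro g
    have h9 : C X ∣ S2 α β g - (g.map (evalRingHom β)).map C := by
      rw [C_dvd_iff_dvd_coeff]
      intro i
      rw [coeff_sub, S2_coeff, coeff_map, coeff_map, coe_evalRingHom, X_dvd_iff, coeff_sub,
        coeff_C_zero, coeff_zero_eq_eval_zero]
      show eval 0 ((g.coeff i).comp _) - _ = 0
      rw [eval_comp]
      simp
    obtain ⟨W, hW⟩ := h9
    exact ⟨W, by rw [← hW]; ring⟩
  obtain ⟨W, hW⟩ := key f
  obtain ⟨V, hV⟩ := key (derivative f)
  rw [← derivative_map, derivative_map, ← S2_der] at hV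
  obtain ⟨u, v, huv⟩ := hs
  have m6 : 1 + C X * (u.map C * W + v.map C * V) ∈ I := by
    have e1 := congrArg (fun p => p.map (C : k →+* k[X])) huv
    simp only [Polynomial.map_add, Polynomial.map_mul, Polynomial.map_one] at e1
    have : 1 + C X * (u.map C * W + v.map C * V) = u.map C * S2 α β f +
        v.map C * derivative (S2 α β f) := by
      rw [← e1, hV, hW, derivative_map]
      ring
    rw [this]
    exact add_mem (I.mul_mem_left _ m1) (I.mul_mem_left _ m2)
  rw [Ideal.eq_top_iff_one]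
  have e : (1 : k[X][X]) = (1 - S2 α β D * S2 α β (dT f)) +
      S2 α β D * S2 α β (dT f) * (1 + C X * (u.map C * W + v.map C * V)) -
      (S2 α β D * (u.map C * W + v.map C * V)) * (C X * S2 α β (dT f)) := by
    ring
  rw [e]
  exact sub_mem (add_mem m5 (I.mul_mem_left _ m6)) (I.mul_mem_left _ m4)

theorem S2_monic {f : k[X][X]} (hf : f.Monic) (α β : k) : (S2 α β f).Monic := by
  unfold S2
  rw [coe_mapRingHom]
  exact hf.map _

theorem S2_deg {f : k[X][X]} (hf : f.Monic) (α β : k) : (S2 α β f).natDegree = f.natDegree := by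
  unfold S2
  rw [coe_mapRingHom]
  exact hf.natDegree_map _

theorem Good1.curve {f : k[X][X]} (hf : f.Monic) (ho : Odd f.natDegree) (hs : SmG f)
    (hg : Good1 k (AdjoinRoot.of f X)) : GoodCurve f := by
  haveI := hg.ded
  obtain ⟨d, n, hd, hn, hτ⟩ := hg.deg
  refine ⟨hf, ho, hs, hg.ded, hg.ntw, ?_⟩
  intro v hv
  obtain ⟨e, _, he⟩ := hd.unit hv
  exact ⟨e, he⟩

end tower

end Run7.h905.BS
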