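import Pool.Agent.Run7.h905.BS.Ya

/-!
# The coordinate change `t ↦ t + p(x)`
-/

open Polynomial IsDedekindDomain WithZero
open scoped Classical

set_option autoImplicit false
set_option linter.all false
set_option maxHeartbeats 400000

namespace Run7.h905.BS

open Pool.Agent.W309.TD (NoTwo)

theorem Quad.equiv {B B₀ B' : Type} [CommRing B] [CommRing B₀] [CommRing B'] [Algebra B B₀]
    {τ : B} {t : B₀} (q : Quad τ t) (e : B₀ ≃+* B') :
    letI := (e.toRingHom.comp (algebraMap B B₀)).toAlgebra
    Quad τ (e t) := by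
  letI := (e.toRingHom.comp (algebraMap B B₀)).toAlgebra
  refine ⟨?_, ?_, ?_⟩
  · show _ = e (algebraMap B B₀ τ)
    rw [← q.sq, map_pow]
  · intro z
    obtain ⟨X, Y, h⟩ := q.rep (e.symm z)
    refine ⟨X, Y, ?_⟩
    show _ = e (algebraMap B B₀ X) + e (algebraMap B B₀ Y) * e t
    rw [← map_mul, ← map_add, ← h, RingEquiv.apply_symm_apply]
  · intro X Y h
    apply q.uni
    have h1 : e (algebraMap B B₀ X) + e (algebraMap B B₀ Y) * e t = 0 := h
    rw [← map_mul, ← map_add] at h1
    exact (map_eq_zero_iff e e.injective).1 h1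

section aev

variable {k B : Type} [Field k] [CommRing B] [Algebra k B] {d : B → WithBot ℕ}

/-- The degree of a polynomial in an element of positive degree. -/
theorem InfDeg.aeval (h : InfDeg k d) [Nontrivial B] {x : B} {δ : ℕ} (hδ : 0 < δ) (hx : d x = δ) :
    ∀ (n : ℕ) (q : k[X]), q.natDegree = n → q ≠ 0 → d (aeval x q) = ((δ * n : ℕ) : WithBot ℕ) := by
  have hpow : ∀ n : ℕ, d (x ^ n) = ((δ * n : ℕ) : WithBot ℕ) := by
    intro n
    induction n with
    | zero => rw [pow_zero, h.one, mul_zero]; rfl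
    | succ n ih =>
      rw [pow_succ, h.mul, ih, hx, mul_add, mul_one]
      push_cast
      rfl
  intro n
  induction n using Nat.strong_induction_on with
  | _ n ih =>
    intro q hq hq0
    have h1 : q = q.eraseLead + C q.leadingCoeff * X ^ q.natDegree :=
      (eraseLead_add_C_mul_X_pow q).symm
    have h2 : d (Polynomial.aeval x (C q.leadingCoeff * X ^ q.natDegree)) =
        ((δ * n : ℕ) : WithBot ℕ) := by
      rw [map_mul, aeval_C, map_pow, aeval_X, h.mul, h.const (leadingCoeff_ne_zero.2 hq0), zero_add,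
        hpow, hq]
    rw [h1, map_add, h.add_eq, h2]
    rw [h2]
    by_cases h3 : q.eraseLead = 0
    · rw [h3, map_zero, (h.zero 0).2 rfl]
      exact WithBot.bot_lt_coe _
    · have h4 : q.eraseLead.natDegree < n := by
        rcases eraseLead_natDegree_lt_or_eraseLead_eq_zero q with h5 | h5
        · rw [← hq]; exact h5
        · exact absurd h5 h3
      rw [ih _ h4 _ rfl h3]
      have h6 : δ * q.eraseLead.natDegree < δ * n := Nat.mul_lt_mul_of_pos_left h4 hδ
      exact_mod_cast h6

end aev

section shift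

variable {k : Type} [Field k]

/-- `t ↦ t + p(x)` on the polynomials in `t`. -/
noncomputable def sh0 (p : k[X]) : k[X] →+* k[X][X] :=
  eval₂RingHom ((C : k[X] →+* k[X][X]).comp (C : k →+* k[X])) (C X + p.map C)

/-- `t ↦ t + p(x)`, `x ↦ x`. -/
noncomputable def sh (p : k[X]) : k[X][X] →+* k[X][X] := eval₂RingHom (sh0 p) X

theorem sh_X (p : k[X]) : sh p X = X := by
  unfold sh
  rw [coe_eval₂RingHom, eval₂_X]

theorem sh_C (p a : k[X]) : sh p (C a) = sh0 p a := by
  unfold sh
  rw [coe_eval₂RingHom, eval₂_C]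

theorem sh0_C (p : k[X]) (c : k) : sh0 p (C c) = C (C c) := by
  unfold sh0
  rw [coe_eval₂RingHom, eval₂_C]
  rfl

theorem sh0_X (p : k[X]) : sh0 p X = C X + p.map C := by
  unfold sh0
  rw [coe_eval₂RingHom, eval₂_X]

theorem sh_map (p q : k[X]) : sh p (q.map C) = q.map C := by
  have h : (sh p).comp (mapRingHom (C : k →+* k[X])) = mapRingHom (C : k →+* k[X]) := by
    apply ringHom_ext
    · intro c
      show sh p ((C c : k[X]).map C) = (C c : k[X]).map C
      rw [map_C, sh_C, sh0_C]
    · show sh p ((X : k[X]).map C) = (X : k[X]).map C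
      rw [map_X, sh_X]
  exact congrArg (fun φ : k[X] →+* k[X][X] => φ q) h

theorem sh_sh (p : k[X]) (g : k[X][X]) : sh p (sh (-p) g) = g := by
  have h : (sh p).comp (sh (-p)) = RingHom.id _ := by
    apply ringHom_ext
    · intro a
      have h1 : ((sh p).comp (sh (-p))).comp (C : k[X] →+* k[X][X]) = C := by
        apply ringHom_ext
        · intro c
          show sh p (sh (-p) (C (C c))) = C (C c)
          rw [sh_C, sh0_C, sh_C, sh0_C]
        · show sh p (sh (-p) (C X)) = C X
          rw [sh_C, sh0_X, map_add, sh_C, sh0_X, sh_map, Polynomial.map_neg]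
          ring
      exact congrArg (fun φ : k[X] →+* k[X][X] => φ a) h1
    · show sh p (sh (-p) X) = X
      rw [sh_X, sh_X]
  exact congrArg (fun φ : k[X][X] →+* k[X][X] => φ g) h

/-- The automorphism. -/
noncomputable def shE (p : k[X]) : k[X][X] ≃+* k[X][X] :=
  RingEquiv.ofRingHom (sh p) (sh (-p))
    (RingHom.ext fun g => sh_sh p g)
    (RingHom.ext fun g => by
      have := sh_sh (-p) g
      rwa [neg_neg] at this)

/-- The isomorphism of the coordinate rings. -/
noncomputable def eSh (p : k[X]) (f : k[X][X]) : AdjoinRoot f ≃+* AdjoinRoot (sh p f) :=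
  Ideal.quotientEquiv (Ideal.span {f}) (Ideal.span {sh p f}) (shE p)
    (by rw [Ideal.map_span, Set.image_singleton]; rfl)

theorem eSh_mk (p : k[X]) (f g : k[X][X]) :
    eSh p f (AdjoinRoot.mk f g) = AdjoinRoot.mk (sh p f) (sh p g) := rfl

theorem dT_add (f g : k[X][X]) : dT (f + g) = dT f + dT g := by
  ext1 i
  rw [dT_coeff, coeff_add, coeff_add, derivative_add, dT_coeff, dT_coeff]

theorem dT_mul (f g : k[X][X]) : dT (f * g) = dT f * g + f * dT g := by
  ext1 i
  rw [dT_coeff, coeff_mul, coeff_add, coeff_mul, coeff_mul, derivative_sum,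
    ← Finset.sum_add_distrib]
  refine Finset.sum_congr rfl fun x _ => ?_
  rw [derivative_mul, dT_coeff, dT_coeff]

theorem dT_C (a : k[X]) : dT (C a) = C (derivative a) := by
  ext1 i
  rw [dT_coeff, coeff_C, coeff_C]
  split_ifs
  · rfl
  · rw [derivative_zero]

theorem dT_map (q : k[X]) : dT (q.map C) = 0 := by
  ext1 i
  rw [dT_coeff, coeff_map, derivative_C, coeff_zero]

theorem dT_X : dT (X : k[X][X]) = 0 := by
  have := dT_map (X : k[X])
  rwa [map_X] at this

/-- The chain rule. -/
theorem sh_der (p : k[X]) (g : k[X][X]) :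
    dT (sh p g) = sh p (dT g) ∧
      derivative (sh p g) = sh p (derivative g) + sh p (dT g) * (derivative p).map C := by
  have hmul : ∀ a b : k[X][X], (dT (sh p a) = sh p (dT a) ∧
      derivative (sh p a) = sh p (derivative a) + sh p (dT a) * (derivative p).map C) →
      (dT (sh p b) = sh p (dT b) ∧
      derivative (sh p b) = sh p (derivative b) + sh p (dT b) * (derivative p).map C) →
      (dT (sh p (a * b)) = sh p (dT (a * b)) ∧
      derivative (sh p (a * b)) = sh p (derivative (a * b)) +
        sh p (dT (a * b)) * (derivative p).map C) := by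
    rintro a b ⟨h1, h2⟩ ⟨h3, h4⟩
    rw [map_mul, dT_mul, h1, h3, dT_mul, map_add, map_mul, map_mul, derivative_mul, derivative_mul,
      map_add, map_mul, map_mul, h2, h4]
    exact ⟨rfl, by ring⟩
  have hadd : ∀ a b : k[X][X], (dT (sh p a) = sh p (dT a) ∧
      derivative (sh p a) = sh p (derivative a) + sh p (dT a) * (derivative p).map C) →
      (dT (sh p b) = sh p (dT b) ∧
      derivative (sh p b) = sh p (derivative b) + sh p (dT b) * (derivative p).map C) →
      (dT (sh p (a + b)) = sh p (dT (a + b)) ∧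
      derivative (sh p (a + b)) = sh p (derivative (a + b)) +
        sh p (dT (a + b)) * (derivative p).map C) := by
    rintro a b ⟨h1, h2⟩ ⟨h3, h4⟩
    rw [map_add, dT_add, h1, h3, dT_add, map_add, derivative_add, derivative_add,
      map_add, h2, h4]
    exact ⟨rfl, by ring⟩
  have hCC : ∀ c : k, dT (sh p (C (C c))) = sh p (dT (C (C c))) ∧
      derivative (sh p (C (C c))) = sh p (derivative (C (C c))) +
        sh p (dT (C (C c))) * (derivative p).map C := by
    intro c
    rw [sh_C, sh0_C, dT_C, derivative_C, derivative_C, C_0, map_zero, zero_mul, add_zero]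
    exact ⟨rfl, rfl⟩
  have hCX : dT (sh p (C X)) = sh p (dT (C X)) ∧
      derivative (sh p (C X)) = sh p (derivative (C X)) +
        sh p (dT (C X)) * (derivative p).map C := by
    rw [sh_C, sh0_X, dT_add, dT_C, dT_map, derivative_X, C_1, map_one, add_zero, derivative_C,
      map_zero, derivative_add, derivative_C, derivative_map]
    exact ⟨rfl, by ring⟩
  have hX : dT (sh p X) = sh p (dT X) ∧
      derivative (sh p X) = sh p (derivative X) + sh p (dT X) * (derivative p).map C := by
    rw [sh_X, dT_X, derivative_X, map_zero, map_one]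
    exact ⟨rfl, by ring⟩
  have hC : ∀ a : k[X], dT (sh p (C a)) = sh p (dT (C a)) ∧
      derivative (sh p (C a)) = sh p (derivative (C a)) +
        sh p (dT (C a)) * (derivative p).map C := by
    intro a
    induction a using Polynomial.induction_on with
    | C c => exact hCC c
    | add a b ha hb =>
      rw [C_add]
      exact hadd _ _ ha hb
    | monomial n c ih =>
      rw [pow_succ, ← mul_assoc, C_mul]
      exact hmul _ _ ih hCX
  induction g using Polynomial.induction_on with
  | C a => exact hC a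
  | add a b ha hb => exact hadd _ _ ha hb
  | monomial n a ih =>
    rw [pow_succ, ← mul_assoc]
    exact hmul _ _ ih hX

/-- Smoothness is preserved. -/
theorem SmG.sh {f : k[X][X]} (h : SmG f) (p : k[X]) : SmG (sh p f) := by
  unfold SmG at h ⊢
  set I : Ideal k[X][X] := Ideal.span {BS.sh p f, derivative (BS.sh p f), dT (BS.sh p f)} with hI
  have m1 : BS.sh p f ∈ I := Ideal.subset_span (Or.inl rfl)
  have m2 : derivative (BS.sh p f) ∈ I := Ideal.subset_span (Or.inr (Or.inl rfl))
  have m3 : dT (BS.sh p f) ∈ I := Ideal.subset_span (Or.inr (Or.inr rfl))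
  have h3 : (1 : k[X][X]) ∈ Ideal.span {f, derivative f, dT f} := by
    rw [h]
    exact Submodule.mem_top
  obtain ⟨A, z, hz, h4⟩ := Ideal.mem_span_insert.1 h3
  obtain ⟨B, w, hw, h5⟩ := Ideal.mem_span_insert.1 hz
  obtain ⟨D, h6⟩ := Ideal.mem_span_singleton'.1 hw
  obtain ⟨h7, h8⟩ := sh_der p f
  have h9 := congrArg (BS.sh p) h4
  rw [map_one, map_add, map_mul, h5, map_add, map_mul, ← h6, map_mul, ← h7] at h9
  rw [← h7] at h8
  rw [Ideal.eq_top_iff_one]
  have : (1 : k[X][X]) = BS.sh p A * BS.sh p f + BS.sh p B * derivative (BS.sh p f) +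
      (BS.sh p D - BS.sh p B * (derivative p).map C) * dT (BS.sh p f) := by
    rw [h9, h8]
    ring
  rw [this]
  exact add_mem (add_mem (I.mul_mem_left _ m1) (I.mul_mem_left _ m2)) (I.mul_mem_left _ m3)

/-- **The curves `G(x) + γ (t + p(x)) ^ 2 - ν = 0`.** -/
theorem good1_sh (h2 : (2 : k) ≠ 0) {G p : k[X]} (hGo : Odd G.natDegree)
    (hp : 2 * p.natDegree < G.natDegree) {γ ν : k} (hγ : γ ≠ 0) (hirr : Irreducible (G - C ν)) :
    Good1 k (AdjoinRoot.of (sh p (fR G (C γ * X ^ 2 - C ν))) X) := by
  have hb : Good1 k (AdjoinRoot.of (fR G X) X) := by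
    have := good1_base hGo (one_ne_zero (α := k)) 0
    rw [C_0, C_1, one_mul, add_zero] at this
    exact this
  have hev : (fR G (X : k[X])).map (evalRingHom (-ν)) = G - C ν := by
    unfold fR
    rw [Polynomial.map_add, map_C, coe_evalRingHom, eval_X, map_map, C_neg, sub_eq_add_neg]
    congr 1
    have : (evalRingHom (-ν)).comp (C : k →+* k[X]) = RingHom.id k := by
      ext e
      simp
    rw [this, Polynomial.map_id]
  have h0 := hb.zero (α := γ) (β := -ν) hγ (by rw [hev]; exact hirr)
  have hf : S2 γ (-ν) (fR G X) = fR G (C γ * X ^ 2 - C ν) := by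
    rw [S2_fR, X_comp, C_neg, sub_eq_add_neg]
  rw [← hf]
  set f1 : k[X][X] := fR G X with hf1
  set f0 : k[X][X] := S2 γ (-ν) f1 with hf0
  letI i1 : Algebra (AdjoinRoot f1) (AdjoinRoot f0) := (phS f1 γ (-ν)).toAlgebra
  have q1 : Quad (AdjoinRoot.of f1 (C γ⁻¹ * (X - C (-ν)))) (AdjoinRoot.of f0 X) :=
    quad_S f1 hγ (-ν)
  letI i2 : Algebra (AdjoinRoot f1) (AdjoinRoot (sh p f0)) :=
    ((eSh p f0).toRingHom.comp (algebraMap (AdjoinRoot f1) (AdjoinRoot f0))).toAlgebra
  have q2 : Quad (AdjoinRoot.of f1 (C γ⁻¹ * (X - C (-ν)))) (eSh p f0 (AdjoinRoot.of f0 X)) :=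
    q1.equiv (eSh p f0)
  haveI : IsScalarTower k (AdjoinRoot f1) (AdjoinRoot (sh p f0)) := by
    refine IsScalarTower.of_algebraMap_eq fun e => ?_
    show _ = eSh p f0 (phS f1 γ (-ν) (AdjoinRoot.mk f1 (C (C e))))
    rw [phS_mk, S2_C, s2_C]
    show _ = eSh p f0 (AdjoinRoot.mk f0 (C (C e)))
    rw [eSh_mk, sh_C, sh0_C]
    rfl
  have h7 := Good0.step h2 q2 h0
  have ht1 : eSh p f0 (AdjoinRoot.of f0 X) = AdjoinRoot.mk (sh p f0) (C X + p.map C) := by
    show eSh p f0 (AdjoinRoot.mk f0 (C X)) = _
    rw [eSh_mk, sh_C, sh0_X]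
  obtain ⟨d, n, hd, hn, hτ⟩ := h7.deg
  haveI : Nontrivial (AdjoinRoot (sh p f0)) := by
    haveI := h7.ded
    infer_instance
  set t1 := eSh p f0 (AdjoinRoot.of f0 X) with ht1d
  set x : AdjoinRoot (sh p f0) := AdjoinRoot.mk (sh p f0) X with hx
  have hae : ∀ q : k[X], aeval x q = AdjoinRoot.mk (sh p f0) (q.map C) := by
    intro q
    have h8 : (aeval x : k[X] →ₐ[k] AdjoinRoot (sh p f0)).toRingHom =
        (AdjoinRoot.mk (sh p f0)).comp (mapRingHom (C : k →+* k[X])) := by
      apply ringHom_ext
      · intro e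
        show aeval x (C e) = AdjoinRoot.mk _ ((C e : k[X]).map C)
        rw [aeval_C, map_C]
        rfl
      · show aeval x X = AdjoinRoot.mk _ ((X : k[X]).map C)
        rw [aeval_X, map_X]
    exact congrArg (fun φ : k[X] →+* AdjoinRoot (sh p f0) => φ q) h8
  have hrel : algebraMap k (AdjoinRoot (sh p f0)) γ * t1 ^ 2 + aeval x (G - C ν) = 0 := by
    rw [hae, ht1]
    have h9 : algebraMap k (AdjoinRoot (sh p f0)) γ = AdjoinRoot.mk (sh p f0) (C (C γ)) := rfl
    rw [h9, ← map_pow, ← map_mul, ← map_add, AdjoinRoot.mk_eq_zero]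
    have h10 : sh p f0 = C (C γ) * (C X + p.map C) ^ 2 + (G - C ν).map C := by
      rw [hf]
      unfold fR
      rw [map_add, sh_map, sh_C, map_sub, map_mul, sh0_C, sh0_C, map_pow, sh0_X,
        Polynomial.map_sub, map_C]
      ring
    rw [← h10]
  have hGν : (G - C ν).natDegree = G.natDegree := natDegree_sub_C
  have hn0 := hn.pos
  have hdt : d (algebraMap k (AdjoinRoot (sh p f0)) γ * t1 ^ 2) = ((n + n : ℕ) : WithBot ℕ) := by
    rw [hd.mul, hd.const hγ, zero_add, pow_two, hd.mul, hτ]
    push_cast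
    rfl
  have hdG : d (aeval x (G - C ν)) = ((n + n : ℕ) : WithBot ℕ) := by
    have h11 : aeval x (G - C ν) = -(algebraMap k (AdjoinRoot (sh p f0)) γ * t1 ^ 2) := by
      linear_combination hrel
    rw [h11, hd.neg, hdt]
  -- the degree of `x`
  obtain ⟨δ, hδ, hdx⟩ : ∃ δ : ℕ, 0 < δ ∧ d x = δ := by
    by_contra hcon
    have h12 : d x ≤ 0 := by
      cases hdx : d x using WithBot.recBotCoe with
      | bot => exact bot_le
      | coe δ =>
        by_contra h13
        apply hcon
        refine ⟨δ, ?_, hdx⟩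
        rcases Nat.eq_zero_or_pos δ with h14 | h14
        · rw [h14] at h13
          exact absurd le_rfl h13
        · exact h14
    have h15 : ∀ q : k[X], d (aeval x q) ≤ 0 := by
      intro q
      induction q using Polynomial.induction_on with
      | C c =>
        rw [aeval_C]
        by_cases hc : c = 0
        · rw [hc, map_zero, (hd.zero 0).2 rfl]
          exact bot_le
        · rw [hd.const hc]
      | add a b ha hb =>
        rw [map_add]
        exact (hd.add _ _).trans (max_le ha hb)
      | monomial n a ih =>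
        rw [pow_succ, ← mul_assoc, map_mul, hd.mul, aeval_X]
        exact (add_le_add ih h12).trans (by rw [add_zero])
    have h16 := h15 (G - C ν)
    rw [hdG] at h16
    have h17 : n + n ≤ 0 := by exact_mod_cast h16
    omega
  have hG0 : G - C ν ≠ 0 := hirr.ne_zero
  have h18 := hd.aeval hδ hdx _ (G - C ν) rfl hG0
  rw [hdG, hGν] at h18
  have h19 : n + n = δ * G.natDegree := by exact_mod_cast h18
  have h20 : d (aeval x p) < d t1 := by
    rw [hτ]
    by_cases hp0 : p = 0
    · have h23 : aeval x p = 0 := by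
        rw [hae, AdjoinRoot.mk_eq_zero]
        have h24 : p.map (C : k →+* k[X]) = 0 := by rw [Polynomial.map_eq_zero_iff C_injective, hp0]
        rw [h24]
        exact dvd_zero _
      rw [h23, (hd.zero 0).2 rfl]
      exact WithBot.bot_lt_coe _
    · rw [hd.aeval hδ hdx _ p rfl hp0]
      have h21 : δ * p.natDegree < n := by nlinarith
      exact_mod_cast h21
  refine ⟨h7.ded, h7.ntw, d, n, hd, hn, ?_⟩
  have h22 : AdjoinRoot.of (sh p f0) X = -(aeval x p) + t1 := by
    rw [hae, ht1, ← map_neg, ← map_add]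
    show AdjoinRoot.mk (sh p f0) (C X) = _
    congr 1
    ring
  rw [h22, hd.add_eq, hτ]
  rw [hd.neg]
  exact h20

end shift


end Run7.h905.BS
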