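import Pool.Agent.Run7.h905.BS.Yb
import Pool.Agent.Run7.h905.BS.Qh

/-!
# The curves `γ (R ^ 2 - μ) (y ^ 2 - 1) = P(x) (S(x) + T(x) R)`
-/

open Polynomial IsDedekindDomain WithZero
open scoped Classical IntermediateField

set_option autoImplicit false
set_option linter.all false
set_option maxHeartbeats 400000

namespace Run7.h905.BS

open Pool.Agent.Y160.SE
open Pool.Agent.W309.TD (NoTwo)
open Pool.Agent.N352.Sha (ShaTrivial)

/-- The factors over an extension of the least possible degree are irreducible. -/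
theorem irr_half {k L : Type} [Field k] [Field L] [Algebra k L] [FiniteDimensional k L] {p : k[X]}
    (hp : Irreducible p) {g : L[X]} (hg : g ∣ p.map (algebraMap k L)) (hpos : 0 < g.natDegree)
    (hdeg : p.natDegree = Module.finrank k L * g.natDegree) : Irreducible g := by
  have hnu : ¬ IsUnit g := by
    intro hu
    have h1 := natDegree_eq_zero_of_isUnit hu
    omega
  have hne : g ≠ 0 := by
    rintro rfl
    rw [natDegree_zero] at hpos
    exact lt_irrefl _ hpos
  obtain ⟨h, hh, hhd⟩ := WfDvdMonoid.exists_irreducible_factor hnu hne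
  haveI : Fact (Irreducible h) := ⟨hh⟩
  haveI : Fact (Irreducible p) := ⟨hp⟩
  have hroot : eval₂ (algebraMap k (AdjoinRoot h)) (AdjoinRoot.root h) p = 0 := by
    obtain ⟨s, hs⟩ := hhd.trans hg
    have h1 : eval₂ (AdjoinRoot.of h) (AdjoinRoot.root h) (p.map (algebraMap k L)) = 0 := by
      rw [hs, eval₂_mul, AdjoinRoot.eval₂_root, zero_mul]
    rw [eval₂_map] at h1
    exact h1
  letI : Algebra (AdjoinRoot p) (AdjoinRoot h) :=
    (AdjoinRoot.lift (algebraMap k (AdjoinRoot h)) (AdjoinRoot.root h) hroot).toAlgebra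
  haveI : IsScalarTower k (AdjoinRoot p) (AdjoinRoot h) := by
    refine IsScalarTower.of_algebraMap_eq fun e => ?_
    show _ = AdjoinRoot.lift (algebraMap k (AdjoinRoot h)) (AdjoinRoot.root h) hroot
      (AdjoinRoot.of p e)
    rw [AdjoinRoot.lift_of]
  haveI : FiniteDimensional L (AdjoinRoot h) := (AdjoinRoot.powerBasis hh.ne_zero).finite
  haveI : FiniteDimensional k (AdjoinRoot p) := (AdjoinRoot.powerBasis hp.ne_zero).finite
  haveI : FiniteDimensional k (AdjoinRoot h) := FiniteDimensional.trans k L (AdjoinRoot h)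
  haveI : FiniteDimensional (AdjoinRoot p) (AdjoinRoot h) :=
    FiniteDimensional.right k (AdjoinRoot p) (AdjoinRoot h)
  have h1 := Module.finrank_mul_finrank k L (AdjoinRoot h)
  have h2 := Module.finrank_mul_finrank k (AdjoinRoot p) (AdjoinRoot h)
  have h3 : Module.finrank L (AdjoinRoot h) = h.natDegree := by
    rw [(AdjoinRoot.powerBasis hh.ne_zero).finrank, AdjoinRoot.powerBasis_dim]
  have h4 : Module.finrank k (AdjoinRoot p) = p.natDegree := by
    rw [(AdjoinRoot.powerBasis hp.ne_zero).finrank, AdjoinRoot.powerBasis_dim]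
  rw [h3] at h1
  rw [h4] at h2
  have hL : 0 < Module.finrank k L := Module.finrank_pos
  have hpos2 : 0 < Module.finrank k L * h.natDegree := Nat.mul_pos hL hh.natDegree_pos
  have h5 : p.natDegree ≤ Module.finrank k L * h.natDegree :=
    Nat.le_of_dvd hpos2 ⟨_, h1.trans h2.symm⟩
  rw [hdeg] at h5
  have h7 : g.natDegree ≤ h.natDegree := Nat.le_of_mul_le_mul_left h5 hL
  obtain ⟨s, hs⟩ := hhd
  have hs0 : s ≠ 0 := by
    rintro rfl
    rw [mul_zero] at hs
    exact hne hs
  have h8 := congrArg natDegree hs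
  rw [natDegree_mul hh.ne_zero hs0] at h8
  have h9 : s.natDegree = 0 := by omega
  have h10 : IsUnit s := by
    rw [natDegree_eq_zero] at h9
    obtain ⟨e, rfl⟩ := h9
    rw [isUnit_C, isUnit_iff_ne_zero]
    rintro rfl
    exact hs0 C_0
  rw [hs]
  exact (irreducible_mul_isUnit h10).2 hh

section lin

variable {k : Type} [Field k]

theorem add_monic {L : Type} [Field L] {S T : L[X]} (hS : S.Monic) (hT : T.natDegree < S.natDegree)
    (θ : L) : (S + C θ * T).Monic ∧ (S + C θ * T).natDegree = S.natDegree := by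
  have h1 : (C θ * T).natDegree < S.natDegree := lt_of_le_of_lt (natDegree_C_mul_le _ _) hT
  refine ⟨?_, natDegree_add_eq_left_of_natDegree_lt h1⟩
  exact hS.add_of_left (degree_lt_degree h1)

/-- The factor `S + θ T`, `θ ^ 2 = μ`. -/
theorem irr_lin {S T : k[X]} (hS : S.Monic) (hT : T.natDegree < S.natDegree) {μ : k}
    (hirr : Irreducible (S ^ 2 - C μ * T ^ 2)) {L : Type} [Field L] [Algebra k L]
    [FiniteDimensional k L] {i : ℕ} (hL : Module.finrank k L = 2 ^ (i + 1)) {θ : L}
    (hθ : θ ^ 2 = algebraMap k L μ) (hi : i = 0 ∨ Odd S.natDegree) :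
    Irreducible (S.map (algebraMap k L) + C θ * T.map (algebraMap k L)) := by
  have hμ : ∀ b : k, b ^ 2 ≠ μ := by
    rintro b rfl
    have e1 : S ^ 2 - C (b ^ 2) * T ^ 2 = (S + C b * T) * (S + C (-b) * T) := by
      rw [C_pow, C_neg]
      ring
    rw [e1] at hirr
    have h1 := add_monic hS hT b
    have h2 := add_monic hS hT (-b)
    rcases hirr.isUnit_or_isUnit rfl with h | h
    · have := natDegree_eq_zero_of_isUnit h
      omega
    · have := natDegree_eq_zero_of_isUnit h
      omega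
  have hint : IsIntegral k θ := Algebra.IsIntegral.isIntegral θ
  have hmin : minpoly k θ = X ^ 2 - C μ := by
    symm
    apply minpoly.eq_of_irreducible_of_monic
    · exact X_pow_sub_C_irreducible_of_prime Nat.prime_two hμ
    · rw [map_sub, map_pow, aeval_X, aeval_C, hθ, sub_self]
    · exact monic_X_pow_sub_C μ two_ne_zero
  have hfin1 : Module.finrank k k⟮θ⟯ = 2 := by
    rw [IntermediateField.adjoin.finrank hint, hmin, natDegree_X_pow_sub_C]
  set θ₁ : k⟮θ⟯ := IntermediateField.AdjoinSimple.gen k θ with hθ₁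
  have hθ₁2 : θ₁ ^ 2 = algebraMap k k⟮θ⟯ μ := by
    apply (algebraMap k⟮θ⟯ L).injective
    rw [map_pow, IntermediateField.AdjoinSimple.algebraMap_gen, hθ]
    rfl
  have hmapdeg : ∀ {M : Type} [Field M] [Algebra k M], (T.map (algebraMap k M)).natDegree <
      (S.map (algebraMap k M)).natDegree := by
    intro M _ _
    rw [natDegree_map, natDegree_map]
    exact hT
  have hg := add_monic (hS.map (algebraMap k k⟮θ⟯)) hmapdeg θ₁
  rw [natDegree_map] at hg
  have hSpos : 0 < S.natDegree := by omega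
  have h1 : Irreducible (S.map (algebraMap k k⟮θ⟯) + C θ₁ * T.map (algebraMap k k⟮θ⟯)) := by
    refine irr_half hirr ⟨S.map (algebraMap k k⟮θ⟯) - C θ₁ * T.map (algebraMap k k⟮θ⟯), ?_⟩ ?_ ?_
    · rw [Polynomial.map_sub, Polynomial.map_mul, Polynomial.map_pow, Polynomial.map_pow, map_C,
        ← hθ₁2, C_pow]
      ring
    · rw [hg.2]
      exact hSpos
    · rw [hg.2, hfin1]
      have e2 : (S ^ 2 - C μ * T ^ 2).natDegree = (S ^ 2).natDegree := by
        apply natDegree_sub_eq_left_of_natDegree_lt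
        rw [hS.natDegree_pow]
        refine lt_of_le_of_lt (natDegree_C_mul_le _ _) ?_
        rw [natDegree_pow]
        omega
      rw [e2, hS.natDegree_pow]
  have h2 : Module.finrank k⟮θ⟯ L = 2 ^ i := by
    have h3 := Module.finrank_mul_finrank k k⟮θ⟯ L
    rw [hfin1, hL, pow_succ] at h3
    omega
  have h4 := irr_cop (L := L) h1 (by
    rw [hg.2, h2]
    rcases hi with hi | hi
    · rw [hi, pow_zero]
      exact Nat.coprime_one_right _
    · exact Nat.Coprime.pow_right i (Nat.coprime_two_right.2 hi))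
  rw [Polynomial.map_add, Polynomial.map_mul, map_C, map_map, map_map,
    IntermediateField.AdjoinSimple.algebraMap_gen] at h4
  exact h4

end lin

section fam

variable {k : Type} [Field k]

/-- `γ (R ^ 2 - μ) + P(x) (S(x) + T(x) R)`. -/
noncomputable def fP (P S T : k[X]) (γ μ : k) (R : k[X]) : k[X][X] :=
  C (C γ * (R ^ 2 - C μ)) + P.map C * (S.map C + T.map C * C R)

/-- The admissible polynomials. -/
inductive Adm3 (P S T : k[X]) (γ μ : k) : k[X] → Prop
  | base : Adm3 P S T γ μ X
  | step (R : k[X]) (α β : k) (hα : α ≠ 0) (hR : Adm3 P S T γ μ R)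
      (hirr : Irreducible (C (γ * (R.eval β ^ 2 - μ)) + P * (S + C (R.eval β) * T))) :
      Adm3 P S T γ μ (R.comp (C α * X ^ 2 + C β))

variable {P S T : k[X]} {γ μ : k} {R : k[X]}

theorem Adm3.deg (h : Adm3 P S T γ μ R) : ∃ i, R.natDegree = 2 ^ i ∧ (R = X ∨ 0 < i) := by
  induction h with
  | base => exact ⟨0, by rw [natDegree_X, pow_zero], Or.inl rfl⟩
  | step R α β hα hR hirr ih =>
    obtain ⟨i, hi, -⟩ := ih
    refine ⟨i + 1, ?_, Or.inr (Nat.succ_pos i)⟩
    rw [natDegree_comp, hi, natDegree_add_C, natDegree_C_mul_X_pow 2 α hα, pow_succ]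

theorem S2_map (α β : k) (q : k[X]) : S2 α β (q.map C) = q.map C := by
  unfold S2
  rw [coe_mapRingHom, map_map]
  congr 1
  ext e
  show (s2 α β (C e)).coeff _ = _
  rw [s2_C]

theorem S2_fP (α β : k) : S2 α β (fP P S T γ μ R) = fP P S T γ μ (R.comp (C α * X ^ 2 + C β)) := by
  unfold fP
  rw [map_add (S2 α β), map_mul (S2 α β), map_add (S2 α β), map_mul (S2 α β), S2_map, S2_map,
    S2_map, S2_C, S2_C, map_mul (s2 α β), map_sub (s2 α β), s2_C, s2_C, map_pow (s2 α β)]
  rfl

theorem ev_map (β : k) (q : k[X]) : (q.map (C : k →+* k[X])).map (evalRingHom β) = q := by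
  rw [map_map]
  have : (evalRingHom β).comp (C : k →+* k[X]) = RingHom.id k := by
    ext e
    simp
  rw [this, Polynomial.map_id]

theorem ev_fP (β : k) : (fP P S T γ μ R).map (evalRingHom β) =
    C (γ * (R.eval β ^ 2 - μ)) + P * (S + C (R.eval β) * T) := by
  unfold fP
  rw [Polynomial.map_add, Polynomial.map_mul, Polynomial.map_add, Polynomial.map_mul, ev_map,
    ev_map, ev_map, map_C, map_C, coe_evalRingHom, eval_mul, eval_C, eval_sub, eval_pow, eval_C]
  ring

/-- The conditions on the degrees. -/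
structure DegP (P S T : k[X]) : Prop where
  monP : P.Monic
  monS : S.Monic
  odd : Odd (P.natDegree + S.natDegree)
  lt : 2 * (P.natDegree + T.natDegree) < P.natDegree + S.natDegree

/-- The branch polynomial. -/
noncomputable def gP (P S T : k[X]) (γ : k) : k[X] := P * S - C (4 * γ)⁻¹ * (P * T) ^ 2

theorem gP_spec (hd : DegP P S T) : (gP P S T γ).Monic ∧
    (gP P S T γ).natDegree = P.natDegree + S.natDegree := by
  have h1 : (P * S).Monic := hd.monP.mul hd.monS
  have h2 : (P * S).natDegree = P.natDegree + S.natDegree := hd.monP.natDegree_mul hd.monS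
  have h3 : (C (4 * γ)⁻¹ * (P * T) ^ 2).natDegree < (P * S).natDegree := by
    refine lt_of_le_of_lt (natDegree_C_mul_le _ _) (lt_of_le_of_lt natDegree_pow_le ?_)
    have := natDegree_mul_le (p := P) (q := T)
    have := hd.lt
    rw [h2]
    omega
  unfold gP
  refine ⟨h1.sub_of_left (degree_lt_degree h3), ?_⟩
  rw [natDegree_sub_eq_left_of_natDegree_lt h3, h2]

theorem fP_eq (P S T : k[X]) (γ μ : k) (R : k[X]) : fP P S T γ μ R = (P * S).map C +
    (C (C γ * (R ^ 2 - C μ)) + (P * T).map C * C R) := by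
  unfold fP
  rw [Polynomial.map_mul, Polynomial.map_mul]
  ring

theorem fP_monic (hd : DegP P S T) : (fP P S T γ μ R).Monic ∧
    (fP P S T γ μ R).natDegree = P.natDegree + S.natDegree := by
  have h1 : ((P * S).map (C : k →+* k[X])).Monic := (hd.monP.mul hd.monS).map _
  have h2 : ((P * S).map (C : k →+* k[X])).natDegree = P.natDegree + S.natDegree := by
    rw [natDegree_map_eq_of_injective C_injective, hd.monP.natDegree_mul hd.monS]
  have h3 : (C (C γ * (R ^ 2 - C μ)) + (P * T).map C * C R : k[X][X]).natDegree <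
      ((P * S).map (C : k →+* k[X])).natDegree := by
    have hlt := hd.lt
    rw [h2]
    refine lt_of_le_of_lt (natDegree_add_le _ _) (max_lt ?_ ?_)
    · rw [natDegree_C]
      omega
    · refine lt_of_le_of_lt (natDegree_mul_C_le _ _) ?_
      rw [natDegree_map_eq_of_injective C_injective]
      have := natDegree_mul_le (p := P) (q := T)
      omega
  rw [fP_eq]
  refine ⟨h1.add_of_left (degree_lt_degree h3), ?_⟩
  rw [natDegree_add_eq_left_of_natDegree_lt h3, h2]

theorem fP_base (h2 : (2 : k) ≠ 0) (hγ : γ ≠ 0) : fP P S T γ μ X =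
    sh (C (2 * γ)⁻¹ * (P * T)) (fR (gP P S T γ) (C γ * X ^ 2 - C (γ * μ))) := by
  have h4 : (4 : k) ≠ 0 := by
    have : (4 : k) = 2 * 2 := by norm_num
    rw [this]
    exact mul_ne_zero h2 h2
  have hm : ∀ (c : k) (q : k[X]), (C c * q).map (C : k →+* k[X]) = C (C c) * q.map C :=
    fun c q => by rw [Polynomial.map_mul, map_C]
  rw [fP_eq, fR, map_add (sh _), sh_map, sh_C, map_sub (sh0 _), map_mul (sh0 _), sh0_C, sh0_C,
    map_pow (sh0 _), sh0_X, gP, Polynomial.map_sub, hm, hm, Polynomial.map_pow]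
  have e1 : (C (C γ) : k[X][X]) * (2 * C (C (2 * γ)⁻¹)) = 1 := by
    have : (2 : k[X][X]) = C (C 2) := by
      rw [map_ofNat, map_ofNat]
    rw [this, ← C_mul, ← C_mul, ← C_mul, ← C_mul, ← C_1, ← C_1]
    congr 2
    field_simp
  have e2 : (C (C γ) : k[X][X]) * C (C (2 * γ)⁻¹) ^ 2 = C (C (4 * γ)⁻¹) := by
    rw [← C_pow, ← C_pow, ← C_mul, ← C_mul]
    congr 2
    field_simp
    norm_num
  have e3 : (C (C (γ * μ)) : k[X][X]) = C (C γ) * C (C μ) := by rw [← C_mul, ← C_mul]
  have e4 : (C (C γ * (X ^ 2 - C μ)) : k[X][X]) = C (C γ) * (C X ^ 2 - C (C μ)) := by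
    rw [C_mul, C_sub, C_pow]
  rw [e3, e4]
  set A : k[X][X] := (P * T).map C
  set c2 : k[X][X] := C (C (2 * γ)⁻¹)
  set c : k[X][X] := C (C γ)
  linear_combination (-(C X * A)) * e1 - A ^ 2 * e2

theorem Adm3.good1 (h2 : (2 : k) ≠ 0) (hγ : γ ≠ 0) (hd : DegP P S T)
    (hirr : Irreducible (gP P S T γ - C (γ * μ))) (h : Adm3 P S T γ μ R) :
    Good1 k (AdjoinRoot.of (fP P S T γ μ R) X) := by
  induction h with
  | base =>
    rw [fP_base h2 hγ]
    have h3 := gP_spec (γ := γ) hd
    refine good1_sh h2 (by rw [h3.2]; exact hd.odd) ?_ hγ hirr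
    rw [h3.2]
    have h4 := natDegree_C_mul_le (2 * γ)⁻¹ (P * T)
    have h5 := natDegree_mul_le (p := P) (q := T)
    have h6 := hd.lt
    omega
  | step R α β hα hR hirr' ih =>
    have := ih.stepS h2 (α := α) (β := β) hα (by rw [ev_fP]; exact hirr')
    rw [S2_fP] at this
    exact this

theorem Adm3.smG [PerfectField k] (h2 : (2 : k) ≠ 0) (hγ : γ ≠ 0)
    (hirr : Irreducible (gP P S T γ - C (γ * μ))) (h : Adm3 P S T γ μ R) :
    SmG (fP P S T γ μ R) := by
  induction h with
  | base =>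
    rw [fP_base h2 hγ]
    apply SmG.sh
    have h3 : Adm2 (gP P S T γ) (C γ * X ^ 2 - C (γ * μ)) := by
      have h4 : (C γ * X ^ 2 - C (γ * μ) : k[X]) =
          (C 1 * X + C 0 : k[X]).comp (C γ * X ^ 2 + C (-(γ * μ))) := by
        rw [add_comp, mul_comp, C_comp, C_comp, X_comp, C_1, C_0, C_neg]
        ring
      rw [h4]
      refine Adm2.step _ γ _ hγ (Adm2.base 1 0 one_ne_zero) ?_
      rw [eval_add, eval_mul, eval_C, eval_X, eval_C, one_mul, add_zero, C_neg, ← sub_eq_add_neg]
      exact hirr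
    have h5 := h3.sm h2
    unfold Sm at h5
    unfold SmG
    have h6 : derivative (fR (gP P S T γ) (C γ * X ^ 2 - C (γ * μ))) =
      (derivative (gP P S T γ)).map C := fR_der _ _
    have h7 : dT (fR (gP P S T γ) (C γ * X ^ 2 - C (γ * μ))) =
        C (derivative (C γ * X ^ 2 - C (γ * μ))) := by
      rw [fR, dT_add, dT_map, dT_C, zero_add]
    rw [h6, h7]
    exact h5
  | step R α β hα hR hirr' ih =>
    have := ih.step h2 (α := α) (β := β) hα (by
      rw [ev_fP]
      exact PerfectField.separable_of_irreducible hirr')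
    rw [S2_fP] at this
    exact this

/-- **The curves are good.** -/
theorem Adm3.goodCurve [PerfectField k] (h2 : (2 : k) ≠ 0) (hγ : γ ≠ 0) (hd : DegP P S T)
    (hirr : Irreducible (gP P S T γ - C (γ * μ))) (h : Adm3 P S T γ μ R) :
    GoodCurve (fP P S T γ μ R) := by
  obtain ⟨h3, h4⟩ := fP_monic (γ := γ) (μ := μ) (R := R) hd
  exact (h.good1 h2 hγ hd hirr).curve h3 (by rw [h4]; exact hd.odd) (h.smG h2 hγ hirr)

end fam

end Run7.h905.BS
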