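import Pool.Agent.Run7.h905.BS.Yc

/-!
# The rank of the Jacobians of `γ (R ^ 2 - μ) (y ^ 2 - 1) = P(x) (S(x) + T(x) R)`
-/

open Polynomial IsDedekindDomain WithZero
open scoped Classical

set_option autoImplicit false
set_option linter.all false
set_option maxHeartbeats 400000

namespace Run7.h905.BS

open Pool.Agent.Y160.SE
open Pool.Agent.N352.Sha (ShaTrivial)

section main

variable {k : Type} [Field k] {P S T : k[X]} {γ μ : k} {R : k[X]} {r : ℕ} {g : Fin r → k[X]}

/-- The prime `γ (R ^ 2 - μ)`. -/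
noncomputable def qP (γ μ : k) (R : k[X]) : k[X] := C γ * (R ^ 2 - C μ)

/-- The factors modulo `γ (R ^ 2 - μ)`. -/
noncomputable def hP (S T R : k[X]) (g : Fin r → k[X]) : Fin (r + 1) → k[X][X] :=
  Fin.cons (S.map C + T.map C * C R) fun j => (g j).map C

theorem hP_prod (hP' : P = ∏ j, g j) : ∏ j, hP S T R g j = P.map C * (S.map C + T.map C * C R) := by
  unfold hP
  rw [Fin.prod_univ_succ, Fin.cons_zero, hP', Polynomial.map_prod, mul_comm]
  simp only [Fin.cons_succ]

theorem fP_sub (hP' : P = ∏ j, g j) :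
    fP P S T γ μ R - C (qP γ μ R) * 1 ^ 2 = ∏ j, hP S T R g j := by
  rw [hP_prod hP', fP, qP]
  ring

theorem liftP (hd : DegP P S T) (hγ : γ ≠ 0) (hgm : ∀ j, (g j).Monic)
    (hgi : ∀ j, Irreducible (g j)) (hgd : Function.Injective g)
    (hgo : ∀ j, Odd (g j).natDegree) (hP' : P = ∏ j, g j) (hR : Adm3 P S T γ μ R)
    (hQi : Irreducible (qP γ μ R)) (hirr : Irreducible (S ^ 2 - C μ * T ^ 2))
    (hi : R = X ∨ Odd S.natDegree) : LiftQ (fP P S T γ μ R) (qP γ μ R) (hP S T R g) := by
  haveI : Fact (Irreducible (qP γ μ R)) := ⟨hQi⟩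
  haveI : FiniteDimensional k (AdjoinRoot (qP γ μ R)) :=
    (AdjoinRoot.powerBasis hQi.ne_zero).finite
  have hlt := hd.lt
  obtain ⟨i, hi1, hi2⟩ := hR.deg
  have hi' : i = 0 ∨ Odd S.natDegree := by
    rcases hi with hi | hi
    · left
      rw [hi, natDegree_X] at hi1
      by_contra hne
      have := Nat.one_lt_two_pow hne
      omega
    · exact Or.inr hi
  have hRd : 0 < R.natDegree := by
    rw [hi1]
    positivity
  have hQd : (qP γ μ R).natDegree = 2 ^ (i + 1) := by
    unfold qP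
    rw [natDegree_C_mul hγ, natDegree_sub_C, natDegree_pow, hi1, pow_succ, mul_comm]
  have hfin : Module.finrank k (AdjoinRoot (qP γ μ R)) = 2 ^ (i + 1) := by
    rw [(AdjoinRoot.powerBasis hQi.ne_zero).finrank, AdjoinRoot.powerBasis_dim, hQd]
  have hmap : ∀ p : k[X], (p.map C).map (AdjoinRoot.mk (qP γ μ R)) =
      p.map (algebraMap k (AdjoinRoot (qP γ μ R))) := by
    intro p
    rw [map_map]
    rfl
  have hmon0 := add_monic (L := k) hd.monS (by omega : T.natDegree < S.natDegree)
  have hS0 : (hP S T R g 0).map (AdjoinRoot.mk (qP γ μ R)) =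
      S.map (algebraMap k (AdjoinRoot (qP γ μ R))) + C (AdjoinRoot.mk (qP γ μ R) R) *
        T.map (algebraMap k (AdjoinRoot (qP γ μ R))) := by
    unfold hP
    rw [Fin.cons_zero, Polynomial.map_add, Polynomial.map_mul, hmap, hmap, map_C, mul_comm]
  have hθ : AdjoinRoot.mk (qP γ μ R) R ^ 2 = algebraMap k (AdjoinRoot (qP γ μ R)) μ := by
    have h1 : algebraMap k (AdjoinRoot (qP γ μ R)) μ = AdjoinRoot.mk (qP γ μ R) (C μ) := rfl
    rw [h1, ← map_pow, AdjoinRoot.mk_eq_mk]
    refine ⟨C γ⁻¹, ?_⟩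
    unfold qP
    have h2 : (C γ : k[X]) * C γ⁻¹ = 1 := by rw [← C_mul, mul_inv_cancel₀ hγ, C_1]
    linear_combination (-(R ^ 2 - C μ)) * h2
  have hLT : (T.map (algebraMap k (AdjoinRoot (qP γ μ R)))).natDegree <
      (S.map (algebraMap k (AdjoinRoot (qP γ μ R)))).natDegree := by
    rw [natDegree_map, natDegree_map]
    omega
  have hdeg0 := add_monic (hd.monS.map (algebraMap k (AdjoinRoot (qP γ μ R)))) hLT
    (AdjoinRoot.mk (qP γ μ R) R)
  rw [natDegree_map] at hdeg0
  have hgle : ∀ j, (g j).natDegree ≤ P.natDegree := by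
    intro j
    rw [hP']
    refine natDegree_le_of_dvd (Finset.dvd_prod_of_mem g (Finset.mem_univ j)) ?_
    rw [← hP']
    exact hd.monP.ne_zero
  have hne : ∀ j, (hP S T R g 0).map (AdjoinRoot.mk (qP γ μ R)) ≠
      ((g j).map C).map (AdjoinRoot.mk (qP γ μ R)) := by
    intro j h
    have h1 := congrArg natDegree h
    rw [hS0, hdeg0.2, hmap, natDegree_map] at h1
    have := hgle j
    omega
  refine ⟨?_, ?_, ?_, ?_⟩
  · intro j
    refine Fin.cases ?_ (fun j => ?_) j
    · show (Fin.cons _ _ : Fin (r + 1) → k[X][X]) 0 |>.Monic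
      rw [Fin.cons_zero]
      apply (hd.monS.map C).add_of_left
      apply degree_lt_degree
      refine lt_of_le_of_lt (natDegree_mul_C_le _ _) ?_
      rw [natDegree_map_eq_of_injective C_injective, natDegree_map_eq_of_injective C_injective]
      omega
    · show (Fin.cons _ _ : Fin (r + 1) → k[X][X]) j.succ |>.Monic
      rw [Fin.cons_succ]
      exact (hgm j).map _
  · intro j
    refine Fin.cases ?_ (fun j => ?_) j
    · rw [hS0]
      exact irr_lin hd.monS (by omega) hirr hfin hθ hi'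
    · show Irreducible (((Fin.cons _ _ : Fin (r + 1) → k[X][X]) j.succ).map _)
      rw [Fin.cons_succ, hmap]
      apply irr_cop (hgi j)
      rw [hfin]
      exact Nat.Coprime.pow_right _ (Nat.coprime_two_right.2 (hgo j))
  · intro a b
    refine Fin.cases ?_ (fun a => ?_) a
    · refine Fin.cases ?_ (fun b => ?_) b
      · intro _
        rfl
      · intro h
        exact absurd h (hne b)
    · refine Fin.cases ?_ (fun b => ?_) b
      · intro h
        exact absurd h.symm (hne a)
      · intro h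
        have h1 : ((g a).map C).map (AdjoinRoot.mk (qP γ μ R)) =
            ((g b).map C).map (AdjoinRoot.mk (qP γ μ R)) := h
        rw [hmap, hmap] at h1
        rw [hgd (map_injective _ (algebraMap k (AdjoinRoot (qP γ μ R))).injective h1)]
  · rw [← Polynomial.map_prod, hP_prod hP']
    have h1 : fP P S T γ μ R = C (qP γ μ R) + P.map C * (S.map C + T.map C * C R) := rfl
    rw [h1, Polynomial.map_add, map_C, AdjoinRoot.mk_self, C_0, zero_add]

variable [PerfectField k] (K : Type) [Field K] [Algebra k[X] K] [IsFractionRing k[X] K]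

/-- **The rank is `r`, the part of the Tate-Shafarevich group is zero.** -/
theorem mainP (h2 : (2 : k) ≠ 0) (hd : DegP P S T) (hγ : γ ≠ 0) (hgm : ∀ j, (g j).Monic)
    (hgi : ∀ j, Irreducible (g j)) (hgd : Function.Injective g)
    (hgo : ∀ j, Odd (g j).natDegree) (hP' : P = ∏ j, g j) (hR : Adm3 P S T γ μ R)
    (hG : Irreducible (gP P S T γ - C (γ * μ)))
    (hQi : Irreducible (qP γ μ R)) (hirr : Irreducible (S ^ 2 - C μ * T ^ 2))
    (hi : R = X ∨ Odd S.natDegree) :
    (∀ x : Jac 2 (tF K (fP P S T γ μ R) (qK K (qP γ μ R))) K, 2 • x = 0 → x = 0) ∧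
      Nat.card (Jac 2 (tF K (fP P S T γ μ R) (qK K (qP γ μ R))) K ⧸
        dbl (Jac 2 (tF K (fP P S T γ μ R) (qK K (qP γ μ R))) K)) = 2 ^ r ∧
      ShaTrivial 2 (tF K (fP P S T γ μ R) (qK K (qP γ μ R))) k[X] ∧
      ∃ Pt : Fin r → Jac 2 (tF K (fP P S T γ μ R) (qK K (qP γ μ R))) K,
        (∀ j, IsCl K (idP ((tF K (fP P S T γ μ R) (qK K (qP γ μ R))).map (algebraMap K K))
          (tF K ((g j).map C) (qK K (qP γ μ R))) (cP K (fP P S T γ μ R) (qP γ μ R) 1)) (Pt j)) ∧
        (∀ s : Finset (Fin r),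
          (∃ y : Jac 2 (tF K (fP P S T γ μ R) (qK K (qP γ μ R))) K, ∑ j ∈ s, Pt j = 2 • y) →
            s = ∅) ∧
        ∀ y : Jac 2 (tF K (fP P S T γ μ R) (qK K (qP γ μ R))) K,
          ∃ (s : Finset (Fin r)) (z : Jac 2 (tF K (fP P S T γ μ R) (qK K (qP γ μ R))) K),
              y = ∑ j ∈ s, Pt j + 2 • z := by
  have hf := hR.goodCurve h2 hγ hd hG
  have hL := liftP hd hγ hgm hgi hgd hgo hP' hR hQi hirr hi
  obtain ⟨h3, ⟨r', hr', h4⟩, h5⟩ := critS K h2 hf hQi (hL.split hQi)
  have hdv : ∀ j : Fin (r + 1), hP S T R g j ∣ fP P S T γ μ R - C (qP γ μ R) * 1 ^ 2 := by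
    intro j
    rw [fP_sub hP']
    exact Finset.dvd_prod_of_mem _ (Finset.mem_univ j)
  have hcardD : (Finset.univ.image (Fin.succ : Fin r → Fin (r + 1))).card = r := by
    rw [Finset.card_image_of_injective _ (Fin.succ_injective r), Finset.card_univ,
      Fintype.card_fin]
  have key : Nat.card (Jac 2 (tF K (fP P S T γ μ R) (qK K (qP γ μ R))) K ⧸
        dbl (Jac 2 (tF K (fP P S T γ μ R) (qK K (qP γ μ R))) K)) = 2 ^ r := by
    by_cases hr : 1 ≤ r
    · obtain ⟨Pt, -, -, h6⟩ := critP K h2 hf hQi hL (by omega) (D := Finset.univ)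
        (u := fun _ => 1) (fun j _ => hdv j)
      exact (h6 (by rw [Finset.card_univ, Fintype.card_fin]; omega)).2
    · have h9 : r = 0 := by omega
      subst h9
      have : r' = 0 := by omega
      rw [h4, this]
  refine ⟨h3, key, h5 key, ?_⟩
  rcases Nat.eq_zero_or_pos r with hr | hr
  · subst hr
    refine ⟨fun j => j.elim0, fun j => j.elim0, fun s _ => Finset.eq_empty_of_isEmpty s, ?_⟩
    intro y
    rw [pow_zero] at key
    haveI := (Nat.card_eq_one_iff_unique.1 key).1
    have h6 : (QuotientAddGroup.mk y : Jac 2 (tF K (fP P S T γ μ R) (qK K (qP γ μ R))) K ⧸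
        dbl (Jac 2 (tF K (fP P S T γ μ R) (qK K (qP γ μ R))) K)) = 0 := Subsingleton.elim _ _
    rw [QuotientAddGroup.eq_zero_iff, mem_dbl] at h6
    obtain ⟨z, hz⟩ := h6
    exact ⟨∅, z, by rw [Finset.sum_empty, zero_add]; exact hz⟩
  · obtain ⟨Pt, hPt, hs, hgen⟩ := critP K h2 hf hQi hL (by omega)
      (D := Finset.univ.image (Fin.succ : Fin r → Fin (r + 1))) (u := fun _ => 1)
      (fun j _ => hdv j)
    obtain ⟨hgen, -⟩ := hgen (by rw [hcardD]; omega)
    have hmap : ∀ s : Finset (Fin r), ∑ j ∈ s.image Fin.succ, Pt j = ∑ j ∈ s, Pt j.succ := by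
      intro s
      rw [Finset.sum_image]
      intro a _ b _ hab
      exact Fin.succ_injective r hab
    refine ⟨fun j => Pt j.succ, ?_, ?_, ?_⟩
    · intro j
      have h6 := hPt j.succ (Finset.mem_image_of_mem _ (Finset.mem_univ j))
      have h7 : hP S T R g j.succ = (g j).map C := by
        unfold hP
        rw [Fin.cons_succ]
      rw [h7] at h6
      exact h6
    · rintro s ⟨y, hy⟩
      have h6 := (hs (s.image Fin.succ) (Finset.image_subset_image (Finset.subset_univ s))).1
        ⟨y, by rw [hmap]; exact hy⟩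
      rcases h6 with h6 | h6
      · rwa [Finset.image_eq_empty] at h6
      · exfalso
        have h7 : (0 : Fin (r + 1)) ∈ s.image Fin.succ := by
          rw [h6]
          exact Finset.mem_univ _
        obtain ⟨j, -, hj⟩ := Finset.mem_image.1 h7
        exact Fin.succ_ne_zero j hj
    · intro y
      obtain ⟨s', hs', z, hz⟩ := hgen y
      obtain ⟨s, -, rfl⟩ := Finset.subset_image_iff.1 hs'
      exact ⟨s, z, by rw [← hmap]; exact hz⟩

end main

end Run7.h905.BS
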