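import Pool.Agent.Run7.h905.BS.Yd
import Pool.Agent.Run7.h905.BS.Qj
import Pool.Agent.Run7.h905.CB.Cj

/-!
# The towers and a positive proportion of the parameters
-/

open Polynomial
open scoped Classical

set_option autoImplicit false
set_option linter.all false
set_option maxHeartbeats 400000

namespace Run7.h905.BS

section tower

variable {k : Type} [Field k] {P S T : k[X]} {γ μ : k}

theorem Adm3.pow (h : Irreducible (P * S - C (γ * μ))) (i : ℕ) :
    Adm3 P S T γ μ (X ^ 2 ^ i) := by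
  induction i with
  | zero =>
    rw [pow_zero, pow_one]
    exact Adm3.base
  | succ i ih =>
    have h1 : (X ^ 2 ^ (i + 1) : k[X]) = (X ^ 2 ^ i : k[X]).comp (C 1 * X ^ 2 + C 0) := by
      rw [pow_comp, X_comp, C_0, C_1, add_zero, one_mul, ← pow_mul, pow_succ, mul_comm (2 ^ i) 2]
    rw [h1]
    refine Adm3.step _ 1 0 one_ne_zero ih ?_
    rw [eval_pow, eval_X, zero_pow (pow_ne_zero _ two_ne_zero), C_0, zero_mul, add_zero,
      zero_pow two_ne_zero, zero_sub]
    have h2 : (C (γ * -μ) + P * S : k[X]) = P * S - C (γ * μ) := by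
      rw [mul_neg, C_neg]
      ring
    rw [h2]
    exact h

theorem nonsq {S T : k[X]} (hS : S.Monic) (hT : T.natDegree < S.natDegree)
    (hirr : Irreducible (S ^ 2 - C μ * T ^ 2)) : ∀ b : k, b ^ 2 ≠ μ := by
  rintro b rfl
  have e1 : S ^ 2 - C (b ^ 2) * T ^ 2 = (S + C b * T) * (S + C (-b) * T) := by
    rw [C_pow, C_neg]
    ring
  rw [e1] at hirr
  have h1 := add_monic hS hT b
  have h2 := add_monic hS hT (-b)
  rcases hirr.isUnit_or_isUnit rfl with h | h
  · have := natDegree_eq_zero_of_isUnit h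
    omega
  · have := natDegree_eq_zero_of_isUnit h
    omega

theorem qP_irr (hγ : γ ≠ 0) (hμ : ∀ b : k, b ^ 2 ≠ μ) {i : ℕ}
    (hi : i = 0 ∨ ∃ ι : k, ι ^ 2 = -1) : Irreducible (qP γ μ (X ^ 2 ^ i)) := by
  unfold qP
  refine (irreducible_isUnit_mul (isUnit_C.2 (isUnit_iff_ne_zero.2 hγ))).2 ?_
  rcases hi with rfl | ⟨ι, hι⟩
  · rw [pow_zero, pow_one]
    exact X_pow_sub_C_irreducible_of_prime Nat.prime_two hμ
  · rw [← pow_mul, ← pow_succ]
    exact two_irr (i + 1) k ι μ hι hμ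

end tower

open Run7.h905.CB in
/-- **Simultaneous irreducibility of three polynomials.** -/
theorem count3 (n n' : ℕ) (hn : Odd n) (hn' : 0 < n') : ∃ C0 : ℕ, ∀ (k : Type) [Field k] [Finite k],
    C0 < Nat.card k → n ∣ Nat.card k - 1 → 2 * n' ∣ Nat.card k - 1 → ∀ γ : k, γ ≠ 0 →
    ∀ A B S : k[X], A.Monic → B.Monic → S.Monic → A ≠ B → A.natDegree = n → B.natDegree = n →
    S.natDegree = n' → Nat.card k ≤ 2 * (2 * (n + n')) ^ (2 * (n + n')) *
      {μ : k | Irreducible (A - C (γ * μ)) ∧ Irreducible (B - C (γ * μ)) ∧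
        Irreducible (S ^ 2 - C μ * 1 ^ 2)}.ncard := by
  have hn0 := hn.pos
  obtain ⟨C0, hC0⟩ := sim (ι := Fin 3) ⟨0⟩ ![n, n, 2 * n'] (by
    intro i
    fin_cases i
    · exact hn0
    · exact hn0
    · show 0 < 2 * n'
      omega)
  refine ⟨C0, ?_⟩
  intro k _ _ hcard hd1 hd2 γ hγ A B S hA hB hS hAB hAn hBn hSn
  obtain ⟨v, hv⟩ := IsCyclic.exists_generator (α := kˣ)
  obtain ⟨e, he⟩ : ∃ e : ℕ, v ^ e = (Units.mk0 γ hγ)⁻¹ := by
    have h1 := hv (Units.mk0 γ hγ)⁻¹
    rw [← mem_powers_iff_mem_zpowers] at h1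
    exact h1
  have he' : (v : k) ^ e = γ⁻¹ := by
    have := congrArg (Units.val) he
    rw [Units.val_pow_eq_pow_val, Units.val_inv_eq_inv_val, Units.val_mk0] at this
    exact this
  have hγ' : γ⁻¹ ≠ 0 := inv_ne_zero hγ
  obtain ⟨b, hb1, hb2⟩ := exists_b hn (by omega : 2 * n' ≠ 0) e
  have hCC : ∀ p q : k[X], C γ⁻¹ * p = C γ⁻¹ * q → p = q := by
    intro p q h
    have h0 : (C γ⁻¹ : k[X]) ≠ 0 := C_ne_zero.2 hγ'
    exact mul_left_cancel₀ h0 h
  have hdA : (C γ⁻¹ * A).natDegree = n := by rw [natDegree_C_mul hγ', hAn]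
  have hdB : (C γ⁻¹ * B).natDegree = n := by rw [natDegree_C_mul hγ', hBn]
  have hdS : (S ^ 2).natDegree = 2 * n' := by rw [hS.natDegree_pow, hSn]
  have hne : n ≠ 2 * n' := by
    rintro rfl
    exact (Nat.not_odd_iff_even.2 ⟨n', two_mul n'⟩) hn
  have hsum : ∑ i, (![n, n, 2 * n'] : Fin 3 → ℕ) i = 2 * (n + n') := by
    rw [Fin.sum_univ_three]
    show n + n + 2 * n' = _
    ring
  have h1 := hC0 k v hv (by
    intro i
    fin_cases i
    · exact hd1
    · exact hd1
    · exact hd2) ![C γ⁻¹ * A, C γ⁻¹ * B, S ^ 2] (by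
    intro i j hij
    have hdeg := congrArg natDegree hij
    fin_cases i <;> fin_cases j
    · rfl
    · exact absurd (hCC _ _ hij) hAB
    · exact absurd (hdA.symm.trans (hdeg.trans hdS)) hne
    · exact absurd (hCC _ _ hij).symm hAB
    · rfl
    · exact absurd (hdB.symm.trans (hdeg.trans hdS)) hne
    · exact absurd (hdA.symm.trans (hdeg.symm.trans hdS)) hne
    · exact absurd (hdB.symm.trans (hdeg.symm.trans hdS)) hne
    · rfl) (by
    intro i
    fin_cases i
    · exact hdA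
    · exact hdB
    · exact hdS) ![e, e, 0] (by
    intro i
    fin_cases i
    · show (C γ⁻¹ * A).leadingCoeff = (v : k) ^ e
      rw [leadingCoeff_mul, leadingCoeff_C, hA.leadingCoeff, mul_one, he']
    · show (C γ⁻¹ * B).leadingCoeff = (v : k) ^ e
      rw [leadingCoeff_mul, leadingCoeff_C, hB.leadingCoeff, mul_one, he']
    · show (S ^ 2).leadingCoeff = (v : k) ^ 0
      rw [(hS.pow 2).leadingCoeff, pow_zero]) b (by
    intro i
    fin_cases i
    · exact hb2
    · exact hb2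
    · exact hb1) hcard
  rw [hsum] at h1
  refine h1.trans (Nat.mul_le_mul_left _ (Set.ncard_le_ncard ?_ (Set.toFinite _)))
  intro μ hμ
  have hu : IsUnit (C γ : k[X]) := isUnit_C.2 (isUnit_iff_ne_zero.2 hγ)
  have hmul : ∀ A : k[X], C γ * (C γ⁻¹ * A - C μ) = A - C (γ * μ) := by
    intro A
    rw [mul_sub, ← mul_assoc, ← C_mul, mul_inv_cancel₀ hγ, C_1, one_mul, ← C_mul]
  refine ⟨?_, ?_, ?_⟩
  · have h2 : Irreducible (C γ⁻¹ * A - C μ) := hμ 0
    rw [← hmul]
    exact (irreducible_isUnit_mul hu).2 h2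
  · have h2 : Irreducible (C γ⁻¹ * B - C μ) := hμ 1
    rw [← hmul]
    exact (irreducible_isUnit_mul hu).2 h2
  · have h2 : Irreducible (S ^ 2 - C μ) := hμ 2
    rw [one_pow, mul_one]
    exact h2

end Run7.h905.BS
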